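import Mathlib

/-! # Measure preserving maps out of an atomless standard probability space -/

open MeasureTheory ProbabilityTheory Filter Set
open scoped unitInterval Topology

namespace Pool.Agent.R130.Theon

lemma continuous_cdf_of_noAtoms (μ : Measure ℝ) [IsProbabilityMeasure μ] [NullSingletonClass μ] :
    Continuous (cdf μ) := by
  refine continuous_iff_continuousAt.2 fun a => ?_
  rw [(monotone_cdf μ).continuousAt_iff_leftLim_eq_rightLim, StieltjesFunction.rightLim_eq]
  have h1 : (cdf μ).measure {a} = 0 := by rw [measure_cdf]; simp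
  rw [StieltjesFunction.measure_singleton] at h1
  have h2 : Function.leftLim (cdf μ) a ≤ cdf μ a := (monotone_cdf μ).leftLim_le le_rfl
  have h3 := ENNReal.ofReal_eq_zero.1 h1
  linarith

lemma map_cdf_Iic (μ : Measure ℝ) [IsProbabilityMeasure μ] [NullSingletonClass μ] (t : ℝ) (h0 : 0 ≤ t)
    (h1 : t ≤ 1) : μ {x | cdf μ x ≤ t} = ENNReal.ofReal t := by
  have hsurj : ∀ t' : ℝ, 0 < t' → t' < 1 → ∃ s, cdf μ s = t' := by
    intro t' h0' h1'
    have hb : ∃ a, cdf μ a ≤ t' :=
      ((tendsto_cdf_atBot μ).eventually (Iic_mem_nhds h0')).exists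
    have ht : ∃ a, t' ≤ cdf μ a :=
      ((tendsto_cdf_atTop μ).eventually (Ici_mem_nhds h1')).exists
    exact mem_range_of_exists_le_of_exists_ge (continuous_cdf_of_noAtoms μ) hb ht
  have hup : ∀ t' : ℝ, t < t' → t' < 1 → μ {x | cdf μ x ≤ t} ≤ ENNReal.ofReal t' := by
    intro t' ht ht'
    obtain ⟨s, hs⟩ := hsurj t' (h0.trans_lt ht) ht'
    calc μ {x | cdf μ x ≤ t} ≤ μ (Iic s) := by
          refine measure_mono fun x hx => ?_
          by_contra hxs
          have := monotone_cdf μ (le_of_lt (not_le.1 hxs))
          rw [hs] at this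
          exact absurd (lt_of_lt_of_le ht this) (not_lt.2 hx)
      _ = ENNReal.ofReal t' := by rw [← ofReal_cdf, hs]
  rcases eq_or_lt_of_le h1 with rfl | h1
  · have : {x | cdf μ x ≤ 1} = univ := by
      ext x; simp [cdf_le_one μ x]
    rw [this]; simp
  apply le_antisymm
  · refine le_of_forall_gt_imp_ge_of_dense fun c hc => ?_
    by_cases hc1 : c = ⊤
    · simp [hc1]
    have hc2 : t < c.toReal := by
      rwa [ENNReal.ofReal_lt_iff_lt_toReal h0 hc1] at hc
    rcases lt_or_ge c.toReal 1 with h | h
    · have := hup _ hc2 h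
      rwa [ENNReal.ofReal_toReal hc1] at this
    · calc _ ≤ (1 : ENNReal) := prob_le_one
        _ ≤ c := by
          rw [← ENNReal.ofReal_one, ← ENNReal.ofReal_toReal hc1]
          exact ENNReal.ofReal_le_ofReal h
  · rcases eq_or_lt_of_le h0 with rfl | h0
    · simp
    obtain ⟨s, hs⟩ := hsurj t h0 h1
    rw [← hs, ofReal_cdf]
    refine measure_mono fun x hx => ?_
    exact monotone_cdf μ hx

/-- an atomless probability measure on `ℝ` maps onto the uniform law -/
lemma exists_map_unitInterval_real (μ : Measure ℝ) [IsProbabilityMeasure μ] [NullSingletonClass μ] :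
    ∃ f : ℝ → I, Measurable f ∧ μ.map f = volume := by
  refine ⟨fun x => ⟨cdf μ x, cdf_nonneg μ x, cdf_le_one μ x⟩,
    Measurable.subtype_mk (monotone_cdf μ).measurable, ?_⟩
  have hm : Measurable (fun x => (⟨cdf μ x, cdf_nonneg μ x, cdf_le_one μ x⟩ : I)) :=
    Measurable.subtype_mk (monotone_cdf μ).measurable
  haveI : IsProbabilityMeasure (μ.map (fun x => (⟨cdf μ x, cdf_nonneg μ x, cdf_le_one μ x⟩ : I))) :=
    Measure.isProbabilityMeasure_map hm.aemeasurable
  refine Measure.ext_of_Iic _ _ fun t => ?_
  rw [Measure.map_apply hm measurableSet_Iic]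
  have : (fun x => (⟨cdf μ x, cdf_nonneg μ x, cdf_le_one μ x⟩ : I)) ⁻¹' (Iic t) =
      {x | cdf μ x ≤ t.1} := by
    ext x
    simp only [mem_preimage, mem_Iic, mem_setOf_eq]
    exact Subtype.mk_le_mk
  rw [this, map_cdf_Iic μ t.1 t.2.1 t.2.2]
  simp

/-- an atomless standard Borel probability space maps onto every standard Borel probability
space by a measure preserving map -/
theorem exists_map_of_noAtoms {X Y : Type*} [MeasurableSpace X] [StandardBorelSpace X]
    [MeasurableSpace Y] [StandardBorelSpace Y] (μ : Measure X) [IsProbabilityMeasure μ]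
    [NullSingletonClass μ] (ν : Measure Y) [IsProbabilityMeasure ν] :
    ∃ f : X → Y, Measurable f ∧ μ.map f = ν := by
  have hg := measurableEmbedding_embeddingReal X
  haveI : IsProbabilityMeasure (μ.map (embeddingReal X)) :=
    Measure.isProbabilityMeasure_map hg.measurable.aemeasurable
  haveI : NullSingletonClass (μ.map (embeddingReal X)) := by
    constructor
    intro y
    rw [hg.map_apply]
    have : (embeddingReal X ⁻¹' {y}).Subsingleton := by
      intro a ha b hb
      exact hg.injective (by rw [mem_preimage, mem_singleton_iff] at ha hb; rw [ha, hb])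
    exact this.measure_zero μ
  obtain ⟨f, hf, hf'⟩ := exists_map_unitInterval_real (μ.map (embeddingReal X))
  haveI : Nonempty Y := nonempty_of_isProbabilityMeasure ν
  obtain ⟨g, hgm, hg'⟩ := ν.exists_measurable_map_eq
  refine ⟨g ∘ f ∘ embeddingReal X, hgm.comp (hf.comp hg.measurable), ?_⟩
  rw [← Measure.map_map hgm (hf.comp hg.measurable), ← Measure.map_map hf hg.measurable, hf', hg']

/-- pulling back independent identically distributed coordinates along an injective map of
indices -/
lemma infinitePi_map_injective {J J' X : Type*} [MeasurableSpace X] (ν : Measure X)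
    [IsProbabilityMeasure ν] (g : J → J') (hg : Function.Injective g) :
    (Measure.infinitePi (fun _ : J' => ν)).map (fun x j => x (g j)) =
      Measure.infinitePi (fun _ : J => ν) := by
  classical
  have hm : Measurable (fun (x : J' → X) (j : J) => x (g j)) :=
    measurable_pi_lambda _ fun _ => measurable_pi_apply _
  refine Measure.eq_infinitePi _ fun s t ht => ?_
  rw [Measure.map_apply hm (MeasurableSet.pi s.countable_toSet fun i _ => ht i)]
  have : (fun (x : J' → X) (j : J) => x (g j)) ⁻¹' (Set.pi (s : Set J) t) =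
      Set.pi ((s.map ⟨g, hg⟩ : Finset J') : Set J')
        (fun i => if h : ∃ j, g j = i then t h.choose else univ) := by
    ext x
    simp only [Set.mem_preimage, Set.mem_pi, Finset.mem_coe, Finset.mem_map,
      Function.Embedding.coeFn_mk, forall_exists_index, and_imp, forall_apply_eq_imp_iff₂]
    refine forall₂_congr fun j _ => ?_
    have h : ∃ j', g j' = g j := ⟨j, rfl⟩
    rw [dif_pos h, hg h.choose_spec]
  rw [this, Measure.infinitePi_pi, Finset.prod_map]
  · refine Finset.prod_congr rfl fun j _ => ?_
    have h : ∃ j', g j' = g j := ⟨j, rfl⟩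
    simp only [Function.Embedding.coeFn_mk]
    rw [dif_pos h, hg h.choose_spec]
  · intro i _
    split_ifs with h
    · exact ht _
    · exact MeasurableSet.univ

end Pool.Agent.R130.Theon
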