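import Pool.Agent.R130.Theon.Defs
import Pool.Agent.R130.Theon.Spaces

/-! # A generic symmetric function -/

open MeasureTheory ProbabilityTheory Filter Set

namespace Pool.Agent.R130.Theon

/-- the fair coin -/
noncomputable def coin : Measure Bool := (PMF.uniformOfFintype Bool).toMeasure

instance : IsProbabilityMeasure coin := by unfold coin; infer_instance

lemma coin_singleton (b : Bool) : coin {b} = 1 / 2 := by
  unfold coin
  rw [PMF.toMeasure_apply_singleton _ _ (measurableSet_singleton b)]
  simp [PMF.uniformOfFintype_apply]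

lemma coin_map_xor (c : Bool) : coin.map (fun b => xor b c) = coin := by
  have hm : Measurable (fun b => xor b c) := measurable_of_countable _
  refine Measure.ext_of_singleton fun a => ?_
  rw [Measure.map_apply hm (measurableSet_singleton a)]
  have : (fun b => xor b c) ⁻¹' {a} = {xor a c} := by
    ext b
    cases a <;> cases b <;> cases c <;> simp
  rw [this, coin_singleton, coin_singleton]

/-- the law of independent fair bits -/
noncomputable abbrev cw (ι : Type) : Measure (ι → Bool) := Measure.infinitePi (fun _ : ι => coin)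

instance : NullSingletonClass (cw ℕ) := by
  constructor
  intro x
  have h : ∀ n : ℕ, cw ℕ {x} ≤ (1 / 2) ^ n := by
    intro n
    calc cw ℕ {x} ≤ cw ℕ (Set.pi (Finset.range n : Set ℕ) (fun i => {x i})) := by
          refine measure_mono fun y hy i _ => ?_
          rw [mem_singleton_iff] at hy
          rw [hy]; exact rfl
      _ = (1 / 2) ^ n := by
          rw [Measure.infinitePi_pi _ (fun i _ => measurableSet_singleton _)]
          simp [coin_singleton]
  have h2 : Tendsto (fun n : ℕ => ((1 / 2 : ENNReal)) ^ n) atTop (nhds 0) :=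
    ENNReal.tendsto_pow_atTop_nhds_zero_of_lt_one (by
      rw [one_div]; exact ENNReal.inv_lt_one.2 (by norm_num))
  exact le_antisymm (ge_of_tendsto' h2 h) bot_le

/-- the first `n` bits -/
def trunc (n : ℕ) (u : ℕ → Bool) : List Bool := List.ofFn (fun i : Fin n => u i)

lemma trunc_length (n : ℕ) (u : ℕ → Bool) : (trunc n u).length = n := by simp [trunc]

lemma trunc_eventually_ne {u v : ℕ → Bool} (h : u ≠ v) :
    ∀ᶠ n in atTop, trunc n u ≠ trunc n v := by
  obtain ⟨k, hk⟩ : ∃ k, u k ≠ v k := by
    by_contra hc
    push Not at hc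
    exact h (funext hc)
  refine eventually_atTop.2 ⟨k + 1, fun n hn he => hk ?_⟩
  unfold trunc at he
  have := List.ofFn_injective he
  exact congrFun this ⟨k, by omega⟩

/-- index set of the random bits -/
abbrev TI : Type := ℕ × Finset (List Bool)

/-- the bits attached to a finite set of vertices with labels `u` -/
def bits {V : Type} (τ : TI → Bool) (u : V → (ℕ → Bool)) (A : Idx V) : ℕ → Bool :=
  fun n => τ (n, A.1.image (fun i => trunc n (u i)))

lemma bits_map {V W : Type} (τ : TI → Bool) (α : V ↪ W) (u : W → (ℕ → Bool)) (A : Idx V) :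
    bits τ u (Idx.map α A) = bits τ (u ∘ α) A := by
  classical
  funext n
  simp only [bits, Idx.map, Finset.map_eq_image, Finset.image_image]
  rfl

/-- For labels that are pairwise different, the `X`-valued variables attached to finitely many
finite sets have an absolutely continuous joint law. -/
lemma null_preimage_bits {X : Type} [MeasurableSpace X] (μ : Measure X) [IsProbabilityMeasure μ]
    (q : (ℕ → Bool) → X) (hq : Measurable q) (hq' : (cw ℕ).map q = μ)
    (u : ℕ → (ℕ → Bool)) (hu : Function.Injective u) (J : Finset (Idx ℕ))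
    (E : Set (J → X)) (hE : MeasurableSet E) (hE0 : Measure.infinitePi (fun _ : J => μ) E = 0) :
    cw TI {τ | (fun A : J => q (bits τ u A.1)) ∈ E} = 0 := by
  classical
  -- all vertices involved
  set V : Finset ℕ := J.biUnion (fun A => A.1) with hV
  have hev : ∀ᶠ n in atTop, ∀ i ∈ V, ∀ j ∈ V, trunc n (u i) = trunc n (u j) → i = j := by
    rw [Filter.eventually_all_finset]
    intro i _
    rw [Filter.eventually_all_finset]
    intro j _
    by_cases hij : i = j
    · exact Eventually.of_forall fun _ _ => hij
    · filter_upwards [trunc_eventually_ne (fun h => hij (hu h))] with n hn h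
      exact absurd h hn
  obtain ⟨N, hN⟩ := eventually_atTop.1 hev
  have himg : ∀ n ≥ N, ∀ A ∈ J, ∀ A' ∈ J,
      A.1.image (fun i => trunc n (u i)) = A'.1.image (fun i => trunc n (u i)) → A = A' := by
    intro n hn A hA A' hA' h
    have key : ∀ A ∈ J, ∀ A' ∈ J,
        A.1.image (fun i => trunc n (u i)) = A'.1.image (fun i => trunc n (u i)) →
          A.1 ⊆ A'.1 := by
      intro A hA A' hA' h i hi
      have h1 : trunc n (u i) ∈ A'.1.image (fun i => trunc n (u i)) := by
        rw [← h]; exact Finset.mem_image_of_mem _ hi
      obtain ⟨j, hj, hij⟩ := Finset.mem_image.1 h1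
      have := hN n hn j (Finset.mem_biUnion.2 ⟨A', hA', hj⟩) i
        (Finset.mem_biUnion.2 ⟨A, hA, hi⟩) hij
      rw [← this]; exact hj
    exact Subtype.ext ((key A hA A' hA' h).antisymm (key A' hA' A hA h.symm))
  let enc : Idx ℕ → ℕ := fun A => Encodable.encode A.1
  have henc : Function.Injective enc := fun A B h => Subtype.ext (Encodable.encode_injective h)
  let g : J × ℕ → TI := fun c =>
    if N ≤ c.2 then (c.2, c.1.1.1.image (fun i => trunc c.2 (u i)))
    else (c.2, {List.replicate (c.2 + 1 + enc c.1.1) false})
  have hg : Function.Injective g := by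
    rintro ⟨A, n⟩ ⟨A', n'⟩ h
    have h1 : n = n' := by
      have := congrArg Prod.fst h
      simp only [g] at this
      split_ifs at this <;> exact this
    subst h1
    by_cases hn : N ≤ n
    · simp only [g, hn, if_true, Prod.mk.injEq, true_and] at h
      have := himg n hn A.1 A.2 A'.1 A'.2 h
      rw [Subtype.ext this]
    · simp only [g, hn, if_false, Prod.mk.injEq, true_and, Finset.singleton_inj] at h
      have := congrArg List.length h
      simp only [List.length_replicate] at this
      have : enc A.1 = enc A'.1 := by omega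
      rw [Subtype.ext (henc this)]
  -- the modified bits
  let b' : (TI → Bool) → (J × ℕ → Bool) := fun τ c => τ (g c)
  have hb'm : Measurable b' := measurable_pi_lambda _ fun _ => measurable_pi_apply _
  have hb' : (cw TI).map b' = cw (J × ℕ) := infinitePi_map_injective coin g hg
  let Q : (J × ℕ → Bool) → (J → X) := fun x A => q (fun n => x (A, n))
  have hQm : Measurable Q := measurable_pi_lambda _ fun A =>
    hq.comp (measurable_pi_lambda _ fun n => measurable_pi_apply _)
  have hQ : (cw (J × ℕ)).map Q = Measure.infinitePi (fun _ : J => μ) := by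
    have h1 : Q = (fun (x : J → (ℕ → Bool)) (A : J) => q (x A)) ∘
        (MeasurableEquiv.curry J ℕ Bool) := rfl
    rw [h1, ← Measure.map_map _ (MeasurableEquiv.measurable _),
      Measure.infinitePi_map_curry (fun _ _ => coin)]
    · have h2 := Measure.infinitePi_map_pi (μ := fun _ : J => cw ℕ) (f := fun _ : J => q)
        (fun _ => hq)
      rw [h2]
      simp only [hq']
    · exact measurable_pi_lambda _ fun A => hq.comp (measurable_pi_apply A)
  let E2 : Set (J × ℕ → Bool) := Q ⁻¹' E
  have hE2 : cw (J × ℕ) E2 = 0 := by
    rw [← Measure.map_apply hQm hE, hQ]; exact hE0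
  let md : (J × Fin N → Bool) → (J × ℕ → Bool) → (J × ℕ → Bool) := fun w x c =>
    xor (x c) (if h : c.2 < N then w (c.1, ⟨c.2, h⟩) else false)
  have hmdm : ∀ w, Measurable (md w) := fun w => measurable_pi_lambda _ fun c =>
    (measurable_of_countable (fun b => xor b (if h : c.2 < N then w (c.1, ⟨c.2, h⟩) else
      false))).comp (measurable_pi_apply c)
  have hmd : ∀ w, (cw (J × ℕ)).map (md w) = cw (J × ℕ) := by
    intro w
    have h2 := Measure.infinitePi_map_pi (μ := fun _ : J × ℕ => coin)
      (f := fun c : J × ℕ => fun b => xor b (if h : c.2 < N then w (c.1, ⟨c.2, h⟩) else false))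
      (fun _ => measurable_of_countable _)
    simp only [coin_map_xor] at h2
    exact h2
  have hE3 : cw (J × ℕ) (⋃ w, md w ⁻¹' E2) = 0 := by
    rw [measure_iUnion_null_iff]
    intro w
    rw [← Measure.map_apply (hmdm w) (hQm hE), hmd w]
    exact hE2
  have hsub : {τ | (fun A : J => q (bits τ u A.1)) ∈ E} ⊆ b' ⁻¹' (⋃ w, md w ⁻¹' E2) := by
    intro τ hτ
    rw [mem_preimage, mem_iUnion]
    refine ⟨fun c => xor (b' τ (c.1, (c.2 : ℕ))) (bits τ u c.1.1 (c.2 : ℕ)), ?_⟩
    have : md (fun c => xor (b' τ (c.1, (c.2 : ℕ))) (bits τ u c.1.1 (c.2 : ℕ))) (b' τ) =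
        fun c => bits τ u c.1.1 c.2 := by
      funext c
      by_cases hc : c.2 < N
      · simp only [md, hc, dif_pos]
        cases b' τ c <;> simp
      · have hc' : N ≤ c.2 := not_lt.1 hc
        simp only [md, hc, dif_neg, not_false_eq_true, Bool.xor_false, b', g, hc', if_true]
        rfl
    rw [mem_preimage, this]
    exact hτ
  refine measure_mono_null hsub ?_
  have hms : MeasurableSet (⋃ w, md w ⁻¹' E2) :=
    MeasurableSet.iUnion fun w => hmdm w (hQm hE)
  rw [← Measure.map_apply hb'm hms, hb']
  exact hE3

end Pool.Agent.R130.Theon
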