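import Pool.Agent.R130.Theon.Models
import Pool.Agent.R130.Theon.Coin

/-! # Weak compatibility implies compatibility when level 1 is available -/

open MeasureTheory ProbabilityTheory Filter Set

namespace Pool.Agent.R130.Theon

section split

variable {J X : Type} [MeasurableSpace X]

/-- glue families on `P` and on the complement -/
noncomputable def glue (P : J → Prop) (z : ({j // P j} → X) × ({j // ¬ P j} → X)) : J → X :=
  open Classical in fun j => if h : P j then z.1 ⟨j, h⟩ else z.2 ⟨j, h⟩

lemma measurable_glue (P : J → Prop) :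
    Measurable (glue P : ({j // P j} → X) × ({j // ¬ P j} → X) → (J → X)) := by
  refine measurable_pi_lambda _ fun j => ?_
  by_cases h : P j
  · simp only [glue, h, dif_pos]
    exact (measurable_pi_apply _).comp measurable_fst
  · simp only [glue, h, dif_neg, not_false_eq_true]
    exact (measurable_pi_apply _).comp measurable_snd

lemma glue_pos {P : J → Prop} (z : ({j // P j} → X) × ({j // ¬ P j} → X)) {j : J} (h : P j) :
    glue P z j = z.1 ⟨j, h⟩ := by simp [glue, h]

lemma glue_neg {P : J → Prop} (z : ({j // P j} → X) × ({j // ¬ P j} → X)) {j : J} (h : ¬ P j) :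
    glue P z j = z.2 ⟨j, h⟩ := by simp [glue, h]

lemma map_glue (ν : Measure X) [IsProbabilityMeasure ν] (P : J → Prop) :
    ((Measure.infinitePi (fun _ : {j // P j} => ν)).prod
      (Measure.infinitePi (fun _ : {j // ¬ P j} => ν))).map (glue P) =
      Measure.infinitePi (fun _ : J => ν) := by
  classical
  refine Measure.eq_infinitePi _ fun s t ht => ?_
  rw [Measure.map_apply (measurable_glue P) (MeasurableSet.pi s.countable_toSet fun i _ => ht i)]
  have : glue P ⁻¹' (Set.pi (s : Set J) t) =
      (Set.pi ((s.subtype P : Finset _) : Set {j // P j}) (fun j => t j.1)) ×ˢ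
      (Set.pi ((s.subtype (fun j => ¬ P j) : Finset _) : Set {j // ¬ P j}) (fun j => t j.1)) := by
    ext z
    simp only [mem_preimage, Set.mem_pi, Finset.mem_coe, mem_prod, Finset.mem_subtype]
    constructor
    · intro h
      refine ⟨fun j hj => ?_, fun j hj => ?_⟩
      · have := h j.1 hj
        rwa [glue_pos z j.2] at this
      · have := h j.1 hj
        rwa [glue_neg z j.2] at this
    · rintro ⟨h1, h2⟩ j hj
      by_cases h : P j
      · rw [glue_pos z h]; exact h1 ⟨j, h⟩ hj
      · rw [glue_neg z h]; exact h2 ⟨j, h⟩ hj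
  rw [this, Measure.prod_prod, Measure.infinitePi_pi _ (fun _ _ => ht _),
    Measure.infinitePi_pi _ (fun _ _ => ht _)]
  rw [Finset.prod_subtype_eq_prod_filter (f := fun j => ν (t j)),
    Finset.prod_subtype_eq_prod_filter (f := fun j => ν (t j))]
  exact Finset.prod_filter_mul_prod_filter_not s P _

end split

variable {L : FirstOrder.Language.{0, 0}} {X : Type} [MeasurableSpace X]

/-- cylinder events -/
def cyl (L : FirstOrder.Language.{0, 0})
    (s : Finset (Σ p : (Σ n, L.Relations n), (Fin p.1 → ℕ))) : Set (Str L) :=
  {K | ∀ c ∈ s, K c.1 c.2}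

lemma measurableSet_cyl (s : Finset (Σ p : (Σ n, L.Relations n), (Fin p.1 → ℕ))) :
    MeasurableSet (cyl L s) := by
  have : cyl L s = ⋂ c ∈ s, {K | K c.1 c.2} := by
    ext K; simp [cyl]
  rw [this]
  exact Finset.measurableSet_biInter _ fun c _ =>
    measurableSet_setOfPred.2 ((measurable_pi_apply _).comp (measurable_pi_apply _))

lemma ext_str (φ ψ : Measure (Str L)) [IsProbabilityMeasure φ] [IsProbabilityMeasure ψ]
    (h : ∀ s, φ (cyl L s) = ψ (cyl L s)) : φ = ψ := by
  classical
  have hgen : (inferInstance : MeasurableSpace (Str L)) =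
      MeasurableSpace.generateFrom (Set.range (cyl L)) := by
    apply le_antisymm
    · have : @Measurable (Str L) (Str L) (MeasurableSpace.generateFrom (Set.range (cyl L)))
          MeasurableSpace.pi id := by
        refine @measurable_pi_lambda _ _ _ (MeasurableSpace.generateFrom (Set.range (cyl L)))
          _ _ fun p => ?_
        refine @measurable_pi_lambda _ _ _ (MeasurableSpace.generateFrom (Set.range (cyl L)))
          _ _ fun a => ?_
        refine (@measurableSet_setOfPred _ (MeasurableSpace.generateFrom (Set.range (cyl L)))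
          _).1 ?_
        apply MeasurableSpace.measurableSet_generateFrom
        refine ⟨{⟨p, a⟩}, ?_⟩
        ext K
        simp [cyl]
      intro s hs
      exact this hs
    · apply MeasurableSpace.generateFrom_le
      rintro _ ⟨s, rfl⟩
      exact measurableSet_cyl s
  refine MeasureTheory.ext_of_generate_finite (Set.range (cyl L)) hgen ?_ ?_ (by simp)
  · rintro _ ⟨s, rfl⟩ _ ⟨t, rfl⟩ _
    refine ⟨s ∪ t, ?_⟩
    ext K
    simp only [cyl, Finset.mem_union, mem_inter_iff, Set.mem_ofPred_eq]
    constructor
    · intro h; exact ⟨fun c hc => h c (Or.inl hc), fun c hc => h c (Or.inr hc)⟩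
    · rintro ⟨h1, h2⟩ c (hc | hc)
      · exact h1 c hc
      · exact h2 c hc
  · rintro _ ⟨s, rfl⟩
    exact h s

end Pool.Agent.R130.Theon
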