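import Pool.Agent.R130.Theon.Compat1

/-! # Weak compatibility implies compatibility when level 1 is available -/

open MeasureTheory ProbabilityTheory Filter Set

namespace Pool.Agent.R130.Theon

variable {L : FirstOrder.Language.{0, 0}} {X : Type} [MeasurableSpace X]

lemma measurable_bits {V Ω : Type} [MeasurableSpace Ω] (u : Ω → V → ℕ → Bool)
    (hu : ∀ i n, Measurable fun ω => u ω i n) (A : Idx V) :
    Measurable (fun p : Ω × (TI → Bool) => bits p.2 (u p.1) A) := by
  classical
  refine measurable_pi_lambda _ fun n => ?_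
  let h : Ω → (A.1 → Fin n → Bool) := fun ω i k => u ω i.1 k
  have hh : Measurable h := measurable_pi_lambda _ fun i => measurable_pi_lambda _ fun k => hu _ _
  let G : (A.1 → Fin n → Bool) → Finset (List Bool) := fun w =>
    A.1.attach.image (fun i => List.ofFn (w i))
  let f : (A.1 → Fin n → Bool) × (TI → Bool) → Bool := fun p => p.2 (n, G p.1)
  have hf : Measurable f := measurable_from_prod_countable_right fun w => measurable_pi_apply (n, G w)
  have : (fun p : Ω × (TI → Bool) => bits p.2 (u p.1) A n) =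
      f ∘ (fun p : Ω × (TI → Bool) => (h p.1, p.2)) := by
    funext p
    have hG : G (h p.1) = A.1.image (fun i => trunc n (u p.1 i)) := by
      ext l
      simp only [G, h, Finset.mem_image, Finset.mem_attach, true_and, Subtype.exists, trunc]
      constructor
      · rintro ⟨i, hi, rfl⟩; exact ⟨i, hi, rfl⟩
      · rintro ⟨i, hi, rfl⟩; exact ⟨i, hi, rfl⟩
    simp only [bits, f, Function.comp, hG]
  rw [this]
  exact hf.comp ((hh.comp measurable_fst).prodMk measurable_snd)

lemma infinitePi_apply_glue {J : Type} (ν : Measure X) [IsProbabilityMeasure ν] (P : J → Prop)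
    {T : Set (J → X)} (hT : MeasurableSet T) :
    Measure.infinitePi (fun _ : J => ν) T =
      ∫⁻ z, Measure.infinitePi (fun _ : {j // ¬ P j} => ν) {y | glue P (z, y) ∈ T}
        ∂(Measure.infinitePi (fun _ : {j // P j} => ν)) := by
  conv_lhs => rw [← map_glue ν P]
  rw [Measure.map_apply (measurable_glue _) hT, Measure.prod_apply ((measurable_glue _) hT)]
  rfl

/-- The conditional probability of `S` given the coordinates with level in `B`. -/
noncomputable def condP (N : EucStr L X) (μ : Measure X) [IsProbabilityMeasure μ] (B : Set ℕ+)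
    (S : Set (Str L)) (z : {A : Idx ℕ // lev A ∈ B} → X) : ENNReal :=
  Measure.infinitePi (fun _ : {A : Idx ℕ // ¬ lev A ∈ B} => μ)
    {y | N.arr (glue (fun A : Idx ℕ => lev A ∈ B) (z, y)) ∈ S}

lemma measurable_condP (N : EucStr L X) (μ : Measure X) [IsProbabilityMeasure μ] (B : Set ℕ+)
    {S : Set (Str L)} (hS : MeasurableSet S) : Measurable (condP N μ B S) := by
  have hm : MeasurableSet {p : ({A : Idx ℕ // lev A ∈ B} → X) × ({A : Idx ℕ // ¬ lev A ∈ B} → X) |
      N.arr (glue (fun A : Idx ℕ => lev A ∈ B) p) ∈ S} :=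
    (N.measurable_arr.comp (measurable_glue _)) hS
  exact measurable_measure_prodMk_left hm

lemma condP_ae_eq (N : EucStr L X) (μ : Measure X) [IsProbabilityMeasure μ] (B : Set ℕ+)
    (h : IndepFun N.arr (fun (θ : Idx ℕ → X) (A : {A : Idx ℕ // lev A ∈ B}) => θ A) (iid μ))
    {S : Set (Str L)} (hS : MeasurableSet S) :
    ∀ᵐ z ∂(Measure.infinitePi (fun _ : {A : Idx ℕ // lev A ∈ B} => μ)),
      condP N μ B S z = N.law μ S := by
  refine ae_eq_of_forall_setLIntegral_eq_of_sigmaFinite (measurable_condP N μ B hS)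
    measurable_const ?_
  intro D hD _
  have hrm : Measurable (fun (θ : Idx ℕ → X) (A : {A : Idx ℕ // lev A ∈ B}) => θ A) :=
    measurable_pi_lambda _ fun _ => measurable_pi_apply _
  have hres : (iid μ).map (fun (θ : Idx ℕ → X) (A : {A : Idx ℕ // lev A ∈ B}) => θ A) =
      Measure.infinitePi (fun _ : {A : Idx ℕ // lev A ∈ B} => μ) :=
    infinitePi_map_injective μ (fun A : {A : Idx ℕ // lev A ∈ B} => A.1) Subtype.val_injective
  -- left side
  have h1 : ∫⁻ z in D, condP N μ B S z
      ∂(Measure.infinitePi (fun _ : {A : Idx ℕ // lev A ∈ B} => μ)) =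
      (iid μ) (N.arr ⁻¹' S ∩
        (fun (θ : Idx ℕ → X) (A : {A : Idx ℕ // lev A ∈ B}) => θ A) ⁻¹' D) := by
    rw [iid, infinitePi_apply_glue μ (fun A : Idx ℕ => lev A ∈ B)
      ((N.measurable_arr hS).inter (hrm hD)), ← lintegral_indicator hD]
    refine lintegral_congr fun z => ?_
    have hz' : ∀ y, (fun A : {A : Idx ℕ // lev A ∈ B} =>
        glue (fun A : Idx ℕ => lev A ∈ B) (z, y) A.1) = z := by
      intro y
      funext A
      rw [glue_pos (P := fun A : Idx ℕ => lev A ∈ B) _ A.2]
    by_cases hz : z ∈ D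
    · rw [indicator_of_mem hz]
      unfold condP
      congr 1
      ext y
      simp only [Set.mem_ofPred_eq, mem_preimage, mem_inter_iff, hz', hz, and_true]
    · rw [indicator_of_notMem hz]
      have : {y | glue (fun A : Idx ℕ => lev A ∈ B) (z, y) ∈ N.arr ⁻¹' S ∩
          (fun (θ : Idx ℕ → X) (A : {A : Idx ℕ // lev A ∈ B}) => θ A) ⁻¹' D} = ∅ := by
        ext y
        simp only [Set.mem_ofPred_eq, mem_preimage, mem_inter_iff, hz', hz, and_false,
          mem_empty_iff_false]
      rw [this, measure_empty]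
  rw [h1, h.measure_inter_preimage_eq_mul _ _ hS hD, ← Measure.map_apply hrm hD, hres,
    ← Measure.map_apply N.measurable_arr hS, setLIntegral_const]
  rfl

/-- the vertices occurring in a cylinder -/
def verts (s : Finset (Σ p : (Σ n, L.Relations n), (Fin p.1 → ℕ))) : Finset ℕ :=
  s.biUnion (fun c => Finset.univ.image c.2)

lemma arr_cyl_congr (N : EucStr L X) (s : Finset (Σ p : (Σ n, L.Relations n), (Fin p.1 → ℕ)))
    (θ θ' : Idx ℕ → X) (h : ∀ A : Idx ℕ, A.1 ⊆ verts s → θ A = θ' A) :
    N.arr θ ∈ cyl L s ↔ N.arr θ' ∈ cyl L s := by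
  simp only [cyl, Set.mem_ofPred_eq]
  refine forall₂_congr fun c hc => ?_
  simp only [EucStr.arr]
  refine exists_congr fun hinj => ?_
  have : (fun A : Idx (Fin c.1.1) => θ (Idx.map ⟨c.2, hinj⟩ A)) =
      fun A : Idx (Fin c.1.1) => θ' (Idx.map ⟨c.2, hinj⟩ A) := by
    funext A
    apply h
    intro x hx
    simp only [Idx.map, Finset.mem_map, Function.Embedding.coeFn_mk] at hx
    obtain ⟨i, _, rfl⟩ := hx
    exact Finset.mem_biUnion.2 ⟨c, hc, Finset.mem_image_of_mem _ (Finset.mem_univ _)⟩
  rw [this]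

/-- For pairwise different labels, the symmetric function gives almost surely generic values. -/
lemma condP_bits (N : EucStr L X) (μ : Measure X) [IsProbabilityMeasure μ] (B : Set ℕ+)
    (h : IndepFun N.arr (fun (θ : Idx ℕ → X) (A : {A : Idx ℕ // lev A ∈ B}) => θ A) (iid μ))
    (s : Finset (Σ p : (Σ n, L.Relations n), (Fin p.1 → ℕ)))
    (q : (ℕ → Bool) → X) (hq : Measurable q) (hq' : (cw ℕ).map q = μ)
    (u : ℕ → (ℕ → Bool)) (hu : Function.Injective u) :
    ∀ᵐ τ ∂(cw TI), condP N μ B (cyl L s)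
      (fun A : {A : Idx ℕ // lev A ∈ B} => q (bits τ u A.1)) = N.law μ (cyl L s) := by
  classical
  haveI : Nonempty X := nonempty_of_isProbabilityMeasure μ
  let x₀ : X := Classical.arbitrary X
  let J : Finset (Idx ℕ) :=
    ((verts s).powerset.subtype (fun A => A.Nonempty)).filter (fun A => lev A ∈ B)
  have hJ : ∀ A : Idx ℕ, A ∈ J ↔ A.1 ⊆ verts s ∧ lev A ∈ B := by
    intro A; simp [J]
  let ex : (J → X) → ({A : Idx ℕ // lev A ∈ B} → X) := fun x A =>
    if hA : A.1 ∈ J then x ⟨A.1, hA⟩ else x₀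
  have hex : Measurable ex := by
    refine measurable_pi_lambda _ fun A => ?_
    by_cases hA : A.1 ∈ J
    · simp only [ex, hA, dif_pos]; exact measurable_pi_apply _
    · simp only [ex, hA, dif_neg, not_false_eq_true]; exact measurable_const
  let rs : ({A : Idx ℕ // lev A ∈ B} → X) → (J → X) := fun z A => z ⟨A.1, ((hJ A.1).1 A.2).2⟩
  have hrs : Measurable rs := measurable_pi_lambda _ fun _ => measurable_pi_apply _
  have hkey : ∀ z, condP N μ B (cyl L s) (ex (rs z)) = condP N μ B (cyl L s) z := by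
    intro z
    unfold condP
    congr 1
    ext y
    simp only [Set.mem_ofPred_eq]
    refine arr_cyl_congr N s _ _ fun A hA => ?_
    by_cases hB : lev A ∈ B
    · rw [glue_pos (P := fun A : Idx ℕ => lev A ∈ B) _ hB,
        glue_pos (P := fun A : Idx ℕ => lev A ∈ B) _ hB]
      have : A ∈ J := (hJ A).2 ⟨hA, hB⟩
      simp only [ex, this, dif_pos, rs]
    · rw [glue_neg (P := fun A : Idx ℕ => lev A ∈ B) _ hB,
        glue_neg (P := fun A : Idx ℕ => lev A ∈ B) _ hB]
  let E : Set (J → X) := {x | condP N μ B (cyl L s) (ex x) = N.law μ (cyl L s)}ᶜ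
  have hE : MeasurableSet E :=
    (measurableSet_eq_fun ((measurable_condP N μ B (measurableSet_cyl s)).comp hex)
      measurable_const).compl
  have hE0 : Measure.infinitePi (fun _ : J => μ) E = 0 := by
    have h1 : (Measure.infinitePi (fun _ : {A : Idx ℕ // lev A ∈ B} => μ)).map rs =
        Measure.infinitePi (fun _ : J => μ) :=
      infinitePi_map_injective μ
        (fun A : J => (⟨A.1, ((hJ A.1).1 A.2).2⟩ : {A : Idx ℕ // lev A ∈ B}))
        (fun A A' hAA => Subtype.ext (by simpa using hAA))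
    rw [← h1, Measure.map_apply hrs hE]
    have h2 := condP_ae_eq N μ B h (measurableSet_cyl s)
    rw [ae_iff] at h2
    convert h2 using 2
    ext z
    simp only [E, mem_preimage, mem_compl_iff, Set.mem_ofPred_eq, hkey]
  have h3 := null_preimage_bits μ q hq hq' u hu J E hE hE0
  rw [ae_iff]
  convert h3 using 2
  ext τ
  simp only [E, mem_compl_iff, Set.mem_ofPred_eq]
  rw [← hkey (fun A : {A : Idx ℕ // lev A ∈ B} => q (bits τ u A.1))]

end Pool.Agent.R130.Theon
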