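import Pool.Agent.R130.Theon.Compat2

/-! # Weak compatibility implies compatibility when level 1 is available -/

open MeasureTheory ProbabilityTheory Filter Set

namespace Pool.Agent.R130.Theon

variable {L : FirstOrder.Language.{0, 0}} {X : Type} [MeasurableSpace X]

/-- singletons as indices -/
def sing {V : Type} (i : V) : Idx V := ⟨{i}, Finset.singleton_nonempty i⟩

lemma lev_sing {V : Type} (i : V) : lev (sing i) = 1 := by
  apply PNat.eq; simp [lev, sing]

lemma lev_map {V W : Type} (α : V ↪ W) (A : Idx V) : lev (Idx.map α A) = lev A := by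
  apply PNat.eq; simp [lev, Idx.map]

lemma map_sing {V W : Type} (α : V ↪ W) (i : V) : Idx.map α (sing i) = sing (α i) := by
  apply Subtype.ext; simp [sing, Idx.map]

/-- The modified coordinates. -/
noncomputable def Psi (B : Set ℕ+) (q : (ℕ → Bool) → X) (q' : X → (ℕ → Bool))
    (P : X → (Bool → X)) (τ : TI → Bool) {V : Type} (x : Idx V → X) : Idx V → X :=
  open Classical in fun A =>
    if lev A ∈ B then q (bits τ (fun i => q' (P (x (sing i)) false)) A) else P (x A) true

lemma Psi_map (B : Set ℕ+) (q : (ℕ → Bool) → X) (q' : X → (ℕ → Bool))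
    (P : X → (Bool → X)) (τ : TI → Bool) {V W : Type} (α : V ↪ W) (x : Idx W → X) (A : Idx V) :
    Psi B q q' P τ x (Idx.map α A) = Psi B q q' P τ (fun A => x (Idx.map α A)) A := by
  unfold Psi
  rw [lev_map, bits_map]
  simp only [map_sing]
  rfl

lemma measurable_Psi (B : Set ℕ+) (q : (ℕ → Bool) → X) (hq : Measurable q)
    (q' : X → (ℕ → Bool)) (hq' : Measurable q')
    (P : X → (Bool → X)) (hP : Measurable P) (τ : TI → Bool) {V : Type} :
    Measurable (Psi B q q' P τ : (Idx V → X) → (Idx V → X)) := by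
  classical
  refine measurable_pi_lambda _ fun A => ?_
  by_cases hA : lev A ∈ B
  · simp only [Psi, hA, if_true]
    have h1 := measurable_bits (Ω := Idx V → X) (V := V)
      (fun x i => q' (P (x (sing i)) false))
      (fun i n => (measurable_pi_apply n).comp (hq'.comp ((measurable_pi_apply false).comp
        (hP.comp (measurable_pi_apply _))))) A
    exact hq.comp (h1.comp (measurable_id.prodMk measurable_const))
  · simp only [Psi, hA, if_false]
    exact (measurable_pi_apply true).comp (hP.comp (measurable_pi_apply _))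

lemma Psi_congr {B : Set ℕ+} (hB : 1 ∉ B) (q : (ℕ → Bool) → X) (q' : X → (ℕ → Bool))
    (P : X → (Bool → X)) (τ : TI → Bool) {V : Type} (x y : Idx V → X)
    (h : ∀ A, lev A ∈ Bᶜ → x A = y A) : Psi B q q' P τ x = Psi B q q' P τ y := by
  classical
  funext A
  by_cases hA : lev A ∈ B
  · simp only [Psi, hA, if_true]
    have : ∀ i, x (sing i) = y (sing i) := fun i => h _ (by rw [lev_sing]; exact hB)
    simp only [this]
  · simp only [Psi, hA, if_false]
    rw [h A hA]

/-- The index set of doubled coordinates. -/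
abbrev R2 (B : Set ℕ+) (c : Idx ℕ × Bool) : Prop := c.2 = false ∨ lev c.1 ∈ B

/-- modified coordinates from doubled coordinates -/
noncomputable def Phi (B : Set ℕ+) (q : (ℕ → Bool) → X) (q' : X → (ℕ → Bool))
    (τ : TI → Bool) (ω : Idx ℕ × Bool → X) : Idx ℕ → X :=
  open Classical in fun A =>
    if lev A ∈ B then q (bits τ (fun i => q' (ω (sing i, false))) A) else ω (A, true)

/-- two different independent coordinates have different labels -/
lemma ae_ne_of_iid {J : Type} {Y : Type} [MeasurableSpace Y] [MeasurableEq Y] (μ : Measure X)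
    [IsProbabilityMeasure μ] (f : X → Y) (hf : Measurable f)
    (hf' : NullSingletonClass (μ.map f)) [MeasurableSingletonClass Y] {a b : J} (hab : a ≠ b) :
    ∀ᵐ v ∂(Measure.infinitePi (fun _ : J => μ)), f (v a) ≠ f (v b) := by
  have h1 := Measure.infinitePi_map_eval_prod (P := fun _ : J => μ) hab
  have hm : MeasurableSet {p : X × X | f p.1 ≠ f p.2} :=
    (measurableSet_eq_fun (hf.comp measurable_fst) (hf.comp measurable_snd)).compl
  have h2 : ∀ᵐ p ∂(μ.prod μ), f p.1 ≠ f p.2 := by
    rw [Measure.ae_prod_iff_ae_ae hm]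
    refine Eventually.of_forall fun x => ?_
    rw [ae_iff]
    have : {y | ¬ f x ≠ f y} = f ⁻¹' {f x} := by
      ext y
      simp only [ne_eq, not_not, Set.mem_ofPred_eq, mem_preimage, mem_singleton_iff, eq_comm]
    rw [this, ← Measure.map_apply hf (measurableSet_singleton _)]
    exact hf'.measure_singleton _
  rw [← h1] at h2
  have h3 := ae_of_ae_map (by fun_prop) h2
  exact h3

theorem compat_of_weak [L.IsRelational] [Finite (Σ n, L.Relations n)] [StandardBorelSpace X]
    (μ : Measure X) [IsProbabilityMeasure μ] [NullSingletonClass μ] (T : L.Theory)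
    (B : Set ℕ+) (hB : 1 ∉ B) (N : EucStr L X) (hN : N.IsTon μ T)
    (h : IndepFun N.arr (fun (θ : Idx ℕ → X) (A : {A : Idx ℕ // lev A ∈ B}) => θ A) (iid μ)) :
    ∃ N' : EucStr L X, N'.IsTon μ T ∧ N'.law μ = N.law μ ∧ ∀ p, CompatPeon Bᶜ (N'.peon p) := by
  classical
  obtain ⟨q, hq, hqm⟩ := exists_map_of_noAtoms (cw ℕ) μ
  obtain ⟨q', hq', hqm'⟩ := exists_map_of_noAtoms μ (cw ℕ)
  obtain ⟨P, hP, hPm⟩ := exists_map_of_noAtoms μ (Measure.infinitePi (fun _ : Bool => μ))
  let κ₂ := Measure.infinitePi (fun _ : {c : Idx ℕ × Bool // R2 B c} => μ)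
  let ν₂ := Measure.infinitePi (fun _ : {A : Idx ℕ // ¬ lev A ∈ B} => μ)
  -- labels
  let U : ({c : Idx ℕ × Bool // R2 B c} → X) → ℕ → (ℕ → Bool) := fun v i =>
    q' (v ⟨(sing i, false), Or.inl rfl⟩)
  have hU : ∀ i, Measurable (fun v => U v i) := fun i => hq'.comp (measurable_pi_apply _)
  have hUinj : ∀ᵐ v ∂κ₂, Function.Injective (U v) := by
    have h1 : ∀ i j : ℕ, i ≠ j → ∀ᵐ v ∂κ₂, U v i ≠ U v j := by
      intro i j hij
      refine ae_ne_of_iid μ q' hq' (by rw [hqm']; infer_instance) ?_
      intro he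
      have := congrArg (fun c : {c : Idx ℕ × Bool // R2 B c} => c.1.1.1) he
      simp only [sing, Finset.singleton_inj] at this
      exact hij this
    have h2 : ∀ᵐ v ∂κ₂, ∀ i j : ℕ, i ≠ j → U v i ≠ U v j := by
      rw [ae_all_iff]; intro i
      rw [ae_all_iff]; intro j
      by_cases hij : i = j
      · exact Eventually.of_forall fun v hne => absurd hij hne
      · filter_upwards [h1 i j hij] with v hv _ using hv
    filter_upwards [h2] with v hv i j hij
    by_contra hne
    exact hv i j hne hij
  -- the substituted coordinates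
  let Q : ({c : Idx ℕ × Bool // R2 B c} → X) → (TI → Bool) → ({A : Idx ℕ // lev A ∈ B} → X) :=
    fun v τ A => q (bits τ (U v) A.1)
  have hQ : Measurable (fun p : ({c : Idx ℕ × Bool // R2 B c} → X) × (TI → Bool) =>
      Q p.1 p.2) := measurable_pi_lambda _ fun A =>
    hq.comp (measurable_bits U (fun i n => (measurable_pi_apply n).comp (hU i)) A.1)
  -- a good choice of τ
  obtain ⟨τ, hτ⟩ : ∃ τ : TI → Bool, ∀ s : Finset (Σ p : (Σ n, L.Relations n), (Fin p.1 → ℕ)),
      ∀ᵐ v ∂κ₂, condP N μ B (cyl L s) (Q v τ) = N.law μ (cyl L s) := by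
    have h1 : ∀ᵐ τ ∂(cw TI), ∀ s : Finset (Σ p : (Σ n, L.Relations n), (Fin p.1 → ℕ)),
        ∀ᵐ v ∂κ₂, condP N μ B (cyl L s) (Q v τ) = N.law μ (cyl L s) := by
      rw [ae_all_iff]
      intro s
      have hms : MeasurableSet {p : ({c : Idx ℕ × Bool // R2 B c} → X) × (TI → Bool) |
          condP N μ B (cyl L s) (Q p.1 p.2) = N.law μ (cyl L s)} :=
        measurableSet_eq_fun ((measurable_condP N μ B (measurableSet_cyl s)).comp hQ)
          measurable_const
      rw [← Measure.ae_ae_comm (μ := κ₂) (ν := cw TI) (p := fun v τ =>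
        condP N μ B (cyl L s) (Q v τ) = N.law μ (cyl L s)) hms]
      filter_upwards [hUinj] with v hv
      exact condP_bits N μ B h s q hq hqm (U v) hv
    exact h1.exists
  let N' : EucStr L X :=
    { peon := fun p => {x | Psi B q q' P τ x ∈ N.peon p}
      meas := fun p => (measurable_Psi B q hq q' hq' P hP τ) (N.meas p) }
  have harr : ∀ θ : Idx ℕ → X, N'.arr θ = N.arr (Psi B q q' P τ θ) := by
    intro θ
    funext p a
    apply propext
    refine exists_congr fun hinj => ?_
    change Psi B q q' P τ (fun A : Idx (Fin p.1) => θ (Idx.map ⟨a, hinj⟩ A)) ∈ N.peon p ↔ _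
    have : (fun A : Idx (Fin p.1) => Psi B q q' P τ θ (Idx.map ⟨a, hinj⟩ A)) =
        Psi B q q' P τ (fun A : Idx (Fin p.1) => θ (Idx.map ⟨a, hinj⟩ A)) := by
      funext A
      exact Psi_map B q q' P τ ⟨a, hinj⟩ θ A
    rw [this]
  have hlaw : N'.law μ = N.law μ := by
    refine ext_str _ _ fun s => ?_
    -- pass to doubled coordinates
    let W : (Idx ℕ → X) → (Idx ℕ × Bool → X) := fun θ c => P (θ c.1) c.2
    have hW : Measurable W := measurable_pi_lambda _ fun c =>
      (measurable_pi_apply c.2).comp (hP.comp (measurable_pi_apply c.1))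
    have hWm : (iid μ).map W = Measure.infinitePi (fun _ : Idx ℕ × Bool => μ) := by
      have h1 : W = (MeasurableEquiv.curry (Idx ℕ) Bool X).symm ∘
          (fun (x : Idx ℕ → X) (A : Idx ℕ) => P (x A)) := rfl
      have h2 := Measure.infinitePi_map_pi (μ := fun _ : Idx ℕ => μ) (f := fun _ : Idx ℕ => P)
        (fun _ => hP)
      have hm1 : Measurable (fun (x : Idx ℕ → X) (A : Idx ℕ) => P (x A)) :=
        measurable_pi_lambda _ fun A => hP.comp (measurable_pi_apply A)
      rw [h1, ← Measure.map_map (MeasurableEquiv.measurable _) hm1, h2]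
      simp only [hPm]
      exact Measure.infinitePi_map_curry_symm (fun _ _ => μ)
    have hPhi : ∀ θ, Psi B q q' P τ θ = Phi B q q' τ (W θ) := by
      intro θ
      funext A
      rfl
    have hPhim : Measurable (Phi B q q' τ) := by
      refine measurable_pi_lambda _ fun A => ?_
      by_cases hA : lev A ∈ B
      · simp only [Phi, hA, if_true]
        have h1 := measurable_bits (Ω := Idx ℕ × Bool → X) (V := ℕ)
          (fun ω i => q' (ω (sing i, false)))
          (fun i n => (measurable_pi_apply n).comp (hq'.comp (measurable_pi_apply _))) A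
        exact hq.comp (h1.comp (measurable_id.prodMk measurable_const))
      · simp only [Phi, hA, if_false]
        exact measurable_pi_apply _
    have hS := measurableSet_cyl (L := L) s
    have hTm : MeasurableSet {ω | N.arr (Phi B q q' τ ω) ∈ cyl L s} :=
      (N.measurable_arr.comp hPhim) hS
    have h1 : N'.law μ (cyl L s) =
        Measure.infinitePi (fun _ : Idx ℕ × Bool => μ) {ω | N.arr (Phi B q q' τ ω) ∈ cyl L s} := by
      unfold EucStr.law
      rw [Measure.map_apply N'.measurable_arr hS, ← hWm, Measure.map_apply hW hTm]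
      congr 1
      ext θ
      simp only [mem_preimage, Set.mem_ofPred_eq, harr, hPhi]
    rw [h1]
    -- split the doubled coordinates
    rw [infinitePi_apply_glue (J := Idx ℕ × Bool) μ (R2 B) hTm]
    have h2 : ∀ v, Measure.infinitePi (fun _ : {c : Idx ℕ × Bool // ¬ R2 B c} => μ)
        {y | glue (R2 B) (v, y) ∈ {ω | N.arr (Phi B q q' τ ω) ∈ cyl L s}} =
        condP N μ B (cyl L s) (Q v τ) := by
      intro v
      let e : {A : Idx ℕ // ¬ lev A ∈ B} → {c : Idx ℕ × Bool // ¬ R2 B c} := fun A =>
        ⟨(A.1, true), by simp [R2, A.2]⟩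
      have he : Function.Injective e := by
        intro A A' hAA
        have := congrArg (fun c : {c : Idx ℕ × Bool // ¬ R2 B c} => c.1.1) hAA
        exact Subtype.ext this
      have h3 := infinitePi_map_injective μ e he
      have hem : Measurable (fun (y : {c : Idx ℕ × Bool // ¬ R2 B c} → X)
          (A : {A : Idx ℕ // ¬ lev A ∈ B}) => y (e A)) :=
        measurable_pi_lambda _ fun _ => measurable_pi_apply _
      have hm : MeasurableSet {y : {A : Idx ℕ // ¬ lev A ∈ B} → X |
          N.arr (glue (fun A : Idx ℕ => lev A ∈ B) (Q v τ, y)) ∈ cyl L s} :=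
        (N.measurable_arr.comp ((measurable_glue _).comp
          (measurable_const.prodMk measurable_id))) hS
      unfold condP
      rw [← h3, Measure.map_apply hem hm]
      congr 1
      ext y
      simp only [Set.mem_ofPred_eq, mem_preimage]
      have : Phi B q q' τ (glue (R2 B) (v, y)) =
          glue (fun A : Idx ℕ => lev A ∈ B) (Q v τ, fun A => y (e A)) := by
        funext A
        by_cases hA : lev A ∈ B
        · rw [glue_pos (P := fun A : Idx ℕ => lev A ∈ B) _ hA]
          simp only [Phi, hA, if_true, Q, U]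
          congr 2
          funext i
          rw [glue_pos (P := R2 B) _ (Or.inl rfl : R2 B (sing i, false))]
        · rw [glue_neg (P := fun A : Idx ℕ => lev A ∈ B) _ hA]
          simp only [Phi, hA, if_false]
          rw [glue_neg (P := R2 B) _ (by simp [R2, hA] : ¬ R2 B (A, true))]
      rw [this]
    have h4 : ∀ᵐ v ∂κ₂, Measure.infinitePi (fun _ : {c : Idx ℕ × Bool // ¬ R2 B c} => μ)
        {y | glue (R2 B) (v, y) ∈ {ω | N.arr (Phi B q q' τ ω) ∈ cyl L s}} =
        N.law μ (cyl L s) := by
      filter_upwards [hτ s] with v hv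
      exact (h2 v).trans hv
    rw [lintegral_congr_ae h4]
    simp
  refine ⟨N', ?_, hlaw, ?_⟩
  · rw [isTon_iff, hlaw]
    exact (isTon_iff N μ T).1 hN
  · intro p x y hxy
    change Psi B q q' P τ x ∈ N.peon p ↔ Psi B q q' P τ y ∈ N.peon p
    rw [Psi_congr hB q q' P τ x y hxy]

end Pool.Agent.R130.Theon
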