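import Pool.Agent.R130.Theon.Defs

/-!
# Pairs of independent families, combined Euclidean structures (helper80, for helper130)
-/

open MeasureTheory ProbabilityTheory
open scoped ENNReal

namespace Pool.Agent.R130.Theon

variable {L L₁ L₂ : FirstOrder.Language.{0, 0}} {X X₁ X₂ : Type} [MeasurableSpace X]
  [MeasurableSpace X₁] [MeasurableSpace X₂]

lemma lev_map {V W : Type} (α : V ↪ W) (A : Idx V) : lev (Idx.map α A) = lev A := by
  apply PNat.eq
  simp [lev, Idx.map]

/-- independent families of pairs are pairs of independent families -/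
lemma prod_map_zip (μ₁ : Measure X₁) (μ₂ : Measure X₂) [IsProbabilityMeasure μ₁]
    [IsProbabilityMeasure μ₂] :
    ((iid μ₁).prod (iid μ₂)).map (fun z : (Idx ℕ → X₁) × (Idx ℕ → X₂) => fun A => (z.1 A, z.2 A)) =
      iid (μ₁.prod μ₂) := by
  have hm : Measurable (fun z : (Idx ℕ → X₁) × (Idx ℕ → X₂) => fun A : Idx ℕ => (z.1 A, z.2 A)) :=
    measurable_pi_lambda _ fun A =>
      ((measurable_pi_apply A).comp measurable_fst).prodMk
        ((measurable_pi_apply A).comp measurable_snd)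
  refine Measure.eq_infinitePi _ fun s t ht => ?_
  rw [Measure.map_apply hm (MeasurableSet.pi s.countable_toSet fun i _ => ht i)]
  set B : Set ((s → X₁) × (s → X₂)) := {w | ∀ i : s, (w.1 i, w.2 i) ∈ t i} with hB
  have hBm : MeasurableSet B := by
    have : B = ⋂ i : s, {w | (w.1 i, w.2 i) ∈ t i} := by
      ext w
      simp [hB]
    rw [this]
    refine MeasurableSet.iInter fun i => ?_
    have hmi : Measurable (fun w : (s → X₁) × (s → X₂) => (w.1 i, w.2 i)) :=
      ((measurable_pi_apply i).comp measurable_fst).prodMk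
        ((measurable_pi_apply i).comp measurable_snd)
    exact hmi (ht i)
  have e1 : (fun z : (Idx ℕ → X₁) × (Idx ℕ → X₂) => fun A : Idx ℕ => (z.1 A, z.2 A)) ⁻¹'
      (Set.pi (s : Set (Idx ℕ)) t) = (Prod.map s.restrict s.restrict) ⁻¹' B := by
    ext z
    simp [hB, Set.mem_pi]
  have q1 : Measurable (s.restrict : (Idx ℕ → X₁) → _) := Finset.measurable_restrict s
  have q2 : Measurable (s.restrict : (Idx ℕ → X₂) → _) := Finset.measurable_restrict s
  rw [e1, ← Measure.map_apply (q1.prodMap q2) hBm, ← Measure.map_prod_map _ _ q1 q2]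
  have r1 : (iid μ₁).map (s.restrict : (Idx ℕ → X₁) → _) = Measure.pi fun _ : s => μ₁ :=
    Measure.infinitePi_map_restrict (μ := fun _ : Idx ℕ => μ₁)
  have r2 : (iid μ₂).map (s.restrict : (Idx ℕ → X₂) → _) = Measure.pi fun _ : s => μ₂ :=
    Measure.infinitePi_map_restrict (μ := fun _ : Idx ℕ => μ₂)
  rw [r1, r2, ← (measurePreserving_arrowProdEquivProdArrow X₁ X₂ s (fun _ => μ₁)
    (fun _ => μ₂)).map_eq, Measure.map_apply (MeasurableEquiv.measurable _) hBm]
  have e2 : (MeasurableEquiv.arrowProdEquivProdArrow X₁ X₂ s) ⁻¹' B =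
      Set.pi Set.univ (fun i : s => t i) := by
    ext w
    simp [hB, Set.mem_pi, MeasurableEquiv.arrowProdEquivProdArrow,
      Equiv.arrowProdEquivProdArrow]
  rw [e2, Measure.pi_pi]
  rw [Finset.univ_eq_attach, Finset.prod_attach s (fun i => (μ₁.prod μ₂) (t i))]

lemma measurable_unzip :
    Measurable (fun z : Idx ℕ → X₁ × X₂ => ((fun A => (z A).1, fun A => (z A).2) :
      (Idx ℕ → X₁) × (Idx ℕ → X₂))) :=
  (measurable_pi_lambda _ fun A => measurable_fst.comp (measurable_pi_apply A)).prodMk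
    (measurable_pi_lambda _ fun A => measurable_snd.comp (measurable_pi_apply A))

lemma measurable_zip :
    Measurable (fun z : (Idx ℕ → X₁) × (Idx ℕ → X₂) => fun A : Idx ℕ => (z.1 A, z.2 A)) :=
  measurable_pi_lambda _ fun A =>
      ((measurable_pi_apply A).comp measurable_fst).prodMk
        ((measurable_pi_apply A).comp measurable_snd)

/-- independent families of pairs are pairs of independent families -/
lemma iid_map_unzip (μ₁ : Measure X₁) (μ₂ : Measure X₂) [IsProbabilityMeasure μ₁]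
    [IsProbabilityMeasure μ₂] :
    (iid (μ₁.prod μ₂)).map (fun z => (fun A => (z A).1, fun A => (z A).2)) =
      (iid μ₁).prod (iid μ₂) := by
  rw [← prod_map_zip, Measure.map_map measurable_unzip measurable_zip]
  have : ((fun z : Idx ℕ → X₁ × X₂ => ((fun A => (z A).1, fun A => (z A).2) :
      (Idx ℕ → X₁) × (Idx ℕ → X₂))) ∘
      fun z : (Idx ℕ → X₁) × (Idx ℕ → X₂) => fun A : Idx ℕ => (z.1 A, z.2 A)) = id := by
    funext z
    rfl
  rw [this, Measure.map_id]

lemma measurable_lev (p : ℕ+ → X → X₁) (hp : ∀ k, Measurable (p k)) :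
    Measurable (fun ζ : Idx ℕ → X => fun A => p (lev A) (ζ A)) :=
  measurable_pi_lambda _ fun A => (hp _).comp (measurable_pi_apply A)

/-- applying at every coordinate a map with image law `μ₁` -/
lemma iid_map_lev (μ : Measure X) [IsProbabilityMeasure μ] (μ₁ : Measure X₁)
    [IsProbabilityMeasure μ₁] (p : ℕ+ → X → X₁) (hp : ∀ k, Measurable (p k))
    (h : ∀ k, μ.map (p k) = μ₁) :
    (iid μ).map (fun ζ A => p (lev A) (ζ A)) = iid μ₁ := by
  have := Measure.infinitePi_map_pi (μ := fun _ : Idx ℕ => μ) (f := fun A => p (lev A))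
    (fun A => hp _)
  unfold iid
  rw [this]
  congr 1
  funext A
  exact h _

/-- The union of two Euclidean structures (after maps `p₁ (lev A)`, `p₂ (lev A)` of the
coordinates). -/
def EucStr.comb (N₁ : EucStr L₁ X₁) (N₂ : EucStr L₂ X₂) (p₁ : ℕ+ → X → X₁) (p₂ : ℕ+ → X → X₂)
    (h₁ : ∀ k, Measurable (p₁ k)) (h₂ : ∀ k, Measurable (p₂ k)) : EucStr (L₁.sum L₂) X where
  peon := fun q => match q with
    | ⟨n, Sum.inl r⟩ => {z | (fun A : Idx (Fin n) => p₁ (lev A) (z A)) ∈ N₁.peon ⟨n, r⟩}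
    | ⟨n, Sum.inr r⟩ => {z | (fun A : Idx (Fin n) => p₂ (lev A) (z A)) ∈ N₂.peon ⟨n, r⟩}
  meas := by
    rintro ⟨n, r | r⟩
    · have hm : Measurable (fun (z : Idx (Fin n) → X) (A : Idx (Fin n)) => p₁ (lev A) (z A)) :=
        measurable_pi_lambda _ fun A => (h₁ _).comp (measurable_pi_apply A)
      exact hm (N₁.meas ⟨n, r⟩)
    · have hm : Measurable (fun (z : Idx (Fin n) → X) (A : Idx (Fin n)) => p₂ (lev A) (z A)) :=
        measurable_pi_lambda _ fun A => (h₂ _).comp (measurable_pi_apply A)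
      exact hm (N₂.meas ⟨n, r⟩)

lemma EucStr.comb_arr (N₁ : EucStr L₁ X₁) (N₂ : EucStr L₂ X₂) (p₁ : ℕ+ → X → X₁)
    (p₂ : ℕ+ → X → X₂) (h₁ : ∀ k, Measurable (p₁ k)) (h₂ : ∀ k, Measurable (p₂ k))
    (ζ : Idx ℕ → X) :
    (EucStr.comb N₁ N₂ p₁ p₂ h₁ h₂).arr ζ =
      join (N₁.arr (fun A => p₁ (lev A) (ζ A)), N₂.arr (fun A => p₂ (lev A) (ζ A))) := by
  funext q a
  rcases q with ⟨n, r | r⟩
  · apply propext
    constructor
    · rintro ⟨h, hm⟩
      refine ⟨h, ?_⟩
      simp only [lev_map]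
      exact hm
    · rintro ⟨h, hm⟩
      refine ⟨h, ?_⟩
      simp only [lev_map] at hm
      exact hm
  · apply propext
    constructor
    · rintro ⟨h, hm⟩
      refine ⟨h, ?_⟩
      simp only [lev_map]
      exact hm
    · rintro ⟨h, hm⟩
      refine ⟨h, ?_⟩
      simp only [lev_map] at hm
      exact hm

lemma join_models [L₁.IsRelational] [L₂.IsRelational] {T₁ : L₁.Theory} {T₂ : L₂.Theory}
    {K : Str L₁ × Str L₂} (h₁ : K.1.Models T₁) (h₂ : K.2.Models T₂) :
    (join K).Models (unionTheory T₁ T₂) := by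
  let S₁ := K.1.toStructure
  let S₂ := K.2.toStructure
  let S := (join K).toStructure
  have i1 : (FirstOrder.Language.LHom.sumInl : L₁ →ᴸ L₁.sum L₂).IsExpansionOn ℕ :=
    ⟨fun f => isEmptyElim f, fun R x => rfl⟩
  have i2 : (FirstOrder.Language.LHom.sumInr : L₂ →ᴸ L₁.sum L₂).IsExpansionOn ℕ :=
    ⟨fun f => isEmptyElim f, fun R x => rfl⟩
  exact FirstOrder.Language.Theory.Model.union
    ((FirstOrder.Language.LHom.onTheory_model _ _).2 h₁)
    ((FirstOrder.Language.LHom.onTheory_model _ _).2 h₂)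

lemma models_of_join [L₁.IsRelational] [L₂.IsRelational] {T₁ : L₁.Theory} {T₂ : L₂.Theory}
    {K : Str L₁ × Str L₂} (h : (join K).Models (unionTheory T₁ T₂)) :
    K.1.Models T₁ ∧ K.2.Models T₂ := by
  let S₁ := K.1.toStructure
  let S₂ := K.2.toStructure
  let S := (join K).toStructure
  have i1 : (FirstOrder.Language.LHom.sumInl : L₁ →ᴸ L₁.sum L₂).IsExpansionOn ℕ :=
    ⟨fun f => isEmptyElim f, fun R x => rfl⟩
  have i2 : (FirstOrder.Language.LHom.sumInr : L₂ →ᴸ L₁.sum L₂).IsExpansionOn ℕ :=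
    ⟨fun f => isEmptyElim f, fun R x => rfl⟩
  have h' : ℕ ⊨ (unionTheory T₁ T₂) := h
  exact ⟨(FirstOrder.Language.LHom.onTheory_model
      (FirstOrder.Language.LHom.sumInl : L₁ →ᴸ L₁.sum L₂) T₁).1
      (h'.mono Set.subset_union_left),
    (FirstOrder.Language.LHom.onTheory_model
      (FirstOrder.Language.LHom.sumInr : L₂ →ᴸ L₁.sum L₂) T₂).1
      (h'.mono Set.subset_union_right)⟩

/-- The combined structure is a `(T₁ ∪ T₂)`-on, and its law is a coupling. -/
theorem comb_isCoupling [L₁.IsRelational] [L₂.IsRelational] {T₁ : L₁.Theory} {T₂ : L₂.Theory}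
    [StandardBorelSpace X] (μ : Measure X) [IsProbabilityMeasure μ] (μ₁ : Measure X₁)
    [IsProbabilityMeasure μ₁] (μ₂ : Measure X₂) [IsProbabilityMeasure μ₂]
    (N₁ : EucStr L₁ X₁) (N₂ : EucStr L₂ X₂) (p₁ : ℕ+ → X → X₁) (p₂ : ℕ+ → X → X₂)
    (h₁ : ∀ k, Measurable (p₁ k)) (h₂ : ∀ k, Measurable (p₂ k))
    (e₁ : ∀ k, μ.map (p₁ k) = μ₁) (e₂ : ∀ k, μ.map (p₂ k) = μ₂)
    (t₁ : N₁.IsTon μ₁ T₁) (t₂ : N₂.IsTon μ₂ T₂) :
    IsCoupling T₁ T₂ (N₁.law μ₁) (N₂.law μ₂) ((EucStr.comb N₁ N₂ p₁ p₂ h₁ h₂).law μ) := by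
  have l₁ := iid_map_lev μ μ₁ p₁ h₁ e₁
  have l₂ := iid_map_lev μ μ₂ p₂ h₂ e₂
  have m₁ := measurable_lev (X := X) p₁ h₁
  have m₂ := measurable_lev (X := X) p₂ h₂
  refine ⟨⟨X, inferInstance, inferInstance, μ, inferInstance, _, ?_, rfl⟩, ?_, ?_⟩
  · have a₁ : ∀ᵐ ζ ∂(iid μ), (N₁.arr (fun A => p₁ (lev A) (ζ A))).Models T₁ := by
      have : ∀ᵐ θ ∂((iid μ).map (fun ζ A => p₁ (lev A) (ζ A))), (N₁.arr θ).Models T₁ := by
        rw [l₁]
        exact t₁
      exact ae_of_ae_map m₁.aemeasurable this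
    have a₂ : ∀ᵐ ζ ∂(iid μ), (N₂.arr (fun A => p₂ (lev A) (ζ A))).Models T₂ := by
      have : ∀ᵐ θ ∂((iid μ).map (fun ζ A => p₂ (lev A) (ζ A))), (N₂.arr θ).Models T₂ := by
        rw [l₂]
        exact t₂
      exact ae_of_ae_map m₂.aemeasurable this
    filter_upwards [a₁, a₂] with ζ z₁ z₂
    rw [EucStr.comb_arr]
    exact join_models z₁ z₂
  · unfold EucStr.law
    rw [Measure.map_map measurable_redL (EucStr.measurable_arr _), ← l₁,
      Measure.map_map N₁.measurable_arr m₁]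
    congr 1
    funext ζ
    simp only [Function.comp_apply, EucStr.comb_arr, redL_join]
  · unfold EucStr.law
    rw [Measure.map_map measurable_redR (EucStr.measurable_arr _), ← l₂,
      Measure.map_map N₂.measurable_arr m₂]
    congr 1
    funext ζ
    simp only [Function.comp_apply, EucStr.comb_arr, redR_join]

/-- The combined structure over a product space with product law represents the independent
coupling. -/
theorem comb_law_prod (μ₁ : Measure X₁) [IsProbabilityMeasure μ₁] (μ₂ : Measure X₂)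
    [IsProbabilityMeasure μ₂] (N₁ : EucStr L₁ X₁) (N₂ : EucStr L₂ X₂) :
    (EucStr.comb N₁ N₂ (fun _ => Prod.fst) (fun _ => Prod.snd) (fun _ => measurable_fst)
      (fun _ => measurable_snd)).law (μ₁.prod μ₂) = indepCoupling (N₁.law μ₁) (N₂.law μ₂) := by
  unfold indepCoupling EucStr.law
  rw [Measure.map_prod_map _ _ N₁.measurable_arr N₂.measurable_arr, ← iid_map_unzip,
    Measure.map_map (N₁.measurable_arr.prodMap N₂.measurable_arr) measurable_unzip,
    Measure.map_map measurable_join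
      ((N₁.measurable_arr.prodMap N₂.measurable_arr).comp measurable_unzip)]
  congr 1
  funext ζ
  rw [EucStr.comb_arr]
  rfl

/-- What unique coupleability says about a combined structure. -/
theorem uniq_comb [L₁.IsRelational] [L₂.IsRelational] {T₁ : L₁.Theory} {T₂ : L₂.Theory}
    [StandardBorelSpace X] (μ : Measure X) [IsProbabilityMeasure μ] (μ₁ : Measure X₁)
    [IsProbabilityMeasure μ₁] (μ₂ : Measure X₂) [IsProbabilityMeasure μ₂]
    (N₁ : EucStr L₁ X₁) (N₂ : EucStr L₂ X₂) (p₁ : ℕ+ → X → X₁) (p₂ : ℕ+ → X → X₂)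
    (h₁ : ∀ k, Measurable (p₁ k)) (h₂ : ∀ k, Measurable (p₂ k))
    (e₁ : ∀ k, μ.map (p₁ k) = μ₁) (e₂ : ∀ k, μ.map (p₂ k) = μ₂)
    (t₁ : N₁.IsTon μ₁ T₁) (t₂ : N₂.IsTon μ₂ T₂)
    (hu : UniquelyCoupleable T₁ T₂ (N₁.law μ₁) (N₂.law μ₂)) :
    (iid μ).map (fun ζ => (N₁.arr (fun A => p₁ (lev A) (ζ A)),
      N₂.arr (fun A => p₂ (lev A) (ζ A)))) = (N₁.law μ₁).prod (N₂.law μ₂) := by
  have h := hu _ (comb_isCoupling μ μ₁ μ₂ N₁ N₂ p₁ p₂ h₁ h₂ e₁ e₂ t₁ t₂)
  have m₁ := measurable_lev (X := X) p₁ h₁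
  have m₂ := measurable_lev (X := X) p₂ h₂
  have mr : Measurable (fun K : Str (L₁.sum L₂) => (redL K, redR K)) :=
    measurable_redL.prodMk measurable_redR
  have h2 := congrArg (fun m => m.map (fun K : Str (L₁.sum L₂) => (redL K, redR K))) h
  simp only [indepCoupling, EucStr.law] at h2
  rw [Measure.map_map mr (EucStr.measurable_arr _), Measure.map_map mr measurable_join] at h2
  have e3 : ((fun K : Str (L₁.sum L₂) => (redL K, redR K)) ∘ join) = id := by
    funext K
    rfl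
  rw [e3, Measure.map_id] at h2
  unfold EucStr.law
  rw [← h2]
  congr 1
  funext ζ
  simp only [Function.comp_apply, EucStr.comb_arr, redL_join, redR_join]

end Pool.Agent.R130.Theon
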