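import Mathlib

/-!
# Limit objects of combinatorial structures (theons)

Euclidean structures, their exchangeable arrays and laws, couplings, compatibility.
Vertices are the natural numbers.
-/

open MeasureTheory ProbabilityTheory

namespace Pool.Agent.R130.Theon

/-- `r(V)`: the non-empty finite subsets of `V`. -/
abbrev Idx (V : Type) := {A : Finset V // A.Nonempty}

/-- The image `α(A)` of a non-empty finite set under an injection `α`. -/
def Idx.map {V W : Type} (α : V ↪ W) (A : Idx V) : Idx W := ⟨A.1.map α, A.2.map⟩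

/-- The level `|A|` of a coordinate. -/
def lev {V : Type} (A : Idx V) : ℕ+ := ⟨A.1.card, A.2.card_pos⟩

/-- Structures in a relational language `L` on the vertex set `ℕ` (the truth values of all
`P(a₁, …, aₖ)`), with the product σ-algebra. -/
abbrev Str (L : FirstOrder.Language.{0, 0}) : Type :=
  (p : Σ n, L.Relations n) → (Fin p.1 → ℕ) → Prop

/-- The first-order structure given by an element of `Str L`. -/
@[instance_reducible]
def Str.toStructure {L : FirstOrder.Language.{0, 0}} [L.IsRelational] (K : Str L) :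
    L.Structure ℕ where
  funMap := fun f => isEmptyElim f
  RelMap := fun {n} r x => K ⟨n, r⟩ x

/-- `K` is a model of the theory `T`. -/
def Str.Models {L : FirstOrder.Language.{0, 0}} [L.IsRelational] (K : Str L) (T : L.Theory) :
    Prop := @FirstOrder.Language.Theory.Model L ℕ K.toStructure T

/-- A Euclidean structure over the measurable space `X`: for every relation symbol `P` of arity
`k` a measurable set (peon) in `X ^ r([k])`. -/
structure EucStr (L : FirstOrder.Language.{0, 0}) (X : Type) [MeasurableSpace X] where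
  /-- the peons -/
  peon : (p : Σ n, L.Relations n) → Set (Idx (Fin p.1) → X)
  /-- peons are measurable -/
  meas : ∀ p, MeasurableSet (peon p)

variable {L L₁ L₂ : FirstOrder.Language.{0, 0}} {X X₁ X₂ : Type} [MeasurableSpace X]
  [MeasurableSpace X₁] [MeasurableSpace X₂]

/-- The structure `K` obtained from the coordinates `θ`: `P(a)` holds iff `a` is injective and
`(θ_{a(A)})_A` lies in the peon of `P`. -/
def EucStr.arr (N : EucStr L X) (θ : Idx ℕ → X) : Str L := fun p a =>
  ∃ h : Function.Injective a, (fun A : Idx (Fin p.1) => θ (Idx.map ⟨a, h⟩ A)) ∈ N.peon p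

/-- The law of independent coordinates `θ_A` with law `μ`. -/
noncomputable abbrev iid (μ : Measure X) [IsProbabilityMeasure μ] : Measure (Idx ℕ → X) :=
  Measure.infinitePi (fun _ : Idx ℕ => μ)

/-- The law of the exchangeable array of a Euclidean structure. -/
noncomputable def EucStr.law (N : EucStr L X) (μ : Measure X) [IsProbabilityMeasure μ] :
    Measure (Str L) := (iid μ).map N.arr

/-- `N` is a `T`-on: its array is almost surely a model of `T`. -/
def EucStr.IsTon [L.IsRelational] (N : EucStr L X) (μ : Measure X) [IsProbabilityMeasure μ]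
    (T : L.Theory) : Prop := ∀ᵐ θ ∂(iid μ), (N.arr θ).Models T

/-- Membership in `S` depends only on the coordinates `x_A` with `|A| ∈ C`. -/
def CompatPeon (C : Set ℕ+) {n : ℕ} (S : Set (Idx (Fin n) → X)) : Prop :=
  ∀ x y : Idx (Fin n) → X, (∀ A, lev A ∈ C → x A = y A) → (x ∈ S ↔ y ∈ S)

/-! ### Limit objects, rank, couplings (coordinate spaces: all standard Borel ones) -/

/-- Limit objects of the theory `T`: laws of the arrays of `T`-ons. -/
def IsLimit [L.IsRelational] (T : L.Theory) (φ : Measure (Str L)) : Prop :=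
  ∃ (X : Type) (_ : MeasurableSpace X) (_ : StandardBorelSpace X) (μ : Measure X)
    (_ : IsProbabilityMeasure μ) (N : EucStr L X), N.IsTon μ T ∧ N.law μ = φ

/-- `φ` is represented by a `T`-on all of whose peons depend only on coordinates with level
in `C`. -/
def HasCompat [L.IsRelational] (T : L.Theory) (C : Set ℕ+) (φ : Measure (Str L)) : Prop :=
  ∃ (X : Type) (_ : MeasurableSpace X) (_ : StandardBorelSpace X) (μ : Measure X)
    (_ : IsProbabilityMeasure μ) (N : EucStr L X),
    N.IsTon μ T ∧ N.law μ = φ ∧ ∀ p, CompatPeon C (N.peon p)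

/-- `rk φ ≤ r`. -/
def RankLE [L.IsRelational] (T : L.Theory) (φ : Measure (Str L)) (r : ℕ) : Prop :=
  HasCompat T {l : ℕ+ | (l : ℕ) ≤ r} φ

/-- `φ ∈ Independence[r]`. -/
def Independence [L.IsRelational] (T : L.Theory) (φ : Measure (Str L)) (r : ℕ) : Prop :=
  HasCompat T {l : ℕ+ | r < (l : ℕ)} φ

/-- Restriction of a structure in the union language to the first language. -/
def redL (K : Str (L₁.sum L₂)) : Str L₁ := fun p a => K ⟨p.1, Sum.inl p.2⟩ a

/-- Restriction of a structure in the union language to the second language. -/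
def redR (K : Str (L₁.sum L₂)) : Str L₂ := fun p a => K ⟨p.1, Sum.inr p.2⟩ a

/-- The structure in the union language with the given restrictions. -/
def join (K : Str L₁ × Str L₂) : Str (L₁.sum L₂) := fun p a =>
  match p, a with
  | ⟨n, Sum.inl r⟩, a => K.1 ⟨n, r⟩ a
  | ⟨n, Sum.inr r⟩, a => K.2 ⟨n, r⟩ a

instance [L₁.IsRelational] [L₂.IsRelational] : (L₁.sum L₂).IsRelational :=
  fun n => (inferInstance : IsEmpty (L₁.Functions n ⊕ L₂.Functions n))

/-- The union `T₁ ∪ T₂` of theories in disjoint languages. -/
def unionTheory (T₁ : L₁.Theory) (T₂ : L₂.Theory) : (L₁.sum L₂).Theory :=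
  FirstOrder.Language.LHom.sumInl.onTheory T₁ ∪ FirstOrder.Language.LHom.sumInr.onTheory T₂

/-- `ξ` is a coupling of the limit objects `φ₁` of `T₁` and `φ₂` of `T₂`. -/
def IsCoupling [L₁.IsRelational] [L₂.IsRelational] (T₁ : L₁.Theory) (T₂ : L₂.Theory)
    (φ₁ : Measure (Str L₁)) (φ₂ : Measure (Str L₂)) (ξ : Measure (Str (L₁.sum L₂))) : Prop :=
  IsLimit (unionTheory T₁ T₂) ξ ∧ ξ.map redL = φ₁ ∧ ξ.map redR = φ₂

/-- The independent coupling `φ₁ ⊗ φ₂`: independent structures with laws `φ₁`, `φ₂`. -/
noncomputable def indepCoupling (φ₁ : Measure (Str L₁)) (φ₂ : Measure (Str L₂)) :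
    Measure (Str (L₁.sum L₂)) := (φ₁.prod φ₂).map join

/-- `φ₁` and `φ₂` are uniquely coupleable. -/
def UniquelyCoupleable [L₁.IsRelational] [L₂.IsRelational] (T₁ : L₁.Theory) (T₂ : L₂.Theory)
    (φ₁ : Measure (Str L₁)) (φ₂ : Measure (Str L₂)) : Prop :=
  ∀ ξ, IsCoupling T₁ T₂ φ₁ φ₂ ξ → ξ = indepCoupling φ₁ φ₂

/-- `φ ∈ UCouple[ℓ]`: `φ` is uniquely coupleable with every limit object of rank at most `ℓ` of
every universal theory in a finite relational language. -/
def UCouple [L.IsRelational] (T : L.Theory) (φ : Measure (Str L)) (ℓ : ℕ) : Prop :=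
  ∀ (L' : FirstOrder.Language.{0, 0}) (_ : L'.IsRelational) (_ : Finite (Σ n, L'.Relations n))
    (T' : L'.Theory) (_ : T'.IsUniversal) (ψ : Measure (Str L')),
    RankLE T' ψ ℓ → UniquelyCoupleable T T' φ ψ

/-! ### Basic measurability -/

lemma EucStr.measurable_arr (N : EucStr L X) : Measurable N.arr := by
  refine measurable_pi_lambda _ fun p => measurable_pi_lambda _ fun a => ?_
  by_cases h : Function.Injective a
  · have : (fun θ : Idx ℕ → X => N.arr θ p a) =
        fun θ => (fun A : Idx (Fin p.1) => θ (Idx.map ⟨a, h⟩ A)) ∈ N.peon p := by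
      funext θ
      simp [EucStr.arr, h]
    rw [this]
    have hm : Measurable (fun (θ : Idx ℕ → X) (A : Idx (Fin p.1)) => θ (Idx.map ⟨a, h⟩ A)) :=
      measurable_pi_lambda _ fun A => measurable_pi_apply _
    exact measurableSet_setOfPred.1 (hm (N.meas p))
  · have : (fun θ : Idx ℕ → X => N.arr θ p a) = fun _ => False := by
      funext θ
      simp [EucStr.arr, h]
    rw [this]
    exact measurable_const

instance (N : EucStr L X) (μ : Measure X) [IsProbabilityMeasure μ] :
    IsProbabilityMeasure (N.law μ) :=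
  Measure.isProbabilityMeasure_map N.measurable_arr.aemeasurable

lemma measurable_redL : Measurable (redL : Str (L₁.sum L₂) → Str L₁) :=
  measurable_pi_lambda _ fun p => measurable_pi_lambda _ fun a =>
    (measurable_pi_apply a).comp
      (measurable_pi_apply (⟨p.1, Sum.inl p.2⟩ : Σ n, (L₁.sum L₂).Relations n))

lemma measurable_redR : Measurable (redR : Str (L₁.sum L₂) → Str L₂) :=
  measurable_pi_lambda _ fun p => measurable_pi_lambda _ fun a =>
    (measurable_pi_apply a).comp
      (measurable_pi_apply (⟨p.1, Sum.inr p.2⟩ : Σ n, (L₁.sum L₂).Relations n))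

lemma measurable_join : Measurable (join : Str L₁ × Str L₂ → Str (L₁.sum L₂)) := by
  refine measurable_pi_lambda _ fun p => measurable_pi_lambda _ fun a => ?_
  rcases p with ⟨n, r | r⟩
  · exact (measurable_pi_apply a).comp ((measurable_pi_apply (⟨n, r⟩ : Σ n, _)).comp measurable_fst)
  · exact (measurable_pi_apply a).comp ((measurable_pi_apply (⟨n, r⟩ : Σ n, _)).comp measurable_snd)

@[simp] lemma redL_join (K : Str L₁ × Str L₂) : redL (join K) = K.1 := rfl
@[simp] lemma redR_join (K : Str L₁ × Str L₂) : redR (join K) = K.2 := rfl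
@[simp] lemma join_red (K : Str (L₁.sum L₂)) : join (redL K, redR K) = K := by
  funext p a
  rcases p with ⟨n, r | r⟩ <;> rfl

/-! ### Relabelling -/

/-- Relabelled coordinates. -/
def permC (σ : Equiv.Perm ℕ) (θ : Idx ℕ → X) : Idx ℕ → X :=
  fun A => θ (Idx.map σ.toEmbedding A)

/-- Relabelled structure. -/
def permS (σ : Equiv.Perm ℕ) (K : Str L) : Str L := fun p a => K p (σ ∘ a)

lemma measurable_permC (σ : Equiv.Perm ℕ) : Measurable (permC σ : (Idx ℕ → X) → _) :=
  measurable_pi_lambda _ fun _ => measurable_pi_apply _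

lemma measurable_permS (σ : Equiv.Perm ℕ) : Measurable (permS σ : Str L → _) :=
  measurable_pi_lambda _ fun p => measurable_pi_lambda _ fun a =>
    (measurable_pi_apply (σ ∘ a)).comp (measurable_pi_apply p)

lemma EucStr.arr_permC (N : EucStr L X) (σ : Equiv.Perm ℕ) (θ : Idx ℕ → X) :
    N.arr (permC σ θ) = permS σ (N.arr θ) := by
  funext p a
  have hσ : Function.Injective (σ ∘ a) ↔ Function.Injective a := σ.injective.of_comp_iff a
  apply propext
  constructor
  · rintro ⟨h, hm⟩
    refine ⟨hσ.2 h, ?_⟩
    convert hm using 2 with A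
    simp only [permC, Idx.map, Finset.map_map]
    rfl
  · rintro ⟨h, hm⟩
    refine ⟨hσ.1 h, ?_⟩
    convert hm using 2 with A
    simp only [permC, Idx.map, Finset.map_map]
    rfl

/-- The permutation of the index set induced by a permutation of the vertices. -/
def idxEquiv (σ : Equiv.Perm ℕ) : Idx ℕ ≃ Idx ℕ where
  toFun := Idx.map σ.toEmbedding
  invFun := Idx.map σ.symm.toEmbedding
  left_inv A := by
    apply Subtype.ext
    ext x
    simp [Idx.map]
  right_inv A := by
    apply Subtype.ext
    ext x
    simp [Idx.map]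

lemma iid_permC (μ : Measure X) [IsProbabilityMeasure μ] (σ : Equiv.Perm ℕ) :
    (iid μ).map (permC σ) = iid μ := by
  refine Measure.eq_infinitePi _ fun s t ht => ?_
  rw [Measure.map_apply (measurable_permC σ) (MeasurableSet.pi s.countable_toSet fun i _ => ht i)]
  have : permC σ ⁻¹' (Set.pi (s : Set (Idx ℕ)) t) =
      Set.pi ((s.map (idxEquiv σ).toEmbedding : Finset (Idx ℕ)) : Set (Idx ℕ))
        (fun i => t ((idxEquiv σ).symm i)) := by
    ext θ
    simp only [Set.mem_preimage, Set.mem_pi, Finset.mem_coe, Finset.mem_map_equiv]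
    constructor
    · intro h i hi
      have := h _ hi
      have h2 : permC σ θ ((idxEquiv σ).symm i) = θ i := by
        change θ (idxEquiv σ ((idxEquiv σ).symm i)) = θ i
        rw [Equiv.apply_symm_apply]
      rwa [h2] at this
    · intro h i hi
      have := h (idxEquiv σ i) (by simpa using hi)
      rw [Equiv.symm_apply_apply] at this
      exact this
  rw [this, Measure.infinitePi_pi _ (fun i _ => ht _), Finset.prod_map]
  simp

lemma EucStr.law_permS (N : EucStr L X) (μ : Measure X) [IsProbabilityMeasure μ]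
    (σ : Equiv.Perm ℕ) : (N.law μ).map (permS σ) = N.law μ := by
  unfold EucStr.law
  rw [Measure.map_map (measurable_permS σ) N.measurable_arr]
  have : (permS σ ∘ N.arr : (Idx ℕ → X) → Str L) = N.arr ∘ permC σ := by
    funext θ
    exact (N.arr_permC σ θ).symm
  rw [this, ← Measure.map_map N.measurable_arr (measurable_permC σ), iid_permC]

/-! ### Abstract exchangeable measures -/

/-- a right action of the permutations of `ℕ` by measurable maps -/
structure Act (Z : Type) [MeasurableSpace Z] where
  /-- the maps -/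
  T : Equiv.Perm ℕ → Z → Z
  meas : ∀ σ, Measurable (T σ)
  one : ∀ z, T 1 z = z
  mul : ∀ σ τ z, T (σ * τ) z = T τ (T σ z)

/-- `u` depends only on the vertices in `W` -/
def Supp {Z : Type} [MeasurableSpace Z] (E : Act Z) (W : Finset ℕ) (u : Z → ℝ) : Prop :=
  ∀ σ : Equiv.Perm ℕ, (∀ w ∈ W, σ w = w) → ∀ z, u (E.T σ z) = u z

/-- octahedral products -/
def oct {Z : Type} [MeasurableSpace Z] (E : Act Z) : List (ℕ × ℕ) → (Z → ℝ) → (Z → ℝ)
  | [], e => e
  | p :: l, e => oct E l (fun z => e z * e (E.T (Equiv.swap p.1 p.2) z))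

/-- the action on one family of coordinates -/
def actC (X : Type) [MeasurableSpace X] : Act (Idx ℕ → X) where
  T := permC
  meas := measurable_permC
  one := fun z => by
    funext A
    have : Idx.map (Equiv.toEmbedding (1 : Equiv.Perm ℕ)) A = A := by
      apply Subtype.ext
      ext x
      simp only [Idx.map, Finset.mem_map_equiv]
      rfl
    simp [permC, this]
  mul := fun σ τ z => by
    funext A
    simp only [permC]
    congr 1
    apply Subtype.ext
    simp [Idx.map, Finset.map_map]
    rfl

end Pool.Agent.R130.Theon
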