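import Pool.Agent.R130.Theon.Defs

open MeasureTheory ProbabilityTheory

namespace Pool.Agent.R130.Theon

/-! ## Module A : Gowers-Cauchy-Schwarz for exchangeable measures -/

section GCS

variable {Z : Type} [MeasurableSpace Z]

lemma gcs_integral_T (E : Act Z) (γ : Measure Z) (hγ : ∀ σ, γ.map (E.T σ) = γ)
    (σ : Equiv.Perm ℕ) (f : Z → ℝ) (mf : Measurable f) :
    ∫ z, f (E.T σ z) ∂γ = ∫ z, f z ∂γ := by
  conv_rhs => rw [← hγ σ]
  rw [integral_map (E.meas σ).aemeasurable mf.aestronglyMeasurable]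

lemma gcs_supp_congr (E : Act Z) (W : Finset ℕ) (Y : Z → ℝ) (hY : Supp E W Y)
    (σ τ : Equiv.Perm ℕ) (h : ∀ w ∈ W, σ w = τ w) (z : Z) : Y (E.T σ z) = Y (E.T τ z) := by
  have h1 : σ = τ * (τ⁻¹ * σ) := by group
  rw [h1, E.mul]
  apply hY
  intro w hw
  rw [Equiv.Perm.mul_apply, h w hw]
  simp

lemma gcs_supp_mono (E : Act Z) {W W' : Finset ℕ} (h : W ⊆ W') {u : Z → ℝ} (hu : Supp E W u) :
    Supp E W' u := fun σ hσ z => hu σ (fun w hw => hσ w (h hw)) z

lemma gcs_integrable (γ : Measure Z) [IsProbabilityMeasure γ] (f : Z → ℝ) (mf : Measurable f)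
    (bf : ∃ M, ∀ z, |f z| ≤ M) : Integrable f γ := by
  obtain ⟨M, hM⟩ := bf
  exact Integrable.of_bound mf.aestronglyMeasurable M (ae_of_all _ fun z => by
    rw [Real.norm_eq_abs]; exact hM z)

omit [MeasurableSpace Z] in
lemma gcs_bdd_mul {f g : Z → ℝ} (bf : ∃ M, ∀ z, |f z| ≤ M) (bg : ∃ M, ∀ z, |g z| ≤ M) :
    ∃ M, ∀ z, |f z * g z| ≤ M := by
  obtain ⟨M, hM⟩ := bf
  obtain ⟨K, hK⟩ := bg
  refine ⟨M * K, fun z => ?_⟩
  rw [abs_mul]
  exact mul_le_mul (hM z) (hK z) (abs_nonneg _) ((abs_nonneg _).trans (hM z))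

omit [MeasurableSpace Z] in
lemma gcs_bdd_sum {ι : Type*} (s : Finset ι) {f : ι → Z → ℝ}
    (bf : ∀ i ∈ s, ∃ M, ∀ z, |f i z| ≤ M) : ∃ M, ∀ z, |∑ i ∈ s, f i z| ≤ M := by
  classical
  induction s using Finset.induction_on with
  | empty => exact ⟨0, fun z => by simp⟩
  | insert i s hi ih =>
    obtain ⟨M, hM⟩ := ih fun j hj => bf j (Finset.mem_insert_of_mem hj)
    obtain ⟨K, hK⟩ := bf i (Finset.mem_insert_self _ _)
    refine ⟨K + M, fun z => ?_⟩
    rw [Finset.sum_insert hi]
    exact (abs_add_le _ _).trans (add_le_add (hK z) (hM z))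

lemma gcs_cs (γ : Measure Z) [IsProbabilityMeasure γ] (f g : Z → ℝ) (mf : Measurable f)
    (mg : Measurable g) (bf : ∃ M, ∀ z, |f z| ≤ M) (bg : ∃ M, ∀ z, |g z| ≤ M) :
    (∫ z, f z * g z ∂γ) ^ 2 ≤ (∫ z, f z * f z ∂γ) * ∫ z, g z * g z ∂γ := by
  have i1 : Integrable (fun z => f z * f z) γ := gcs_integrable γ _ (mf.mul mf) (gcs_bdd_mul bf bf)
  have i2 : Integrable (fun z => f z * g z) γ := gcs_integrable γ _ (mf.mul mg) (gcs_bdd_mul bf bg)
  have i3 : Integrable (fun z => g z * g z) γ := gcs_integrable γ _ (mg.mul mg) (gcs_bdd_mul bg bg)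
  have key : ∀ t : ℝ, 0 ≤ (∫ z, g z * g z ∂γ) * (t * t) + (-(2 * ∫ z, f z * g z ∂γ)) * t +
      ∫ z, f z * f z ∂γ := by
    intro t
    have h1 : ∫ z, (f z - t * g z) ^ 2 ∂γ = (∫ z, g z * g z ∂γ) * (t * t) +
        (-(2 * ∫ z, f z * g z ∂γ)) * t + ∫ z, f z * f z ∂γ := by
      have h2 : (fun z => (f z - t * g z) ^ 2) =
          fun z => (t * t) * (g z * g z) + (-(2 * t)) * (f z * g z) + f z * f z := by
        funext z; ring
      rw [h2, integral_add, integral_add, integral_const_mul, integral_const_mul]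
      · ring
      · exact i3.const_mul _
      · exact i2.const_mul _
      · exact (i3.const_mul _).add (i2.const_mul _)
      · exact i1
    rw [← h1]
    exact integral_nonneg fun z => sq_nonneg _
  have h := discrim_le_zero key
  unfold discrim at h
  nlinarith [h]

theorem cs_step {Z : Type} [MeasurableSpace Z] (E : Act Z) (γ : Measure Z)
    [IsProbabilityMeasure γ] (hγ : ∀ σ, γ.map (E.T σ) = γ) (W : Finset ℕ) (a b : ℕ)
    (ha : a ∈ W) (hb : b ∉ W) (u Y : Z → ℝ) (mu : Measurable u) (mY : Measurable Y)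
    (bu : ∃ M, ∀ z, |u z| ≤ M) (bY : ∃ M, ∀ z, |Y z| ≤ M)
    (hu : Supp E (W.erase a) u) (hY : Supp E W Y) :
    (∫ z, u z * Y z ∂γ) ^ 2 ≤
      (∫ z, u z ^ 2 ∂γ) * ∫ z, Y z * Y (E.T (Equiv.swap a b) z) ∂γ := by
  classical
  have hab : a ≠ b := fun h => hb (h ▸ ha)
  -- fresh elements
  set m : ℕ := (insert b W).sup id + 1 with hm
  have hlt : ∀ w ∈ insert b W, ∀ j : ℕ, w < m + j := by
    intro w hw j
    have : w ≤ (insert b W).sup id := Finset.le_sup (f := id) hw
    omega
  have hne : ∀ w ∈ insert b W, ∀ j : ℕ, w ≠ m + j := fun w hw j => (hlt w hw j).ne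
  have hna : ∀ j : ℕ, a ≠ m + j := hne a (Finset.mem_insert_of_mem ha)
  have hnb : ∀ j : ℕ, b ≠ m + j := hne b (Finset.mem_insert_self _ _)
  have hnW : ∀ w ∈ W, ∀ j : ℕ, w ≠ m + j := fun w hw => hne w (Finset.mem_insert_of_mem hw)
  set V : ℕ → Z → ℝ := fun j z => Y (E.T (Equiv.swap a (m + j)) z) with hV
  have mV : ∀ j, Measurable (V j) := fun j => mY.comp (E.meas _)
  have bV : ∀ j, ∃ M, ∀ z, |V j z| ≤ M := by
    intro j
    obtain ⟨M, hM⟩ := bY
    exact ⟨M, fun z => hM _⟩
  -- u V_j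
  have h1 : ∀ j, ∫ z, u z * V j z ∂γ = ∫ z, u z * Y z ∂γ := by
    intro j
    rw [← gcs_integral_T E γ hγ (Equiv.swap a (m + j)) (fun z => u z * Y z) (mu.mul mY)]
    congr 1
    funext z
    congr 1
    symm
    apply hu
    intro w hw
    rw [Finset.mem_erase] at hw
    exact Equiv.swap_apply_of_ne_of_ne hw.1 (hnW w hw.2 j)
  -- V_i V_j
  have h2 : ∀ i j, i ≠ j → ∫ z, V i z * V j z ∂γ =
      ∫ z, Y z * Y (E.T (Equiv.swap a b) z) ∂γ := by
    intro i j hij
    set σ : Equiv.Perm ℕ := Equiv.swap a (m + i) * Equiv.swap b (m + j) with hσ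
    rw [← gcs_integral_T E γ hγ σ (fun z => Y z * Y (E.T (Equiv.swap a b) z))
      (mY.mul (mY.comp (E.meas _)))]
    congr 1
    funext z
    have hσa : σ a = m + i := by
      rw [hσ, Equiv.Perm.mul_apply, Equiv.swap_apply_of_ne_of_ne hab (hna j),
        Equiv.swap_apply_left]
    have hσb : σ b = m + j := by
      rw [hσ, Equiv.Perm.mul_apply, Equiv.swap_apply_left,
        Equiv.swap_apply_of_ne_of_ne (hna j).symm (by omega)]
    have hσw : ∀ w ∈ W, w ≠ a → σ w = w := by
      intro w hw hwa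
      have hwb : w ≠ b := fun h => hb (h ▸ hw)
      rw [hσ, Equiv.Perm.mul_apply, Equiv.swap_apply_of_ne_of_ne hwb (hnW w hw j),
        Equiv.swap_apply_of_ne_of_ne hwa (hnW w hw i)]
    have e1 : V i z = Y (E.T σ z) := by
      apply gcs_supp_congr E W Y hY
      intro w hw
      by_cases hwa : w = a
      · subst hwa
        rw [hσa, Equiv.swap_apply_left]
      · rw [hσw w hw hwa, Equiv.swap_apply_of_ne_of_ne hwa (hnW w hw i)]
    have e2 : V j z = Y (E.T (Equiv.swap a b) (E.T σ z)) := by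
      rw [← E.mul]
      apply gcs_supp_congr E W Y hY
      intro w hw
      rw [Equiv.Perm.mul_apply]
      by_cases hwa : w = a
      · subst hwa
        rw [Equiv.swap_apply_left, Equiv.swap_apply_left, hσb]
      · have hwb : w ≠ b := fun h => hb (h ▸ hw)
        rw [Equiv.swap_apply_of_ne_of_ne hwa hwb, hσw w hw hwa,
          Equiv.swap_apply_of_ne_of_ne hwa (hnW w hw j)]
    rw [e1, e2]
  have h3 : ∀ i, ∫ z, V i z * V i z ∂γ = ∫ z, Y z * Y z ∂γ := by
    intro i
    exact gcs_integral_T E γ hγ (Equiv.swap a (m + i)) (fun z => Y z * Y z) (mY.mul mY)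
  set A : ℝ := ∫ z, u z ^ 2 ∂γ with hA
  set P : ℝ := ∫ z, Y z * Y (E.T (Equiv.swap a b) z) ∂γ with hP
  set Q : ℝ := ∫ z, Y z * Y z ∂γ with hQ
  set B : ℝ := ∫ z, u z * Y z ∂γ with hB
  have hA' : A = ∫ z, u z * u z ∂γ := by
    rw [hA]; congr 1; funext z; ring
  -- main inequality
  have key : ∀ n : ℕ, (n * B) ^ 2 ≤ A * (n * Q + (n * n - n) * P) := by
    intro n
    have bS : ∃ M, ∀ z, |∑ i ∈ Finset.range n, V i z| ≤ M :=
      gcs_bdd_sum _ fun i _ => bV i
    have mS : Measurable fun z => ∑ i ∈ Finset.range n, V i z :=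
      Finset.measurable_sum _ fun i _ => mV i
    have hcs := gcs_cs γ u (fun z => ∑ i ∈ Finset.range n, V i z) mu mS bu bS
    have e1 : ∫ z, u z * (∑ i ∈ Finset.range n, V i z) ∂γ = n * B := by
      have : (fun z => u z * (∑ i ∈ Finset.range n, V i z)) =
          fun z => ∑ i ∈ Finset.range n, u z * V i z := by
        funext z; rw [Finset.mul_sum]
      have hi : ∀ i ∈ Finset.range n, Integrable (fun z => u z * V i z) γ := fun i _ =>
        gcs_integrable γ _ (mu.mul (mV i)) (gcs_bdd_mul bu (bV i))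
      rw [this, integral_finsetSum _ hi]
      rw [Finset.sum_congr rfl fun i _ => h1 i]
      simp
    have e2 : ∫ z, (∑ i ∈ Finset.range n, V i z) * (∑ i ∈ Finset.range n, V i z) ∂γ =
        n * Q + (n * n - n) * P := by
      have : (fun z => (∑ i ∈ Finset.range n, V i z) * (∑ i ∈ Finset.range n, V i z)) =
          fun z => ∑ i ∈ Finset.range n, ∑ j ∈ Finset.range n, V i z * V j z := by
        funext z; rw [Finset.sum_mul_sum]
      have hij : ∀ i, ∀ j ∈ Finset.range n, Integrable (fun z => V i z * V j z) γ := fun i j _ =>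
        gcs_integrable γ _ ((mV i).mul (mV j)) (gcs_bdd_mul (bV i) (bV j))
      have hi : ∀ i ∈ Finset.range n,
          Integrable (fun z => ∑ j ∈ Finset.range n, V i z * V j z) γ := fun i _ =>
        integrable_finsetSum _ (hij i)
      rw [this, integral_finsetSum _ hi]
      have e3 : ∀ i ∈ Finset.range n, ∫ z, ∑ j ∈ Finset.range n, V i z * V j z ∂γ =
          (Q - P) + n * P := by
        intro i hi
        rw [integral_finsetSum _ (hij i)]
        have : ∀ j ∈ Finset.range n, ∫ z, V i z * V j z ∂γ =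
            (if i = j then Q - P else 0) + P := by
          intro j _
          by_cases hij : i = j
          · subst hij
            rw [h3, if_pos rfl]; ring
          · rw [h2 i j hij, if_neg hij]; ring
        rw [Finset.sum_congr rfl this, Finset.sum_add_distrib, Finset.sum_ite_eq, if_pos hi]
        simp
      rw [Finset.sum_congr rfl e3]
      simp
      ring
    rw [e1, e2, ← hA'] at hcs
    exact hcs
  by_contra hcon
  push Not at hcon
  have hpos : 0 < B ^ 2 - A * P := by linarith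
  obtain ⟨n, hn⟩ := exists_nat_gt (A * (Q - P) / (B ^ 2 - A * P))
  have hn1 := key (n + 1)
  push_cast at hn1
  have h4 : A * (Q - P) < (B ^ 2 - A * P) * (n + 1) := by
    rw [div_lt_iff₀ hpos] at hn
    nlinarith
  have h5 : ((n : ℝ) + 1) * ((B ^ 2 - A * P) * (n + 1)) ≤ ((n : ℝ) + 1) * (A * (Q - P)) := by
    nlinarith
  have h6 : (0 : ℝ) < (n : ℝ) + 1 := by positivity
  exact absurd (le_of_mul_le_mul_left h5 h6) (not_le.2 h4)

lemma gcs_supp_step (E : Act Z) (W : Finset ℕ) (a b : ℕ) (e : Z → ℝ)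
    (he : Supp E W e) (W' : Finset ℕ) (hWW' : W ⊆ W')
    (h : ∀ w ∈ W, Equiv.swap a b w ∈ W') :
    Supp E W' (fun z => e z * e (E.T (Equiv.swap a b) z)) := by
  intro σ hσ z
  have h1 : e (E.T σ z) = e z := he σ (fun w hw => hσ w (hWW' hw)) z
  have h2 : e (E.T (Equiv.swap a b) (E.T σ z)) = e (E.T (Equiv.swap a b) z) := by
    rw [← E.mul]
    apply gcs_supp_congr E W e he
    intro w hw
    rw [Equiv.Perm.mul_apply]
    exact hσ _ (h w hw)
  simp only [h1, h2]

theorem oct_nonneg {Z : Type} [MeasurableSpace Z] (E : Act Z) (γ : Measure Z)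
    [IsProbabilityMeasure γ] (hγ : ∀ σ, γ.map (E.T σ) = γ) (W : Finset ℕ)
    (l : List (ℕ × ℕ)) (hl : l ≠ []) (hnd : (l.map Prod.fst).Nodup) (hnd' : (l.map Prod.snd).Nodup)
    (hW : ∀ p ∈ l, p.1 ∈ W) (hW' : ∀ p ∈ l, p.2 ∉ W) (e : Z → ℝ) (me : Measurable e)
    (be : ∃ M, ∀ z, |e z| ≤ M) (he : Supp E W e) : 0 ≤ ∫ z, oct E l e z ∂γ := by
  classical
  induction l generalizing W e with
  | nil => exact absurd rfl hl
  | cons p l ih =>
    have hp1 : p.1 ∈ W := hW p List.mem_cons_self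
    have hp2 : p.2 ∉ W := hW' p List.mem_cons_self
    have me' : Measurable (fun z => e z * e (E.T (Equiv.swap p.1 p.2) z)) :=
      me.mul (me.comp (E.meas _))
    have be1 : ∃ M, ∀ z, |e (E.T (Equiv.swap p.1 p.2) z)| ≤ M := by
      obtain ⟨M, hM⟩ := be
      exact ⟨M, fun z => hM _⟩
    cases l with
    | nil =>
      change 0 ≤ ∫ z, e z * e (E.T (Equiv.swap p.1 p.2) z) ∂γ
      have h := cs_step E γ hγ W p.1 p.2 hp1 hp2 (fun _ => 1) e measurable_const me
        ⟨1, fun z => by simp⟩ be (fun σ _ z => rfl) he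
      have h1 : ∫ z, (1 : ℝ) ^ 2 ∂γ = 1 := by simp
      rw [h1, one_mul] at h
      exact (sq_nonneg _).trans h
    | cons q l =>
      change 0 ≤ ∫ z, oct E (q :: l) (fun z => e z * e (E.T (Equiv.swap p.1 p.2) z)) z ∂γ
      refine ih (insert p.2 W) (List.cons_ne_nil _ _) ?_ ?_ ?_ ?_ _ me' (gcs_bdd_mul be be1) ?_
      · rw [List.map_cons] at hnd
        exact (List.nodup_cons.1 hnd).2
      · rw [List.map_cons] at hnd'
        exact (List.nodup_cons.1 hnd').2
      · intro r hr
        exact Finset.mem_insert_of_mem (hW r (List.mem_cons_of_mem _ hr))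
      · intro r hr
        rw [Finset.mem_insert, not_or]
        refine ⟨?_, hW' r (List.mem_cons_of_mem _ hr)⟩
        intro h
        rw [List.map_cons] at hnd'
        exact (List.nodup_cons.1 hnd').1 (h ▸ List.mem_map_of_mem hr)
      · refine gcs_supp_step E W p.1 p.2 e he _ (Finset.subset_insert _ _) ?_
        intro w hw
        by_cases hwa : w = p.1
        · subst hwa
          rw [Equiv.swap_apply_left]
          exact Finset.mem_insert_self _ _
        · have hwb : w ≠ p.2 := fun h => hp2 (h ▸ hw)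
          rw [Equiv.swap_apply_of_ne_of_ne hwa hwb]
          exact Finset.mem_insert_of_mem hw

omit [MeasurableSpace Z] in
lemma gcs_bdd_list (l : List (ℕ × ℕ)) (u : ℕ → Z → ℝ)
    (bu : ∀ p ∈ l, ∃ M, ∀ z, |u p.1 z| ≤ M) :
    ∃ M, ∀ z, |(l.map (fun p => u p.1 z)).prod| ≤ M := by
  induction l with
  | nil => exact ⟨1, fun z => by simp⟩
  | cons p l ih =>
    have := gcs_bdd_mul (bu p List.mem_cons_self)
      (ih fun q hq => bu q (List.mem_cons_of_mem _ hq))
    simpa using this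

lemma gcs_meas_list (l : List (ℕ × ℕ)) (u : ℕ → Z → ℝ)
    (mu : ∀ p ∈ l, Measurable (u p.1)) :
    Measurable fun z => (l.map (fun p => u p.1 z)).prod := by
  induction l with
  | nil => simp
  | cons p l ih =>
    simp only [List.map_cons, List.prod_cons]
    exact (mu p List.mem_cons_self).mul (ih fun q hq => mu q (List.mem_cons_of_mem _ hq))

lemma gcs_supp_list (E : Act Z) (W : Finset ℕ) (l : List (ℕ × ℕ)) (u : ℕ → Z → ℝ)
    (hu : ∀ p ∈ l, Supp E (W.erase p.1) (u p.1)) :
    Supp E W fun z => (l.map (fun p => u p.1 z)).prod := by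
  induction l with
  | nil => intro σ _ z; simp
  | cons p l ih =>
    intro σ hσ z
    have h1 := ih (fun q hq => hu q (List.mem_cons_of_mem _ hq)) σ hσ z
    have h2 := hu p List.mem_cons_self σ (fun w hw => hσ w (Finset.mem_of_mem_erase hw)) z
    simp only [List.map_cons, List.prod_cons, h2]
    exact congrArg _ h1

theorem gcs {Z : Type} [MeasurableSpace Z] (E : Act Z) (γ : Measure Z)
    [IsProbabilityMeasure γ] (hγ : ∀ σ, γ.map (E.T σ) = γ) (W : Finset ℕ)
    (l : List (ℕ × ℕ)) (hnd : (l.map Prod.fst).Nodup) (hnd' : (l.map Prod.snd).Nodup)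
    (hW : ∀ p ∈ l, p.1 ∈ W) (hW' : ∀ p ∈ l, p.2 ∉ W) (e : Z → ℝ) (me : Measurable e)
    (be : ∃ M, ∀ z, |e z| ≤ M) (he : Supp E W e)
    (u : ℕ → Z → ℝ) (mu : ∀ p ∈ l, Measurable (u p.1)) (bu : ∀ p ∈ l, ∃ M, ∀ z, |u p.1 z| ≤ M)
    (hu : ∀ p ∈ l, Supp E (W.erase p.1) (u p.1))
    (h0 : ∫ z, oct E l e z ∂γ = 0) :
    ∫ z, e z * (l.map (fun p => u p.1 z)).prod ∂γ = 0 := by
  classical
  induction l generalizing W e u with
  | nil => simpa [oct] using h0
  | cons p l ih =>
    have hp1 : p.1 ∈ W := hW p List.mem_cons_self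
    have hp2 : p.2 ∉ W := hW' p List.mem_cons_self
    have me' : Measurable (fun z => e z * e (E.T (Equiv.swap p.1 p.2) z)) :=
      me.mul (me.comp (E.meas _))
    have be1 : ∃ M, ∀ z, |e (E.T (Equiv.swap p.1 p.2) z)| ≤ M := by
      obtain ⟨M, hM⟩ := be
      exact ⟨M, fun z => hM _⟩
    rw [List.map_cons] at hnd hnd'
    have nd := List.nodup_cons.1 hnd
    have nd' := List.nodup_cons.1 hnd'
    have hsw : ∀ w ∈ W, Equiv.swap p.1 p.2 w ∈ insert p.2 W := by
      intro w hw
      by_cases hwa : w = p.1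
      · subst hwa
        rw [Equiv.swap_apply_left]
        exact Finset.mem_insert_self _ _
      · have hwb : w ≠ p.2 := fun h => hp2 (h ▸ hw)
        rw [Equiv.swap_apply_of_ne_of_ne hwa hwb]
        exact Finset.mem_insert_of_mem hw
    have hIH := ih (insert p.2 W) nd.2 nd'.2
      (fun r hr => Finset.mem_insert_of_mem (hW r (List.mem_cons_of_mem _ hr)))
      (by
        intro r hr
        rw [Finset.mem_insert, not_or]
        refine ⟨?_, hW' r (List.mem_cons_of_mem _ hr)⟩
        intro h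
        exact nd'.1 (h ▸ List.mem_map_of_mem hr))
      (fun z => e z * e (E.T (Equiv.swap p.1 p.2) z)) me' (gcs_bdd_mul be be1)
      (gcs_supp_step E W p.1 p.2 e he _ (Finset.subset_insert _ _) hsw)
      (fun x z => u x z * u x (E.T (Equiv.swap p.1 p.2) z))
      (fun r hr => (mu r (List.mem_cons_of_mem _ hr)).mul
        ((mu r (List.mem_cons_of_mem _ hr)).comp (E.meas _)))
      (by
        intro r hr
        have b1 := bu r (List.mem_cons_of_mem _ hr)
        have b2 : ∃ M, ∀ z, |u r.1 (E.T (Equiv.swap p.1 p.2) z)| ≤ M := by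
          obtain ⟨M, hM⟩ := b1
          exact ⟨M, fun z => hM _⟩
        exact gcs_bdd_mul b1 b2)
      (by
        intro r hr
        have hr1 : r.1 ∈ W := hW r (List.mem_cons_of_mem _ hr)
        refine gcs_supp_step E (W.erase r.1) p.1 p.2 (u r.1) (hu r (List.mem_cons_of_mem _ hr)) _
          (Finset.erase_subset_erase _ (Finset.subset_insert _ _)) ?_
        intro w hw
        rw [Finset.mem_erase] at hw
        rw [Finset.mem_erase]
        refine ⟨?_, hsw w hw.2⟩
        by_cases hwa : w = p.1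
        · subst hwa
          rw [Equiv.swap_apply_left]
          exact fun h => hp2 (h ▸ hr1)
        · have hwb : w ≠ p.2 := fun h => hp2 (h ▸ hw.2)
          rw [Equiv.swap_apply_of_ne_of_ne hwa hwb]
          exact hw.1)
      h0
    -- the function Y
    set Y : Z → ℝ := fun z => e z * (l.map (fun q => u q.1 z)).prod with hYdef
    have mY : Measurable Y := me.mul
      (gcs_meas_list l u fun q hq => mu q (List.mem_cons_of_mem _ hq))
    have bY : ∃ M, ∀ z, |Y z| ≤ M := gcs_bdd_mul be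
      (gcs_bdd_list l u fun q hq => bu q (List.mem_cons_of_mem _ hq))
    have sY : Supp E W Y := by
      intro σ hσ z
      have h1 := gcs_supp_list E W l u (fun q hq => hu q (List.mem_cons_of_mem _ hq)) σ hσ z
      have h2 := he σ hσ z
      simp only [hYdef, h2]
      exact congrArg _ h1
    have hYY : ∫ z, Y z * Y (E.T (Equiv.swap p.1 p.2) z) ∂γ = 0 := by
      rw [← hIH]
      congr 1
      funext z
      simp only [hYdef, List.prod_map_mul]
      ring
    have hcs := cs_step E γ hγ W p.1 p.2 hp1 hp2 (u p.1) Y (mu p List.mem_cons_self) mY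
      (bu p List.mem_cons_self) bY (hu p List.mem_cons_self) sY
    rw [hYY, mul_zero] at hcs
    have h5 : ∫ z, u p.1 z * Y z ∂γ = 0 := pow_eq_zero_iff (two_ne_zero) |>.1
      (le_antisymm hcs (sq_nonneg _))
    rw [← h5]
    congr 1
    funext z
    simp only [hYdef, List.map_cons, List.prod_cons]
    ring

end GCS

end Pool.Agent.R130.Theon
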