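import Pool.Agent.R130.Theon.Pert
import Pool.Agent.R130.Theon.GCS

/-!
# Lemma E1: the level dichotomy (helper80, for helper130)
-/

open MeasureTheory ProbabilityTheory
open scoped ENNReal

namespace Pool.Agent.R130.Theon

variable {L L₁ L₂ : FirstOrder.Language.{0, 0}} {X X₁ X₂ : Type} [MeasurableSpace X]
  [MeasurableSpace X₁] [MeasurableSpace X₂]

/-- `F` depends only on the relations between vertices in `V` -/
def DetV (V : Finset ℕ) (F : Str L → ℝ) : Prop :=
  ∀ K K' : Str L, (∀ p a, (∀ i, a i ∈ V) → K p a = K' p a) → F K = F K'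

lemma exists_perm_extend (S : Finset ℕ) (h : ℕ → ℕ) (hh : Function.Injective h) :
    ∃ σ : Equiv.Perm ℕ, ∀ x ∈ S, σ x = h x := by
  classical
  have i1 : Infinite ((S : Set ℕ)ᶜ : Set ℕ) := (S.finite_toSet.infinite_compl).to_subtype
  have i2 : Infinite ((h '' (S : Set ℕ))ᶜ : Set ℕ) :=
    ((S.finite_toSet.image h).infinite_compl).to_subtype
  obtain ⟨e₂⟩ : Nonempty (((S : Set ℕ)ᶜ : Set ℕ) ≃ ((h '' (S : Set ℕ))ᶜ : Set ℕ)) :=
    nonempty_equiv_of_countable
  let e₁ : (S : Set ℕ) ≃ (h '' (S : Set ℕ)) := Equiv.Set.image h S hh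
  refine ⟨(Equiv.Set.sumCompl (S : Set ℕ)).symm.trans
    ((Equiv.sumCongr e₁ e₂).trans (Equiv.Set.sumCompl (h '' (S : Set ℕ)))), fun x hx => ?_⟩
  simp only [Equiv.trans_apply]
  rw [Equiv.Set.sumCompl_symm_apply_of_mem (Finset.mem_coe.2 hx)]
  rfl

lemma map_fix' {W : Finset ℕ} {σ : Equiv.Perm ℕ} (hσ : ∀ w ∈ W, σ w = w) {B : Idx ℕ}
    (hB : B.1 ⊆ W) : Idx.map σ.toEmbedding B = B := by
  apply Subtype.ext
  simp only [Idx.map]
  ext x
  rw [Finset.mem_map]
  constructor
  · rintro ⟨y, hy, rfl⟩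
    rw [Equiv.toEmbedding_apply, hσ y (hB hy)]
    exact hy
  · intro hx
    exact ⟨x, hx, hσ x (hB hx)⟩

/-- Positivity of the octahedral average, from a nonvanishing test integral. -/
lemma oct_pos (μ : Measure X) [IsProbabilityMeasure μ] (N : EucStr L X) (V : Finset ℕ)
    (F : Str L → ℝ) (mF : Measurable F) (bF : ∃ M, ∀ K, |F K| ≤ M) (hF : DetV V F) (A : Idx ℕ)
    (e : X → ℝ) (me : Measurable e) (be : ∀ x, |e x| ≤ 1) (D : Finset (Idx ℕ))
    (t : Idx ℕ → Set X) (ht : ∀ B, MeasurableSet (t B))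
    (hD : ∀ B ∈ D, (lev B : ℕ) ≤ (lev A : ℕ) ∧ B ≠ A)
    (h0 : ∫ θ, F (N.arr θ) * e (θ A) * box t D θ ∂(iid μ) ≠ 0) (l : List (ℕ × ℕ))
    (hnd : (l.map Prod.fst).Nodup) (hA : (l.map Prod.fst).toFinset = A.1)
    (hnd' : (l.map Prod.snd).Nodup)
    (hW' : ∀ p ∈ l, p.2 ∉ V ∪ A.1 ∪ D.biUnion fun B => B.1) :
    0 < ∫ θ, oct (actC X) l (fun θ => F (N.arr θ) * e (θ A)) θ ∂(iid μ) := by
  classical
  set W : Finset ℕ := V ∪ A.1 ∪ D.biUnion fun B => B.1 with hWdef
  have hγ : ∀ σ, (iid μ).map ((actC X).T σ) = iid μ := fun σ => iid_permC μ σ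
  have hmem : ∀ p ∈ l, p.1 ∈ A.1 := by
    intro p hp
    rw [← hA, List.mem_toFinset]
    exact List.mem_map_of_mem hp
  have hW : ∀ p ∈ l, p.1 ∈ W := fun p hp => by
    rw [hWdef]
    exact Finset.mem_union_left _ (Finset.mem_union_right _ (hmem p hp))
  have hl : l ≠ [] := by
    rintro rfl
    have := A.2
    rw [← hA] at this
    simp at this
  have mE : Measurable (fun θ : Idx ℕ → X => F (N.arr θ) * e (θ A)) :=
    (mF.comp N.measurable_arr).mul (me.comp (measurable_pi_apply A))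
  have bE : ∃ M, ∀ θ : Idx ℕ → X, |F (N.arr θ) * e (θ A)| ≤ M := by
    obtain ⟨M, hM⟩ := bF
    refine ⟨M * 1, fun θ => ?_⟩
    rw [abs_mul]
    exact mul_le_mul (hM _) (be _) (abs_nonneg _) ((abs_nonneg _).trans (hM (N.arr θ)))
  have sE : Supp (actC X) W (fun θ : Idx ℕ → X => F (N.arr θ) * e (θ A)) := by
    intro σ hσ θ
    have c1 : F (N.arr (permC σ θ)) = F (N.arr θ) := by
      rw [N.arr_permC]
      refine hF _ _ fun p a ha => ?_
      simp only [permS]
      congr 1
      funext i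
      exact hσ _ (by
        rw [hWdef]
        exact Finset.mem_union_left _ (Finset.mem_union_left _ (ha i)))
    have c2 : (permC σ θ) A = θ A := by
      simp only [permC]
      rw [map_fix' hσ (B := A)]
      rw [hWdef]
      exact (Finset.subset_union_right).trans Finset.subset_union_left
    change F (N.arr (permC σ θ)) * e ((permC σ θ) A) = F (N.arr θ) * e (θ A)
    rw [c1, c2]
  have hnn := oct_nonneg (actC X) (iid μ) hγ W l hl hnd hnd' hW hW' _ mE bE sE
  refine lt_of_le_of_ne hnn fun hzero => h0 ?_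
  -- choose a vertex of `A` missed by every `B ∈ D`
  have hmiss : ∀ B : Idx ℕ, ∃ a, B ∈ D → a ∈ A.1 ∧ a ∉ B.1 := by
    intro B
    by_cases hB : B ∈ D
    · have h1 := hD B hB
      have : ¬ A.1 ⊆ B.1 := by
        intro hsub
        have hc : B.1.card ≤ A.1.card := h1.1
        have := Finset.eq_of_subset_of_card_le hsub hc
        exact h1.2 (Subtype.ext this.symm)
      obtain ⟨a, ha, ha'⟩ := Finset.not_subset.1 this
      exact ⟨a, fun _ => ⟨ha, ha'⟩⟩
    · exact ⟨0, fun h => absurd h hB⟩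
  choose c hc using hmiss
  set u : ℕ → (Idx ℕ → X) → ℝ := fun a θ => box t (D.filter fun B => c B = a) θ with hu
  have su : ∀ p ∈ l, Supp (actC X) (W.erase p.1) (u p.1) := by
    intro p hp σ hσ θ
    simp only [hu, box]
    refine Finset.prod_congr rfl fun B hB => ?_
    have hBD := (Finset.mem_filter.1 hB).1
    have hcB := (Finset.mem_filter.1 hB).2
    have : ((actC X).T σ θ) B = θ B := by
      change θ (Idx.map σ.toEmbedding B) = θ B
      rw [map_fix' hσ]
      intro x hx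
      rw [Finset.mem_erase]
      refine ⟨?_, ?_⟩
      · rintro rfl
        exact (hc B hBD).2 (hcB ▸ hx)
      · rw [hWdef]
        exact Finset.mem_union_right _ (Finset.mem_biUnion.2 ⟨B, hBD, hx⟩)
    rw [this]
  have hg := gcs (actC X) (iid μ) hγ W l hnd hnd' hW hW' _ mE bE sE u
    (fun p _ => measurable_box ht _) (fun p _ => ⟨1, fun z => abs_box_le _ _ _⟩) su hzero.symm
  have e1 : ∀ z : Idx ℕ → X, (l.map (fun p => u p.1 z)).prod = box t D z := by
    intro z
    have : (l.map (fun p => u p.1 z)) = (l.map Prod.fst).map (fun a => u a z) := by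
      rw [List.map_map]
      rfl
    rw [this, ← List.prod_toFinset _ hnd, hA]
    simp only [hu, box]
    exact Finset.prod_fiberwise_of_maps_to (fun B hB => (hc B hB).1) _
  simp only [e1] at hg
  exact hg

/-- the non-empty subsets of `V` -/
noncomputable def below (V : Finset ℕ) : Finset (Idx ℕ) :=
  ((V.powerset.finite_toSet).preimage (f := (Subtype.val : Idx ℕ → Finset ℕ))
    Subtype.val_injective.injOn).toFinset

lemma mem_below {V : Finset ℕ} {B : Idx ℕ} : B ∈ below V ↔ B.1 ⊆ V := by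
  simp [below]

lemma depOn_arr (N : EucStr L X) {V : Finset ℕ} {F : Str L → ℝ} (hF : DetV V F) :
    DepOn (below V) (fun θ => F (N.arr θ)) := by
  intro x y hxy
  refine hF _ _ fun p a ha => ?_
  have : ∀ h : Function.Injective a, (fun A : Idx (Fin p.1) => x (Idx.map ⟨a, h⟩ A)) =
      fun A : Idx (Fin p.1) => y (Idx.map ⟨a, h⟩ A) := by
    intro h
    funext A
    refine hxy _ (mem_below.2 ?_)
    intro z hz
    simp only [Idx.map, Finset.mem_map, Function.Embedding.coeFn_mk] at hz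
    obtain ⟨i, _, rfl⟩ := hz
    exact ha i
  apply propext
  constructor
  · rintro ⟨h, hm⟩
    exact ⟨h, this h ▸ hm⟩
  · rintro ⟨h, hm⟩
    exact ⟨h, (this h).symm ▸ hm⟩

lemma DepOn.mono {D D' : Finset (Idx ℕ)} (h : D ⊆ D') {f : (Idx ℕ → X) → ℝ} (hf : DepOn D f) :
    DepOn D' f := fun x y hxy => hf x y fun B hB => hxy B (h hB)

lemma octF_mono (l : List (ℕ × ℕ)) {D D' : Finset (Idx ℕ)} (h : D ⊆ D') :
    octF l D ⊆ octF l D' := by
  induction l generalizing D D' with
  | nil => exact h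
  | cons p l ih => exact ih (Finset.union_subset_union h (Finset.map_subset_map.2 h))

lemma detV_permS {V : Finset ℕ} {F : Str L → ℝ} (hF : DetV V F) (σ : Equiv.Perm ℕ) :
    DetV (V.map σ.toEmbedding) (fun K => F (permS σ K)) := by
  intro K K' h
  refine hF _ _ fun p a ha => ?_
  exact h p (σ ∘ a) fun i => Finset.mem_map_of_mem _ (ha i)

/-- Unique coupleability is contradicted by positive octahedral averages at the same level. -/
theorem level_contradiction [L₁.IsRelational] [L₂.IsRelational] {T₁ : L₁.Theory}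
    {T₂ : L₂.Theory} [StandardBorelSpace X₁] [StandardBorelSpace X₂] (μ₁ : Measure X₁)
    [IsProbabilityMeasure μ₁] (μ₂ : Measure X₂) [IsProbabilityMeasure μ₂] (N₁ : EucStr L₁ X₁)
    (N₂ : EucStr L₂ X₂) (t₁ : N₁.IsTon μ₁ T₁) (t₂ : N₂.IsTon μ₂ T₂)
    (hu : UniquelyCoupleable T₁ T₂ (N₁.law μ₁) (N₂.law μ₂))
    (F : Str L₁ → ℝ) (mF : Measurable F) (bF : ∃ M, ∀ K, |F K| ≤ M) (V : Finset ℕ)
    (hF : DetV V F) (G : Str L₂ → ℝ) (mG : Measurable G) (bG : ∃ M, ∀ K, |G K| ≤ M)
    (V' : Finset ℕ) (hG : DetV V' G) (A : Idx ℕ) (e : X₁ → ℝ) (me : Measurable e)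
    (be : ∀ x, |e x| ≤ 1) (ze : ∫ x, e x ∂μ₁ = 0) (e' : X₂ → ℝ) (me' : Measurable e')
    (be' : ∀ x, |e' x| ≤ 1) (ze' : ∫ x, e' x ∂μ₂ = 0) (l : List (ℕ × ℕ)) (hl : Good l)
    (hA : ∀ p ∈ l, p.1 ∈ A.1 ∧ p.2 ∉ A.1) (hV : ∀ p ∈ l, p.2 ∉ V) (hV' : ∀ p ∈ l, p.2 ∉ V')
    (hVV : V ∩ V' ⊆ A.1)
    (pos : 0 < ∫ θ, oct (actC X₁) l (fun θ => F (N₁.arr θ) * e (θ A)) θ ∂(iid μ₁))
    (pos' : 0 < ∫ θ, oct (actC X₂) l (fun θ => G (N₂.arr θ) * e' (θ A)) θ ∂(iid μ₂)) :
    False := by
  classical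
  set F1 := oct (actS L₁) l F with hF1
  set G1 := oct (actS L₂) l G with hG1
  set S := octF l {A} with hS
  have mF1 : Measurable F1 := measurable_oct _ _ mF
  have mG1 : Measurable G1 := measurable_oct _ _ mG
  obtain ⟨M, hM⟩ : ∃ M, ∀ K, |F1 K| ≤ M := bdd_oct _ _ bF
  obtain ⟨M', hM'⟩ : ∃ M, ∀ K, |G1 K| ≤ M := bdd_oct _ _ bG
  have hA1 : ∀ B ∈ ({A} : Finset (Idx ℕ)), ∀ p ∈ l, p.1 ∈ B.1 ∧ p.2 ∉ B.1 := by
    intro B hB p hp
    rw [Finset.mem_singleton.1 hB]
    exact hA p hp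
  have o1 : oct (actC X₁) l (fun θ => F (N₁.arr θ) * e (θ A)) =
      fun θ => F1 (N₁.arr θ) * ∏ B ∈ S, e (θ B) := by
    rw [oct_mul, oct_comp_arr]
    have := oct_prod l hl {A} e hA1
    simp only [Finset.prod_singleton] at this
    rw [this]
  have o2 : oct (actC X₂) l (fun θ => G (N₂.arr θ) * e' (θ A)) =
      fun θ => G1 (N₂.arr θ) * ∏ B ∈ S, e' (θ B) := by
    rw [oct_mul, oct_comp_arr]
    have := oct_prod l hl {A} e' hA1
    simp only [Finset.prod_singleton] at this
    rw [this]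
  rw [o1] at pos
  rw [o2] at pos'
  set m : ℕ := (lev A : ℕ) with hm
  set D := octF l (below (V ∪ A.1)) with hD
  set D' := octF l (below (V' ∪ A.1)) with hD'
  have dF : DepOn D (fun θ => F1 (N₁.arr θ)) := by
    have h1 : DepOn (below (V ∪ A.1)) (fun θ => F (N₁.arr θ)) :=
      (depOn_arr N₁ hF).mono fun B hB => mem_below.2
        ((mem_below.1 hB).trans Finset.subset_union_left)
    have h2 := oct_depOn l _ h1
    rwa [oct_comp_arr] at h2
  have dG : DepOn D' (fun θ => G1 (N₂.arr θ)) := by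
    have h1 : DepOn (below (V' ∪ A.1)) (fun θ => G (N₂.arr θ)) :=
      (depOn_arr N₂ hG).mono fun B hB => mem_below.2
        ((mem_below.1 hB).trans Finset.subset_union_left)
    have h2 := oct_depOn l _ h1
    rwa [oct_comp_arr] at h2
  have common : ∀ B ∈ D, B ∈ D' → (lev B : ℕ) = m → B ∈ S := by
    refine octF_common l hl _ _ _ m ?_ ?_ ?_ ?_
    · intro B hB p hp h
      rcases Finset.mem_union.1 (mem_below.1 hB h) with h | h
      · exact hV p hp h
      · exact (hA p hp).2 h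
    · intro B hB p hp h
      rcases Finset.mem_union.1 (mem_below.1 hB h) with h | h
      · exact hV' p hp h
      · exact (hA p hp).2 h
    · intro B hB hB' hlev
      rw [Finset.mem_singleton]
      have hsub : B.1 ⊆ A.1 := by
        intro x hx
        rcases Finset.mem_union.1 (mem_below.1 hB hx) with h | h
        · rcases Finset.mem_union.1 (mem_below.1 hB' hx) with h' | h'
          · exact hVV (Finset.mem_inter.2 ⟨h, h'⟩)
          · exact h'
        · exact h
      have hc : A.1.card ≤ B.1.card := le_of_eq hlev.symm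
      exact Subtype.ext (Finset.eq_of_subset_of_card_le hsub hc)
    · intro B hB p hp
      exact (hA1 B hB p hp).1
  set R := (D ∪ D').filter fun B => (lev B : ℕ) = m with hR
  set a : Finset (Idx ℕ) → ℝ := fun S' => ∫ x, F1 (N₁.arr x) * ∏ B ∈ S', e (x B) ∂(iid μ₁)
    with ha
  set b : Finset (Idx ℕ) → ℝ := fun S' => ∫ y, G1 (N₂.arr y) * ∏ B ∈ S', e' (y B) ∂(iid μ₂)
    with hb
  have vanish : ∀ S' ∈ R.powerset, ¬ S' ⊆ S → a S' * b S' = 0 := by
    intro S' hS' hnot
    obtain ⟨B, hB, hBS⟩ := Finset.not_subset.1 hnot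
    have hBR := Finset.mem_powerset.1 hS' hB
    have hlev := (Finset.mem_filter.1 hBR).2
    by_cases h1 : B ∈ D
    · have h2 : B ∉ D' := fun h2 => hBS (common B h1 h2 hlev)
      have : b S' = 0 := integral_vanish μ₂ me' ze' D' (mG1.comp N₂.measurable_arr) dG S' hB h2
      rw [this, mul_zero]
    · have : a S' = 0 := integral_vanish μ₁ me ze D (mF1.comp N₁.measurable_arr) dF S' hB h1
      rw [this, zero_mul]
  -- unique coupleability for every `c`
  have ident : ∀ c : ℝ, 0 ≤ c → c ≤ 1 → ∑ S' ∈ R.powerset, c ^ S'.card * (a S' * b S') =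
      (∫ K, F1 K ∂(N₁.law μ₁)) * ∫ K, G1 K ∂(N₂.law μ₂) := by
    intro c hc hc'
    have ilam : IsProbabilityMeasure (lam μ₁ μ₂ e e' c) :=
      lam_prob μ₁ μ₂ me me' be be' ze ze' hc hc'
    have q₁ : ∀ k : ℕ+, Measurable (fun z : (X₁ × X₂) × (X₁ × X₂) =>
        if (k : ℕ) = m then z.1.1 else z.2.1) := by
      intro k
      split_ifs
      · exact measurable_fst.comp measurable_fst
      · exact measurable_fst.comp measurable_snd
    have q₂ : ∀ k : ℕ+, Measurable (fun z : (X₁ × X₂) × (X₁ × X₂) =>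
        if (k : ℕ) = m then z.1.2 else z.2.2) := by
      intro k
      split_ifs
      · exact measurable_snd.comp measurable_fst
      · exact measurable_snd.comp measurable_snd
    have r₁ : ∀ k : ℕ+, ((lam μ₁ μ₂ e e' c).prod (μ₁.prod μ₂)).map
        (fun z : (X₁ × X₂) × (X₁ × X₂) => if (k : ℕ) = m then z.1.1 else z.2.1) = μ₁ := by
      intro k
      split_ifs
      · have : (fun z : (X₁ × X₂) × (X₁ × X₂) => z.1.1) = Prod.fst ∘ Prod.fst := rfl
        rw [this, ← Measure.map_map measurable_fst measurable_fst, Measure.map_fst_prod]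
        simp [lam_fst μ₁ μ₂ me me' be be' ze ze' hc hc']
      · have : (fun z : (X₁ × X₂) × (X₁ × X₂) => z.2.1) = Prod.fst ∘ Prod.snd := rfl
        rw [this, ← Measure.map_map measurable_fst measurable_snd, Measure.map_snd_prod]
        simp
    have r₂ : ∀ k : ℕ+, ((lam μ₁ μ₂ e e' c).prod (μ₁.prod μ₂)).map
        (fun z : (X₁ × X₂) × (X₁ × X₂) => if (k : ℕ) = m then z.1.2 else z.2.2) = μ₂ := by
      intro k
      split_ifs
      · have : (fun z : (X₁ × X₂) × (X₁ × X₂) => z.1.2) = Prod.snd ∘ Prod.fst := rfl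
        rw [this, ← Measure.map_map measurable_snd measurable_fst, Measure.map_fst_prod]
        simp [lam_snd μ₁ μ₂ me me' be be' ze ze' hc hc']
      · have : (fun z : (X₁ × X₂) × (X₁ × X₂) => z.2.2) = Prod.snd ∘ Prod.snd := rfl
        rw [this, ← Measure.map_map measurable_snd measurable_snd, Measure.map_snd_prod]
        simp
    have h := uniq_comb ((lam μ₁ μ₂ e e' c).prod (μ₁.prod μ₂)) μ₁ μ₂ N₁ N₂
      (fun k z => if (k : ℕ) = m then z.1.1 else z.2.1)
      (fun k z => if (k : ℕ) = m then z.1.2 else z.2.2) q₁ q₂ r₁ r₂ t₁ t₂ hu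
    have mK : Measurable (fun K : Str L₁ × Str L₂ => F1 K.1 * G1 K.2) :=
      (mF1.comp measurable_fst).mul (mG1.comp measurable_snd)
    have mmap : Measurable (fun ζ : Idx ℕ → (X₁ × X₂) × (X₁ × X₂) =>
        (N₁.arr (fun A => if (lev A : ℕ) = m then (ζ A).1.1 else (ζ A).2.1),
          N₂.arr (fun A => if (lev A : ℕ) = m then (ζ A).1.2 else (ζ A).2.2))) :=
      (N₁.measurable_arr.comp (measurable_lev
        (fun (k : ℕ+) (z : (X₁ × X₂) × (X₁ × X₂)) => if (k : ℕ) = m then z.1.1 else z.2.1)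
        q₁)).prodMk
      (N₂.measurable_arr.comp (measurable_lev
        (fun (k : ℕ+) (z : (X₁ × X₂) × (X₁ × X₂)) => if (k : ℕ) = m then z.1.2 else z.2.2) q₂))
    have p := integral_pert μ₁ μ₂ me me' be be' ze ze' hc hc' m D D'
      (mF1.comp N₁.measurable_arr) (mG1.comp N₂.measurable_arr) ⟨M, fun x => hM _⟩
      ⟨M', fun y => hM' _⟩ dF dG
    rw [← integral_prod_mul, ← h, integral_map mmap.aemeasurable mK.aestronglyMeasurable]
    exact p.symm
  -- polynomial identity
  set Q : Polynomial ℝ := ∑ S' ∈ R.powerset, Polynomial.C (a S' * b S') * Polynomial.X ^ S'.card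
    with hQ
  set κ : ℝ := (∫ K, F1 K ∂(N₁.law μ₁)) * ∫ K, G1 K ∂(N₂.law μ₂) with hκ
  have hQC : Q = Polynomial.C κ := by
    refine Polynomial.eq_of_infinite_eval_eq _ _
      (Set.Infinite.mono (s := Set.Icc (0 : ℝ) 1) ?_ (Set.Icc_infinite zero_lt_one))
    intro c hc
    simp only [Set.mem_setOf_eq, hQ, Polynomial.eval_finset_sum, Polynomial.eval_mul,
      Polynomial.eval_C, Polynomial.eval_pow, Polynomial.eval_X]
    rw [← ident c hc.1 hc.2]
    exact Finset.sum_congr rfl fun S' _ => mul_comm _ _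
  have hAS : A ∈ S := subset_octF l _ (Finset.mem_singleton_self A)
  have hScard : S.card ≠ 0 := Finset.card_ne_zero_of_mem hAS
  have hSR : S ∈ R.powerset := by
    rw [Finset.mem_powerset]
    intro B hB
    rw [hR, Finset.mem_filter]
    refine ⟨Finset.mem_union_left _ (octF_mono l ?_ hB), lev_octF l {A} m ?_ B hB⟩
    · intro B hB
      rw [Finset.mem_singleton.1 hB, mem_below]
      exact Finset.subset_union_right
    · intro B hB
      rw [Finset.mem_singleton.1 hB]
  have hcoef := congrArg (fun P => Polynomial.coeff P S.card) hQC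
  simp only [hQ, Polynomial.finset_sum_coeff, Polynomial.coeff_C_mul_X_pow,
    Polynomial.coeff_C, hScard, if_false] at hcoef
  rw [Finset.sum_eq_single_of_mem S hSR] at hcoef
  · simp only [if_true] at hcoef
    exact (mul_pos pos pos').ne' hcoef
  · intro S' hS' hne
    split_ifs with hcard
    · refine vanish S' hS' fun hsub => hne ?_
      exact Finset.eq_of_subset_of_card_le hsub hcard.le
    · rfl

/-- If the averages over the levels `> ℓ + 1` and `> ℓ` differ, then there are octahedral averages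
of positive integral, in all sufficiently free positions. -/
lemma exists_oct_pos (μ : Measure X) [IsProbabilityMeasure μ] (N : EucStr L X) (ℓ : ℕ)
    (V : Finset ℕ) (F : Str L → ℝ) (mF : Measurable F) (bF : ∃ M, ∀ K, |F K| ≤ M)
    (hF : DetV V F)
    (h : ¬ (avg μ (ℓ + 1) (fun θ => F (N.arr θ)) =ᵐ[iid μ] avg μ ℓ (fun θ => F (N.arr θ)))) :
    ∃ (A : Idx ℕ) (e : X → ℝ) (W : Finset ℕ), (lev A : ℕ) = ℓ + 1 ∧ Measurable e ∧
      (∀ x, |e x| ≤ 1) ∧ ∫ x, e x ∂μ = 0 ∧ V ⊆ W ∧ A.1 ⊆ W ∧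
      ∀ l : List (ℕ × ℕ), (l.map Prod.fst).Nodup → (l.map Prod.fst).toFinset = A.1 →
        (l.map Prod.snd).Nodup → (∀ p ∈ l, p.2 ∉ W) →
        0 < ∫ θ, oct (actC X) l (fun θ => F (N.arr θ) * e (θ A)) θ ∂(iid μ) := by
  obtain ⟨M, hM⟩ := bF
  have hnot : ¬ Irr μ (ℓ + 1) (fun θ => F (N.arr θ)) := fun hi =>
    h (avg_eq_of_irr μ ℓ (mF.comp N.measurable_arr) (M := M) (fun x => hM _) hi)
  unfold Irr at hnot
  push Not at hnot
  obtain ⟨A, U, D, t, hlev, hU, ht, hD, hne⟩ := hnot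
  have be : ∀ x, |ind U x - μ.real U| ≤ 1 := by
    intro x
    have h1 := ind_nonneg U x
    have h2 := ind_le_one U x
    have h3 : 0 ≤ μ.real U := measureReal_nonneg
    have h4 : μ.real U ≤ 1 := measureReal_le_one
    rw [abs_le]
    constructor <;> linarith
  have me : Measurable (fun x => ind U x - μ.real U) := (measurable_ind hU).sub measurable_const
  refine ⟨A, fun x => ind U x - μ.real U, V ∪ A.1 ∪ D.biUnion fun B => B.1, hlev, me, be, ?_,
    ?_, ?_, ?_⟩
  · rw [integral_sub (integrable_of_bdd _ (measurable_ind hU) (abs_ind_le U))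
      (integrable_const _), integral_ind μ hU]
    simp
  · exact Finset.subset_union_left.trans Finset.subset_union_left
  · exact Finset.subset_union_right.trans Finset.subset_union_left
  · intro l hnd hA hnd' hW'
    refine oct_pos μ N V F mF ⟨M, hM⟩ hF A _ me be D t ht (fun B hB => ?_) hne l hnd hA hnd' hW'
    rw [hlev]
    exact hD B hB

/-- **Lemma E1.**  If two limit objects are uniquely coupleable, then every level is irrelevant
for one of them. -/
theorem level_dichotomy [L₁.IsRelational] [L₂.IsRelational] {T₁ : L₁.Theory}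
    {T₂ : L₂.Theory} [StandardBorelSpace X₁] [StandardBorelSpace X₂] (μ₁ : Measure X₁)
    [IsProbabilityMeasure μ₁] (μ₂ : Measure X₂) [IsProbabilityMeasure μ₂] (N₁ : EucStr L₁ X₁)
    (N₂ : EucStr L₂ X₂) (t₁ : N₁.IsTon μ₁ T₁) (t₂ : N₂.IsTon μ₂ T₂)
    (hu : UniquelyCoupleable T₁ T₂ (N₁.law μ₁) (N₂.law μ₂)) (ℓ : ℕ) :
    (∀ (V : Finset ℕ) (F : Str L₁ → ℝ), Measurable F → (∃ M, ∀ K, |F K| ≤ M) → DetV V F →
      avg μ₁ (ℓ + 1) (fun θ => F (N₁.arr θ)) =ᵐ[iid μ₁] avg μ₁ ℓ (fun θ => F (N₁.arr θ))) ∨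
    (∀ (V : Finset ℕ) (F : Str L₂ → ℝ), Measurable F → (∃ M, ∀ K, |F K| ≤ M) → DetV V F →
      avg μ₂ (ℓ + 1) (fun θ => F (N₂.arr θ)) =ᵐ[iid μ₂] avg μ₂ ℓ (fun θ => F (N₂.arr θ))) := by
  classical
  by_contra hcon
  push Not at hcon
  obtain ⟨⟨V, F, mF, bF, hF, hne⟩, ⟨V', G, mG, bG, hG, hne'⟩⟩ := hcon
  obtain ⟨A, e, W, hlev, me, be, ze, hVW, hAW, pos⟩ :=
    exists_oct_pos μ₁ N₁ ℓ V F mF bF hF hne
  obtain ⟨A', e', W', hlev', me', be', ze', hVW', hAW', pos'⟩ :=
    exists_oct_pos μ₂ N₂ ℓ V' G mG bG hG hne'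
  -- bounds for the vertices
  obtain ⟨n, hn⟩ : ∃ n : ℕ, ∀ x ∈ W, x < n := by
    obtain ⟨n, hn⟩ := W.exists_nat_subset_range
    exact ⟨n, fun x hx => Finset.mem_range.1 (hn hx)⟩
  obtain ⟨n', hn'⟩ : ∃ n : ℕ, ∀ x ∈ W', x < n := by
    obtain ⟨n, hn⟩ := W'.exists_nat_subset_range
    exact ⟨n, fun x hx => Finset.mem_range.1 (hn hx)⟩
  -- a bijection from `A'` to `A`
  have hcard : A'.1.card = A.1.card := hlev'.trans hlev.symm
  let φ : A'.1 ≃ A.1 := Finset.equivOfCardEq hcard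
  set h : ℕ → ℕ := fun x => if hx : x ∈ A'.1 then (φ ⟨x, hx⟩ : ℕ) else x + n with hh
  have hin : ∀ x (hx : x ∈ A'.1), h x = φ ⟨x, hx⟩ := fun x hx => by simp only [hh, hx, dif_pos]
  have hout : ∀ x, x ∉ A'.1 → h x = x + n := fun x hx => by
    simp only [hh, hx, dif_neg, not_false_eq_true]
  have hAlt : ∀ x (hx : x ∈ A'.1), h x ∈ A.1 := fun x hx => by
    rw [hin x hx]
    exact (φ ⟨x, hx⟩).2
  have hinj : Function.Injective h := by
    intro x y hxy
    by_cases hx : x ∈ A'.1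
    · by_cases hy : y ∈ A'.1
      · rw [hin x hx, hin y hy] at hxy
        have := φ.injective (Subtype.ext hxy)
        exact congrArg Subtype.val this
      · exfalso
        have h1 := hn _ (hAW (hAlt x hx))
        rw [hxy, hout y hy] at h1
        omega
    · by_cases hy : y ∈ A'.1
      · exfalso
        have h1 := hn _ (hAW (hAlt y hy))
        rw [← hxy, hout x hx] at h1
        omega
      · rw [hout x hx, hout y hy] at hxy
        omega
  -- the list
  set l' : List (ℕ × ℕ) := A'.1.toList.map (fun a => (a, n' + a)) with hl'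
  have hmem' : ∀ p ∈ l', p.1 ∈ A'.1 ∧ p.2 = n' + p.1 := by
    intro p hp
    rw [hl', List.mem_map] at hp
    obtain ⟨a, ha, rfl⟩ := hp
    exact ⟨Finset.mem_toList.1 ha, rfl⟩
  have hfst' : l'.map Prod.fst = A'.1.toList := by
    rw [hl', List.map_map]
    exact List.map_id _
  have hsnd' : l'.map Prod.snd = A'.1.toList.map (fun a => n' + a) := by
    rw [hl', List.map_map]
    rfl
  have hnd1 : (l'.map Prod.fst).Nodup := by
    rw [hfst']
    exact Finset.nodup_toList _
  have hnd2 : (l'.map Prod.snd).Nodup := by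
    rw [hsnd']
    exact (Finset.nodup_toList _).map (fun a b hab => by simpa using hab)
  have hA'eq : (l'.map Prod.fst).toFinset = A'.1 := by
    rw [hfst']
    exact Finset.toList_toFinset _
  have hout' : ∀ p ∈ l', p.2 ∉ W' := by
    intro p hp hW
    have h1 := hn' _ hW
    rw [(hmem' p hp).2] at h1
    omega
  have P' := pos' l' hnd1 hA'eq hnd2 hout'
  -- the permutation
  obtain ⟨σ, hσ⟩ := exists_perm_extend (W' ∪ (l'.map Prod.snd).toFinset) h hinj
  have hσW : ∀ x ∈ W', σ x = h x := fun x hx => hσ x (Finset.mem_union_left _ hx)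
  have hσ2 : ∀ p ∈ l', σ p.2 = n' + p.1 + n := by
    intro p hp
    rw [hσ p.2 (Finset.mem_union_right _ (by
      rw [List.mem_toFinset]
      exact List.mem_map_of_mem hp)), hout, (hmem' p hp).2]
    intro hc
    exact hout' p hp (hAW' hc)
  have hσA : Idx.map σ.toEmbedding A' = A := by
    apply Subtype.ext
    refine Finset.eq_of_subset_of_card_le ?_ ?_
    · intro x hx
      simp only [Idx.map, Finset.mem_map] at hx
      obtain ⟨y, hy, rfl⟩ := hx
      rw [Equiv.toEmbedding_apply, hσW y (hAW' hy)]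
      exact hAlt y hy
    · change A.1.card ≤ (A'.1.map σ.toEmbedding).card
      rw [Finset.card_map, hcard]
  set l : List (ℕ × ℕ) := l'.map (Prod.map σ σ) with hl
  have gen1 : ∀ q : List (ℕ × ℕ), (q.map (Prod.map σ σ)).map Prod.fst =
      (q.map Prod.fst).map σ := by
    intro q
    rw [List.map_map, List.map_map]
    rfl
  have gen2 : ∀ q : List (ℕ × ℕ), (q.map (Prod.map σ σ)).map Prod.snd =
      (q.map Prod.snd).map σ := by
    intro q
    rw [List.map_map, List.map_map]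
    rfl
  have hfst : l.map Prod.fst = (l'.map Prod.fst).map σ := gen1 l'
  have hsnd : l.map Prod.snd = (l'.map Prod.snd).map σ := gen2 l'
  have hndl1 : (l.map Prod.fst).Nodup := by
    rw [hfst]
    exact hnd1.map σ.injective
  have hndl2 : (l.map Prod.snd).Nodup := by
    rw [hsnd]
    exact hnd2.map σ.injective
  have hAeq : (l.map Prod.fst).toFinset = A.1 := by
    rw [← hσA]
    change _ = A'.1.map σ.toEmbedding
    have gen3 : ∀ q : List ℕ, (q.map σ).toFinset = q.toFinset.map σ.toEmbedding := by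
      intro q
      ext x
      rw [List.mem_toFinset, List.mem_map, Finset.mem_map]
      simp only [List.mem_toFinset, Equiv.toEmbedding_apply]
    rw [hfst, ← hA'eq, gen3]
  have hp1 : ∀ p ∈ l, p.1 ∈ A.1 := by
    intro p hp
    rw [← hAeq, List.mem_toFinset]
    exact List.mem_map_of_mem hp
  have hp2 : ∀ p ∈ l, n ≤ p.2 := by
    intro p hp
    rw [hl, List.mem_map] at hp
    obtain ⟨q, hq, rfl⟩ := hp
    simp only [Prod.map_snd]
    rw [hσ2 q hq]
    omega
  have hp2W : ∀ p ∈ l, p.2 ∉ W := by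
    intro p hp hW
    have h1 := hn _ hW
    have h2 := hp2 p hp
    omega
  have P := pos l hndl1 hAeq hndl2 hp2W
  -- transport of the second average
  have P2 : 0 < ∫ θ, oct (actC X₂) l
      (fun θ => (fun K => G (permS σ K)) (N₂.arr θ) * e' (θ A)) θ ∂(iid μ₂) := by
    have e1 : (fun θ : Idx ℕ → X₂ => (fun K => G (permS σ K)) (N₂.arr θ) * e' (θ A)) =
        fun θ => (fun θ => G (N₂.arr θ) * e' (θ A')) ((actC X₂).T σ θ) := by
      funext θ
      change G (permS σ (N₂.arr θ)) * e' (θ A) = G (N₂.arr (permC σ θ)) * e' (permC σ θ A')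
      rw [N₂.arr_permC]
      simp only [permC]
      rw [hσA]
    have ot := oct_transport (actC X₂) σ l' (fun θ => G (N₂.arr θ) * e' (θ A'))
    rw [e1, hl, ot]
    have e2 : ∫ θ, oct (actC X₂) l' (fun θ => G (N₂.arr θ) * e' (θ A')) ((actC X₂).T σ θ)
        ∂(iid μ₂) = ∫ θ, oct (actC X₂) l' (fun θ => G (N₂.arr θ) * e' (θ A')) θ ∂(iid μ₂) := by
      have mh : Measurable (fun θ : Idx ℕ → X₂ => G (N₂.arr θ) * e' (θ A')) :=
        (mG.comp N₂.measurable_arr).mul (me'.comp (measurable_pi_apply A'))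
      conv_rhs => rw [← iid_permC μ₂ σ]
      rw [integral_map (measurable_permC σ).aemeasurable
        (measurable_oct (actC X₂) l' mh).aestronglyMeasurable]
      rfl
    rw [e2]
    exact P'
  refine level_contradiction μ₁ μ₂ N₁ N₂ t₁ t₂ hu F mF bF V hF (fun K => G (permS σ K))
    (mG.comp (measurable_permS σ)) ?_ (V'.map σ.toEmbedding) (detV_permS hG σ) A e me be ze e'
    me' be' ze' l ⟨hndl1, hndl2, ?_⟩ ?_ ?_ ?_ ?_ P P2
  · obtain ⟨M, hM⟩ := bG
    exact ⟨M, fun K => hM _⟩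
  · intro p hp q hq hpq
    have h1 := hn _ (hAW (hp1 p hp))
    have h2 := hp2 q hq
    omega
  · intro p hp
    exact ⟨hp1 p hp, fun hc => hp2W p hp (hAW hc)⟩
  · intro p hp hc
    exact hp2W p hp (hVW hc)
  · intro p hp hc
    rw [hl, List.mem_map] at hp
    obtain ⟨q, hq, rfl⟩ := hp
    rw [Finset.mem_map] at hc
    obtain ⟨x, hx, hxq⟩ := hc
    have : x = q.2 := σ.injective hxq
    exact hout' q hq (hVW' (this ▸ hx))
  · intro x hx
    obtain ⟨hx1, hx2⟩ := Finset.mem_inter.1 hx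
    rw [Finset.mem_map] at hx2
    obtain ⟨y, hy, rfl⟩ := hx2
    rw [Equiv.toEmbedding_apply] at hx1 ⊢
    rw [hσW y (hVW' hy)] at hx1 ⊢
    by_cases hyA : y ∈ A'.1
    · exact hAlt y hyA
    · exfalso
      have h1 := hn _ (hVW hx1)
      rw [hout y hyA] at h1
      omega

end Pool.Agent.R130.Theon
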