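import Pool.Agent.R130.Theon.IndepA
import Pool.Agent.R130.Theon.GCS

/-!
# Module X: levels `> ℓ` are independent of both families of levels `≤ ℓ`
-/

set_option autoImplicit false

open MeasureTheory ProbabilityTheory

namespace Pool.Agent.R130.Theon

theorem indep_levels {X Y : Type} [MeasurableSpace X] [MeasurableSpace Y] (μ : Measure X)
    [IsProbabilityMeasure μ] (γ : Measure ((Idx ℕ → X) × (Idx ℕ → Y))) [IsProbabilityMeasure γ]
    (h₁ : γ.map Prod.fst = iid μ)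
    (hγ : ∀ σ : Equiv.Perm ℕ, γ.map (Prod.map (permC σ) (permC σ)) = γ) (ℓ : ℕ) :
    IndepFun (fun z (A : {A : Idx ℕ // ℓ < (lev A : ℕ)}) => z.1 A)
      (fun z (A : {A : Idx ℕ // (lev A : ℕ) ≤ ℓ}) => (z.1 A, z.2 A)) γ :=
  IndepL.indep_levels_of gcs μ γ h₁ hγ ℓ

end Pool.Agent.R130.Theon
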