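import Pool.Agent.R130.Theon.Couple
import Pool.Agent.R130.Theon.Indep

/-!
# Averaging over high levels; the telescoping lemma E2 (helper80, for helper130)
-/

open MeasureTheory ProbabilityTheory
open scoped ENNReal

namespace Pool.Agent.R130.Theon

variable {X Y : Type} [MeasurableSpace X] [MeasurableSpace Y]

/-- low levels from `x`, high levels from `y` -/
def merge {X : Type} (ℓ : ℕ) (x y : Idx ℕ → X) : Idx ℕ → X :=
  fun A => if (lev A : ℕ) ≤ ℓ then x A else y A

/-- averaging over the levels `> ℓ` -/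
noncomputable def avg (μ : Measure X) [IsProbabilityMeasure μ] (ℓ : ℕ)
    (f : (Idx ℕ → X) → ℝ) (x : Idx ℕ → X) : ℝ := ∫ y, f (merge ℓ x y) ∂(iid μ)

/-- `h` depends only on levels `≤ ℓ` -/
def LowDep {X : Type} (ℓ : ℕ) (h : (Idx ℕ → X) → ℝ) : Prop :=
  ∀ x y : Idx ℕ → X, (∀ A, (lev A : ℕ) ≤ ℓ → x A = y A) → h x = h y

lemma measurable_merge (ℓ : ℕ) :
    Measurable (fun p : (Idx ℕ → X) × (Idx ℕ → X) => merge ℓ p.1 p.2) := by
  refine measurable_pi_lambda _ fun A => ?_
  unfold merge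
  by_cases h : (lev A : ℕ) ≤ ℓ
  · simp only [h, if_true]
    exact (measurable_pi_apply A).comp measurable_fst
  · simp only [h, if_false]
    exact (measurable_pi_apply A).comp measurable_snd

/-- exchanging the high levels of two independent copies preserves the law -/
lemma merge_preserving (μ : Measure X) [IsProbabilityMeasure μ] (ℓ : ℕ) :
    ((iid μ).prod (iid μ)).map (fun p => (merge ℓ p.1 p.2, merge ℓ p.2 p.1)) =
      (iid μ).prod (iid μ) := by
  have hp : ∀ k : ℕ+, Measurable (fun z : X × X => if (k : ℕ) ≤ ℓ then z else z.swap) := by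
    intro k
    by_cases h : (k : ℕ) ≤ ℓ
    · simp only [h, if_true]
      exact measurable_id
    · simp only [h, if_false]
      exact measurable_swap
  have he : ∀ k : ℕ+, (μ.prod μ).map (fun z : X × X => if (k : ℕ) ≤ ℓ then z else z.swap) =
      μ.prod μ := by
    intro k
    by_cases h : (k : ℕ) ≤ ℓ
    · simp only [h, if_true]
      exact Measure.map_id
    · simp only [h, if_false]
      exact Measure.prod_swap
  have key := iid_map_lev (μ.prod μ) (μ.prod μ)
    (fun (k : ℕ+) (z : X × X) => if (k : ℕ) ≤ ℓ then z else z.swap) hp he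
  have hm : Measurable (fun p : (Idx ℕ → X) × (Idx ℕ → X) =>
      (merge ℓ p.1 p.2, merge ℓ p.2 p.1)) :=
    (measurable_merge ℓ).prodMk ((measurable_merge ℓ).comp measurable_swap)
  conv_lhs => rw [← iid_map_unzip]
  rw [Measure.map_map hm measurable_unzip]
  conv_rhs => rw [← iid_map_unzip, ← key]
  rw [Measure.map_map measurable_unzip (measurable_lev (X := X × X) _ hp)]
  congr 1
  funext z
  simp only [Function.comp_apply]
  refine Prod.ext ?_ ?_
  · funext A
    simp only [merge]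
    split_ifs <;> rfl
  · funext A
    simp only [merge]
    split_ifs <;> rfl

lemma avg_lowDep (μ : Measure X) [IsProbabilityMeasure μ] (ℓ : ℕ) (f : (Idx ℕ → X) → ℝ) :
    LowDep ℓ (avg μ ℓ f) := by
  intro x y h
  unfold avg
  congr 1
  funext w
  congr 1
  funext A
  unfold merge
  split_ifs with hA
  · exact h A hA
  · rfl

lemma measurable_avg (μ : Measure X) [IsProbabilityMeasure μ] (ℓ : ℕ)
    {f : (Idx ℕ → X) → ℝ} (hf : Measurable f) : Measurable (avg μ ℓ f) := by
  have : StronglyMeasurable (Function.uncurry fun (x y : Idx ℕ → X) => f (merge ℓ x y)) :=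
    (hf.comp (measurable_merge ℓ)).stronglyMeasurable
  exact (StronglyMeasurable.integral_prod_right this).measurable

lemma abs_avg_le (μ : Measure X) [IsProbabilityMeasure μ] (ℓ : ℕ)
    {f : (Idx ℕ → X) → ℝ} {M : ℝ} (hM : ∀ x, |f x| ≤ M) (x : Idx ℕ → X) :
    |avg μ ℓ f x| ≤ M := by
  unfold avg
  have h := norm_integral_le_of_norm_le_const (μ := iid μ) (f := fun y => f (merge ℓ x y))
    (C := M) (Filter.Eventually.of_forall fun y => hM _)
  simpa using h

lemma avg_of_lowDep (μ : Measure X) [IsProbabilityMeasure μ] {n : ℕ}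
    {f : (Idx ℕ → X) → ℝ} (h : LowDep n f) : avg μ n f = f := by
  funext x
  unfold avg
  have : ∀ y, f (merge n x y) = f x := by
    intro y
    refine h _ _ fun A hA => ?_
    simp [merge, hA]
  simp [this]

lemma avg_zero (μ : Measure X) [IsProbabilityMeasure μ] (f : (Idx ℕ → X) → ℝ)
    (x : Idx ℕ → X) : avg μ 0 f x = ∫ y, f y ∂(iid μ) := by
  unfold avg
  congr 1
  funext y
  congr 1
  funext A
  have : ¬ ((lev A : ℕ) ≤ 0) := by
    have := (lev A).pos
    omega
  simp [merge, this]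

lemma integrable_of_bdd {Z : Type} [MeasurableSpace Z] (γ : Measure Z) [IsFiniteMeasure γ]
    {f : Z → ℝ} (hf : Measurable f) {M : ℝ} (hM : ∀ z, |f z| ≤ M) : Integrable f γ :=
  Integrable.of_bound hf.aestronglyMeasurable M (Filter.Eventually.of_forall hM)

/-- Lemma K: against a function of the low levels of the second family, `f` may be averaged. -/
lemma integral_avg (μ : Measure X) [IsProbabilityMeasure μ]
    (γ : Measure ((Idx ℕ → X) × (Idx ℕ → Y))) [IsProbabilityMeasure γ]
    (h₁ : γ.map Prod.fst = iid μ)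
    (hγ : ∀ σ : Equiv.Perm ℕ, γ.map (Prod.map (permC σ) (permC σ)) = γ) (ℓ : ℕ)
    {f : (Idx ℕ → X) → ℝ} (hf : Measurable f) {M : ℝ} (hM : ∀ x, |f x| ≤ M)
    {k : (Idx ℕ → Y) → ℝ} (hk : Measurable k) {M' : ℝ} (hM' : ∀ x, |k x| ≤ M')
    (hl : LowDep ℓ k) :
    ∫ z, f z.1 * k z.2 ∂γ = ∫ z, avg μ ℓ f z.1 * k z.2 ∂γ := by
  have hne : Nonempty ((Idx ℕ → X) × (Idx ℕ → Y)) := nonempty_of_isProbabilityMeasure γ
  obtain ⟨z0⟩ := hne
  set V : (Idx ℕ → X) × (Idx ℕ → Y) → ({A : Idx ℕ // ℓ < (lev A : ℕ)} → X) :=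
    fun z A => z.1 A with hV
  set W : (Idx ℕ → X) × (Idx ℕ → Y) → ({A : Idx ℕ // (lev A : ℕ) ≤ ℓ} → X × Y) :=
    fun z A => (z.1 A, z.2 A) with hW
  have mV : Measurable V :=
    measurable_pi_lambda _ fun A => (measurable_pi_apply _).comp measurable_fst
  have mW : Measurable W := measurable_pi_lambda _ fun A =>
    ((measurable_pi_apply _).comp measurable_fst).prodMk
      ((measurable_pi_apply _).comp measurable_snd)
  have hind : IndepFun V W γ := indep_levels μ γ h₁ hγ ℓ
  have hlaw : γ.map (fun z => (V z, W z)) = (γ.map V).prod (γ.map W) :=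
    (indepFun_iff_map_prod_eq_prod_map_map mV.aemeasurable mW.aemeasurable).1 hind
  set r : (Idx ℕ → X) → ({A : Idx ℕ // ℓ < (lev A : ℕ)} → X) := fun η A => η A with hr
  have mr : Measurable r := measurable_pi_lambda _ fun A => measurable_pi_apply _
  have hVlaw : γ.map V = (iid μ).map r := by
    rw [← h₁, Measure.map_map mr measurable_fst]
    rfl
  -- gluing
  set G : ({A : Idx ℕ // ℓ < (lev A : ℕ)} → X) × ({A : Idx ℕ // (lev A : ℕ) ≤ ℓ} → X × Y) →
      (Idx ℕ → X) := fun p A => if h : (lev A : ℕ) ≤ ℓ then (p.2 ⟨A, h⟩).1 else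
        p.1 ⟨A, not_le.1 h⟩ with hG
  have mG : Measurable G := by
    refine measurable_pi_lambda _ fun A => ?_
    by_cases h : (lev A : ℕ) ≤ ℓ
    · simp only [hG, h, dif_pos]
      exact measurable_fst.comp ((measurable_pi_apply _).comp measurable_snd)
    · simp only [hG, h, dif_neg, not_false_eq_true]
      exact (measurable_pi_apply _).comp measurable_fst
  set k' : ({A : Idx ℕ // (lev A : ℕ) ≤ ℓ} → X × Y) → ℝ :=
    fun w => k (fun A => if h : (lev A : ℕ) ≤ ℓ then (w ⟨A, h⟩).2 else z0.2 A) with hk'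
  have mk' : Measurable k' := by
    refine hk.comp (measurable_pi_lambda _ fun A => ?_)
    by_cases h : (lev A : ℕ) ≤ ℓ
    · simp only [h, dif_pos]
      exact measurable_snd.comp (measurable_pi_apply _)
    · simp only [h, dif_neg, not_false_eq_true]
      exact measurable_const
  have e1 : ∀ z, f z.1 * k z.2 = f (G (V z, W z)) * k' (W z) := by
    intro z
    congr 1
    · congr 1
      funext A
      simp only [hG, hV, hW]
      split_ifs <;> rfl
    · simp only [hk']
      refine hl _ _ fun A hA => ?_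
      simp [hA, hW]
  have mΦ : Measurable (fun p : ({A : Idx ℕ // ℓ < (lev A : ℕ)} → X) ×
      ({A : Idx ℕ // (lev A : ℕ) ≤ ℓ} → X × Y) => f (G p) * k' p.2) :=
    (hf.comp mG).mul (mk'.comp measurable_snd)
  have bΦ : ∀ p : ({A : Idx ℕ // ℓ < (lev A : ℕ)} → X) ×
      ({A : Idx ℕ // (lev A : ℕ) ≤ ℓ} → X × Y), |f (G p) * k' p.2| ≤ M * M' := by
    intro p
    rw [abs_mul]
    exact mul_le_mul (hM _) (hM' _) (abs_nonneg _) ((abs_nonneg _).trans (hM (G p)))
  have iV : IsProbabilityMeasure (γ.map V) := Measure.isProbabilityMeasure_map mV.aemeasurable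
  have iW : IsProbabilityMeasure (γ.map W) := Measure.isProbabilityMeasure_map mW.aemeasurable
  calc ∫ z, f z.1 * k z.2 ∂γ = ∫ z, f (G (V z, W z)) * k' (W z) ∂γ := by
        congr 1
        funext z
        exact e1 z
    _ = ∫ p, f (G p) * k' p.2 ∂(γ.map (fun z => (V z, W z))) := by
        rw [integral_map (mV.prodMk mW).aemeasurable mΦ.aestronglyMeasurable]
    _ = ∫ p, f (G p) * k' p.2 ∂((γ.map V).prod (γ.map W)) := by rw [hlaw]
    _ = ∫ w, ∫ v, f (G (v, w)) * k' w ∂(γ.map V) ∂(γ.map W) := by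
        rw [integral_prod_symm _ (integrable_of_bdd _ mΦ bΦ)]
    _ = ∫ w, (∫ η, f (G (r η, w)) ∂(iid μ)) * k' w ∂(γ.map W) := by
        congr 1
        funext w
        rw [integral_mul_const, hVlaw, integral_map mr.aemeasurable]
        exact (hf.comp (mG.comp (measurable_id.prodMk measurable_const))).aestronglyMeasurable
    _ = ∫ z, (∫ η, f (G (r η, W z)) ∂(iid μ)) * k' (W z) ∂γ := by
        rw [integral_map mW.aemeasurable]
        have m1 : StronglyMeasurable (Function.uncurry fun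
            (w : {A : Idx ℕ // (lev A : ℕ) ≤ ℓ} → X × Y) (η : Idx ℕ → X) => f (G (r η, w))) :=
          (hf.comp (mG.comp ((mr.comp measurable_snd).prodMk measurable_fst))).stronglyMeasurable
        exact ((StronglyMeasurable.integral_prod_right m1).measurable.mul mk').aestronglyMeasurable
    _ = ∫ z, avg μ ℓ f z.1 * k z.2 ∂γ := by
        congr 1
        funext z
        have q1 : ∫ η, f (G (r η, W z)) ∂(iid μ) = avg μ ℓ f z.1 := by
          unfold avg
          congr 1
        have q2 : k' (W z) = k z.2 := by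
          simp only [hk']
          refine hl _ _ fun A hA => ?_
          simp [hA, hW]
        rw [q1, q2]

/-- Lemma K with the roles of the two families exchanged. -/
lemma integral_avg' (μ' : Measure Y) [IsProbabilityMeasure μ']
    (γ : Measure ((Idx ℕ → X) × (Idx ℕ → Y))) [IsProbabilityMeasure γ]
    (h₂ : γ.map Prod.snd = iid μ')
    (hγ : ∀ σ : Equiv.Perm ℕ, γ.map (Prod.map (permC σ) (permC σ)) = γ) (ℓ : ℕ)
    {g : (Idx ℕ → Y) → ℝ} (hg : Measurable g) {M : ℝ} (hM : ∀ x, |g x| ≤ M)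
    {k : (Idx ℕ → X) → ℝ} (hk : Measurable k) {M' : ℝ} (hM' : ∀ x, |k x| ≤ M')
    (hl : LowDep ℓ k) :
    ∫ z, k z.1 * g z.2 ∂γ = ∫ z, k z.1 * avg μ' ℓ g z.2 ∂γ := by
  have : IsProbabilityMeasure (γ.map Prod.swap) :=
    Measure.isProbabilityMeasure_map measurable_swap.aemeasurable
  have h := integral_avg μ' (γ.map Prod.swap)
    (by rw [Measure.map_map measurable_fst measurable_swap]; exact h₂)
    (fun σ => by
      rw [Measure.map_map ((measurable_permC σ).prodMap (measurable_permC σ)) measurable_swap]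
      conv_rhs => rw [← hγ σ]
      rw [Measure.map_map measurable_swap ((measurable_permC σ).prodMap (measurable_permC σ))]
      rfl) ℓ hg hM hk hM' hl
  rw [integral_map measurable_swap.aemeasurable, integral_map measurable_swap.aemeasurable] at h
  · simp only [Prod.fst_swap, Prod.snd_swap] at h
    simp only [mul_comm (k _)]
    exact h
  · exact (((measurable_avg μ' ℓ hg).comp measurable_fst).mul
      (hk.comp measurable_snd)).aestronglyMeasurable
  · exact ((hg.comp measurable_fst).mul (hk.comp measurable_snd)).aestronglyMeasurable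

/-- Lemma E2 (telescoping over the levels). -/
theorem integral_mul_of_levels (μ : Measure X) [IsProbabilityMeasure μ] (μ' : Measure Y)
    [IsProbabilityMeasure μ'] (γ : Measure ((Idx ℕ → X) × (Idx ℕ → Y)))
    [IsProbabilityMeasure γ] (h₁ : γ.map Prod.fst = iid μ) (h₂ : γ.map Prod.snd = iid μ')
    (hγ : ∀ σ : Equiv.Perm ℕ, γ.map (Prod.map (permC σ) (permC σ)) = γ)
    {f : (Idx ℕ → X) → ℝ} (hf : Measurable f) {M : ℝ} (hM : ∀ x, |f x| ≤ M)
    {g : (Idx ℕ → Y) → ℝ} (hg : Measurable g) {M' : ℝ} (hM' : ∀ x, |g x| ≤ M')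
    (n : ℕ) (hfn : LowDep n f)
    (h : ∀ ℓ : ℕ, avg μ (ℓ + 1) f =ᵐ[iid μ] avg μ ℓ f ∨
      avg μ' (ℓ + 1) g =ᵐ[iid μ'] avg μ' ℓ g) :
    ∫ z, f z.1 * g z.2 ∂γ = (∫ x, f x ∂(iid μ)) * ∫ y, g y ∂(iid μ') := by
  have step : ∀ ℓ : ℕ, ∫ z, avg μ (ℓ + 1) f z.1 * g z.2 ∂γ =
      ∫ z, avg μ ℓ f z.1 * g z.2 ∂γ := by
    intro ℓ
    rcases h ℓ with h | h
    · refine integral_congr_ae ?_
      rw [← h₁] at h
      have h' := ae_of_ae_map measurable_fst.aemeasurable h
      filter_upwards [h'] with z hz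
      rw [hz]
    · rw [integral_avg' μ' γ h₂ hγ (ℓ + 1) hg hM' (measurable_avg μ (ℓ + 1) hf)
        (abs_avg_le μ (ℓ + 1) hM) (avg_lowDep μ (ℓ + 1) f),
        ← integral_avg μ γ h₁ hγ (ℓ + 1) hf hM (measurable_avg μ' (ℓ + 1) hg)
        (abs_avg_le μ' (ℓ + 1) hM') (avg_lowDep μ' (ℓ + 1) g),
        integral_avg' μ' γ h₂ hγ ℓ hg hM' (measurable_avg μ ℓ hf)
        (abs_avg_le μ ℓ hM) (avg_lowDep μ ℓ f),
        ← integral_avg μ γ h₁ hγ ℓ hf hM (measurable_avg μ' ℓ hg)
        (abs_avg_le μ' ℓ hM') (avg_lowDep μ' ℓ g)]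
      refine integral_congr_ae ?_
      rw [← h₂] at h
      have h' := ae_of_ae_map measurable_snd.aemeasurable h
      filter_upwards [h'] with z hz
      rw [hz]
  have all : ∀ ℓ : ℕ, ∫ z, avg μ ℓ f z.1 * g z.2 ∂γ = ∫ z, avg μ 0 f z.1 * g z.2 ∂γ := by
    intro ℓ
    induction ℓ with
    | zero => rfl
    | succ ℓ ih => rw [step ℓ, ih]
  have h0 := all n
  rw [avg_of_lowDep μ hfn] at h0
  rw [h0]
  simp only [avg_zero]
  rw [integral_const_mul, ← h₂, integral_map measurable_snd.aemeasurable hg.aestronglyMeasurable]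

end Pool.Agent.R130.Theon
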