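import Pool.Agent.R130.Theon.Compat3

/-! # Alternating structures -/

open MeasureTheory ProbabilityTheory Filter Set

namespace Pool.Agent.R130.Theon

variable {X : Type} [MeasurableSpace X]

/-- parity of a permutation -/
def pb {n : ℕ} (σ : Equiv.Perm (Fin n)) : Bool := decide (Equiv.Perm.sign σ = -1)

lemma pb_mul {n : ℕ} (σ τ : Equiv.Perm (Fin n)) : pb (σ * τ) = xor (pb σ) (pb τ) := by
  unfold pb
  rw [Equiv.Perm.sign_mul]
  rcases Int.units_eq_one_or (Equiv.Perm.sign σ) with h | h <;>
  rcases Int.units_eq_one_or (Equiv.Perm.sign τ) with h' | h' <;> simp [h, h'] <;> decide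

/-- parity of the permutation sorting a tuple -/
noncomputable def sgB {n : ℕ} (r : Fin n → ℝ) : Bool := pb (Tuple.sort r)

lemma sgB_comp {n : ℕ} (r : Fin n → ℝ) (hr : Function.Injective r) (σ : Equiv.Perm (Fin n)) :
    sgB (r ∘ σ) = xor (pb σ) (sgB r) := by
  have h1 : (r ∘ σ) ∘ Tuple.sort (r ∘ σ) = r ∘ Tuple.sort r :=
    Tuple.comp_perm_comp_sort_eq_comp_sort
  have h2 : σ * Tuple.sort (r ∘ σ) = Tuple.sort r := by
    ext i
    have := congrFun h1 i
    simp only [Function.comp] at this
    have := hr this
    rw [Equiv.Perm.mul_apply, this]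
  unfold sgB
  rw [← h2, pb_mul, ← Bool.xor_assoc, Bool.xor_self, Bool.false_xor]

lemma measurable_sgB {n : ℕ} : Measurable (sgB : (Fin n → ℝ) → Bool) := by
  have h : ∀ σ : Equiv.Perm (Fin n), MeasurableSet {r : Fin n → ℝ | Tuple.sort r = σ} := by
    intro σ
    have : {r : Fin n → ℝ | Tuple.sort r = σ} = ⋂ i : Fin n, ⋂ j : Fin n, ⋂ _ : i < j,
        {r : Fin n → ℝ | r (σ i) < r (σ j) ∨ (r (σ i) = r (σ j) ∧ σ i < σ j)} := by
      ext r
      simp only [mem_iInter, Set.mem_ofPred_eq]
      rw [eq_comm, Tuple.eq_sort_iff]
      constructor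
      · rintro ⟨h1, h2⟩ i j hij
        rcases lt_or_eq_of_le (h1 hij.le) with h | h
        · exact Or.inl h
        · exact Or.inr ⟨h, h2 i j hij h⟩
      · intro h
        refine ⟨?_, ?_⟩
        · intro i j hij
          rcases hij.lt_or_eq with hij | rfl
          · rcases h i j hij with h | h
            · exact h.le
            · exact h.1.le
          · exact le_rfl
        · intro i j hij he
          rcases h i j hij with h | h
          · exact absurd he h.ne
          · exact h.2
    rw [this]
    refine MeasurableSet.iInter fun i => MeasurableSet.iInter fun j => MeasurableSet.iInter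
      fun _ => ?_
    have e1 : MeasurableSet {r : Fin n → ℝ | r (σ i) < r (σ j)} :=
      measurableSet_lt (measurable_pi_apply _) (measurable_pi_apply _)
    have e2 : MeasurableSet {r : Fin n → ℝ | r (σ i) = r (σ j)} :=
      measurableSet_eq_fun (measurable_pi_apply _) (measurable_pi_apply _)
    exact e1.union (e2.inter (MeasurableSet.const (σ i < σ j)))
  refine measurable_to_countable' fun c => ?_
  have : sgB ⁻¹' {c} = ⋃ σ : Equiv.Perm (Fin n), ⋃ _ : pb σ = c,
      {r : Fin n → ℝ | Tuple.sort r = σ} := by
    ext r
    simp [sgB]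
  rw [this]
  exact MeasurableSet.iUnion fun σ => MeasurableSet.iUnion fun _ => h σ

/-- parity of the order of labels relative to the order of the vertices -/
noncomputable def gB (r : ℕ → ℝ) (A : Finset ℕ) : Bool := sgB (fun i : Fin A.card => r (A.orderEmbOfFin rfl i))

lemma gB_eq (r : ℕ → ℝ) (A : Finset ℕ) (n : ℕ) (h : A.card = n) :
    gB r A = sgB (fun i : Fin n => r (A.orderEmbOfFin h i)) := by
  subst h; rfl

lemma exists_parity {n : ℕ} (a : Fin n ↪ ℕ) (A : Finset ℕ) (hA : A = Finset.univ.map a) :
    ∃ c : Bool, ∀ r : ℕ → ℝ, Function.Injective r → sgB (r ∘ a) = xor c (gB r A) := by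
  have hc : A.card = n := by rw [hA]; simp
  have hex : ∀ i, ∃ j, A.orderEmbOfFin hc j = a i := by
    intro i
    have h1 : a i ∈ (A : Set ℕ) := by rw [hA]; simp
    rw [← A.range_orderEmbOfFin hc] at h1
    exact h1
  choose f hf using hex
  have hfi : Function.Injective f := by
    intro i j hij
    apply a.injective
    rw [← hf i, ← hf j, hij]
  let π : Equiv.Perm (Fin n) := Equiv.ofBijective f (Finite.injective_iff_bijective.1 hfi)
  refine ⟨pb π, fun r hr => ?_⟩
  have h1 := sgB_comp (fun i => r (A.orderEmbOfFin hc i))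
    (hr.comp (A.orderEmbOfFin hc).injective) π
  rw [gB_eq r A n hc, ← h1]
  congr 1
  funext i
  simp only [Function.comp]
  congr 1
  exact (hf i).symm

/-- one-time pads -/
lemma indep_pad {J : Type} (μ : Measure X) [IsProbabilityMeasure μ] (Q : J → Prop) (b : X → Bool)
    (hb : Measurable b) (hb' : μ.map b = coin)
    (g : ({j // Q j} → X) → ({j // ¬ Q j} → Bool)) (hg : Measurable g) :
    IndepFun (fun (θ : J → X) (A : {j // ¬ Q j}) => xor (b (θ A.1)) (g (fun B => θ B.1) A))
      (fun (θ : J → X) (A : {j // Q j}) => θ A.1) (Measure.infinitePi (fun _ : J => μ)) := by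
  classical
  have hxm : Measurable (fun p : Bool × Bool => xor p.1 p.2) := measurable_of_countable _
  have hrm : Measurable (fun (θ : J → X) (A : {j // Q j}) => θ A.1) :=
    measurable_pi_lambda _ fun _ => measurable_pi_apply _
  have hfm : Measurable (fun (θ : J → X) (A : {j // ¬ Q j}) =>
      xor (b (θ A.1)) (g (fun B => θ B.1) A)) :=
    measurable_pi_lambda _ fun A => hxm.comp ((hb.comp (measurable_pi_apply _)).prodMk
      ((measurable_pi_apply A).comp (hg.comp hrm)))
  have key : ∀ S : Set ({j // ¬ Q j} → Bool), ∀ D : Set ({j // Q j} → X), MeasurableSet S →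
      MeasurableSet D → Measure.infinitePi (fun _ : J => μ)
        ((fun (θ : J → X) (A : {j // ¬ Q j}) => xor (b (θ A.1)) (g (fun B => θ B.1) A)) ⁻¹' S ∩
          (fun (θ : J → X) (A : {j // Q j}) => θ A.1) ⁻¹' D) =
        cw {j // ¬ Q j} S * Measure.infinitePi (fun _ : {j // Q j} => μ) D := by
    intro S D hS hD
    rw [infinitePi_apply_glue μ Q ((hfm hS).inter (hrm hD))]
    have h1 : ∀ z, Measure.infinitePi (fun _ : {j // ¬ Q j} => μ) {y | glue Q (z, y) ∈
        ((fun (θ : J → X) (A : {j // ¬ Q j}) => xor (b (θ A.1)) (g (fun B => θ B.1) A)) ⁻¹' S ∩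
          (fun (θ : J → X) (A : {j // Q j}) => θ A.1) ⁻¹' D)} =
        D.indicator (fun _ => cw {j // ¬ Q j} S) z := by
      intro z
      have hz' : ∀ y, (fun A : {j // Q j} => glue Q (z, y) A.1) = z := by
        intro y
        funext A
        rw [glue_pos (P := Q) _ A.2]
      by_cases hz : z ∈ D
      · rw [indicator_of_mem hz]
        have h2 : cw {j // ¬ Q j} = (Measure.infinitePi (fun _ : {j // ¬ Q j} => μ)).map
            (fun y A => xor (b (y A)) (g z A)) := by
          have h3 := Measure.infinitePi_map_pi (μ := fun _ : {j // ¬ Q j} => μ)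
            (f := fun A x => xor (b x) (g z A))
            (fun A => (measurable_of_countable (fun c => xor c (g z A))).comp hb)
          rw [h3]
          have h4 : ∀ A, Measure.map (fun x => xor (b x) (g z A)) μ = coin := by
            intro A
            have h4 := Measure.map_map (μ := μ)
              (measurable_of_countable (fun c => xor c (g z A))) hb
            rw [hb', coin_map_xor] at h4
            exact h4.symm
          simp only [h4]
        have hm : Measurable (fun (y : {j // ¬ Q j} → X) (A : {j // ¬ Q j}) =>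
            xor (b (y A)) (g z A)) := measurable_pi_lambda _ fun A =>
          (measurable_of_countable (fun c => xor c (g z A))).comp
            (hb.comp (measurable_pi_apply A))
        rw [h2, Measure.map_apply hm hS]
        congr 1
        ext y
        simp only [Set.mem_ofPred_eq, mem_inter_iff, mem_preimage, hz', hz, and_true]
        have : (fun A : {j // ¬ Q j} => xor (b (glue Q (z, y) A.1)) (g z A)) =
            fun A => xor (b (y A)) (g z A) := by
          funext A
          rw [glue_neg (P := Q) _ A.2]
        rw [this]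
      · rw [indicator_of_notMem hz]
        have : {y | glue Q (z, y) ∈
          ((fun (θ : J → X) (A : {j // ¬ Q j}) => xor (b (θ A.1)) (g (fun B => θ B.1) A)) ⁻¹' S ∩
          (fun (θ : J → X) (A : {j // Q j}) => θ A.1) ⁻¹' D)} = ∅ := by
          ext y
          simp only [Set.mem_ofPred_eq, mem_inter_iff, mem_preimage, hz', hz, and_false,
            mem_empty_iff_false]
        rw [this, measure_empty]
    simp only [h1]
    rw [lintegral_indicator hD, setLIntegral_const]
  rw [indepFun_iff_measure_inter_preimage_eq_mul]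
  intro S D hS hD
  have k1 := key S D hS hD
  have k2 := key S univ hS MeasurableSet.univ
  have k3 := key univ D MeasurableSet.univ hD
  simp only [preimage_univ, inter_univ, univ_inter, measure_univ, mul_one, one_mul] at k2 k3
  rw [k1, k2, k3]

end Pool.Agent.R130.Theon
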