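import Pool.Agent.R130.Theon.Example1

/-! # Alternating structures are weakly but not strongly compatible -/

open MeasureTheory ProbabilityTheory Filter Set

namespace Pool.Agent.R130.Theon

/-- the language with one relation symbol, of arity `m` -/
def Lm (m : ℕ) : FirstOrder.Language.{0, 0} := ⟨fun _ => Empty, fun n => PLift (n = m)⟩

instance (m : ℕ) : (Lm m).IsRelational := fun _ => (inferInstance : IsEmpty Empty)

instance (m : ℕ) : Finite (Σ n, (Lm m).Relations n) := by
  haveI : Subsingleton (Σ n, (Lm m).Relations n) := by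
    constructor
    rintro ⟨n, ⟨rfl⟩⟩ ⟨n', ⟨rfl⟩⟩
    rfl
  infer_instance

variable {X : Type} [MeasurableSpace X]

/-- the index `[n]` -/
def fullIdx (n : ℕ) (h : 0 < n) : Idx (Fin n) :=
  ⟨Finset.univ, ⟨⟨0, h⟩, Finset.mem_univ _⟩⟩

/-- The alternating Euclidean structure. -/
noncomputable def altN (m : ℕ) (b : X → Bool) (hb : Measurable b) (e : X → ℝ)
    (he : Measurable e) : EucStr (Lm m) X where
  peon := fun p => {x | ∃ h : 0 < p.1,
    xor (b (x (fullIdx p.1 h))) (sgB (fun i => e (x (sing i)))) = true}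
  meas := fun p => by
    by_cases h : 0 < p.1
    · have : {x : Idx (Fin p.1) → X | ∃ h : 0 < p.1,
          xor (b (x (fullIdx p.1 h))) (sgB (fun i => e (x (sing i)))) = true} =
          (fun x : Idx (Fin p.1) → X =>
            xor (b (x (fullIdx p.1 h))) (sgB (fun i => e (x (sing i))))) ⁻¹' {true} := by
        ext x; simp [h]
      rw [this]
      have hm : Measurable (fun x : Idx (Fin p.1) → X =>
            xor (b (x (fullIdx p.1 h))) (sgB (fun i => e (x (sing i))))) :=
        (measurable_of_countable (fun q : Bool × Bool => xor q.1 q.2)).comp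
          ((hb.comp (measurable_pi_apply _)).prodMk (measurable_sgB.comp
            (measurable_pi_lambda _ fun i => he.comp (measurable_pi_apply _))))
      exact hm (measurableSet_singleton _)
    · have : {x : Idx (Fin p.1) → X | ∃ h : 0 < p.1,
          xor (b (x (fullIdx p.1 h))) (sgB (fun i => e (x (sing i)))) = true} = ∅ := by
        ext x; simp [h]
      rw [this]; exact MeasurableSet.empty

/-- the pads -/
noncomputable def padC (b : X → Bool) (e : X → ℝ) (θ : Idx ℕ → X) (A : Idx ℕ) : Bool :=
  xor (b (θ A)) (gB (fun i => e (θ (sing i))) A.1)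

lemma altN_arr (m : ℕ) (b : X → Bool) (hb : Measurable b) (e : X → ℝ)
    (he : Measurable e) (θ : Idx ℕ → X) (p : Σ n, (Lm m).Relations n) (a : Fin p.1 → ℕ) :
    (altN m b hb e he).arr θ p a ↔ ∃ (h : Function.Injective a) (h0 : 0 < p.1),
      xor (b (θ (Idx.map ⟨a, h⟩ (fullIdx p.1 h0))))
        (sgB ((fun i => e (θ (sing i))) ∘ a)) = true := by
  unfold EucStr.arr
  refine exists_congr fun h => ?_
  change (∃ h0 : 0 < p.1, _) ↔ _
  refine exists_congr fun h0 => ?_
  have : (fun i => e (θ (Idx.map ⟨a, h⟩ (sing i)))) = (fun i => e (θ (sing i))) ∘ a := by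
    funext i
    rw [map_sing]
    rfl
  rw [this]

/-- the array is a function of the pads -/
lemma altN_factor (m : ℕ) (hm : 2 ≤ m) (b : X → Bool) (hb : Measurable b) (e : X → ℝ)
    (he : Measurable e) :
    ∃ F : ({A : Idx ℕ // ¬ ¬ (lev A : ℕ) = m} → Bool) → Str (Lm m), Measurable F ∧
      ∀ θ : Idx ℕ → X, Function.Injective (fun i => e (θ (sing i))) →
        (altN m b hb e he).arr θ = F (fun A => padC b e θ A.1) := by
  classical
  -- the parity attached to a tuple
  have hpar : ∀ (n : ℕ) (a : Fin n ↪ ℕ), ∃ c : Bool, ∀ r : ℕ → ℝ, Function.Injective r →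
      sgB (r ∘ a) = xor c (gB r (Finset.univ.map a)) := fun n a => exists_parity a _ rfl
  choose c hc using hpar
  have hlev : ∀ (n : ℕ) (a : Fin n ↪ ℕ) (h0 : 0 < n), (lev (Idx.map a (fullIdx n h0)) : ℕ) = n := by
    intro n a h0
    rw [lev_map]
    simp [lev, fullIdx]
  let F : ({A : Idx ℕ // ¬ ¬ (lev A : ℕ) = m} → Bool) → Str (Lm m) := fun w p a =>
    ∃ (h : Function.Injective a) (h0 : 0 < p.1),
      xor (w ⟨Idx.map ⟨a, h⟩ (fullIdx p.1 h0), by
        rw [not_not, hlev]; exact p.2.down⟩) (c p.1 ⟨a, h⟩) = true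
  refine ⟨F, ?_, ?_⟩
  · refine measurable_pi_lambda _ fun p => measurable_pi_lambda _ fun a => ?_
    by_cases h : Function.Injective a
    · by_cases h0 : 0 < p.1
      · have : (fun w : {A : Idx ℕ // ¬ ¬ (lev A : ℕ) = m} → Bool => F w p a) = fun w =>
            xor (w ⟨Idx.map ⟨a, h⟩ (fullIdx p.1 h0), by
              rw [not_not, hlev]; exact p.2.down⟩) (c p.1 ⟨a, h⟩) = true := by
          funext w
          simp only [F, h, h0, exists_true_left]
        rw [this]
        refine measurableSet_setOfPred.1 ?_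
        exact ((measurable_of_countable (fun q : Bool => xor q (c p.1 ⟨a, h⟩))).comp
          (measurable_pi_apply _)) (measurableSet_singleton true)
      · have : (fun w : {A : Idx ℕ // ¬ ¬ (lev A : ℕ) = m} → Bool => F w p a) = fun w =>
            False := by
          funext w
          simp [F, h0]
        rw [this]; exact measurable_const
    · have : (fun w : {A : Idx ℕ // ¬ ¬ (lev A : ℕ) = m} → Bool => F w p a) = fun w =>
          False := by
        funext w
        simp [F, h]
      rw [this]; exact measurable_const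
  · intro θ hθ
    funext p a
    apply propext
    rw [altN_arr]
    refine exists_congr fun h => exists_congr fun h0 => ?_
    have h1 : sgB ((fun i => e (θ (sing i))) ∘ a) =
        xor (c p.1 ⟨a, h⟩) (gB (fun i => e (θ (sing i))) (Finset.univ.map ⟨a, h⟩)) :=
      hc p.1 ⟨a, h⟩ _ hθ
    rw [h1]
    have h2 : (Finset.univ.map ⟨a, h⟩ : Finset ℕ) =
        (Idx.map ⟨a, h⟩ (fullIdx p.1 h0)).1 := rfl
    simp only [padC]
    rw [h2]
    generalize gB (fun i => e (θ (sing i))) (Idx.map ⟨a, h⟩ (fullIdx p.1 h0)).1 = y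
    generalize b (θ (Idx.map ⟨a, h⟩ (fullIdx p.1 h0))) = x
    generalize c p.1 ⟨a, h⟩ = z
    cases x <;> cases y <;> cases z <;> simp

lemma measurable_gB (A : Finset ℕ) : Measurable (fun r : ℕ → ℝ => gB r A) :=
  measurable_sgB.comp (measurable_pi_lambda _ fun i => measurable_pi_apply _)

end Pool.Agent.R130.Theon
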