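import Pool.Agent.R130.Theon.Example2

/-! # Alternating structures are weakly but not strongly compatible -/
open MeasureTheory ProbabilityTheory Filter Set
namespace Pool.Agent.R130.Theon
variable {X : Type} [MeasurableSpace X]

lemma hs_aux (m : ℕ) (hm : 2 ≤ m) (i : ℕ) : ¬ (lev (sing i) : ℕ) = m := by
  rw [lev_sing, PNat.one_coe]; omega

lemma pad_abstract (m : ℕ) (hm : 2 ≤ m) (μ : Measure X) [IsProbabilityMeasure μ] (b : X → Bool)
    (hb : Measurable b) (hb' : μ.map b = coin) (e : X → ℝ) (he : Measurable e)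
    (G : Idx ℕ → (ℕ → ℝ) → Bool) (hG : ∀ A, Measurable (G A)) :
    IndepFun (fun (θ : Idx ℕ → X) (A : {A : Idx ℕ // ¬ ¬ (lev A : ℕ) = m}) =>
        xor (b (θ A.1)) (G A.1 (fun i => e (θ (sing i)))))
      (fun (θ : Idx ℕ → X) (A : {A : Idx ℕ // ¬ (lev A : ℕ) = m}) => θ A.1) (iid μ) := by
  have hr : Measurable (fun (z : {A : Idx ℕ // ¬ (lev A : ℕ) = m} → X) (i : ℕ) =>
      e (z ⟨sing i, hs_aux m hm i⟩)) := by
    refine measurable_pi_lambda _ fun i => ?_
    have h1 : Measurable (fun (z : {A : Idx ℕ // ¬ (lev A : ℕ) = m} → X) =>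
        z ⟨sing i, hs_aux m hm i⟩) := measurable_pi_apply _
    exact he.comp h1
  have hg : Measurable (fun (z : {A : Idx ℕ // ¬ (lev A : ℕ) = m} → X)
      (A : {A : Idx ℕ // ¬ ¬ (lev A : ℕ) = m}) =>
        G A.1 (fun i => e (z ⟨sing i, hs_aux m hm i⟩))) := by
    refine measurable_pi_lambda _ fun A => ?_
    exact (hG A.1).comp hr
  exact indep_pad μ (fun A : Idx ℕ => ¬ (lev A : ℕ) = m) b hb hb' _ hg

lemma altN_indep1 (m : ℕ) (hm : 2 ≤ m) (μ : Measure X) [IsProbabilityMeasure μ] (b : X → Bool)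
    (hb : Measurable b) (hb' : μ.map b = coin) (e : X → ℝ) (he : Measurable e) :
    IndepFun (fun (θ : Idx ℕ → X) (A : {A : Idx ℕ // ¬ ¬ (lev A : ℕ) = m}) => padC b e θ A.1)
      (fun (θ : Idx ℕ → X) (A : {A : Idx ℕ // ¬ (lev A : ℕ) = m}) => θ A.1) (iid μ) := by
  unfold padC
  exact pad_abstract m hm μ b hb hb' e he (fun A r => gB r A.1) (fun A => measurable_gB A.1)

lemma ae_inj (μ : Measure X) [IsProbabilityMeasure μ] (e : X → ℝ) (he : Measurable e)
    (he' : NullSingletonClass (μ.map e)) :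
    ∀ᵐ θ ∂(iid μ), Function.Injective (fun i => e (θ (sing i))) := by
    have h4 : ∀ i j : ℕ, i ≠ j → ∀ᵐ θ ∂(iid μ), e (θ (sing i)) ≠ e (θ (sing j)) := by
      intro i j hij
      refine ae_ne_of_iid μ e he he' ?_
      intro hh
      have := congrArg Subtype.val hh
      simp only [sing, Finset.singleton_inj] at this
      exact hij this
    have h5 : ∀ᵐ θ ∂(iid μ), ∀ i j : ℕ, i ≠ j → e (θ (sing i)) ≠ e (θ (sing j)) := by
      rw [ae_all_iff]; intro i
      rw [ae_all_iff]; intro j
      by_cases hij : i = j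
      · exact Eventually.of_forall fun v hne => absurd hij hne
      · filter_upwards [h4 i j hij] with v hv _ using hv
    filter_upwards [h5] with v hv i j hij
    by_contra hne
    exact hv i j hne hij

lemma altN_indep (m : ℕ) (hm : 2 ≤ m) (μ : Measure X) [IsProbabilityMeasure μ] (b : X → Bool)
    (hb : Measurable b) (hb' : μ.map b = coin) (e : X → ℝ) (he : Measurable e)
    (he' : NullSingletonClass (μ.map e)) :
    IndepFun (altN m b hb e he).arr
      (fun (θ : Idx ℕ → X) (A : {A : Idx ℕ // ¬ (lev A : ℕ) = m}) => θ A.1) (iid μ) := by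
  obtain ⟨F, hF, hFa⟩ := altN_factor m hm b hb e he
  have h1 := altN_indep1 m hm μ b hb hb' e he
  have h2 := h1.comp hF measurable_id
  have h3 := ae_inj μ e he he'
  have h6 : (F ∘ (fun (θ : Idx ℕ → X) (A : {A : Idx ℕ // ¬ ¬ (lev A : ℕ) = m}) =>
      padC b e θ A.1)) =ᵐ[iid μ] (altN m b hb e he).arr := by
    filter_upwards [h3] with θ hθ
    rw [hFa θ hθ]; rfl
  exact h2.congr h6 (ae_eq_refl _)

/-- `φ` is `C`-compatible: some `T`-on over the fixed space representing `φ` has all peons
`C`-compatible. -/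
def Compatible {L : FirstOrder.Language.{0, 0}} [L.IsRelational] (T : L.Theory) (μ : Measure X)
    [IsProbabilityMeasure μ] (C : Set ℕ+) (φ : Measure (Str L)) : Prop :=
  ∃ N : EucStr L X, N.IsTon μ T ∧ N.law μ = φ ∧ ∀ p, CompatPeon C (N.peon p)

/-- `φ` is weakly `(ℕ₊ ∖ B)`-compatible: some `T`-on over the fixed space representing `φ` has
array independent of the coordinates with level in `B`. -/
def WeaklyCompatible {L : FirstOrder.Language.{0, 0}} [L.IsRelational] (T : L.Theory)
    (μ : Measure X) [IsProbabilityMeasure μ] (B : Set ℕ+) (φ : Measure (Str L)) : Prop :=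
  ∃ N : EucStr L X, N.IsTon μ T ∧ N.law μ = φ ∧
    IndepFun N.arr (fun (θ : Idx ℕ → X) (A : {A : Idx ℕ // lev A ∈ B}) => θ A) (iid μ)

/-- the relation symbol of `Lm m` -/
def symb (m : ℕ) : Σ n, (Lm m).Relations n := ⟨m, ⟨rfl⟩⟩

/-- In a structure all of whose peons depend only on the levels in `Bᶜ` and `Bᶜ` contains no level
below `m`, the relation is symmetric. -/
lemma symm_of_compat (m : ℕ) (B : Set ℕ+) (hB : ∀ l : ℕ+, (l : ℕ) < m → l ∈ B)
    (N : EucStr (Lm m) X) (hN : ∀ p, CompatPeon Bᶜ (N.peon p)) (a : Fin m → ℕ)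
    (ha : Function.Injective a) (σ : Equiv.Perm (Fin m)) (θ : Idx ℕ → X) :
    N.arr θ (symb m) a ↔ N.arr θ (symb m) (a ∘ σ) := by
  have key : ∀ (a : Fin m → ℕ) (ha : Function.Injective a) (σ : Equiv.Perm (Fin m)),
      N.arr θ (symb m) a → N.arr θ (symb m) (a ∘ σ) := by
    rintro a ha σ ⟨h, hx⟩
    refine ⟨ha.comp σ.injective, ?_⟩
    refine (hN (symb m) _ _ fun A hA => ?_).1 hx
    -- `A` has level at least `m`, so is everything
    have hcard : A.1 = Finset.univ := by
      have h1 : ¬ (lev A : ℕ) < m := fun hlt => hA (hB _ hlt)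
      have h2 : A.1.card = m := by
        have h3 : A.1.card ≤ m := by
          have := Finset.card_le_univ A.1
          have h4 : Fintype.card (Fin (symb m).1) = m := by
            rw [Fintype.card_fin]; rfl
          rwa [h4] at this
        have h5 : m ≤ A.1.card := not_lt.1 h1
        omega
      exact (Finset.card_eq_iff_eq_univ A.1).1 (by rw [h2, Fintype.card_fin]; rfl)
    congr 1
    apply Subtype.ext
    simp only [Idx.map, hcard]
    ext x
    simp only [Finset.mem_map, Finset.mem_univ, true_and, Function.Embedding.coeFn_mk,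
      Function.comp]
    constructor
    · rintro ⟨i, rfl⟩; exact ⟨σ.symm i, by simp⟩
    · rintro ⟨i, rfl⟩; exact ⟨σ i, rfl⟩
  constructor
  · exact key a ha σ
  · intro h
    have := key (a ∘ σ) (ha.comp σ.injective) σ⁻¹ h
    have he : (a ∘ σ) ∘ ⇑σ⁻¹ = a := by
      funext i; simp
    exact Eq.mp (congrArg (N.arr θ (symb m)) he) this

lemma altN_arr_symb (m : ℕ) (h0 : 0 < m) (b : X → Bool) (hb : Measurable b) (e : X → ℝ)
    (he : Measurable e) (θ : Idx ℕ → X) (a : Fin m → ℕ) (ha : Function.Injective a) :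
    (altN m b hb e he).arr θ (symb m) a ↔
      xor (b (θ (Idx.map ⟨a, ha⟩ (fullIdx m h0))))
        (sgB ((fun i => e (θ (sing i))) ∘ a)) = true :=
  (altN_arr m b hb e he θ (symb m) a).trans ⟨fun ⟨_, _, h⟩ => h, fun h => ⟨ha, h0, h⟩⟩

/-- For `1 ∈ B ≠ ℕ₊`, weak compatibility is strictly weaker than compatibility. -/
theorem exists_weak_not_compat [StandardBorelSpace X] (μ : Measure X) [IsProbabilityMeasure μ]
    [NullSingletonClass μ] (B : Set ℕ+) (h1 : (1 : ℕ+) ∈ B) (h2 : B ≠ univ) :
    ∃ (m : ℕ) (φ : Measure (Str (Lm m))), WeaklyCompatible (∅ : (Lm m).Theory) μ B φ ∧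
      ¬ Compatible (∅ : (Lm m).Theory) μ Bᶜ φ := by
  classical
  obtain ⟨M, hM, hMmin⟩ : ∃ M : ℕ+, M ∉ B ∧ ∀ l : ℕ+, l < M → l ∈ B := by
    have hne : ∃ l : ℕ+, l ∉ B := by
      by_contra hc
      push Not at hc
      exact h2 (eq_univ_of_forall hc)
    refine ⟨PNat.find hne, PNat.find_spec hne, fun l hl => ?_⟩
    have := PNat.find_min hne hl
    simpa using this
  have hM2 : 2 ≤ (M : ℕ) := by
    by_contra hc
    have : (M : ℕ) = 1 := by have := M.pos; omega
    have : M = 1 := PNat.eq this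
    rw [this] at hM
    exact hM h1
  obtain ⟨b, hb, hbm⟩ := exists_map_of_noAtoms μ coin
  have hemb := measurableEmbedding_embeddingReal X
  have he' : NullSingletonClass (μ.map (embeddingReal X)) := by
    constructor
    intro y
    rw [hemb.map_apply]
    have : (embeddingReal X ⁻¹' {y}).Subsingleton := by
      intro a ha b hb
      exact hemb.injective (by rw [mem_preimage, mem_singleton_iff] at ha hb; rw [ha, hb])
    exact this.measure_zero μ
  let e : X → ℝ := embeddingReal X
  have he : Measurable e := hemb.measurable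
  let N := altN (M : ℕ) b hb e he
  refine ⟨M, N.law μ, ⟨N, isTon_empty N μ, rfl, ?_⟩, ?_⟩
  · have h3 := altN_indep (M : ℕ) hM2 μ b hb hbm e he he'
    let ψ : ({A : Idx ℕ // ¬ (lev A : ℕ) = (M : ℕ)} → X) → ({A : Idx ℕ // lev A ∈ B} → X) :=
      fun z A => z ⟨A.1, fun h => hM (by rw [← PNat.eq h]; exact A.2)⟩
    have hψ : Measurable ψ := measurable_pi_lambda _ fun A => measurable_pi_apply _
    exact h3.comp measurable_id hψ
  · rintro ⟨N', _, hlaw, hcomp⟩
    have h01 : (0 : ℕ) < M := by omega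
    have h11 : (1 : ℕ) < M := by omega
    let a : Fin (M : ℕ) → ℕ := fun i => i
    have ha : Function.Injective a := Fin.val_injective
    let σ : Equiv.Perm (Fin (M : ℕ)) := Equiv.swap ⟨0, h01⟩ ⟨1, h11⟩
    have hσ : pb σ = true := by
      unfold pb
      rw [Equiv.Perm.sign_swap]
      · simp
      · intro h; simpa using congrArg Fin.val h
    let S : Set (Str (Lm (M : ℕ))) := {K | K (symb M) a ↔ K (symb M) (a ∘ σ)}
    have hS : MeasurableSet S := by
      have hm1 : Measurable (fun K : Str (Lm (M : ℕ)) => K (symb M) a) :=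
        (measurable_pi_apply a).comp (measurable_pi_apply (symb M))
      have hm2 : Measurable (fun K : Str (Lm (M : ℕ)) => K (symb M) (a ∘ σ)) :=
        (measurable_pi_apply (a ∘ σ)).comp (measurable_pi_apply (symb M))
      have : S = {K | K (symb M) a = K (symb M) (a ∘ σ)} := by
        ext K; exact ⟨fun h => propext h, fun h => by
          change (_ ↔ _); rw [show K (symb M) a = K (symb M) (a ∘ σ) from h]⟩
      rw [this]
      exact measurableSet_eq_fun hm1 hm2
    have k1 : N'.law μ S = 1 := by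
      unfold EucStr.law
      rw [Measure.map_apply N'.measurable_arr hS]
      have : N'.arr ⁻¹' S = univ := eq_univ_of_forall fun θ =>
        symm_of_compat (M : ℕ) B (fun l hl => hMmin l hl) N' hcomp a ha σ θ
      rw [this]; simp
    have k2 : N.law μ S = 0 := by
      unfold EucStr.law
      rw [Measure.map_apply N.measurable_arr hS]
      have h4 := ae_inj μ e he he'
      have h5 : ∀ᵐ θ ∂(iid μ), ¬ N.arr θ ∈ S := by
        filter_upwards [h4] with θ hθ hmem
        change (N.arr θ (symb M) a ↔ N.arr θ (symb M) (a ∘ σ)) at hmem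
        have hsg : sgB ((fun i => e (θ (sing i))) ∘ (a ∘ σ)) =
            xor (pb σ) (sgB ((fun i => e (θ (sing i))) ∘ a)) :=
          sgB_comp ((fun i => e (θ (sing i))) ∘ a) (hθ.comp ha) σ
        have hidx : Idx.map ⟨a ∘ σ, ha.comp σ.injective⟩ (fullIdx (M : ℕ) h01) =
            Idx.map ⟨a, ha⟩ (fullIdx (M : ℕ) h01) := by
          apply Subtype.ext
          simp only [Idx.map, fullIdx]
          ext x
          simp only [Finset.mem_map, Finset.mem_univ, true_and, Function.Embedding.coeFn_mk,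
            Function.comp]
          constructor
          · rintro ⟨i, rfl⟩; exact ⟨σ i, rfl⟩
          · rintro ⟨i, rfl⟩; exact ⟨σ.symm i, by simp⟩
        have e1 := altN_arr_symb (M : ℕ) h01 b hb e he θ a ha
        have e2 := altN_arr_symb (M : ℕ) h01 b hb e he θ (a ∘ σ) (ha.comp σ.injective)
        rw [hidx, hsg, hσ] at e2
        have hmem := (e1.symm.trans hmem).trans e2
        revert hmem
        generalize b (θ (Idx.map ⟨a, ha⟩ (fullIdx (M : ℕ) h01))) = x
        generalize sgB ((fun i => e (θ (sing i))) ∘ a) = y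
        cases x <;> cases y <;> simp
      have h6 : {θ | ¬ ¬ N.arr θ ∈ S} = N.arr ⁻¹' S := by
        ext θ; simp
      rw [← h6]
      exact ae_iff.1 h5
    rw [hlaw, k2] at k1
    exact absurd k1 (by norm_num)

end Pool.Agent.R130.Theon
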