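import Pool.Agent.R130.Theon.Defs

/-!
# Gluing of coordinate spaces along a coupling of the arrays (helper80, for helper130)
-/

open MeasureTheory ProbabilityTheory
open scoped ENNReal

namespace Pool.Agent.R130.Theon

section Abstract

variable {Ω S : Type} [MeasurableSpace Ω] [StandardBorelSpace Ω] [Nonempty Ω] [MeasurableSpace S]

/-- Given `f = K`, the conditional law is carried by `{f = K}`. -/
lemma condLaw_map_self [StandardBorelSpace S] [Nonempty S] (P : Measure Ω)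
    [IsProbabilityMeasure P] (f : Ω → S) (hf : Measurable f) :
    ∀ᵐ K ∂(P.map f), (condDistrib id f P K).map f = Measure.dirac K := by
  have h1 : condDistrib (f ∘ id) f P =ᵐ[P.map f] (condDistrib id f P).map f :=
    condDistrib_comp (μ := P) f (Y := (id : Ω → Ω)) measurable_id.aemeasurable hf
  have h2 : condDistrib f f P =ᵐ[P.map f] Kernel.id := condDistrib_self (μ := P) f
  filter_upwards [h1, h2] with K hK1 hK2
  rw [← Kernel.map_apply _ hf, ← hK1, Function.comp_id, hK2, Kernel.id_apply]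

/-- Equivariance of the conditional law. -/
lemma condLaw_equivariant (P : Measure Ω) [IsProbabilityMeasure P] (f : Ω → S)
    (hf : Measurable f) (T : Ω → Ω) (hT : Measurable T) (hTP : P.map T = P) (t t' : S → S)
    (ht : Measurable t) (ht' : Measurable t') (htt' : ∀ K, t' (t K) = K)
    (hfT : ∀ ω, f (T ω) = t (f ω)) :
    ∀ᵐ K ∂(P.map f), (condDistrib id f P K).map T = condDistrib id f P (t K) := by
  have hν : (P.map f).map t = P.map f := by
    rw [Measure.map_map ht hf]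
    have : t ∘ f = f ∘ T := by
      funext ω
      exact (hfT ω).symm
    rw [this, ← Measure.map_map hf hT, hTP]
  have : IsProbabilityMeasure (P.map f) := Measure.isProbabilityMeasure_map hf.aemeasurable
  have key : P.map (fun x => (f x, id x)) =
      P.map f ⊗ₘ (((condDistrib id f P).comap t' ht').map T) := by
    have : IsFiniteMeasure (P.map (fun x => (f x, id x))) := by infer_instance
    refine Measure.ext_prod fun {A B} hA hB => ?_
    rw [Measure.compProd_apply_prod hA hB]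
    have e1 : P.map (fun x => (f x, id x)) (A ×ˢ B) =
        (P.map f ⊗ₘ condDistrib id f P) ((t ⁻¹' A) ×ˢ (T ⁻¹' B)) := by
      rw [compProd_map_condDistrib measurable_id.aemeasurable,
        Measure.map_apply (hf.prodMk measurable_id) (hA.prod hB),
        Measure.map_apply (hf.prodMk measurable_id) ((ht hA).prod (hT hB))]
      conv_lhs => rw [← hTP]
      rw [Measure.map_apply hT ((hf.prodMk measurable_id) (hA.prod hB))]
      congr 1
      ext ω
      simp [hfT]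
    rw [e1, Measure.compProd_apply_prod (ht hA) (hT hB)]
    conv_rhs => rw [← hν]
    rw [setLIntegral_map hA (Kernel.measurable_coe _ hB) ht]
    refine setLIntegral_congr_fun (ht hA) fun K _ => ?_
    rw [Kernel.map_apply' _ hT _ hB, Kernel.comap_apply, htt']
  have h := condDistrib_ae_eq_of_measure_eq_compProd (μ := P) f (Y := (id : Ω → Ω))
    measurable_id.aemeasurable key
  rw [← hν] at h
  have h2 := ae_of_ae_map ht.aemeasurable h
  filter_upwards [h2] with K hK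
  rw [hK, Kernel.map_apply _ hT, Kernel.comap_apply, htt']

end Abstract

lemma bind_map_eq {α β γ : Type} [MeasurableSpace α] [MeasurableSpace β] [MeasurableSpace γ]
    (μ : Measure α) {f : α → β} (hf : Measurable f) {g : β → Measure γ} (hg : Measurable g) :
    (μ.map f).bind g = μ.bind (fun a => g (f a)) := by
  ext s hs
  have h2 : μ.bind (fun a => g (f a)) s = ∫⁻ a, g (f a) s ∂μ :=
    Measure.bind_apply hs (hg.comp hf).aemeasurable
  rw [Measure.bind_apply hs hg.aemeasurable, h2]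
  exact lintegral_map ((Measure.measurable_coe hs).comp hg) hf

theorem gluing_abstract {Ω₁ Ω₂ S₁ S₂ : Type} [MeasurableSpace Ω₁] [StandardBorelSpace Ω₁]
    [MeasurableSpace Ω₂] [StandardBorelSpace Ω₂] [MeasurableSpace S₁] [StandardBorelSpace S₁]
    [MeasurableSpace S₂] [StandardBorelSpace S₂] (P₁ : Measure Ω₁) [IsProbabilityMeasure P₁]
    (P₂ : Measure Ω₂) [IsProbabilityMeasure P₂] (f₁ : Ω₁ → S₁) (f₂ : Ω₂ → S₂)
    (hf₁ : Measurable f₁) (hf₂ : Measurable f₂) (ρ : Measure (S₁ × S₂)) [IsProbabilityMeasure ρ]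
    (h₁ : ρ.map Prod.fst = P₁.map f₁) (h₂ : ρ.map Prod.snd = P₂.map f₂) :
    ∃ γ : Measure (Ω₁ × Ω₂), IsProbabilityMeasure γ ∧ γ.map Prod.fst = P₁ ∧
      γ.map Prod.snd = P₂ ∧ γ.map (Prod.map f₁ f₂) = ρ ∧
      ∀ (T₁ : Ω₁ → Ω₁) (T₂ : Ω₂ → Ω₂) (t₁ t₁' : S₁ → S₁) (t₂ t₂' : S₂ → S₂),
        Measurable T₁ → Measurable T₂ → Measurable t₁ → Measurable t₁' → Measurable t₂ →
        Measurable t₂' → P₁.map T₁ = P₁ → P₂.map T₂ = P₂ → (∀ K, t₁' (t₁ K) = K) →
        (∀ K, t₂' (t₂ K) = K) → (∀ ω, f₁ (T₁ ω) = t₁ (f₁ ω)) → (∀ ω, f₂ (T₂ ω) = t₂ (f₂ ω)) →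
        ρ.map (Prod.map t₁ t₂) = ρ → γ.map (Prod.map T₁ T₂) = γ := by
  have : Nonempty Ω₁ := nonempty_of_isProbabilityMeasure P₁
  have : Nonempty Ω₂ := nonempty_of_isProbabilityMeasure P₂
  have : Nonempty S₁ := ⟨f₁ (Classical.arbitrary _)⟩
  have : Nonempty S₂ := ⟨f₂ (Classical.arbitrary _)⟩
  set κ₁ := condDistrib id f₁ P₁ with hκ₁
  set κ₂ := condDistrib id f₂ P₂ with hκ₂
  refine ⟨(κ₁ ∥ₖ κ₂) ∘ₘ ρ, inferInstance, ?_, ?_, ?_, ?_⟩
  · rw [Measure.map_comp _ _ measurable_fst]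
    have e : ∀ x, ((κ₁ ∥ₖ κ₂).map Prod.fst) x = κ₁ x.1 := by
      intro x
      rw [Kernel.map_apply _ measurable_fst, Kernel.parallelComp_apply, Measure.map_fst_prod]
      simp
    have : ((κ₁ ∥ₖ κ₂).map Prod.fst) ∘ₘ ρ = ρ.bind (fun x => κ₁ x.1) :=
      Measure.bind_congr_right (Filter.Eventually.of_forall e)
    rw [this, ← bind_map_eq ρ measurable_fst κ₁.measurable, h₁,
      condDistrib_comp_map hf₁.aemeasurable measurable_id.aemeasurable, Measure.map_id]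
  · rw [Measure.map_comp _ _ measurable_snd]
    have e : ∀ x, ((κ₁ ∥ₖ κ₂).map Prod.snd) x = κ₂ x.2 := by
      intro x
      rw [Kernel.map_apply _ measurable_snd, Kernel.parallelComp_apply, Measure.map_snd_prod]
      simp
    have : ((κ₁ ∥ₖ κ₂).map Prod.snd) ∘ₘ ρ = ρ.bind (fun x => κ₂ x.2) :=
      Measure.bind_congr_right (Filter.Eventually.of_forall e)
    rw [this, ← bind_map_eq ρ measurable_snd κ₂.measurable, h₂,
      condDistrib_comp_map hf₂.aemeasurable measurable_id.aemeasurable, Measure.map_id]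
  · rw [Measure.map_comp _ _ (hf₁.prodMap hf₂)]
    have a1 : ∀ᵐ x ∂ρ, (κ₁ x.1).map f₁ = Measure.dirac x.1 := by
      have h := condLaw_map_self P₁ f₁ hf₁
      rw [← h₁] at h
      exact ae_of_ae_map measurable_fst.aemeasurable h
    have a2 : ∀ᵐ x ∂ρ, (κ₂ x.2).map f₂ = Measure.dirac x.2 := by
      have h := condLaw_map_self P₂ f₂ hf₂
      rw [← h₂] at h
      exact ae_of_ae_map measurable_snd.aemeasurable h
    have e : ∀ᵐ x ∂ρ, ((κ₁ ∥ₖ κ₂).map (Prod.map f₁ f₂)) x = Measure.dirac x := by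
      filter_upwards [a1, a2] with x hx1 hx2
      rw [Kernel.map_apply _ (hf₁.prodMap hf₂), Kernel.parallelComp_apply,
        ← Measure.map_prod_map _ _ hf₁ hf₂, hx1, hx2, Measure.dirac_prod_dirac]
    have : ((κ₁ ∥ₖ κ₂).map (Prod.map f₁ f₂)) ∘ₘ ρ = ρ.bind Measure.dirac :=
      Measure.bind_congr_right e
    rw [this, Measure.bind_dirac]
  · intro T₁ T₂ t₁ t₁' t₂ t₂' hT₁ hT₂ ht₁ ht₁' ht₂ ht₂' hP₁ hP₂ hi₁ hi₂ hc₁ hc₂ hρ
    rw [Measure.map_comp _ _ (hT₁.prodMap hT₂)]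
    have a1 : ∀ᵐ x ∂ρ, (κ₁ x.1).map T₁ = κ₁ (t₁ x.1) := by
      have h := condLaw_equivariant P₁ f₁ hf₁ T₁ hT₁ hP₁ t₁ t₁' ht₁ ht₁' hi₁ hc₁
      rw [← h₁] at h
      exact ae_of_ae_map measurable_fst.aemeasurable h
    have a2 : ∀ᵐ x ∂ρ, (κ₂ x.2).map T₂ = κ₂ (t₂ x.2) := by
      have h := condLaw_equivariant P₂ f₂ hf₂ T₂ hT₂ hP₂ t₂ t₂' ht₂ ht₂' hi₂ hc₂
      rw [← h₂] at h
      exact ae_of_ae_map measurable_snd.aemeasurable h
    have e : ∀ᵐ x ∂ρ, ((κ₁ ∥ₖ κ₂).map (Prod.map T₁ T₂)) x =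
        (κ₁ ∥ₖ κ₂) (Prod.map t₁ t₂ x) := by
      filter_upwards [a1, a2] with x hx1 hx2
      rw [Kernel.map_apply _ (hT₁.prodMap hT₂), Kernel.parallelComp_apply,
        ← Measure.map_prod_map _ _ hT₁ hT₂, hx1, hx2, Kernel.parallelComp_apply]
      rfl
    have : ((κ₁ ∥ₖ κ₂).map (Prod.map T₁ T₂)) ∘ₘ ρ =
        ρ.bind (fun x => (κ₁ ∥ₖ κ₂) (Prod.map t₁ t₂ x)) :=
      Measure.bind_congr_right e
    rw [this, ← bind_map_eq ρ (ht₁.prodMap ht₂) (κ₁ ∥ₖ κ₂).measurable, hρ]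

instance instStandardBorelStr (L : FirstOrder.Language.{0, 0}) [Countable (Σ n, L.Relations n)] :
    StandardBorelSpace (Str L) := by
  unfold Str
  infer_instance

theorem exists_gluing {L₁ L₂ : FirstOrder.Language.{0, 0}}
    [Countable (Σ n, L₁.Relations n)] [Countable (Σ n, L₂.Relations n)]
    {X₁ X₂ : Type} [MeasurableSpace X₁] [MeasurableSpace X₂] [StandardBorelSpace X₁]
    [StandardBorelSpace X₂] (μ₁ : Measure X₁) (μ₂ : Measure X₂) [IsProbabilityMeasure μ₁]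
    [IsProbabilityMeasure μ₂] (N₁ : EucStr L₁ X₁) (N₂ : EucStr L₂ X₂)
    (ρ : Measure (Str L₁ × Str L₂)) [IsProbabilityMeasure ρ]
    (h₁ : ρ.map Prod.fst = N₁.law μ₁) (h₂ : ρ.map Prod.snd = N₂.law μ₂)
    (hρ : ∀ σ : Equiv.Perm ℕ, ρ.map (Prod.map (permS σ) (permS σ)) = ρ) :
    ∃ γ : Measure ((Idx ℕ → X₁) × (Idx ℕ → X₂)), IsProbabilityMeasure γ ∧
      γ.map Prod.fst = iid μ₁ ∧ γ.map Prod.snd = iid μ₂ ∧
      γ.map (Prod.map N₁.arr N₂.arr) = ρ ∧
      ∀ σ : Equiv.Perm ℕ, γ.map (Prod.map (permC σ) (permC σ)) = γ := by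
  obtain ⟨γ, hγ, e1, e2, e3, e4⟩ := gluing_abstract (iid μ₁) (iid μ₂) N₁.arr N₂.arr
    N₁.measurable_arr N₂.measurable_arr ρ h₁ h₂
  refine ⟨γ, hγ, e1, e2, e3, fun σ => ?_⟩
  have hinv : ∀ {L : FirstOrder.Language.{0, 0}} (K : Str L), permS σ⁻¹ (permS σ K) = K := by
    intro L K
    funext p a
    simp only [permS]
    congr 1
    funext i
    simp
  exact e4 (permC σ) (permC σ) (permS σ) (permS σ⁻¹) (permS σ) (permS σ⁻¹)
    (measurable_permC σ) (measurable_permC σ) (measurable_permS σ) (measurable_permS _)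
    (measurable_permS σ) (measurable_permS _) (iid_permC μ₁ σ) (iid_permC μ₂ σ) hinv hinv
    (N₁.arr_permC σ) (N₂.arr_permC σ) (hρ σ)

end Pool.Agent.R130.Theon
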