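import Pool.Agent.R130.Theon.Defs

/-!
# Levels `> ℓ` are independent of both families of levels `≤ ℓ` (from Gowers-Cauchy-Schwarz)
-/

set_option autoImplicit false

open MeasureTheory ProbabilityTheory

namespace Pool.Agent.R130.Theon

/-- the statement of `gcs` -/
def S_GCS : Prop := ∀ {Z : Type} [MeasurableSpace Z] (E : Act Z) (γ : Measure Z)
    [IsProbabilityMeasure γ] (_ : ∀ σ, γ.map (E.T σ) = γ) (W : Finset ℕ)
    (l : List (ℕ × ℕ)) (_ : (l.map Prod.fst).Nodup) (_ : (l.map Prod.snd).Nodup)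
    (_ : ∀ p ∈ l, p.1 ∈ W) (_ : ∀ p ∈ l, p.2 ∉ W) (e : Z → ℝ) (_ : Measurable e)
    (_ : ∃ M, ∀ z, |e z| ≤ M) (_ : Supp E W e)
    (u : ℕ → Z → ℝ) (_ : ∀ p ∈ l, Measurable (u p.1)) (_ : ∀ p ∈ l, ∃ M, ∀ z, |u p.1 z| ≤ M)
    (_ : ∀ p ∈ l, Supp E (W.erase p.1) (u p.1))
    (_ : ∫ z, oct E l e z ∂γ = 0),
    ∫ z, e z * (l.map (fun p => u p.1 z)).prod ∂γ = 0

namespace IndepL

variable {X Y : Type} [MeasurableSpace X] [MeasurableSpace Y]

/-- the action on pairs of families of coordinates -/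
def actP (X Y : Type) [MeasurableSpace X] [MeasurableSpace Y] :
    Act ((Idx ℕ → X) × (Idx ℕ → Y)) where
  T := fun σ => Prod.map (permC σ) (permC σ)
  meas := fun σ => (measurable_permC σ).prodMap (measurable_permC σ)
  one := fun z => Prod.ext ((actC X).one z.1) ((actC Y).one z.2)
  mul := fun σ τ z => Prod.ext ((actC X).mul σ τ z.1) ((actC Y).mul σ τ z.2)

lemma integral_prod_iid (μ : Measure X) [IsProbabilityMeasure μ] (F : Finset (Idx ℕ))
    (g : Idx ℕ → X → ℝ) (hg : ∀ B, Measurable (g B)) :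
    ∫ θ, ∏ B ∈ F, g B (θ B) ∂(iid μ) = ∏ B ∈ F, ∫ x, g B x ∂μ := by
  have h := integral_restrict_infinitePi (μ := fun _ : Idx ℕ => μ) (s := F)
    (f := fun y => ∏ i : F, g i (y i))
    (by
      refine Measurable.aestronglyMeasurable ?_
      exact Finset.measurable_prod _ fun (i : F) _ => (hg i).comp (measurable_pi_apply i))
  rw [integral_fintype_prod_eq_prod] at h
  rw [← Finset.prod_coe_sort F fun B => ∫ x, g B x ∂μ, ← h]
  refine integral_congr_ae (Filter.Eventually.of_forall fun θ => ?_)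
  simp only [Finset.restrict]
  exact (Finset.prod_coe_sort F fun B => g B (θ B)).symm

lemma map_fix {W : Finset ℕ} {σ : Equiv.Perm ℕ} (hσ : ∀ w ∈ W, σ w = w) {B : Idx ℕ}
    (hB : B.1 ⊆ W) : Idx.map σ.toEmbedding B = B := by
  apply Subtype.ext
  simp only [Idx.map]
  ext x
  rw [Finset.mem_map]
  constructor
  · rintro ⟨y, hy, rfl⟩
    rw [Equiv.toEmbedding_apply, hσ y (hB hy)]
    exact hy
  · intro hx
    exact ⟨x, hx, hσ x (hB hx)⟩

lemma supp_coord {W : Finset ℕ} {B : Idx ℕ} (hB : B.1 ⊆ W) (φ : X × Y → ℝ) :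
    Supp (actP X Y) W (fun z => φ (z.1 B, z.2 B)) := by
  intro σ hσ z
  simp only [actP, Prod.map, permC, map_fix hσ hB]

lemma supp_prod {Z : Type} [MeasurableSpace Z] {E : Act Z} {W : Finset ℕ} {ι : Type}
    (s : Finset ι) (u : ι → Z → ℝ) (h : ∀ i ∈ s, Supp E W (u i)) :
    Supp E W (fun z => ∏ i ∈ s, u i z) := by
  intro σ hσ z
  exact Finset.prod_congr rfl fun i hi => h i hi σ hσ z

lemma bdd_prod {Z ι : Type} (s : Finset ι) (u : ι → Z → ℝ)
    (h : ∀ i ∈ s, ∃ M, ∀ z, |u i z| ≤ M) : ∃ M, ∀ z, |∏ i ∈ s, u i z| ≤ M := by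
  classical
  induction s using Finset.induction_on with
  | empty => exact ⟨1, fun z => by simp⟩
  | insert a s ha ih =>
    obtain ⟨M, hM⟩ := ih fun i hi => h i (Finset.mem_insert_of_mem hi)
    obtain ⟨N, hN⟩ := h a (Finset.mem_insert_self _ _)
    refine ⟨|N| * |M|, fun z => ?_⟩
    rw [Finset.prod_insert ha, abs_mul]
    exact mul_le_mul ((hN z).trans (le_abs_self _)) ((hM z).trans (le_abs_self _)) (abs_nonneg _)
      (abs_nonneg _)

/-- the octahedral product of a product over a set of coordinates -/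
lemma oct_prod (e0 : X → ℝ) : ∀ (l : List (ℕ × ℕ)) (F : Finset (Idx ℕ)), F.Nonempty →
    (∀ p ∈ l, ∀ B ∈ F, p.1 ∈ B.1 ∧ p.2 ∉ B.1) → (l.map Prod.fst).Nodup →
    (l.map Prod.snd).Nodup → (∀ p ∈ l, ∀ q ∈ l, p.1 ≠ q.2) →
    ∃ F' : Finset (Idx ℕ), F'.Nonempty ∧ ∀ z : (Idx ℕ → X) × (Idx ℕ → Y),
      oct (actP X Y) l (fun z => ∏ B ∈ F, e0 (z.1 B)) z = ∏ B ∈ F', e0 (z.1 B) := by
  classical
  intro l
  induction l with
  | nil => exact fun F hF _ _ _ _ => ⟨F, hF, fun z => rfl⟩
  | cons p l ih =>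
    intro F hF h1 h2 h3 h4
    set τ : Idx ℕ → Idx ℕ := Idx.map (Equiv.swap p.1 p.2).toEmbedding with hτ
    have hinj : Function.Injective τ := by
      intro A B hAB
      have : A.1.map (Equiv.swap p.1 p.2).toEmbedding = B.1.map (Equiv.swap p.1 p.2).toEmbedding :=
        congrArg Subtype.val hAB
      exact Subtype.ext (Finset.map_injective _ this)
    set G : Finset (Idx ℕ) := F.image τ with hG
    have hmem : ∀ (B : Idx ℕ) (x : ℕ), x ∈ (τ B).1 ↔ Equiv.swap p.1 p.2 x ∈ B.1 := by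
      intro B x
      rw [hτ]
      simp only [Idx.map, Finset.mem_map_equiv, Equiv.symm_swap]
    have hdis : Disjoint F G := by
      rw [Finset.disjoint_left]
      intro B hB hBG
      obtain ⟨C, hC, rfl⟩ := Finset.mem_image.1 hBG
      refine (h1 p List.mem_cons_self _ hB).2 ?_
      rw [hmem, Equiv.swap_apply_right]
      exact (h1 p List.mem_cons_self _ hC).1
    have key : ∀ q ∈ l, ∀ B ∈ F ∪ G, q.1 ∈ B.1 ∧ q.2 ∉ B.1 := by
      intro q hq B hB
      have hq' : q ∈ p :: l := List.mem_cons_of_mem _ hq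
      rcases Finset.mem_union.1 hB with hB | hB
      · exact h1 q hq' B hB
      · obtain ⟨C, hC, rfl⟩ := Finset.mem_image.1 hB
        obtain ⟨k1, k2⟩ := h1 q hq' C hC
        have n1 : q.1 ≠ p.1 := by
          intro h
          rw [List.map_cons, List.nodup_cons] at h2
          exact h2.1 (h ▸ List.mem_map_of_mem hq)
        have n2 : q.1 ≠ p.2 := h4 q hq' p List.mem_cons_self
        have n3 : q.2 ≠ p.2 := by
          intro h
          rw [List.map_cons, List.nodup_cons] at h3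
          exact h3.1 (h ▸ List.mem_map_of_mem hq)
        have n4 : q.2 ≠ p.1 := fun h => h4 p List.mem_cons_self q hq' h.symm
        rw [hmem, hmem, Equiv.swap_apply_of_ne_of_ne n1 n2, Equiv.swap_apply_of_ne_of_ne n4 n3]
        exact ⟨k1, k2⟩
    rw [List.map_cons, List.nodup_cons] at h2 h3
    obtain ⟨F', hF', h⟩ := ih (F ∪ G) (hF.mono Finset.subset_union_left) key h2.2 h3.2
      fun a ha b hb => h4 a (List.mem_cons_of_mem _ ha) b (List.mem_cons_of_mem _ hb)
    refine ⟨F', hF', fun z => ?_⟩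
    rw [← h z]
    show oct (actP X Y) l _ z = oct (actP X Y) l _ z
    congr 1
    funext w
    rw [Finset.prod_union hdis, hG, Finset.prod_image fun a _ b _ hab => hinj hab]
    rfl

open Classical in
/-- the integral of a mean zero function of one coordinate against functions of coordinates which do
not contain it -/
lemma key (hG : S_GCS) (μ : Measure X) [IsProbabilityMeasure μ]
    (γ : Measure ((Idx ℕ → X) × (Idx ℕ → Y))) [IsProbabilityMeasure γ]
    (h₁ : γ.map Prod.fst = iid μ)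
    (hγ : ∀ σ : Equiv.Perm ℕ, γ.map (Prod.map (permC σ) (permC σ)) = γ)
    (A0 : Idx ℕ) (e0 : X → ℝ) (me : Measurable e0) (be : ∃ M, ∀ x, |e0 x| ≤ M)
    (m0 : ∫ x, e0 x ∂μ = 0) (R : Finset (Idx ℕ)) (φ : Idx ℕ → X × Y → ℝ)
    (mφ : ∀ B, Measurable (φ B)) (bφ : ∀ B, ∃ M, ∀ x, |φ B x| ≤ M)
    (hR : ∀ B ∈ R, ¬ A0.1 ⊆ B.1) :
    ∫ z, e0 (z.1 A0) * ∏ B ∈ R, φ B (z.1 B, z.2 B) ∂γ = 0 := by
  set W : Finset ℕ := A0.1 ∪ R.biUnion fun B => B.1 with hW
  set N : ℕ := W.sup id + 1 with hN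
  have hNW : ∀ w ∈ W, w < N := fun w hw => Nat.lt_succ_of_le (Finset.le_sup (f := id) hw)
  have hA0W : A0.1 ⊆ W := Finset.subset_union_left
  have hRW : ∀ B ∈ R, B.1 ⊆ W := fun B hB =>
    (Finset.subset_biUnion_of_mem (fun B : Idx ℕ => B.1) hB).trans Finset.subset_union_right
  set l : List (ℕ × ℕ) := A0.1.toList.map fun a => (a, N + a) with hl
  have hfst : l.map Prod.fst = A0.1.toList := by
    rw [hl, List.map_map]
    exact List.map_id _
  have hsnd : l.map Prod.snd = A0.1.toList.map fun a => N + a := by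
    rw [hl, List.map_map]
    rfl
  have hmem : ∀ p ∈ l, p.1 ∈ A0.1 ∧ p.2 = N + p.1 := by
    intro p hp
    obtain ⟨a, ha, rfl⟩ := List.mem_map.1 hp
    exact ⟨Finset.mem_toList.1 ha, rfl⟩
  have nd1 : (l.map Prod.fst).Nodup := by rw [hfst]; exact Finset.nodup_toList _
  have nd2 : (l.map Prod.snd).Nodup := by
    rw [hsnd]
    exact (Finset.nodup_toList _).map fun a b h => by simpa using h
  have hpick : ∀ B ∈ R, ∃ a ∈ A0.1, a ∉ B.1 := fun B hB => Finset.not_subset.1 (hR B hB)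
  let pick : Idx ℕ → ℕ := fun B => if h : ∃ a ∈ A0.1, a ∉ B.1 then h.choose else 0
  have hp1 : ∀ B ∈ R, pick B ∈ A0.1 ∧ pick B ∉ B.1 := by
    intro B hB
    simp only [pick]
    rw [dif_pos (hpick B hB)]
    exact (hpick B hB).choose_spec
  let u : ℕ → ((Idx ℕ → X) × (Idx ℕ → Y)) → ℝ := fun a z =>
    ∏ B ∈ R.filter (fun B => pick B = a), φ B (z.1 B, z.2 B)
  have mcoord : ∀ B : Idx ℕ, Measurable fun z : (Idx ℕ → X) × (Idx ℕ → Y) =>
      φ B (z.1 B, z.2 B) := fun B => (mφ B).comp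
    (((measurable_pi_apply B).comp measurable_fst).prodMk
      ((measurable_pi_apply B).comp measurable_snd))
  have h0 : ∫ z, oct (actP X Y) l (fun z => e0 (z.1 A0)) z ∂γ = 0 := by
    obtain ⟨F', hF', h⟩ := oct_prod (X := X) (Y := Y) e0 l {A0} (Finset.singleton_nonempty _)
      (by
        intro p hp B hB
        rw [Finset.mem_singleton] at hB
        subst hB
        obtain ⟨k1, k2⟩ := hmem p hp
        refine ⟨k1, fun k3 => ?_⟩
        have := hNW _ (hA0W k3)
        omega) nd1 nd2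
      (by
        intro p hp q hq heq
        have k1 := (hmem p hp).1
        have k2 := (hmem q hq).2
        have := hNW _ (hA0W k1)
        omega)
    simp only [Finset.prod_singleton] at h
    have e1 : ∫ z, oct (actP X Y) l (fun z => e0 (z.1 A0)) z ∂γ =
        ∫ z : (Idx ℕ → X) × (Idx ℕ → Y), ∏ B ∈ F', e0 (z.1 B) ∂γ :=
      integral_congr_ae (Filter.Eventually.of_forall h)
    have e2 : ∫ z : (Idx ℕ → X) × (Idx ℕ → Y), ∏ B ∈ F', e0 (z.1 B) ∂γ =
        ∫ θ, ∏ B ∈ F', e0 (θ B) ∂(iid μ) := by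
      rw [← h₁, integral_map measurable_fst.aemeasurable]
      exact (Finset.measurable_prod _ fun i _ =>
        me.comp (measurable_pi_apply i)).aestronglyMeasurable
    rw [e1, e2, integral_prod_iid μ F' (fun _ => e0) fun _ => me]
    obtain ⟨B, hB⟩ := hF'
    exact Finset.prod_eq_zero hB m0
  have hmain := hG (actP X Y) γ hγ W l nd1 nd2 (fun p hp => hA0W (hmem p hp).1)
    (fun p hp hpW => by
      have k2 := (hmem p hp).2
      have := hNW _ hpW
      omega)
    (fun z => e0 (z.1 A0)) (me.comp ((measurable_pi_apply A0).comp measurable_fst))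
    (by
      obtain ⟨M, hM⟩ := be
      exact ⟨M, fun z => hM _⟩)
    (supp_coord hA0W fun x => e0 x.1) u
    (fun p _ => Finset.measurable_prod _ fun B _ => mcoord B)
    (fun p _ => bdd_prod _ _ fun B _ => by
      obtain ⟨M, hM⟩ := bφ B
      exact ⟨M, fun z => hM _⟩)
    (fun p _ => by
      refine supp_prod _ (fun (B : Idx ℕ) (z : (Idx ℕ → X) × (Idx ℕ → Y)) =>
        φ B (z.1 B, z.2 B)) fun B hB => supp_coord ?_ (φ B)
      obtain ⟨k1, k2⟩ := Finset.mem_filter.1 hB
      intro x hx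
      refine Finset.mem_erase.2 ⟨?_, hRW B k1 hx⟩
      rintro rfl
      rw [← k2] at hx
      exact (hp1 B k1).2 hx) h0
  refine Eq.trans (integral_congr_ae (Filter.Eventually.of_forall fun z => ?_)) hmain
  simp only
  congr 1
  rw [hl, List.map_map]
  show _ = (A0.1.toList.map fun a => u a z).prod
  rw [Finset.prod_map_toList]
  exact (Finset.prod_fiberwise_of_maps_to (fun B hB => (hp1 B hB).1) _).symm

open Classical in
lemma prod_level (hG : S_GCS) (μ : Measure X) [IsProbabilityMeasure μ]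
    (γ : Measure ((Idx ℕ → X) × (Idx ℕ → Y))) [IsProbabilityMeasure γ]
    (h₁ : γ.map Prod.fst = iid μ)
    (hγ : ∀ σ : Equiv.Perm ℕ, γ.map (Prod.map (permC σ) (permC σ)) = γ) (ℓ : ℕ)
    (S' : Finset (Idx ℕ)) (hS' : ∀ B ∈ S', (lev B : ℕ) ≤ ℓ)
    (g : Idx ℕ → X → ℝ) (mg : ∀ A, Measurable (g A)) (bg : ∀ A, ∃ M, ∀ x, |g A x| ≤ M)
    (v : Idx ℕ → X × Y → ℝ) (mv : ∀ B, Measurable (v B)) (bv : ∀ B, ∃ M, ∀ x, |v B x| ≤ M)
    (S : Finset (Idx ℕ)) (hS : ∀ A ∈ S, ℓ < (lev A : ℕ)) :
    ∫ z, (∏ A ∈ S, g A (z.1 A)) * ∏ B ∈ S', v B (z.1 B, z.2 B) ∂γ =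
      (∏ A ∈ S, ∫ x, g A x ∂μ) * ∫ z, ∏ B ∈ S', v B (z.1 B, z.2 B) ∂γ := by
  have m1 : ∀ A : Idx ℕ, Measurable fun z : (Idx ℕ → X) × (Idx ℕ → Y) => z.1 A :=
    fun A => (measurable_pi_apply A).comp measurable_fst
  have m2 : ∀ A : Idx ℕ, Measurable fun z : (Idx ℕ → X) × (Idx ℕ → Y) => (z.1 A, z.2 A) :=
    fun A => (m1 A).prodMk ((measurable_pi_apply A).comp measurable_snd)
  revert hS
  refine Finset.induction_on_max_value
    (motive := fun S => (∀ A ∈ S, ℓ < (lev A : ℕ)) →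
      ∫ z, (∏ A ∈ S, g A (z.1 A)) * ∏ B ∈ S', v B (z.1 B, z.2 B) ∂γ =
      (∏ A ∈ S, ∫ x, g A x ∂μ) * ∫ z, ∏ B ∈ S', v B (z.1 B, z.2 B) ∂γ)
    (fun A : Idx ℕ => A.1.card) S ?_ ?_
  · intro _
    simp
  · intro a s ha hmax ih hs
    have ih' := ih fun A hA => hs A (Finset.mem_insert_of_mem hA)
    set m : ℝ := ∫ x, g a x ∂μ with hm
    have hdis : Disjoint s S' := by
      rw [Finset.disjoint_left]
      intro B hB hB'
      have := hs B (Finset.mem_insert_of_mem hB)
      have := hS' B hB'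
      omega
    let φ : Idx ℕ → X × Y → ℝ := fun B => if B ∈ s then fun p => g B p.1 else v B
    have mφ : ∀ B, Measurable (φ B) := by
      intro B
      simp only [φ]
      split_ifs
      · exact (mg B).comp measurable_fst
      · exact mv B
    have bφ : ∀ B, ∃ M, ∀ x, |φ B x| ≤ M := by
      intro B
      simp only [φ]
      split_ifs
      · obtain ⟨M, hM⟩ := bg B
        exact ⟨M, fun x => hM _⟩
      · exact bv B
    have hprod : ∀ z : (Idx ℕ → X) × (Idx ℕ → Y), ∏ B ∈ s ∪ S', φ B (z.1 B, z.2 B) =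
        (∏ A ∈ s, g A (z.1 A)) * ∏ B ∈ S', v B (z.1 B, z.2 B) := by
      intro z
      rw [Finset.prod_union hdis]
      congr 1
      · refine Finset.prod_congr rfl fun B hB => ?_
        simp only [φ]
        rw [if_pos hB]
      · refine Finset.prod_congr rfl fun B hB => ?_
        simp only [φ]
        rw [if_neg fun h => Finset.disjoint_left.1 hdis h hB]
    obtain ⟨M, hM⟩ := bg a
    have ig : Integrable (g a) μ :=
      Integrable.of_bound (mg a).aestronglyMeasurable M (Filter.Eventually.of_forall fun x => by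
        rw [Real.norm_eq_abs]; exact hM x)
    have hk := key hG μ γ h₁ hγ a (fun x => g a x - m) ((mg a).sub measurable_const)
      ⟨M + |m|, fun x => (abs_sub _ _).trans (add_le_add (hM x) le_rfl)⟩
      (by rw [integral_sub ig (integrable_const _), integral_const]; simp [hm])
      (s ∪ S') φ mφ bφ (by
        intro B hB hsub
        rcases Finset.mem_union.1 hB with hB | hB
        · have h1 := hmax B hB
          have h2 : a.1 = B.1 := Finset.eq_of_subset_of_card_le hsub h1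
          exact ha ((Subtype.ext h2) ▸ hB)
        · have h1 := Finset.card_le_card hsub
          have h2 : B.1.card ≤ ℓ := hS' B hB
          have h3 : ℓ < a.1.card := hs a (Finset.mem_insert_self _ _)
          omega)
    simp only [hprod] at hk
    -- integrability
    have iQ : Integrable (fun z : (Idx ℕ → X) × (Idx ℕ → Y) =>
        (∏ A ∈ s, g A (z.1 A)) * ∏ B ∈ S', v B (z.1 B, z.2 B)) γ := by
      obtain ⟨M1, hM1⟩ := bdd_prod (s ∪ S') (fun (B : Idx ℕ) (z : (Idx ℕ → X) × (Idx ℕ → Y)) =>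
        φ B (z.1 B, z.2 B)) fun B _ => by
          obtain ⟨M, hM⟩ := bφ B
          exact ⟨M, fun z => hM _⟩
      refine Integrable.of_bound (Measurable.aestronglyMeasurable ?_) M1
        (Filter.Eventually.of_forall fun z => ?_)
      · exact (Finset.measurable_prod _ fun A _ => (mg A).comp (m1 A)).mul
          (Finset.measurable_prod _ fun B _ => (mv B).comp (m2 B))
      · rw [Real.norm_eq_abs, ← hprod]
        exact hM1 z
    have iE : Integrable (fun z : (Idx ℕ → X) × (Idx ℕ → Y) => (g a (z.1 a) - m) *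
        ((∏ A ∈ s, g A (z.1 A)) * ∏ B ∈ S', v B (z.1 B, z.2 B))) γ := by
      refine iQ.bdd_mul (c := M + |m|) (((mg a).comp (m1 a)).sub measurable_const).aestronglyMeasurable
        (Filter.Eventually.of_forall fun z => ?_)
      rw [Real.norm_eq_abs]
      exact (abs_sub _ _).trans (add_le_add (hM _) le_rfl)
    rw [Finset.prod_insert ha, mul_assoc, ← ih', ← integral_const_mul]
    rw [← sub_eq_zero, ← integral_sub ?_ (iQ.const_mul m), ← hk]
    · refine integral_congr_ae (Filter.Eventually.of_forall fun z => ?_)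
      simp only
      rw [Finset.prod_insert ha]
      ring
    · have : Integrable (fun z : (Idx ℕ → X) × (Idx ℕ → Y) => (g a (z.1 a) - m) *
        ((∏ A ∈ s, g A (z.1 A)) * ∏ B ∈ S', v B (z.1 B, z.2 B)) +
        m * ((∏ A ∈ s, g A (z.1 A)) * ∏ B ∈ S', v B (z.1 B, z.2 B))) γ := iE.add (iQ.const_mul m)
      refine this.congr (Filter.Eventually.of_forall fun z => ?_)
      simp only
      rw [Finset.prod_insert ha]
      ring

/-- finite spanning sets of a finite measure -/
noncomputable def fsp {Ω : Type} [MeasurableSpace Ω] (ν : Measure Ω) [IsFiniteMeasure ν]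
    (C : Set (Set Ω)) (hC : Set.univ ∈ C) : ν.FiniteSpanningSetsIn C where
  set := fun _ => Set.univ
  set_mem := fun _ => hC
  finite := fun _ => measure_lt_top _ _
  spanning := Set.iUnion_const _

open Classical in
theorem indep_levels_of (hG : S_GCS) (μ : Measure X)
    [IsProbabilityMeasure μ] (γ : Measure ((Idx ℕ → X) × (Idx ℕ → Y))) [IsProbabilityMeasure γ]
    (h₁ : γ.map Prod.fst = iid μ)
    (hγ : ∀ σ : Equiv.Perm ℕ, γ.map (Prod.map (permC σ) (permC σ)) = γ) (ℓ : ℕ) :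
    IndepFun (fun z (A : {A : Idx ℕ // ℓ < (lev A : ℕ)}) => z.1 A)
      (fun z (A : {A : Idx ℕ // (lev A : ℕ) ≤ ℓ}) => (z.1 A, z.2 A)) γ := by
  set F : ((Idx ℕ → X) × (Idx ℕ → Y)) → ({A : Idx ℕ // ℓ < (lev A : ℕ)} → X) :=
    fun z A => z.1 A with hF
  set G : ((Idx ℕ → X) × (Idx ℕ → Y)) → ({A : Idx ℕ // (lev A : ℕ) ≤ ℓ} → X × Y) :=
    fun z A => (z.1 A, z.2 A) with hG'
  have mF : Measurable F := measurable_pi_lambda _ fun A =>
    (measurable_pi_apply _).comp measurable_fst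
  have mG : Measurable G := measurable_pi_lambda _ fun A =>
    ((measurable_pi_apply _).comp measurable_fst).prodMk
      ((measurable_pi_apply _).comp measurable_snd)
  rw [indepFun_iff_map_prod_eq_prod_map_map mF.aemeasurable mG.aemeasurable]
  have := Measure.isProbabilityMeasure_map (μ := γ) mF.aemeasurable
  have := Measure.isProbabilityMeasure_map (μ := γ) mG.aemeasurable
  symm
  refine Measure.prod_eq_generateFrom generateFrom_squareCylinders generateFrom_squareCylinders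
    (isPiSystem_squareCylinders (fun _ => MeasurableSpace.isPiSystem_measurableSet)
      fun _ => MeasurableSet.univ)
    (isPiSystem_squareCylinders (fun _ => MeasurableSpace.isPiSystem_measurableSet)
      fun _ => MeasurableSet.univ)
    (fsp _ _ ⟨∅, fun _ => Set.univ, fun _ _ => MeasurableSet.univ, by simp⟩)
    (fsp _ _ ⟨∅, fun _ => Set.univ, fun _ _ => MeasurableSet.univ, by simp⟩) ?_
  rintro _ ⟨S, t, ht, rfl⟩ _ ⟨S', t', ht', rfl⟩
  have ht1 : ∀ A, MeasurableSet (t A) := fun A => ht A trivial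
  have ht1' : ∀ A, MeasurableSet (t' A) := fun A => ht' A trivial
  have ms : MeasurableSet ((S : Set {A : Idx ℕ // ℓ < (lev A : ℕ)}).pi t) :=
    MeasurableSet.pi S.countable_toSet fun A _ => ht1 A
  have ms' : MeasurableSet ((S' : Set {A : Idx ℕ // (lev A : ℕ) ≤ ℓ}).pi t') :=
    MeasurableSet.pi S'.countable_toSet fun A _ => ht1' A
  rw [Measure.map_apply (mF.prodMk mG) (ms.prod ms'), Measure.map_apply mF ms,
    Measure.map_apply mG ms']
  -- extended functions
  let g : Idx ℕ → X → ℝ := fun A x => if h : ℓ < (lev A : ℕ) then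
    (if x ∈ t ⟨A, h⟩ then 1 else 0) else 1
  let v : Idx ℕ → X × Y → ℝ := fun A x => if h : (lev A : ℕ) ≤ ℓ then
    (if x ∈ t' ⟨A, h⟩ then 1 else 0) else 1
  have mg : ∀ A, Measurable (g A) := by
    intro A
    simp only [g]
    by_cases h : ℓ < (lev A : ℕ)
    · simp only [dif_pos h]
      exact Measurable.ite (ht1 _) measurable_const measurable_const
    · simp only [dif_neg h]
      exact measurable_const
  have mv : ∀ A, Measurable (v A) := by
    intro A
    simp only [v]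
    by_cases h : (lev A : ℕ) ≤ ℓ
    · simp only [dif_pos h]
      exact Measurable.ite (ht1' _) measurable_const measurable_const
    · simp only [dif_neg h]
      exact measurable_const
  have bg : ∀ A, ∃ M, ∀ x, |g A x| ≤ M := by
    intro A
    refine ⟨1, fun x => ?_⟩
    simp only [g]
    split_ifs <;> simp
  have bv : ∀ A, ∃ M, ∀ x, |v A x| ≤ M := by
    intro A
    refine ⟨1, fun x => ?_⟩
    simp only [v]
    split_ifs <;> simp
  let T : Finset (Idx ℕ) := S.map (Function.Embedding.subtype _)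
  let T' : Finset (Idx ℕ) := S'.map (Function.Embedding.subtype _)
  have hT : ∀ A ∈ T, ℓ < (lev A : ℕ) := by
    intro A hA
    obtain ⟨B, -, rfl⟩ := Finset.mem_map.1 hA
    exact B.2
  have hT' : ∀ A ∈ T', (lev A : ℕ) ≤ ℓ := by
    intro A hA
    obtain ⟨B, -, rfl⟩ := Finset.mem_map.1 hA
    exact B.2
  have e1 : ∀ z : (Idx ℕ → X) × (Idx ℕ → Y), ∏ A ∈ T, g A (z.1 A) =
      (F ⁻¹' ((S : Set {A : Idx ℕ // ℓ < (lev A : ℕ)}).pi t)).indicator 1 z := by
    intro z
    have h1 : ∀ (A : {A : Idx ℕ // ℓ < (lev A : ℕ)}) (x : X), g A x = if x ∈ t A then 1 else 0 :=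
      fun A x => dif_pos A.2
    have h2 : ∏ A ∈ T, g A (z.1 A) = ∏ A ∈ S, g A (z.1 A) := Finset.prod_map _ _ _
    rw [h2]
    simp only [h1]
    rw [Finset.prod_ite_zero]
    simp only [Finset.prod_const_one, Set.indicator_apply, Set.mem_preimage, Set.mem_pi,
      Finset.mem_coe, hF, Pi.one_apply]
  have e2 : ∀ z : (Idx ℕ → X) × (Idx ℕ → Y), ∏ A ∈ T', v A (z.1 A, z.2 A) =
      (G ⁻¹' ((S' : Set {A : Idx ℕ // (lev A : ℕ) ≤ ℓ}).pi t')).indicator 1 z := by
    intro z
    have h1 : ∀ (A : {A : Idx ℕ // (lev A : ℕ) ≤ ℓ}) (x : X × Y),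
        v A x = if x ∈ t' A then 1 else 0 := fun A x => dif_pos A.2
    have h2 : ∏ A ∈ T', v A (z.1 A, z.2 A) = ∏ A ∈ S', v A (z.1 A, z.2 A) := Finset.prod_map _ _ _
    rw [h2]
    simp only [h1]
    rw [Finset.prod_ite_zero]
    simp only [Finset.prod_const_one, Set.indicator_apply, Set.mem_preimage, Set.mem_pi,
      Finset.mem_coe, hG', Pi.one_apply]
  have p1 := prod_level hG μ γ h₁ hγ ℓ T' hT' g mg bg v mv bv T hT
  have p2 := prod_level hG μ γ h₁ hγ ℓ ∅ (by simp) g mg bg v mv bv T hT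
  simp only [Finset.prod_empty, mul_one, integral_const, probReal_univ, smul_eq_mul] at p2
  simp only [e1] at p2
  simp only [e1, e2] at p1
  rw [← p2] at p1
  rw [integral_indicator_one (mF ms)] at p1
  rw [integral_indicator_one (mG ms')] at p1
  have p3 : γ.real ((fun a => (F a, G a)) ⁻¹'
      ((S : Set {A : Idx ℕ // ℓ < (lev A : ℕ)}).pi t ×ˢ
        (S' : Set {A : Idx ℕ // (lev A : ℕ) ≤ ℓ}).pi t')) =
      γ.real (F ⁻¹' ((S : Set {A : Idx ℕ // ℓ < (lev A : ℕ)}).pi t)) *
        γ.real (G ⁻¹' ((S' : Set {A : Idx ℕ // (lev A : ℕ) ≤ ℓ}).pi t')) := by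
    rw [← p1, Set.mk_preimage_prod, ← integral_indicator_one ((mF ms).inter (mG ms'))]
    refine integral_congr_ae (Filter.Eventually.of_forall fun z => ?_)
    simp only
    rw [Set.inter_indicator_one]
    rfl
  have p4 := congrArg ENNReal.ofReal p3
  rw [ENNReal.ofReal_mul measureReal_nonneg] at p4
  rwa [ofReal_measureReal (measure_ne_top _ _), ofReal_measureReal (measure_ne_top _ _),
    ofReal_measureReal (measure_ne_top _ _)] at p4

end IndepL

end Pool.Agent.R130.Theon
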