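import Pool.Agent.R130.Theon.E2

/-!
# Irrelevant levels (helper80, for helper130)
-/

open MeasureTheory ProbabilityTheory
open scoped ENNReal

namespace Pool.Agent.R130.Theon

variable {X : Type} [MeasurableSpace X]

/-- indicator function with values in the reals -/
noncomputable def ind {X : Type} (U : Set X) (x : X) : ℝ := U.indicator (fun _ => (1 : ℝ)) x

lemma measurable_ind {U : Set X} (hU : MeasurableSet U) : Measurable (ind U) :=
  measurable_const.indicator hU

lemma abs_ind_le {X : Type} (U : Set X) (x : X) : |ind U x| ≤ 1 := by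
  unfold ind
  by_cases h : x ∈ U <;> simp [h]

lemma ind_nonneg {X : Type} (U : Set X) (x : X) : 0 ≤ ind U x := by
  unfold ind
  by_cases h : x ∈ U <;> simp [h]

lemma ind_le_one {X : Type} (U : Set X) (x : X) : ind U x ≤ 1 := by
  unfold ind
  by_cases h : x ∈ U <;> simp [h]

lemma integral_ind (μ : Measure X) [IsFiniteMeasure μ] {U : Set X} (hU : MeasurableSet U) :
    ∫ x, ind U x ∂μ = μ.real U := by
  unfold ind
  rw [integral_indicator hU]
  simp

/-- the indicator of a box -/
noncomputable def box {X : Type} (t : Idx ℕ → Set X) (D : Finset (Idx ℕ)) (θ : Idx ℕ → X) : ℝ :=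
  ∏ B ∈ D, ind (t B) (θ B)

lemma measurable_box {t : Idx ℕ → Set X} (ht : ∀ B, MeasurableSet (t B)) (D : Finset (Idx ℕ)) :
    Measurable (box t D) :=
  Finset.measurable_prod _ fun B _ => (measurable_ind (ht B)).comp (measurable_pi_apply B)

lemma abs_box_le {X : Type} (t : Idx ℕ → Set X) (D : Finset (Idx ℕ)) (θ : Idx ℕ → X) :
    |box t D θ| ≤ 1 := by
  unfold box
  rw [Finset.abs_prod]
  exact Finset.prod_le_one (fun _ _ => abs_nonneg _) fun B _ => abs_ind_le _ _

/-- level `m` is irrelevant for `f`. -/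
def Irr (μ : Measure X) [IsProbabilityMeasure μ] (m : ℕ) (f : (Idx ℕ → X) → ℝ) : Prop :=
  ∀ (A : Idx ℕ) (U : Set X) (D : Finset (Idx ℕ)) (t : Idx ℕ → Set X), (lev A : ℕ) = m →
    MeasurableSet U → (∀ B, MeasurableSet (t B)) → (∀ B ∈ D, (lev B : ℕ) ≤ m ∧ B ≠ A) →
    ∫ θ, f θ * (ind U (θ A) - μ.real U) * box t D θ ∂(iid μ) = 0

lemma irr_box (μ : Measure X) [IsProbabilityMeasure μ] (ℓ : ℕ) {f : (Idx ℕ → X) → ℝ}
    (hf : Measurable f) {M : ℝ} (hM : ∀ x, |f x| ≤ M) (h : Irr μ (ℓ + 1) f)
    (t : Idx ℕ → Set X) (ht : ∀ B, MeasurableSet (t B)) (R : Finset (Idx ℕ))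
    (hR : ∀ B ∈ R, (lev B : ℕ) ≤ ℓ) (S : Finset (Idx ℕ)) (hS : ∀ B ∈ S, (lev B : ℕ) = ℓ + 1) :
    ∫ θ, f θ * box t (S ∪ R) θ ∂(iid μ) =
      (∏ B ∈ S, μ.real (t B)) * ∫ θ, f θ * box t R θ ∂(iid μ) := by
  classical
  induction S using Finset.induction_on with
  | empty => simp
  | insert A S hA ih =>
    have hS' : ∀ B ∈ S, (lev B : ℕ) = ℓ + 1 := fun B hB => hS B (Finset.mem_insert_of_mem hB)
    have hlA : (lev A : ℕ) = ℓ + 1 := hS A (Finset.mem_insert_self _ _)
    have hAR : A ∉ S ∪ R := by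
      intro h'
      rcases Finset.mem_union.1 h' with h' | h'
      · exact hA h'
      · have := hR A h'
        omega
    have e0 := h A (t A) (S ∪ R) t hlA (ht A) ht (by
      intro B hB
      refine ⟨?_, fun h' => hAR (h' ▸ hB)⟩
      rcases Finset.mem_union.1 hB with h' | h'
      · exact (hS' B h').le
      · exact (hR B h').trans (Nat.le_succ _))
    have e1 : ∀ θ, f θ * (ind (t A) (θ A) - μ.real (t A)) * box t (S ∪ R) θ =
        f θ * box t (insert A S ∪ R) θ - μ.real (t A) * (f θ * box t (S ∪ R) θ) := by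
      intro θ
      have : box t (insert A S ∪ R) θ = ind (t A) (θ A) * box t (S ∪ R) θ := by
        unfold box
        rw [Finset.insert_union, Finset.prod_insert hAR]
      rw [this]
      ring
    have hb : ∀ (D : Finset (Idx ℕ)), Integrable (fun θ => f θ * box t D θ) (iid μ) := by
      intro D
      refine integrable_of_bdd _ (hf.mul (measurable_box ht D)) (M := M * 1) fun θ => ?_
      rw [abs_mul]
      exact mul_le_mul (hM _) (abs_box_le _ _ _) (abs_nonneg _) ((abs_nonneg _).trans (hM θ))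
    simp only [e1] at e0
    rw [integral_sub (hb _) ((hb _).const_mul _), integral_const_mul, ih hS'] at e0
    rw [Finset.prod_insert hA]
    linarith

lemma box_union_filter (ℓ : ℕ) {X : Type} (t : Idx ℕ → Set X) (s : Finset (Idx ℕ))
    (θ : Idx ℕ → X) : box t s θ =
      box t (s.filter fun B => (lev B : ℕ) ≤ ℓ) θ *
        box t (s.filter fun B => ¬ (lev B : ℕ) ≤ ℓ) θ := by
  unfold box
  rw [Finset.prod_filter_mul_prod_filter_not]

/-- Lemma M -/
lemma integral_avg_box (μ : Measure X) [IsProbabilityMeasure μ] (ℓ : ℕ) {f : (Idx ℕ → X) → ℝ}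
    (hf : Measurable f) {M : ℝ} (hM : ∀ x, |f x| ≤ M)
    (t : Idx ℕ → Set X) (ht : ∀ B, MeasurableSet (t B)) (s : Finset (Idx ℕ)) :
    ∫ θ, avg μ ℓ f θ * box t s θ ∂(iid μ) =
      (∏ B ∈ s.filter (fun B => ¬ (lev B : ℕ) ≤ ℓ), μ.real (t B)) *
        ∫ θ, f θ * box t (s.filter fun B => (lev B : ℕ) ≤ ℓ) θ ∂(iid μ) := by
  set s1 := s.filter fun B => (lev B : ℕ) ≤ ℓ with hs1
  set s2 := s.filter fun B => ¬ (lev B : ℕ) ≤ ℓ with hs2
  have m1 : Measurable (fun p : (Idx ℕ → X) × (Idx ℕ → X) => f (merge ℓ p.1 p.2) * box t s p.1) :=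
    (hf.comp (measurable_merge ℓ)).mul ((measurable_box ht s).comp measurable_fst)
  have b1 : ∀ p : (Idx ℕ → X) × (Idx ℕ → X), |f (merge ℓ p.1 p.2) * box t s p.1| ≤ M * 1 := by
    intro p
    rw [abs_mul]
    exact mul_le_mul (hM _) (abs_box_le _ _ _) (abs_nonneg _)
      ((abs_nonneg _).trans (hM p.1))
  have e1 : ∫ θ, avg μ ℓ f θ * box t s θ ∂(iid μ) =
      ∫ p, f (merge ℓ p.1 p.2) * box t s p.1 ∂((iid μ).prod (iid μ)) := by
    rw [integral_prod _ (integrable_of_bdd _ m1 b1)]
    congr 1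
    funext θ
    simp only [avg]
    rw [integral_mul_const]
  have m2 : Measurable (fun q : (Idx ℕ → X) × (Idx ℕ → X) =>
      (f q.1 * box t s1 q.1) * box t s2 q.2) :=
    ((hf.mul (measurable_box ht s1)).comp measurable_fst).mul
      ((measurable_box ht s2).comp measurable_snd)
  have e2 : ∀ p : (Idx ℕ → X) × (Idx ℕ → X), f (merge ℓ p.1 p.2) * box t s p.1 =
      (f (merge ℓ p.1 p.2) * box t s1 (merge ℓ p.1 p.2)) * box t s2 (merge ℓ p.2 p.1) := by
    intro p
    have c1 : box t s1 (merge ℓ p.1 p.2) = box t s1 p.1 := by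
      unfold box
      refine Finset.prod_congr rfl fun B hB => ?_
      have : (lev B : ℕ) ≤ ℓ := (Finset.mem_filter.1 hB).2
      simp [merge, this]
    have c2 : box t s2 (merge ℓ p.2 p.1) = box t s2 p.1 := by
      unfold box
      refine Finset.prod_congr rfl fun B hB => ?_
      have : ¬ (lev B : ℕ) ≤ ℓ := (Finset.mem_filter.1 hB).2
      simp [merge, this]
    rw [c1, c2, box_union_filter ℓ t s p.1]
    ring
  have hmm : Measurable (fun p : (Idx ℕ → X) × (Idx ℕ → X) =>
      (merge ℓ p.1 p.2, merge ℓ p.2 p.1)) :=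
    (measurable_merge ℓ).prodMk ((measurable_merge ℓ).comp measurable_swap)
  rw [e1]
  simp only [e2]
  have e3 : ∫ p, (f (merge ℓ p.1 p.2) * box t s1 (merge ℓ p.1 p.2)) *
      box t s2 (merge ℓ p.2 p.1) ∂((iid μ).prod (iid μ)) =
      ∫ q, (f q.1 * box t s1 q.1) * box t s2 q.2 ∂((iid μ).prod (iid μ)) := by
    conv_rhs => rw [← merge_preserving μ ℓ]
    rw [integral_map hmm.aemeasurable m2.aestronglyMeasurable]
  rw [e3, integral_prod_mul (fun x => f x * box t s1 x) (fun y => box t s2 y), mul_comm]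
  congr 1
  -- the integral of a box
  unfold box
  have hind : iIndepFun (fun (B : Idx ℕ) (θ : Idx ℕ → X) => ind (t B) (θ B)) (iid μ) :=
    iIndepFun_infinitePi (P := fun _ : Idx ℕ => μ) (X := fun B => ind (t B))
      fun B => measurable_ind (ht B)
  have : ∀ D : Finset (Idx ℕ), ∫ θ : Idx ℕ → X, ∏ B ∈ D, ind (t B) (θ B) ∂(iid μ) =
      ∏ B ∈ D, μ.real (t B) := by
    intro D
    have h1 : iIndepFun (fun (B : D) (θ : Idx ℕ → X) => ind (t B) (θ B)) (iid μ) :=
      hind.precomp Subtype.val_injective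
    have h2 := h1.integral_fun_prod_eq_prod_integral
      (fun B => ((measurable_ind (ht B)).comp (measurable_pi_apply (B : Idx ℕ))).aestronglyMeasurable)
    rw [← Finset.prod_coe_sort D (fun B => μ.real (t B))]
    have h3 : ∀ θ : Idx ℕ → X, ∏ B ∈ D, ind (t B) (θ B) = ∏ B : D, ind (t B) (θ B) := by
      intro θ
      rw [← Finset.prod_coe_sort D (fun B => ind (t B) (θ B))]
    simp only [h3]
    rw [h2]
    refine Finset.prod_congr rfl fun B _ => ?_
    have h4 : ∫ θ : Idx ℕ → X, ind (t B) (θ B) ∂(iid μ) = ∫ x, ind (t B) x ∂μ := by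
      have h5 : (iid μ).map (Function.eval (B : Idx ℕ)) = μ :=
        (measurePreserving_eval_infinitePi (fun _ : Idx ℕ => μ) (B : Idx ℕ)).map_eq
      have h6 : ∫ x, ind (t B) x ∂μ =
          ∫ x, ind (t B) x ∂((iid μ).map (Function.eval (B : Idx ℕ))) := by rw [h5]
      rw [h6, integral_map (measurable_pi_apply _).aemeasurable
        (measurable_ind (ht B)).aestronglyMeasurable]
    rw [h4, integral_ind _ (ht B)]
  exact this s2

/-- functions with the same integrals against boxes -/
lemma ae_eq_zero_of_box (μ : Measure X) [IsProbabilityMeasure μ] {q : (Idx ℕ → X) → ℝ}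
    (hq : Measurable q) {M : ℝ} (hM : ∀ x, |q x| ≤ M)
    (h : ∀ (t : Idx ℕ → Set X), (∀ B, MeasurableSet (t B)) → ∀ s : Finset (Idx ℕ),
      ∫ θ, q θ * box t s θ ∂(iid μ) = 0) : q =ᵐ[iid μ] 0 := by
  have hi : Integrable q (iid μ) := integrable_of_bdd _ hq hM
  have key : ∀ S : Set (Idx ℕ → X), MeasurableSet S → ∫ θ in S, q θ ∂(iid μ) = 0 := by
    intro S hS
    have hgen : (inferInstance : MeasurableSpace (Idx ℕ → X)) =
        MeasurableSpace.generateFrom
          (squareCylinders (fun _ : Idx ℕ => {s : Set X | MeasurableSet s})) :=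
      generateFrom_squareCylinders.symm
    have hpi : IsPiSystem (squareCylinders (fun _ : Idx ℕ => {s : Set X | MeasurableSet s})) :=
      isPiSystem_squareCylinders (fun _ => MeasurableSpace.isPiSystem_measurableSet)
        (fun _ => MeasurableSet.univ)
    induction S, hS using MeasurableSpace.induction_on_inter hgen hpi with
    | empty => simp
    | basic u hu =>
      obtain ⟨s, t, ht, rfl⟩ := hu
      have ht' : ∀ B, MeasurableSet (t B) := fun B => ht B (Set.mem_univ _)
      have hm : MeasurableSet (Set.pi (s : Set (Idx ℕ)) t) :=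
        MeasurableSet.pi s.countable_toSet fun i _ => ht' i
      rw [← integral_indicator hm, ← h t ht' s]
      congr 1
      funext θ
      unfold box ind
      by_cases hθ : θ ∈ Set.pi (s : Set (Idx ℕ)) t
      · rw [Set.indicator_of_mem hθ, Finset.prod_eq_one, mul_one]
        intro B hB
        exact Set.indicator_of_mem (hθ B hB) _
      · rw [Set.indicator_of_notMem hθ]
        have : ∃ B ∈ s, θ B ∉ t B := by
          by_contra hc
          push Not at hc
          exact hθ fun B hB => hc B hB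
        obtain ⟨B, hB, hB'⟩ := this
        rw [Finset.prod_eq_zero hB (Set.indicator_of_notMem hB' _), mul_zero]
    | compl u hu ih =>
      have h0 : ∫ θ, q θ ∂(iid μ) = 0 := by
        have := h (fun _ => Set.univ) (fun _ => MeasurableSet.univ) ∅
        simpa [box] using this
      have := integral_add_compl hu hi
      rw [ih, h0, zero_add] at this
      exact this
    | iUnion u hd hu ih =>
      rw [integral_iUnion hu hd hi.integrableOn]
      simp [ih]
  exact hi.ae_eq_zero_of_forall_setIntegral_eq_zero fun S hS _ => key S hS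

/-- Irrelevance of a level in terms of averages. -/
theorem avg_eq_of_irr (μ : Measure X) [IsProbabilityMeasure μ] (ℓ : ℕ) {f : (Idx ℕ → X) → ℝ}
    (hf : Measurable f) {M : ℝ} (hM : ∀ x, |f x| ≤ M) (h : Irr μ (ℓ + 1) f) :
    avg μ (ℓ + 1) f =ᵐ[iid μ] avg μ ℓ f := by
  have hz : (fun θ => avg μ (ℓ + 1) f θ - avg μ ℓ f θ) =ᵐ[iid μ] 0 := by
    refine ae_eq_zero_of_box μ ((measurable_avg μ _ hf).sub (measurable_avg μ _ hf))
      (M := M + M) (fun x => (abs_sub _ _).trans
        (add_le_add (abs_avg_le μ _ hM x) (abs_avg_le μ _ hM x))) fun t ht s => ?_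
    have hb : ∀ k : ℕ, Integrable (fun θ => avg μ k f θ * box t s θ) (iid μ) := by
      intro k
      refine integrable_of_bdd _ ((measurable_avg μ _ hf).mul (measurable_box ht s))
        (M := M * 1) fun θ => ?_
      rw [abs_mul]
      exact mul_le_mul (abs_avg_le μ _ hM θ) (abs_box_le _ _ _) (abs_nonneg _)
        ((abs_nonneg _).trans (hM θ))
    simp only [sub_mul]
    rw [integral_sub (hb _) (hb _), integral_avg_box μ (ℓ + 1) hf hM t ht s,
      integral_avg_box μ ℓ hf hM t ht s]
    classical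
    have e1 : (s.filter fun B => (lev B : ℕ) ≤ ℓ + 1) =
        (s.filter fun B => (lev B : ℕ) = ℓ + 1) ∪ (s.filter fun B => (lev B : ℕ) ≤ ℓ) := by
      ext B
      simp only [Finset.mem_filter, Finset.mem_union]
      by_cases hB : B ∈ s
      · simp only [hB, true_and]
        omega
      · simp [hB]
    have e2 : (s.filter fun B => ¬ (lev B : ℕ) ≤ ℓ) =
        (s.filter fun B => ¬ (lev B : ℕ) ≤ ℓ + 1) ∪ (s.filter fun B => (lev B : ℕ) = ℓ + 1) := by
      ext B
      simp only [Finset.mem_filter, Finset.mem_union]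
      by_cases hB : B ∈ s
      · simp only [hB, true_and]
        omega
      · simp [hB]
    rw [e1, irr_box μ ℓ hf hM h t ht _ (fun B hB => (Finset.mem_filter.1 hB).2) _
      (fun B hB => (Finset.mem_filter.1 hB).2), e2, Finset.prod_union]
    · ring
    · rw [Finset.disjoint_left]
      intro B hB hB'
      have h1 := (Finset.mem_filter.1 hB).2
      have h2 := (Finset.mem_filter.1 hB').2
      omega
  filter_upwards [hz] with θ hθ
  have : avg μ (ℓ + 1) f θ - avg μ ℓ f θ = 0 := hθ
  linarith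

end Pool.Agent.R130.Theon
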