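import Pool.Agent.R130.Theon.Defs

/-! # Being a model of a theory is a measurable property -/

open MeasureTheory ProbabilityTheory FirstOrder.Language

namespace Pool.Agent.R130.Theon

variable {L : FirstOrder.Language.{0, 0}} [L.IsRelational] {X : Type} [MeasurableSpace X]

lemma term_realize_const {α : Type} (t : L.Term α) (v : α → ℕ) (K K' : Str L) :
    @Term.realize L ℕ K.toStructure α v t = @Term.realize L ℕ K'.toStructure α v t := by
  cases t with
  | var x => rfl
  | func f ts => exact isEmptyElim f

lemma measurableSet_realize {α : Type} {n : ℕ} (f : L.BoundedFormula α n) (v : α → ℕ)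
    (xs : Fin n → ℕ) :
    MeasurableSet {K : Str L | @BoundedFormula.Realize L ℕ K.toStructure α n f v xs} := by
  induction f with
  | falsum =>
    have : {K : Str L | @BoundedFormula.Realize L ℕ K.toStructure α _ BoundedFormula.falsum v xs} =
        ∅ := by
      ext K; exact Iff.rfl
    rw [this]; exact MeasurableSet.empty
  | equal t₁ t₂ =>
    let K₀ : Str L := fun _ _ => False
    have : {K : Str L | @BoundedFormula.Realize L ℕ K.toStructure α _
        (BoundedFormula.equal t₁ t₂) v xs} = {_K : Str L |
          @Term.realize L ℕ K₀.toStructure _ (Sum.elim v xs) t₁ =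
          @Term.realize L ℕ K₀.toStructure _ (Sum.elim v xs) t₂} := by
      ext K
      change (@Term.realize L ℕ K.toStructure _ (Sum.elim v xs) t₁ =
          @Term.realize L ℕ K.toStructure _ (Sum.elim v xs) t₂) ↔ _
      rw [term_realize_const t₁ _ K K₀, term_realize_const t₂ _ K K₀]
      exact Iff.rfl
    rw [this]; exact MeasurableSet.const _
  | rel R ts =>
    rename_i l
    let K₀ : Str L := fun _ _ => False
    have : {K : Str L | @BoundedFormula.Realize L ℕ K.toStructure α _
        (BoundedFormula.rel R ts) v xs} = {K : Str L | K ⟨_, R⟩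
          (fun i => @Term.realize L ℕ K₀.toStructure _ (Sum.elim v xs) (ts i))} := by
      ext K
      change K ⟨_, R⟩ (fun i => @Term.realize L ℕ K.toStructure _ (Sum.elim v xs) (ts i)) ↔ _
      have : (fun i => @Term.realize L ℕ K.toStructure _ (Sum.elim v xs) (ts i)) =
          fun i => @Term.realize L ℕ K₀.toStructure _ (Sum.elim v xs) (ts i) := by
        funext i
        exact term_realize_const _ _ _ _
      rw [this]
      exact Iff.rfl
    rw [this]
    exact measurableSet_setOfPred.2 ((measurable_pi_apply _).comp (measurable_pi_apply _))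
  | imp f₁ f₂ h₁ h₂ =>
    have : {K : Str L | @BoundedFormula.Realize L ℕ K.toStructure α _ (f₁.imp f₂) v xs} =
        {K : Str L | @BoundedFormula.Realize L ℕ K.toStructure α _ f₁ v xs}ᶜ ∪
        {K : Str L | @BoundedFormula.Realize L ℕ K.toStructure α _ f₂ v xs} := by
      ext K
      change (@BoundedFormula.Realize L ℕ K.toStructure α _ f₁ v xs →
        @BoundedFormula.Realize L ℕ K.toStructure α _ f₂ v xs) ↔ _
      simp only [Set.mem_union, Set.mem_compl_iff, Set.mem_ofPred_eq]
      tauto
    rw [this]
    exact (h₁ xs).compl.union (h₂ xs)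
  | all f h =>
    have : {K : Str L | @BoundedFormula.Realize L ℕ K.toStructure α _ f.all v xs} =
        ⋂ x : ℕ, {K : Str L | @BoundedFormula.Realize L ℕ K.toStructure α _ f v
          (Fin.snoc xs x)} := by
      ext K
      simp only [Set.mem_iInter]
      exact Iff.rfl
    rw [this]
    exact MeasurableSet.iInter fun x => h _

lemma countable_sentence [Countable (Σ n, L.Relations n)] : Countable L.Sentence := by
  have h1 : L.card ≤ Cardinal.aleph0 := by
    rw [FirstOrder.Language.card, FirstOrder.Language.Symbols]
    rw [Cardinal.mk_le_aleph0_iff]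
    haveI : IsEmpty (Σ n, L.Functions n) := ⟨fun p => isEmptyElim p.2⟩
    infer_instance
  have h2 := @BoundedFormula.card_le L Empty
  have h3 : Countable (Σ n, L.BoundedFormula Empty n) := by
    rw [← Cardinal.mk_le_aleph0_iff]
    refine h2.trans ?_
    simp [h1]
  have : Function.Injective (fun s : L.Sentence =>
      (⟨0, s⟩ : Σ n, L.BoundedFormula Empty n)) := by
    intro a b h
    simpa using h
  exact this.countable

lemma measurableSet_models [Countable (Σ n, L.Relations n)] (T : L.Theory) :
    MeasurableSet {K : Str L | K.Models T} := by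
  haveI := countable_sentence (L := L)
  have : {K : Str L | K.Models T} = ⋂ s : L.Sentence, ⋂ _ : s ∈ T,
      {K : Str L | @FirstOrder.Language.Sentence.Realize L ℕ K.toStructure s} := by
    ext K
    simp only [Set.mem_iInter]
    constructor
    · intro h s hs
      have h' : @Theory.Model L ℕ K.toStructure T := h
      exact @Theory.Model.realize_of_mem L ℕ K.toStructure T h' s hs
    · intro h
      exact @Theory.Model.mk L ℕ K.toStructure T fun s hs => h s hs
  rw [this]
  exact MeasurableSet.iInter fun s => MeasurableSet.iInter fun _ => measurableSet_realize s _ _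

lemma isTon_iff [Countable (Σ n, L.Relations n)] (N : EucStr L X) (μ : Measure X)
    [IsProbabilityMeasure μ] (T : L.Theory) :
    N.IsTon μ T ↔ ∀ᵐ K ∂(N.law μ), K.Models T := by
  unfold EucStr.IsTon EucStr.law
  exact (ae_map_iff N.measurable_arr.aemeasurable (measurableSet_models T)).symm

lemma isTon_empty (N : EucStr L X) (μ : Measure X) [IsProbabilityMeasure μ] :
    N.IsTon μ (∅ : L.Theory) := by
  refine Filter.Eventually.of_forall fun θ => ?_
  exact @Theory.Model.mk L ℕ (N.arr θ).toStructure ∅ fun s hs => absurd hs (by simp)

end Pool.Agent.R130.Theon
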