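import Pool.Agent.R130.Theon.Defs

/-!
# The separating language, the identities, and non-independence (MP_e98621, part F1)
-/

open MeasureTheory ProbabilityTheory

namespace Pool.Agent.R130.Theon

namespace Sep

/-- Two relation symbols: `S` of arity `n + c`, `D` of arity `n + c + c`. -/
inductive Rel (n c : ℕ) : ℕ → Type
  | S : Rel n c (n + c)
  | D : Rel n c (n + c + c)

/-- The separating language. -/
def lang (n c : ℕ) : FirstOrder.Language.{0, 0} := ⟨fun _ => Empty, Rel n c⟩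

instance (n c : ℕ) : (lang n c).IsRelational := fun _ => inferInstanceAs (IsEmpty Empty)

/-- the symbol `S` -/
def symS (n c : ℕ) : Σ k, (lang n c).Relations k := ⟨n + c, Rel.S⟩
/-- the symbol `D` -/
def symD (n c : ℕ) : Σ k, (lang n c).Relations k := ⟨n + c + c, Rel.D⟩

lemma sym_cases {n c : ℕ} (p : Σ k, (lang n c).Relations k) : p = symS n c ∨ p = symD n c := by
  rcases p with ⟨k, r⟩
  have r' : Rel n c k := r
  rcases r with _ | _
  · exact Or.inl rfl
  · exact Or.inr rfl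

instance (n c : ℕ) : Finite (Σ k, (lang n c).Relations k) := by
  refine Finite.of_surjective (fun b : Bool => if b then symS n c else symD n c) fun p => ?_
  rcases sym_cases p with h | h
  · exact ⟨true, by simp [h]⟩
  · exact ⟨false, by simp [h]⟩

variable {n c : ℕ}

/-- `S(β, γ)` -/
def hS (K : Str (lang n c)) (β : Fin n → ℕ) (γ : Fin c → ℕ) : Prop :=
  K (symS n c) (Fin.append β γ)

/-- `D(β, γ, γ')` -/
def hD (K : Str (lang n c)) (β : Fin n → ℕ) (γ γ' : Fin c → ℕ) : Prop :=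
  K (symD n c) (Fin.append (Fin.append β γ) γ')

open Classical in
/-- the sign -/
noncomputable def sv (K : Str (lang n c)) (β : Fin n → ℕ) (γ : Fin c → ℕ) : ZMod 2 :=
  if hS K β γ then 1 else 0

open Classical in
/-- decoding an element of `ZMod 4` from two truth values -/
noncomputable def decode (p q : Prop) : ZMod 4 :=
  if p then (if q then 2 else 1) else (if q then 3 else 0)

/-- the difference -/
noncomputable def dv (K : Str (lang n c)) (β : Fin n → ℕ) (γ γ' : Fin c → ℕ) : ZMod 4 :=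
  decode (hD K β γ γ') (hD K β γ' γ)

lemma decode_anti (p q : Prop) : decode q p = - decode p q := by
  unfold decode
  by_cases hp : p <;> by_cases hq : q <;> simp [hp, hq] <;> decide

lemma dv_anti (K : Str (lang n c)) (β : Fin n → ℕ) (γ γ' : Fin c → ℕ) :
    dv K β γ' γ = - dv K β γ γ' := decode_anti _ _

/-- The identities. -/
structure Good (K : Str (lang n c)) : Prop where
  i1 : ∀ (β : Fin n → ℕ) (γ₁ γ₂ γ₃ : Fin c → ℕ),
    Function.Injective (Fin.append (Fin.append (Fin.append β γ₁) γ₂) γ₃) →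
      dv K β γ₁ γ₂ + dv K β γ₂ γ₃ + dv K β γ₃ γ₁ = 0
  i2 : ∀ (β : Fin n → ℕ) (γ γ' : Fin c → ℕ) (i j : Fin n), i ≠ j →
    Function.Injective (Fin.append (Fin.append β γ) γ') →
      dv K (β ∘ Equiv.swap i j) γ γ' = dv K β γ γ'
  i3 : ∀ (β : Fin n → ℕ) (γ γ' : Fin c → ℕ),
    Function.Injective (Fin.append (Fin.append β γ) γ') →
      ZMod.castHom (by norm_num : 2 ∣ 4) (ZMod 2) (dv K β γ γ') = sv K β γ + sv K β γ'
  i4 : ∀ (β : Fin n → ℕ) (γ : Fin c → ℕ) (i j : Fin n), i ≠ j →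
    Function.Injective (Fin.append β γ) →
      sv K (β ∘ Equiv.swap i j) γ = sv K β γ + 1

/-! ### reindexing of iid coordinates -/

lemma measurable_reindex {X : Type} [MeasurableSpace X] (e : Idx ℕ → Idx ℕ) :
    Measurable (fun (θ : Idx ℕ → X) (A : Idx ℕ) => θ (e A)) :=
  measurable_pi_lambda _ fun _ => measurable_pi_apply _

lemma iid_reindex {X : Type} [MeasurableSpace X] (μ : Measure X) [IsProbabilityMeasure μ]
    (e : Idx ℕ ≃ Idx ℕ) : (iid μ).map (fun θ A => θ (e A)) = iid μ := by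
  refine Measure.eq_infinitePi _ fun s t ht => ?_
  rw [Measure.map_apply (measurable_reindex _)
    (MeasurableSet.pi s.countable_toSet fun i _ => ht i)]
  have : (fun (θ : Idx ℕ → X) (A : Idx ℕ) => θ (e A)) ⁻¹' (Set.pi (s : Set (Idx ℕ)) t) =
      Set.pi ((s.map e.toEmbedding : Finset (Idx ℕ)) : Set (Idx ℕ))
        (fun i => t (e.symm i)) := by
    ext θ
    simp only [Set.mem_preimage, Set.mem_pi, Finset.mem_coe, Finset.mem_map_equiv]
    constructor
    · intro h i hi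
      have := h _ hi
      rwa [Equiv.apply_symm_apply] at this
    · intro h i hi
      have := h (e i) (by simpa using hi)
      rwa [Equiv.symm_apply_apply] at this
  rw [this, Measure.infinitePi_pi _ (fun i _ => ht _), Finset.prod_map]
  simp

open Classical in
/-- Move the coordinates in a set `P` of indices by an involution `π` of the vertices. -/
noncomputable def mv {X : Type} (π : Equiv.Perm ℕ) (P : Finset ℕ → Prop)
    (θ : Idx ℕ → X) : Idx ℕ → X :=
  fun A => if P A.1 then θ (Idx.map π.toEmbedding A) else θ A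

lemma map_map_self {π : Equiv.Perm ℕ} (hπ : ∀ x, π (π x) = x) (A : Idx ℕ) :
    Idx.map π.toEmbedding (Idx.map π.toEmbedding A) = A := by
  apply Subtype.ext
  simp only [Idx.map, Finset.map_map]
  ext x
  simp only [Finset.mem_map, Function.Embedding.trans_apply, Equiv.coe_toEmbedding]
  constructor
  · rintro ⟨a, ha, rfl⟩
    rwa [hπ]
  · intro hx
    exact ⟨x, hx, hπ x⟩

open Classical in
/-- the index involution behind `mv` -/
noncomputable def mvEquiv (π : Equiv.Perm ℕ) (P : Finset ℕ → Prop) (hπ : ∀ x, π (π x) = x)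
    (hP : ∀ A, P (A.map π.toEmbedding) ↔ P A) : Idx ℕ ≃ Idx ℕ :=
  Function.Involutive.toPerm (fun A => if P A.1 then Idx.map π.toEmbedding A else A) (by
    intro A
    by_cases h : P A.1
    · have h' : P (Idx.map π.toEmbedding A).1 := (hP A.1).2 h
      simp only [h, if_true, h']
      exact map_map_self hπ A
    · simp [h])

lemma mv_eq {X : Type} (π : Equiv.Perm ℕ) (P : Finset ℕ → Prop)
    (hπ : ∀ x, π (π x) = x) (hP : ∀ A, P (A.map π.toEmbedding) ↔ P A) (θ : Idx ℕ → X) :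
    mv π P θ = fun A => θ (mvEquiv π P hπ hP A) := by
  classical
  funext A
  change (if P A.1 then θ (Idx.map π.toEmbedding A) else θ A) =
    θ (if P A.1 then Idx.map π.toEmbedding A else A)
  split_ifs <;> rfl

lemma mv_mv {X : Type} (π : Equiv.Perm ℕ) (P : Finset ℕ → Prop)
    (hπ : ∀ x, π (π x) = x) (hP : ∀ A, P (A.map π.toEmbedding) ↔ P A) (θ : Idx ℕ → X) :
    mv π P (mv π P θ) = θ := by
  rw [mv_eq π P hπ hP, mv_eq π P hπ hP]
  funext A
  change θ (mvEquiv π P hπ hP (mvEquiv π P hπ hP A)) = θ A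
  congr 1
  exact (mvEquiv π P hπ hP).apply_symm_apply A

lemma ae_mv {X : Type} [MeasurableSpace X] (μ : Measure X) [IsProbabilityMeasure μ]
    (π : Equiv.Perm ℕ) (P : Finset ℕ → Prop)
    (hπ : ∀ x, π (π x) = x) (hP : ∀ A, P (A.map π.toEmbedding) ↔ P A) {Q : (Idx ℕ → X) → Prop}
    (h : ∀ᵐ θ ∂(iid μ), Q θ) : ∀ᵐ θ ∂(iid μ), Q (mv π P θ) := by
  have he : (mv π P : (Idx ℕ → X) → _) = fun θ A => θ (mvEquiv π P hπ hP A) :=
    funext fun θ => mv_eq π P hπ hP θ
  have hm : Measurable (mv π P : (Idx ℕ → X) → _) := by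
    rw [he]
    exact measurable_reindex _
  have h2 : (iid μ).map (mv π P) = iid μ := by
    rw [he]
    exact iid_reindex μ _
  rw [← h2] at h
  exact ae_of_ae_map hm.aemeasurable h

/-- Locality of the array. -/
lemma arr_congr {L : FirstOrder.Language.{0, 0}} {X : Type} [MeasurableSpace X]
    (N : EucStr L X) (r : ℕ) (hN : ∀ p, CompatPeon {l : ℕ+ | r < (l : ℕ)} (N.peon p))
    (θ θ' : Idx ℕ → X) (p : Σ k, L.Relations k) (a : Fin p.1 → ℕ)
    (h : ∀ A : Idx ℕ, (∀ x ∈ A.1, x ∈ Set.range a) → r < A.1.card → θ A = θ' A) :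
    N.arr θ p a ↔ N.arr θ' p a := by
  unfold EucStr.arr
  refine exists_congr fun hinj => hN p _ _ fun A hA => ?_
  refine h _ ?_ ?_
  · intro x hx
    simp only [Idx.map, Finset.mem_map] at hx
    obtain ⟨y, _, rfl⟩ := hx
    exact ⟨y, rfl⟩
  · simp only [Idx.map, Finset.card_map]
    exact hA

/-! ### the moves -/

/-- sets inside `U` which are not contained in `{0, …, n - 1}` -/
def PU (n : ℕ) (U : ℕ → Prop) (A : Finset ℕ) : Prop := (∀ x ∈ A, U x) ∧ ∃ x ∈ A, n ≤ x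

/-- the transposition `(0 1)` -/
def pi01 : Equiv.Perm ℕ := Equiv.swap 0 1

lemma pi01_invol (x : ℕ) : pi01 (pi01 x) = x := by simp [pi01]

lemma pi01_lt {n : ℕ} (hn : 2 ≤ n) (x : ℕ) : pi01 x < n ↔ x < n := by
  unfold pi01
  rcases eq_or_ne x 0 with rfl | h0
  · rw [Equiv.swap_apply_left]
    omega
  · rcases eq_or_ne x 1 with rfl | h1
    · rw [Equiv.swap_apply_right]
      omega
    · rw [Equiv.swap_apply_of_ne_of_ne h0 h1]

lemma pi01_ge {n : ℕ} (hn : 2 ≤ n) (x : ℕ) (hx : n ≤ x) : pi01 x = x := by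
  unfold pi01
  exact Equiv.swap_apply_of_ne_of_ne (by omega) (by omega)

/-- `U` contains `{0, …, n-1}` -/
lemma PU_inv {n : ℕ} (hn : 2 ≤ n) (U : ℕ → Prop) (hU : ∀ x, x < n → U x) (A : Finset ℕ) :
    PU n U (A.map pi01.toEmbedding) ↔ PU n U A := by
  have hU' : ∀ x, U (pi01 x) ↔ U x := by
    intro x
    rcases lt_or_ge x n with h | h
    · exact iff_of_true (hU _ ((pi01_lt hn x).2 h)) (hU _ h)
    · rw [pi01_ge hn x h]
  have hn' : ∀ x, n ≤ pi01 x ↔ n ≤ x := fun x => by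
    rw [← not_lt, ← not_lt, pi01_lt hn]
  unfold PU
  constructor
  · rintro ⟨h1, x, hx, h2⟩
    refine ⟨fun y hy => ?_, ?_⟩
    · rw [← hU']
      exact h1 _ (Finset.mem_map_of_mem _ hy)
    · rw [Finset.mem_map] at hx
      obtain ⟨y, hy, rfl⟩ := hx
      exact ⟨y, hy, (hn' y).1 h2⟩
  · rintro ⟨h1, x, hx, h2⟩
    refine ⟨fun y hy => ?_, ?_⟩
    · rw [Finset.mem_map] at hy
      obtain ⟨z, hz, rfl⟩ := hy
      exact (hU' z).2 (h1 z hz)
    · exact ⟨pi01 x, Finset.mem_map_of_mem _ hx, (hn' x).2 h2⟩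

section facts

variable {L : FirstOrder.Language.{0, 0}} {X : Type} [MeasurableSpace X]
    (N : EucStr L X) {n : ℕ} (hn : 2 ≤ n)
    (hN : ∀ p, CompatPeon {l : ℕ+ | n - 1 < (l : ℕ)} (N.peon p))

include hn hN

lemma fact_moved (U : ℕ → Prop)
    (θ : Idx ℕ → X) (p : Σ k, L.Relations k) (a : Fin p.1 → ℕ) (ha : ∀ i, U (a i)) :
    N.arr (mv pi01 (PU n U) θ) p a ↔ N.arr θ p (pi01 ∘ a) := by
  classical
  have h1 : N.arr θ p (pi01 ∘ a) = N.arr (permC pi01 θ) p a := by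
    rw [N.arr_permC]
    rfl
  rw [h1]
  refine arr_congr N (n - 1) hN _ _ p a fun A hA hc => ?_
  change (if PU n U A.1 then _ else _) = θ (Idx.map pi01.toEmbedding A)
  by_cases h : ∃ x ∈ A.1, n ≤ x
  · have : PU n U A.1 := ⟨fun x hx => by
      obtain ⟨i, rfl⟩ := hA x hx
      exact ha i, h⟩
    rw [if_pos this]
  · have h2 : ¬ PU n U A.1 := fun h' => h h'.2
    rw [if_neg h2]
    push Not at h
    have hA2 : A.1 = Finset.range n := by
      apply Finset.eq_of_subset_of_card_le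
      · intro x hx
        exact Finset.mem_range.2 (h x hx)
      · rw [Finset.card_range]
        omega
    congr 1
    apply Subtype.ext
    simp only [Idx.map]
    rw [hA2]
    ext x
    simp only [Finset.mem_range, Finset.mem_map, Equiv.coe_toEmbedding]
    constructor
    · intro hx
      exact ⟨pi01 x, (pi01_lt hn x).2 hx, pi01_invol x⟩
    · rintro ⟨y, hy, rfl⟩
      exact (pi01_lt hn y).2 hy

omit hn in
lemma fact_unmoved (U : ℕ → Prop)
    (θ : Idx ℕ → X) (p : Σ k, L.Relations k) (a : Fin p.1 → ℕ) (ha : ∀ i, U (a i) → a i < n) :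
    N.arr (mv pi01 (PU n U) θ) p a ↔ N.arr θ p a := by
  classical
  refine arr_congr N (n - 1) hN _ _ p a fun A hA _ => ?_
  change (if PU n U A.1 then _ else _) = _
  rw [if_neg]
  rintro ⟨h1, x, hx, hnx⟩
  obtain ⟨i, rfl⟩ := hA x hx
  have := ha i (h1 _ hx)
  omega

omit hn in
lemma fact_same (U U' : ℕ → Prop)
    (θ : Idx ℕ → X) (p : Σ k, L.Relations k) (a : Fin p.1 → ℕ) (ha : ∀ i, U (a i) ↔ U' (a i)) :
    N.arr (mv pi01 (PU n U) θ) p a ↔ N.arr (mv pi01 (PU n U') θ) p a := by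
  classical
  refine arr_congr N (n - 1) hN _ _ p a fun A hA _ => ?_
  change (if PU n U A.1 then _ else _) = (if PU n U' A.1 then _ else _)
  have : PU n U A.1 ↔ PU n U' A.1 := by
    unfold PU
    refine and_congr (forall₂_congr fun x hx => ?_) Iff.rfl
    obtain ⟨i, rfl⟩ := hA x hx
    exact ha i
  simp only [this]

lemma fact_double (U U' : ℕ → Prop) (hU : ∀ x, x < n → U x)
    (θ : Idx ℕ → X) (p : Σ k, L.Relations k) (a : Fin p.1 → ℕ) (ha : ∀ i, U (a i) → a i < n) :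
    N.arr (mv pi01 (PU n U') (mv pi01 (PU n U) θ)) p a ↔ N.arr (mv pi01 (PU n U') θ) p a := by
  classical
  refine arr_congr N (n - 1) hN _ _ p a fun A hA _ => ?_
  have hnot : ¬ PU n U A.1 := by
    rintro ⟨h1, x, hx, hnx⟩
    obtain ⟨i, rfl⟩ := hA x hx
    have := ha i (h1 _ hx)
    omega
  have hnot' : ¬ PU n U (Idx.map pi01.toEmbedding A).1 := by
    intro h
    exact hnot ((PU_inv hn U hU A.1).1 h)
  change (if PU n U' A.1 then mv pi01 (PU n U) θ (Idx.map pi01.toEmbedding A)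
    else mv pi01 (PU n U) θ A) = (if PU n U' A.1 then θ (Idx.map pi01.toEmbedding A) else θ A)
  have e1 : mv pi01 (PU n U) θ (Idx.map pi01.toEmbedding A) = θ (Idx.map pi01.toEmbedding A) :=
    if_neg hnot'
  have e2 : mv pi01 (PU n U) θ A = θ A := if_neg hnot
  rw [e1, e2]

end facts

section main

variable {n c : ℕ}

/-- the basic tuple `(0, …, n-1)` -/
def b0 (n : ℕ) : Fin n → ℕ := fun i => i
/-- the first block -/
def g1 (n c : ℕ) : Fin c → ℕ := fun i => n + i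
/-- the second block -/
def g2 (n c : ℕ) : Fin c → ℕ := fun i => n + c + i
/-- the third block -/
def g3 (n c : ℕ) : Fin c → ℕ := fun i => n + c + c + i

lemma forall_append {m k : ℕ} (a : Fin m → ℕ) (b : Fin k → ℕ) (Q : ℕ → Prop) :
    (∀ i, Q (Fin.append a b i)) ↔ (∀ i, Q (a i)) ∧ ∀ i, Q (b i) := by
  constructor
  · intro h
    refine ⟨fun i => ?_, fun i => ?_⟩
    · simpa using h (Fin.castAdd k i)
    · simpa using h (Fin.natAdd m i)
  · rintro ⟨h1, h2⟩ i
    refine Fin.addCases (fun j => ?_) (fun j => ?_) i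
    · simpa using h1 j
    · simpa using h2 j

lemma comp_append {m k : ℕ} (f : ℕ → ℕ) (a : Fin m → ℕ) (b : Fin k → ℕ) :
    f ∘ Fin.append a b = Fin.append (f ∘ a) (f ∘ b) := by
  funext i
  refine Fin.addCases (fun j => ?_) (fun j => ?_) i <;> simp

lemma dv_congr {K K' : Str (lang n c)} {β β' : Fin n → ℕ} {γ γ' : Fin c → ℕ}
    (h1 : hD K β γ γ' ↔ hD K' β' γ γ') (h2 : hD K β γ' γ ↔ hD K' β' γ' γ) :
    dv K β γ γ' = dv K' β' γ γ' := by
  unfold dv
  rw [propext h1, propext h2]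

lemma sv_congr {K K' : Str (lang n c)} {β β' : Fin n → ℕ} {γ : Fin c → ℕ}
    (h1 : hS K β γ ↔ hS K' β' γ) : sv K β γ = sv K' β' γ := by
  unfold sv
  rw [propext h1]

lemma pi_b0 (hn : 2 ≤ n) :
    pi01 ∘ b0 n = b0 n ∘ Equiv.swap (⟨0, by omega⟩ : Fin n) ⟨1, by omega⟩ := by
  funext i
  simp only [Function.comp, b0, pi01]
  rcases eq_or_ne i ⟨0, by omega⟩ with rfl | h0
  · rw [Equiv.swap_apply_left]
    simp
  · rcases eq_or_ne i ⟨1, by omega⟩ with rfl | h1
    · rw [Equiv.swap_apply_right]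
      simp
    · rw [Equiv.swap_apply_of_ne_of_ne h0 h1]
      apply Equiv.swap_apply_of_ne_of_ne
      · intro h
        exact h0 (Fin.ext h)
      · intro h
        exact h1 (Fin.ext h)

lemma pi_g (hn : 2 ≤ n) (g : Fin c → ℕ) (hg : ∀ i, n ≤ g i) : pi01 ∘ g = g := by
  funext i
  exact pi01_ge hn _ (hg i)

section dfacts

variable {X : Type} [MeasurableSpace X] (N : EucStr (lang n c) X) (hn : 2 ≤ n)
    (hN : ∀ p, CompatPeon {l : ℕ+ | n - 1 < (l : ℕ)} (N.peon p))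

include hN

lemma moved_hD (U : ℕ → Prop) (hU : ∀ x, x < n → U x) (θ : Idx ℕ → X) (γ γ' : Fin c → ℕ)
    (h1 : ∀ i, n ≤ γ i ∧ U (γ i)) (h2 : ∀ i, n ≤ γ' i ∧ U (γ' i)) :
    hD (N.arr (mv pi01 (PU n U) θ)) (b0 n) γ γ' ↔
      hD (N.arr θ) (b0 n ∘ Equiv.swap (⟨0, by omega⟩ : Fin n) ⟨1, by omega⟩) γ γ' := by
  unfold hD
  have ha : ∀ i, U (Fin.append (Fin.append (b0 n) γ) γ' i) := by
    rw [forall_append, forall_append]
    exact ⟨⟨fun i => hU _ i.2, fun i => (h1 i).2⟩, fun i => (h2 i).2⟩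
  have := fact_moved N hn hN U θ (symD n c) (Fin.append (Fin.append (b0 n) γ) γ') ha
  rw [this]
  have e : pi01 ∘ Fin.append (Fin.append (b0 n) γ) γ' =
      Fin.append (Fin.append (b0 n ∘ Equiv.swap (⟨0, by omega⟩ : Fin n) ⟨1, by omega⟩) γ) γ' := by
    rw [comp_append, comp_append, pi_b0 hn, pi_g hn γ fun i => (h1 i).1,
      pi_g hn γ' fun i => (h2 i).1]
  exact iff_of_eq (congrArg (N.arr θ (symD n c)) e)

lemma moved_D (U : ℕ → Prop) (hU : ∀ x, x < n → U x) (θ : Idx ℕ → X) (γ γ' : Fin c → ℕ)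
    (h1 : ∀ i, n ≤ γ i ∧ U (γ i)) (h2 : ∀ i, n ≤ γ' i ∧ U (γ' i)) :
    dv (N.arr (mv pi01 (PU n U) θ)) (b0 n) γ γ' =
      dv (N.arr θ) (b0 n ∘ Equiv.swap (⟨0, by omega⟩ : Fin n) ⟨1, by omega⟩) γ γ' :=
  dv_congr (moved_hD N hn hN U hU θ γ γ' h1 h2) (moved_hD N hn hN U hU θ γ' γ h2 h1)

lemma moved_S (U : ℕ → Prop) (hU : ∀ x, x < n → U x) (θ : Idx ℕ → X) (γ : Fin c → ℕ)
    (h1 : ∀ i, n ≤ γ i ∧ U (γ i)) :
    sv (N.arr (mv pi01 (PU n U) θ)) (b0 n) γ =
      sv (N.arr θ) (b0 n ∘ Equiv.swap (⟨0, by omega⟩ : Fin n) ⟨1, by omega⟩) γ := by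
  apply sv_congr
  unfold hS
  have ha : ∀ i, U (Fin.append (b0 n) γ i) := by
    rw [forall_append]
    exact ⟨fun i => hU _ i.2, fun i => (h1 i).2⟩
  have := fact_moved N hn hN U θ (symS n c) (Fin.append (b0 n) γ) ha
  rw [this]
  have e : pi01 ∘ Fin.append (b0 n) γ =
      Fin.append (b0 n ∘ Equiv.swap (⟨0, by omega⟩ : Fin n) ⟨1, by omega⟩) γ := by
    rw [comp_append, pi_b0 hn, pi_g hn γ fun i => (h1 i).1]
  exact iff_of_eq (congrArg (N.arr θ (symS n c)) e)

omit hn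

lemma unmoved_hD (U : ℕ → Prop) (θ : Idx ℕ → X) (γ γ' : Fin c → ℕ)
    (h1 : ∀ i, ¬ U (γ i)) (h2 : ∀ i, ¬ U (γ' i)) :
    hD (N.arr (mv pi01 (PU n U) θ)) (b0 n) γ γ' ↔ hD (N.arr θ) (b0 n) γ γ' := by
  have ha : ∀ i, U (Fin.append (Fin.append (b0 n) γ) γ' i) →
      Fin.append (Fin.append (b0 n) γ) γ' i < n := by
    rw [forall_append (Q := fun x => U x → x < n), forall_append (Q := fun x => U x → x < n)]
    exact ⟨⟨fun i _ => i.2, fun i h => absurd h (h1 i)⟩, fun i h => absurd h (h2 i)⟩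
  exact fact_unmoved N hN U θ (symD n c) (Fin.append (Fin.append (b0 n) γ) γ') ha

lemma unmoved_D (U : ℕ → Prop) (θ : Idx ℕ → X) (γ γ' : Fin c → ℕ)
    (h1 : ∀ i, ¬ U (γ i)) (h2 : ∀ i, ¬ U (γ' i)) :
    dv (N.arr (mv pi01 (PU n U) θ)) (b0 n) γ γ' = dv (N.arr θ) (b0 n) γ γ' :=
  dv_congr (unmoved_hD N hN U θ γ γ' h1 h2) (unmoved_hD N hN U θ γ' γ h2 h1)

lemma unmoved_S (U : ℕ → Prop) (θ : Idx ℕ → X) (γ : Fin c → ℕ)
    (h1 : ∀ i, ¬ U (γ i)) :
    sv (N.arr (mv pi01 (PU n U) θ)) (b0 n) γ = sv (N.arr θ) (b0 n) γ := by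
  apply sv_congr
  have ha : ∀ i, U (Fin.append (b0 n) γ i) → Fin.append (b0 n) γ i < n := by
    rw [forall_append (Q := fun x => U x → x < n)]
    exact ⟨fun i _ => i.2, fun i h => absurd h (h1 i)⟩
  exact fact_unmoved N hN U θ (symS n c) (Fin.append (b0 n) γ) ha

lemma same_hD (U U' : ℕ → Prop) (hU : ∀ x, x < n → U x) (hU' : ∀ x, x < n → U' x)
    (θ : Idx ℕ → X) (γ γ' : Fin c → ℕ)
    (h1 : ∀ i, U (γ i) ↔ U' (γ i)) (h2 : ∀ i, U (γ' i) ↔ U' (γ' i)) :
    hD (N.arr (mv pi01 (PU n U) θ)) (b0 n) γ γ' ↔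
      hD (N.arr (mv pi01 (PU n U') θ)) (b0 n) γ γ' := by
  have ha : ∀ i, U (Fin.append (Fin.append (b0 n) γ) γ' i) ↔
      U' (Fin.append (Fin.append (b0 n) γ) γ' i) := by
    rw [forall_append (Q := fun x => U x ↔ U' x), forall_append (Q := fun x => U x ↔ U' x)]
    exact ⟨⟨fun i => iff_of_true (hU _ i.2) (hU' _ i.2), h1⟩, h2⟩
  exact fact_same N hN U U' θ (symD n c) (Fin.append (Fin.append (b0 n) γ) γ') ha

lemma same_D (U U' : ℕ → Prop) (hU : ∀ x, x < n → U x) (hU' : ∀ x, x < n → U' x)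
    (θ : Idx ℕ → X) (γ γ' : Fin c → ℕ)
    (h1 : ∀ i, U (γ i) ↔ U' (γ i)) (h2 : ∀ i, U (γ' i) ↔ U' (γ' i)) :
    dv (N.arr (mv pi01 (PU n U) θ)) (b0 n) γ γ' =
      dv (N.arr (mv pi01 (PU n U') θ)) (b0 n) γ γ' :=
  dv_congr (same_hD N hN U U' hU hU' θ γ γ' h1 h2) (same_hD N hN U U' hU hU' θ γ' γ h2 h1)

include hn

lemma double_hD (U U' : ℕ → Prop) (hU : ∀ x, x < n → U x)
    (θ : Idx ℕ → X) (γ γ' : Fin c → ℕ) (h1 : ∀ i, ¬ U (γ i)) (h2 : ∀ i, ¬ U (γ' i)) :
    hD (N.arr (mv pi01 (PU n U') (mv pi01 (PU n U) θ))) (b0 n) γ γ' ↔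
      hD (N.arr (mv pi01 (PU n U') θ)) (b0 n) γ γ' := by
  have ha : ∀ i, U (Fin.append (Fin.append (b0 n) γ) γ' i) →
      Fin.append (Fin.append (b0 n) γ) γ' i < n := by
    rw [forall_append (Q := fun x => U x → x < n), forall_append (Q := fun x => U x → x < n)]
    exact ⟨⟨fun i _ => i.2, fun i h => absurd h (h1 i)⟩, fun i h => absurd h (h2 i)⟩
  exact fact_double N hn hN U U' hU θ (symD n c) (Fin.append (Fin.append (b0 n) γ) γ') ha

lemma double_D (U U' : ℕ → Prop) (hU : ∀ x, x < n → U x)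
    (θ : Idx ℕ → X) (γ γ' : Fin c → ℕ) (h1 : ∀ i, ¬ U (γ i)) (h2 : ∀ i, ¬ U (γ' i)) :
    dv (N.arr (mv pi01 (PU n U') (mv pi01 (PU n U) θ))) (b0 n) γ γ' =
      dv (N.arr (mv pi01 (PU n U') θ)) (b0 n) γ γ' :=
  dv_congr (double_hD N hn hN U U' hU θ γ γ' h1 h2) (double_hD N hn hN U U' hU θ γ' γ h2 h1)

end dfacts

lemma z4_contra (k : ZMod 4) (h : k + k = 0)
    (h' : ZMod.castHom (by norm_num : 2 ∣ 4) (ZMod 2) k = 1) : False := by
  revert h' h
  revert k
  decide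

theorem not_independence_aux (hn : 2 ≤ n) {X : Type} [MeasurableSpace X]
    (μ : Measure X) [IsProbabilityMeasure μ] (N : EucStr (lang n c) X)
    (hN : ∀ p, CompatPeon {l : ℕ+ | n - 1 < (l : ℕ)} (N.peon p))
    (h : ∀ᵐ θ ∂(iid μ), Good (N.arr θ)) : False := by
  classical
  -- the three moves
  set U1 : ℕ → Prop := fun x => x < n + c with hU1
  set U2 : ℕ → Prop := fun x => x < n ∨ (n + c ≤ x ∧ x < n + c + c) with hU2
  set Uf : ℕ → Prop := fun x => x < n + c + c with hUf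
  have u1 : ∀ x, x < n → U1 x := fun x hx => by simp only [hU1]; omega
  have u2 : ∀ x, x < n → U2 x := fun x hx => by simp only [hU2]; omega
  have uf : ∀ x, x < n → Uf x := fun x hx => by simp only [hUf]; omega
  have hf := ae_mv μ pi01 (PU n Uf) pi01_invol (PU_inv hn Uf uf) h
  have h1 := ae_mv μ pi01 (PU n U1) pi01_invol (PU_inv hn U1 u1) h
  have hf1 := ae_mv μ pi01 (PU n U1) pi01_invol (PU_inv hn U1 u1) hf
  obtain ⟨ζ, G0, Gf, G1, Gf1⟩ := (h.and (hf.and (h1.and hf1))).exists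
  have inj : Function.Injective
      (Fin.append (Fin.append (Fin.append (b0 n) (g1 n c)) (g2 n c)) (g3 n c)) := by
    simp only [Fin.append_injective_iff]
    have hb : ∀ (i : Fin n) , b0 n i < n := fun i => i.2
    refine ⟨⟨⟨fun i j h => Fin.ext h, ?_, ?_⟩, ?_, ?_⟩, ?_, ?_⟩
    · intro i j h
      simp only [g1] at h
      exact Fin.ext (by omega)
    · intro i j
      have := hb i
      simp only [g1]
      omega
    · intro i j h
      simp only [g2] at h
      exact Fin.ext (by omega)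
    · rw [forall_append (Q := fun x => ∀ j, x ≠ g2 n c j)]
      refine ⟨fun i j => ?_, fun i j => ?_⟩
      · have := hb i
        simp only [g2]
        omega
      · have := i.2
        simp only [g1, g2]
        omega
    · intro i j h
      simp only [g3] at h
      exact Fin.ext (by omega)
    · rw [forall_append (Q := fun x => ∀ j, x ≠ g3 n c j),
        forall_append (Q := fun x => ∀ j, x ≠ g3 n c j)]
      refine ⟨⟨fun i j => ?_, fun i j => ?_⟩, fun i j => ?_⟩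
      · have := hb i
        simp only [g3]
        omega
      · have := i.2
        simp only [g1, g3]
        omega
      · have := i.2
        simp only [g2, g3]
        omega
  have inj12 : Function.Injective (Fin.append (Fin.append (b0 n) (g1 n c)) (g2 n c)) :=
    (Fin.append_injective_iff.1 inj).1
  have inj1 : Function.Injective (Fin.append (b0 n) (g1 n c)) :=
    (Fin.append_injective_iff.1 inj12).1
  have inj13 : Function.Injective (Fin.append (Fin.append (b0 n) (g1 n c)) (g3 n c)) := by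
    rw [Fin.append_injective_iff]
    have := (Fin.append_injective_iff.1 inj).2
    refine ⟨inj1, this.1, fun i j => ?_⟩
    have h3 := this.2 (Fin.castAdd c i) j
    simpa using h3
  -- the identities
  have hne : (⟨0, by omega⟩ : Fin n) ≠ ⟨1, by omega⟩ := by simp
  have a1 : ∀ i : Fin c, n ≤ g1 n c i ∧ U1 (g1 n c i) := fun i => by
    simp only [g1, hU1]; omega
  have a1f : ∀ i : Fin c, n ≤ g1 n c i ∧ Uf (g1 n c i) := fun i => by
    simp only [g1, hUf]; omega
  have a2f : ∀ i : Fin c, n ≤ g2 n c i ∧ Uf (g2 n c i) := fun i => by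
    simp only [g2, hUf]; omega
  have b12 : ∀ i : Fin c, ¬ U1 (g2 n c i) := fun i => by simp only [g2, hU1]; omega
  have b13 : ∀ i : Fin c, ¬ U1 (g3 n c i) := fun i => by simp only [g3, hU1]; omega
  have c2 : ∀ i : Fin c, Uf (g2 n c i) ↔ U2 (g2 n c i) := fun i => by
    simp only [g2, hU2, hUf]; omega
  have c3 : ∀ i : Fin c, Uf (g3 n c i) ↔ U2 (g3 n c i) := fun i => by
    simp only [g3, hU2, hUf]; omega
  have e3 : ∀ i : Fin c, Uf (g3 n c i) ↔ U1 (g3 n c i) := fun i => by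
    simp only [g3, hU1, hUf]; omega
  have e1 : ∀ i : Fin c, Uf (g1 n c i) ↔ U1 (g1 n c i) := fun i => by
    simp only [g1, hU1, hUf]; omega
  -- the cocycle identities at the four points
  have k0 := G0.i1 _ _ _ _ inj
  have kf := Gf.i1 _ _ _ _ inj
  have k1 := G1.i1 _ _ _ _ inj
  have kf1 := Gf1.i1 _ _ _ _ inj
  rw [moved_D N hn hN Uf uf ζ _ _ a1f a2f, G0.i2 _ _ _ _ _ hne inj12,
    same_D N hN Uf U2 uf u2 ζ _ _ c2 c3, same_D N hN Uf U1 uf u1 ζ _ _ e3 e1] at kf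
  rw [unmoved_D N hN U1 ζ _ _ b12 b13] at k1
  rw [moved_D N hn hN Uf uf _ _ _ a1f a2f, G1.i2 _ _ _ _ _ hne inj12,
    same_D N hN Uf U2 uf u2 _ _ _ c2 c3, same_D N hN Uf U1 uf u1 _ _ _ e3 e1,
    double_D N hn hN U1 U2 u1 ζ _ _ b12 b13,
    mv_mv pi01 (PU n U1) pi01_invol (PU_inv hn U1 u1)] at kf1
  -- parity
  have p0 := G0.i3 _ _ _ inj13
  have p1 := G1.i3 _ _ _ inj13
  rw [moved_S N hn hN U1 u1 ζ _ a1, G0.i4 _ _ _ _ hne inj1, unmoved_S N hN U1 ζ _ b13] at p1
  rw [dv_anti _ _ (g1 n c) (g3 n c)] at k0 kf k1 kf1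
  generalize dv (N.arr ζ) (b0 n) (g1 n c) (g2 n c) = x12 at *
  generalize dv (N.arr ζ) (b0 n) (g2 n c) (g3 n c) = x23 at *
  generalize dv (N.arr ζ) (b0 n) (g1 n c) (g3 n c) = x13 at *
  generalize dv (N.arr (mv pi01 (PU n U1) ζ)) (b0 n) (g1 n c) (g2 n c) = y12 at *
  generalize dv (N.arr (mv pi01 (PU n U1) ζ)) (b0 n) (g1 n c) (g3 n c) = y13 at *
  generalize dv (N.arr (mv pi01 (PU n U2) ζ)) (b0 n) (g2 n c) (g3 n c) = z23 at *
  generalize sv (N.arr ζ) (b0 n) (g1 n c) = s1 at *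
  generalize sv (N.arr ζ) (b0 n) (g3 n c) = s3 at *
  refine z4_contra (x13 - y13) ?_ ?_
  · linear_combination kf + k1 - k0 - kf1
  · rw [map_sub, p0, p1]
    have : ∀ s1 s3 : ZMod 2, s1 + s3 - (s1 + 1 + s3) = 1 := by decide
    exact this s1 s3

/-- A law with the identities is not in `Independence[n - 1]`. -/
theorem not_independence (hn : 2 ≤ n) (T : (lang n c).Theory) (φ : Measure (Str (lang n c)))
    (h : ∀ᵐ K ∂φ, Good K) : ¬ Independence T φ (n - 1) := by
  rintro ⟨X, _, _, μ, _, N, _, rfl, hN⟩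
  exact not_independence_aux hn μ N hN (ae_of_ae_map N.measurable_arr.aemeasurable h)

end main

end Sep

end Pool.Agent.R130.Theon
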