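import Pool.Agent.R130.Theon.Defs

/-!
# Octahedral products of functions of coordinates (helper80, for helper130)
-/

open MeasureTheory ProbabilityTheory
open scoped ENNReal

namespace Pool.Agent.R130.Theon

variable {L : FirstOrder.Language.{0, 0}} {X : Type} [MeasurableSpace X]

/-- the action on structures -/
def actS (L : FirstOrder.Language.{0, 0}) : Act (Str L) where
  T := permS
  meas := measurable_permS
  one := fun K => rfl
  mul := fun σ τ K => rfl

lemma oct_mul {Z : Type} [MeasurableSpace Z] (E : Act Z) (l : List (ℕ × ℕ)) (x y : Z → ℝ) :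
    oct E l (fun z => x z * y z) = fun z => oct E l x z * oct E l y z := by
  induction l generalizing x y with
  | nil => rfl
  | cons p l ih =>
    simp only [oct]
    rw [← ih]
    congr 1
    funext z
    ring

lemma oct_comp_arr (N : EucStr L X) (l : List (ℕ × ℕ)) (F : Str L → ℝ) :
    oct (actC X) l (fun θ => F (N.arr θ)) = fun θ => oct (actS L) l F (N.arr θ) := by
  induction l generalizing F with
  | nil => rfl
  | cons p l ih =>
    simp only [oct]
    rw [← ih]
    congr 1
    funext θ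
    change F (N.arr θ) * F (N.arr (permC _ θ)) = F (N.arr θ) * F (permS _ (N.arr θ))
    rw [N.arr_permC]

lemma oct_transport {Z : Type} [MeasurableSpace Z] (E : Act Z) (σ : Equiv.Perm ℕ)
    (l : List (ℕ × ℕ)) (h : Z → ℝ) :
    oct E (l.map (Prod.map σ σ)) (fun z => h (E.T σ z)) = fun z => oct E l h (E.T σ z) := by
  induction l generalizing h with
  | nil => rfl
  | cons p l ih =>
    simp only [oct, List.map_cons]
    rw [← ih]
    congr 1
    funext z
    congr 2
    rw [← E.mul, ← E.mul]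
    congr 1
    ext x
    simp only [Prod.map_fst, Prod.map_snd, Equiv.Perm.coe_mul, Function.comp_apply]
    rw [Equiv.swap_apply_def, Equiv.swap_apply_def]
    simp only [EmbeddingLike.apply_eq_iff_eq]
    split_ifs <;> rfl

lemma measurable_oct {Z : Type} [MeasurableSpace Z] (E : Act Z) (l : List (ℕ × ℕ)) {e : Z → ℝ}
    (me : Measurable e) : Measurable (oct E l e) := by
  induction l generalizing e with
  | nil => exact me
  | cons p l ih => exact ih (me.mul (me.comp (E.meas _)))

lemma bdd_oct {Z : Type} [MeasurableSpace Z] (E : Act Z) (l : List (ℕ × ℕ)) {e : Z → ℝ}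
    (be : ∃ M, ∀ z, |e z| ≤ M) : ∃ M, ∀ z, |oct E l e z| ≤ M := by
  induction l generalizing e with
  | nil => exact be
  | cons p l ih =>
    refine ih ?_
    obtain ⟨M, hM⟩ := be
    refine ⟨M * M, fun z => ?_⟩
    rw [abs_mul]
    exact mul_le_mul (hM _) (hM _) (abs_nonneg _) ((abs_nonneg _).trans (hM z))

/-- `h` depends only on the coordinates in `D`. -/
def DepOn {X : Type} (D : Finset (Idx ℕ)) (h : (Idx ℕ → X) → ℝ) : Prop :=
  ∀ x y : Idx ℕ → X, (∀ B ∈ D, x B = y B) → h x = h y

/-- the coordinates of an octahedral product -/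
def octF : List (ℕ × ℕ) → Finset (Idx ℕ) → Finset (Idx ℕ)
  | [], D => D
  | p :: l, D => octF l (D ∪ D.map (idxEquiv (Equiv.swap p.1 p.2)).toEmbedding)

lemma oct_depOn (l : List (ℕ × ℕ)) (D : Finset (Idx ℕ)) {h : (Idx ℕ → X) → ℝ}
    (hd : DepOn D h) : DepOn (octF l D) (oct (actC X) l h) := by
  induction l generalizing D h with
  | nil => exact hd
  | cons p l ih =>
    refine ih _ ?_
    intro x y hxy
    have h1 : h x = h y := hd x y fun B hB => hxy B (Finset.mem_union_left _ hB)
    have h2 : h ((actC X).T (Equiv.swap p.1 p.2) x) = h ((actC X).T (Equiv.swap p.1 p.2) y) :=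
      hd _ _ fun B hB => hxy (idxEquiv (Equiv.swap p.1 p.2) B)
        (Finset.mem_union_right _ (Finset.mem_map_of_mem _ hB))
    simp only [h1, h2]

lemma mem_idxEquiv_swap (a b x : ℕ) (B : Idx ℕ) :
    x ∈ (idxEquiv (Equiv.swap a b) B).1 ↔ Equiv.swap a b x ∈ B.1 := by
  change x ∈ B.1.map (Equiv.swap a b).toEmbedding ↔ _
  rw [Finset.mem_map_equiv, Equiv.symm_swap]

lemma idxEquiv_swap_symm (a b : ℕ) (B : Idx ℕ) :
    (idxEquiv (Equiv.swap a b)).symm B = idxEquiv (Equiv.swap a b) B := by
  rw [Equiv.symm_apply_eq]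
  apply Subtype.ext
  ext x
  rw [mem_idxEquiv_swap, mem_idxEquiv_swap, Equiv.swap_apply_self]

lemma lev_idxEquiv (σ : Equiv.Perm ℕ) (B : Idx ℕ) : lev (idxEquiv σ B) = lev B := by
  apply PNat.eq
  change (B.1.map σ.toEmbedding).card = B.1.card
  simp

/-- the pairs of the list are disjoint -/
def Good (l : List (ℕ × ℕ)) : Prop :=
  (l.map Prod.fst).Nodup ∧ (l.map Prod.snd).Nodup ∧ ∀ p ∈ l, ∀ q ∈ l, p.1 ≠ q.2

lemma Good.tail {p : ℕ × ℕ} {l : List (ℕ × ℕ)} (h : Good (p :: l)) : Good l := by
  obtain ⟨h1, h2, h3⟩ := h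
  rw [List.map_cons, List.nodup_cons] at h1 h2
  exact ⟨h1.2, h2.2, fun p hp q hq => h3 p (List.mem_cons_of_mem _ hp) q
    (List.mem_cons_of_mem _ hq)⟩

lemma Good.head {p : ℕ × ℕ} {l : List (ℕ × ℕ)} (h : Good (p :: l)) {q : ℕ × ℕ} (hq : q ∈ l) :
    q.1 ≠ p.1 ∧ q.1 ≠ p.2 ∧ q.2 ≠ p.1 ∧ q.2 ≠ p.2 := by
  obtain ⟨h1, h2, h3⟩ := h
  rw [List.map_cons, List.nodup_cons] at h1 h2
  refine ⟨?_, h3 q (List.mem_cons_of_mem _ hq) p List.mem_cons_self, ?_, ?_⟩
  · intro h'
    exact h1.1 (List.mem_map.2 ⟨q, hq, h'⟩)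
  · exact fun h' => h3 p List.mem_cons_self q (List.mem_cons_of_mem _ hq) h'.symm
  · intro h'
    exact h2.1 (List.mem_map.2 ⟨q, hq, h'⟩)

lemma mem_swap_iff {p : ℕ × ℕ} {x : ℕ} (h1 : x ≠ p.1) (h2 : x ≠ p.2) (B : Idx ℕ) :
    x ∈ (idxEquiv (Equiv.swap p.1 p.2) B).1 ↔ x ∈ B.1 := by
  rw [mem_idxEquiv_swap, Equiv.swap_apply_of_ne_of_ne h1 h2]

lemma oct_prod (l : List (ℕ × ℕ)) (hl : Good l) (S : Finset (Idx ℕ)) (e : X → ℝ)
    (h : ∀ B ∈ S, ∀ p ∈ l, p.1 ∈ B.1 ∧ p.2 ∉ B.1) :
    oct (actC X) l (fun θ => ∏ B ∈ S, e (θ B)) = fun θ => ∏ B ∈ octF l S, e (θ B) := by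
  induction l generalizing S with
  | nil => rfl
  | cons p l ih =>
    simp only [oct, octF]
    rw [← ih hl.tail]
    · congr 1
      funext θ
      have hd : Disjoint S (S.map (idxEquiv (Equiv.swap p.1 p.2)).toEmbedding) := by
        rw [Finset.disjoint_left]
        intro B hB hB'
        rw [Finset.mem_map_equiv, idxEquiv_swap_symm] at hB'
        have h1 := (h B hB p List.mem_cons_self).2
        have h2 := (h _ hB' p List.mem_cons_self).1
        rw [mem_idxEquiv_swap, Equiv.swap_apply_left] at h2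
        exact h1 h2
      rw [Finset.prod_union hd, Finset.prod_map]
      rfl
    · intro B hB q hq
      obtain ⟨c1, c2, c3, c4⟩ := hl.head hq
      rcases Finset.mem_union.1 hB with hB | hB
      · exact h B hB q (List.mem_cons_of_mem _ hq)
      · rw [Finset.mem_map_equiv, idxEquiv_swap_symm] at hB
        have := h _ hB q (List.mem_cons_of_mem _ hq)
        rw [mem_swap_iff c1 c2, mem_swap_iff c3 c4] at this
        exact this

lemma octF_common (l : List (ℕ × ℕ)) (hl : Good l) (D D' S : Finset (Idx ℕ)) (m : ℕ)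
    (h1 : ∀ B ∈ D, ∀ p ∈ l, p.2 ∉ B.1) (h1' : ∀ B ∈ D', ∀ p ∈ l, p.2 ∉ B.1)
    (h2 : ∀ B ∈ D, B ∈ D' → (lev B : ℕ) = m → B ∈ S) (h3 : ∀ B ∈ S, ∀ p ∈ l, p.1 ∈ B.1) :
    ∀ B ∈ octF l D, B ∈ octF l D' → (lev B : ℕ) = m → B ∈ octF l S := by
  induction l generalizing D D' S with
  | nil => exact h2
  | cons p l ih =>
    simp only [octF]
    refine ih hl.tail _ _ _ ?_ ?_ ?_ ?_
    · intro B hB q hq
      obtain ⟨c1, c2, c3, c4⟩ := hl.head hq
      rcases Finset.mem_union.1 hB with hB | hB
      · exact h1 B hB q (List.mem_cons_of_mem _ hq)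
      · rw [Finset.mem_map_equiv, idxEquiv_swap_symm] at hB
        have := h1 _ hB q (List.mem_cons_of_mem _ hq)
        rwa [mem_swap_iff c3 c4] at this
    · intro B hB q hq
      obtain ⟨c1, c2, c3, c4⟩ := hl.head hq
      rcases Finset.mem_union.1 hB with hB | hB
      · exact h1' B hB q (List.mem_cons_of_mem _ hq)
      · rw [Finset.mem_map_equiv, idxEquiv_swap_symm] at hB
        have := h1' _ hB q (List.mem_cons_of_mem _ hq)
        rwa [mem_swap_iff c3 c4] at this
    · -- cross terms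
      have cross : ∀ (D D' : Finset (Idx ℕ)), (∀ B ∈ D, p.2 ∉ B.1) → (∀ B ∈ D', p.2 ∉ B.1) →
          (∀ B ∈ D, B ∈ D' → (lev B : ℕ) = m → B ∈ S) → ∀ B ∈ D,
          idxEquiv (Equiv.swap p.1 p.2) B ∈ D' → (lev B : ℕ) = m → False := by
        intro D D' g1 g1' g2 B hB hB' hm
        have b1 := g1 B hB
        have b2 := g1' _ hB'
        rw [mem_idxEquiv_swap, Equiv.swap_apply_right] at b2
        have b3 : idxEquiv (Equiv.swap p.1 p.2) B = B := by
          apply Subtype.ext
          ext x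
          rw [mem_idxEquiv_swap]
          by_cases hx1 : x = p.1
          · rw [hx1, Equiv.swap_apply_left]
            simp [b1, b2]
          · by_cases hx2 : x = p.2
            · rw [hx2, Equiv.swap_apply_right]
              simp [b1, b2]
            · rw [Equiv.swap_apply_of_ne_of_ne hx1 hx2]
        rw [b3] at hB'
        exact b2 (h3 B (g2 B hB hB' hm) p List.mem_cons_self)
      intro B hB hB' hm
      rcases Finset.mem_union.1 hB with hB | hB
      · rcases Finset.mem_union.1 hB' with hB' | hB'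
        · exact Finset.mem_union_left _ (h2 B hB hB' hm)
        · exfalso
          rw [Finset.mem_map_equiv, idxEquiv_swap_symm] at hB'
          exact cross D D' (fun B hB => h1 B hB p List.mem_cons_self)
            (fun B hB => h1' B hB p List.mem_cons_self) h2 B hB hB' hm
      · rw [Finset.mem_map_equiv, idxEquiv_swap_symm] at hB
        rcases Finset.mem_union.1 hB' with hB' | hB'
        · exfalso
          exact cross D' D (fun B hB => h1' B hB p List.mem_cons_self)
            (fun B hB => h1 B hB p List.mem_cons_self) (fun B hB hB' hm => h2 B hB' hB hm)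
            B hB' hB hm
        · rw [Finset.mem_map_equiv, idxEquiv_swap_symm] at hB'
          refine Finset.mem_union_right _ ?_
          rw [Finset.mem_map_equiv, idxEquiv_swap_symm]
          refine h2 _ hB hB' ?_
          rw [lev_idxEquiv]
          exact hm
    · intro B hB q hq
      obtain ⟨c1, c2, c3, c4⟩ := hl.head hq
      rcases Finset.mem_union.1 hB with hB | hB
      · exact h3 B hB q (List.mem_cons_of_mem _ hq)
      · rw [Finset.mem_map_equiv, idxEquiv_swap_symm] at hB
        have := h3 _ hB q (List.mem_cons_of_mem _ hq)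
        rwa [mem_swap_iff c1 c2] at this

lemma subset_octF (l : List (ℕ × ℕ)) (S : Finset (Idx ℕ)) : S ⊆ octF l S := by
  induction l generalizing S with
  | nil => exact fun _ h => h
  | cons p l ih => exact fun B hB => ih _ (Finset.mem_union_left _ hB)

lemma lev_octF (l : List (ℕ × ℕ)) (S : Finset (Idx ℕ)) (m : ℕ)
    (h : ∀ B ∈ S, (lev B : ℕ) = m) : ∀ B ∈ octF l S, (lev B : ℕ) = m := by
  induction l generalizing S with
  | nil => exact h
  | cons p l ih =>
    refine ih _ fun B hB => ?_
    rcases Finset.mem_union.1 hB with hB | hB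
    · exact h B hB
    · rw [Finset.mem_map_equiv, idxEquiv_swap_symm] at hB
      have := h _ hB
      rwa [lev_idxEquiv] at this

end Pool.Agent.R130.Theon
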