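import Pool.Agent.R130.Theon.Irr
import Pool.Agent.R130.Theon.Oct

/-!
# Perturbation of one level (helper80, for helper130)
-/

open MeasureTheory ProbabilityTheory
open scoped ENNReal

namespace Pool.Agent.R130.Theon

/-- product measure with densities at finitely many coordinates -/
theorem infinitePi_dens {I Z : Type} [MeasurableSpace Z] (μ ν : I → Measure Z)
    [∀ i, IsProbabilityMeasure (μ i)] [∀ i, IsProbabilityMeasure (ν i)] (R : Finset I)
    (δ : I → Z → ℝ≥0∞) (hδ : ∀ i, Measurable (δ i)) (h : ∀ i, ν i = (μ i).withDensity (δ i))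
    (h1 : ∀ i ∉ R, δ i = fun _ => 1) :
    Measure.infinitePi ν =
      (Measure.infinitePi μ).withDensity (fun z => ∏ i ∈ R, δ i (z i)) := by
  classical
  symm
  refine Measure.eq_infinitePi _ fun s t ht => ?_
  have hm : MeasurableSet (Set.pi (s : Set I) t) :=
    MeasurableSet.pi s.countable_toSet fun i _ => ht i
  rw [withDensity_apply _ hm, ← lintegral_indicator hm]
  set t' : I → Set Z := fun i => if i ∈ s then t i else Set.univ with ht'def
  have ht' : ∀ i, MeasurableSet (t' i) := by
    intro i
    simp only [ht'def]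
    split_ifs
    · exact ht i
    · exact MeasurableSet.univ
  have e1 : ∀ z : I → Z, (Set.pi (s : Set I) t).indicator (fun z => ∏ i ∈ R, δ i (z i)) z =
      ∏ i ∈ s ∪ R, (t' i).indicator (δ i) (z i) := by
    intro z
    by_cases hz : z ∈ Set.pi (s : Set I) t
    · have hz' : ∀ i, z i ∈ t' i := by
        intro i
        simp only [ht'def]
        split_ifs with hi
        · exact hz i hi
        · exact Set.mem_univ _
      rw [Set.indicator_of_mem hz,
        ← Finset.prod_subset (Finset.subset_union_right (s₁ := s) (s₂ := R))]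
      · refine Finset.prod_congr rfl fun i _ => ?_
        rw [Set.indicator_of_mem (hz' i)]
      · intro i _ hi
        rw [Set.indicator_of_mem (hz' i), h1 i hi]
    · rw [Set.indicator_of_notMem hz]
      have : ∃ i ∈ s, z i ∉ t i := by
        by_contra hc
        push Not at hc
        exact hz fun i hi => hc i hi
      obtain ⟨i, hi, hi'⟩ := this
      symm
      refine Finset.prod_eq_zero (Finset.mem_union_left _ hi) (Set.indicator_of_notMem ?_ _)
      simp only [ht'def, hi, if_true]
      exact hi'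
  simp only [e1]
  have hind : iIndepFun (fun (i : I) (z : I → Z) => (t' i).indicator (δ i) (z i))
      (Measure.infinitePi μ) :=
    iIndepFun_infinitePi (P := μ) (X := fun i => (t' i).indicator (δ i))
      (fun i => (hδ i).indicator (ht' i))
  rw [lintegral_prod_eq_prod_lintegral_of_indepFun (s ∪ R) _ hind
    (fun i => ((hδ i).indicator (ht' i)).comp (measurable_pi_apply i))]
  have e2 : ∀ i, ∫⁻ z, (t' i).indicator (δ i) (z i) ∂(Measure.infinitePi μ) = ν i (t' i) := by
    intro i
    have e3 : (Measure.infinitePi μ).map (fun x => x i) = μ i := Measure.infinitePi_map_eval μ i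
    have e4 : ∫⁻ z, (t' i).indicator (δ i) z ∂(μ i) =
        ∫⁻ z, (t' i).indicator (δ i) z ∂((Measure.infinitePi μ).map (fun x => x i)) := by
      rw [e3]
    rw [h i, withDensity_apply _ (ht' i), ← lintegral_indicator (ht' i), e4,
      lintegral_map ((hδ i).indicator (ht' i)) (measurable_pi_apply i)]
  simp only [e2]
  rw [← Finset.prod_subset (Finset.subset_union_left (s₁ := s) (s₂ := R))]
  · refine Finset.prod_congr rfl fun i hi => ?_
    simp only [ht'def, hi, if_true]
  · intro i _ hi
    simp only [ht'def, hi, if_false]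
    exact measure_univ

/-- product measures that agree on the coordinates in `R` -/
lemma integral_congr_depOn {Z : Type} [MeasurableSpace Z] (ν ν' : Idx ℕ → Measure Z)
    [∀ i, IsProbabilityMeasure (ν i)] [∀ i, IsProbabilityMeasure (ν' i)] (R : Finset (Idx ℕ))
    (h : ∀ i ∈ R, ν i = ν' i) {H : (Idx ℕ → Z) → ℝ} (mH : Measurable H) (hd : DepOn R H) :
    ∫ z, H z ∂(Measure.infinitePi ν) = ∫ z, H z ∂(Measure.infinitePi ν') := by
  classical
  obtain ⟨z0⟩ : Nonempty (Idx ℕ → Z) :=
    nonempty_of_isProbabilityMeasure (Measure.infinitePi ν)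
  set g : (R → Z) → (Idx ℕ → Z) := fun w i => if hi : i ∈ R then w ⟨i, hi⟩ else z0 i with hg
  have mg : Measurable g := by
    refine measurable_pi_lambda _ fun i => ?_
    by_cases hi : i ∈ R
    · simp only [hg, hi, dif_pos]
      exact measurable_pi_apply _
    · simp only [hg, hi, dif_neg, not_false_eq_true]
      exact measurable_const
  have e1 : ∀ z, H z = (fun w => H (g w)) (R.restrict z) := by
    intro z
    refine hd _ _ fun i hi => ?_
    simp [hg, hi]
  have e2 : ∀ (ν : Idx ℕ → Measure Z) [∀ i, IsProbabilityMeasure (ν i)],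
      ∫ z, H z ∂(Measure.infinitePi ν) = ∫ w, H (g w) ∂(Measure.pi fun i : R => ν i) := by
    intro ν _
    have e3 := integral_restrict_infinitePi ν (s := R) (f := fun w => H (g w))
      (mH.comp mg).aestronglyMeasurable
    rw [← e3]
    congr 1
    funext z
    exact e1 z
  rw [e2 ν, e2 ν']
  have : (fun i : R => ν i) = fun i : R => ν' i := by
    funext i
    exact h i i.2
  rw [this]

variable {X Y : Type} [MeasurableSpace X] [MeasurableSpace Y]

/-- the perturbed coupling of `μ` and `μ'` -/
noncomputable def lam (μ : Measure X) (μ' : Measure Y) (e : X → ℝ) (e' : Y → ℝ) (c : ℝ) :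
    Measure (X × Y) :=
  (μ.prod μ').withDensity (fun z => ENNReal.ofReal (1 + c * (e z.1 * e' z.2)))

section Lam

variable (μ : Measure X) [IsProbabilityMeasure μ] (μ' : Measure Y) [IsProbabilityMeasure μ']
  {e : X → ℝ} {e' : Y → ℝ} (me : Measurable e) (me' : Measurable e') (be : ∀ x, |e x| ≤ 1)
  (be' : ∀ y, |e' y| ≤ 1) (ze : ∫ x, e x ∂μ = 0) (ze' : ∫ y, e' y ∂μ' = 0) {c : ℝ} (hc : 0 ≤ c)
  (hc' : c ≤ 1)

include be be' hc hc' in
lemma dens_nonneg (x : X) (y : Y) : 0 ≤ 1 + c * (e x * e' y) := by
  have h1 : |c * (e x * e' y)| ≤ 1 := by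
    rw [abs_mul, abs_mul, abs_of_nonneg hc]
    have h2 : |e x| * |e' y| ≤ 1 * 1 :=
      mul_le_mul (be x) (be' y) (abs_nonneg _) zero_le_one
    have h3 : 0 ≤ |e x| * |e' y| := by positivity
    nlinarith
  have := (abs_le.1 h1).1
  linarith

include me me' be be' ze ze' hc hc' in
lemma lam_inner (x : X) : ∫⁻ y, ENNReal.ofReal (1 + c * (e x * e' y)) ∂μ' = 1 := by
  have hi : Integrable (fun y => e' y) μ' := integrable_of_bdd _ me' be'
  rw [← ofReal_integral_eq_lintegral_ofReal]
  · rw [integral_add (integrable_const _) ((hi.const_mul _).const_mul _)]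
    simp only [integral_const_mul, ze']
    simp
  · exact (integrable_const _).add ((hi.const_mul _).const_mul _)
  · exact Filter.Eventually.of_forall fun y => dens_nonneg be be' hc hc' x y

include me me' be be' ze ze' hc hc' in
lemma lam_inner' (y : Y) : ∫⁻ x, ENNReal.ofReal (1 + c * (e x * e' y)) ∂μ = 1 := by
  have hi : Integrable (fun x => e x) μ := integrable_of_bdd _ me be
  rw [← ofReal_integral_eq_lintegral_ofReal]
  · rw [integral_add (integrable_const _) ((hi.mul_const _).const_mul _)]
    simp only [integral_const_mul, integral_mul_const, ze]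
    simp
  · exact (integrable_const _).add ((hi.mul_const _).const_mul _)
  · exact Filter.Eventually.of_forall fun x => dens_nonneg be be' hc hc' x y

lemma measurable_dens (me : Measurable e) (me' : Measurable e') :
    Measurable (fun z : X × Y => ENNReal.ofReal (1 + c * (e z.1 * e' z.2))) :=
  ENNReal.measurable_ofReal.comp
    (measurable_const.add (measurable_const.mul
      ((me.comp measurable_fst).mul (me'.comp measurable_snd))))

include me me' be be' ze ze' hc hc' in
lemma lam_fst : (lam μ μ' e e' c).map Prod.fst = μ := by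
  ext U hU
  rw [Measure.map_apply measurable_fst hU, lam, withDensity_apply _ (measurable_fst hU)]
  have : (Prod.fst ⁻¹' U : Set (X × Y)) = U ×ˢ Set.univ := by
    ext z
    simp
  rw [this, ← Measure.prod_restrict, Measure.restrict_univ,
    lintegral_prod _ (measurable_dens me me').aemeasurable]
  simp only [lam_inner μ μ' me me' be be' ze ze' hc hc']
  simp

include me me' be be' ze ze' hc hc' in
lemma lam_snd : (lam μ μ' e e' c).map Prod.snd = μ' := by
  ext U hU
  rw [Measure.map_apply measurable_snd hU, lam, withDensity_apply _ (measurable_snd hU)]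
  have : (Prod.snd ⁻¹' U : Set (X × Y)) = Set.univ ×ˢ U := by
    ext z
    simp
  rw [this, ← Measure.prod_restrict, Measure.restrict_univ,
    lintegral_prod_symm _ (measurable_dens me me').aemeasurable]
  simp only [lam_inner' μ μ' me me' be be' ze ze' hc hc']
  simp

include me me' be be' ze ze' hc hc' in
lemma lam_prob : IsProbabilityMeasure (lam μ μ' e e' c) := by
  constructor
  have h := lam_fst μ μ' me me' be be' ze ze' hc hc'
  have h2 : (lam μ μ' e e' c).map Prod.fst Set.univ = 1 := by
    rw [h]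
    exact measure_univ
  rwa [Measure.map_apply measurable_fst MeasurableSet.univ, Set.preimage_univ] at h2

/-- Expansion of the correlation of two functions under the perturbed coupling of level `m`. -/
theorem integral_pert (me : Measurable e) (me' : Measurable e') (be : ∀ x, |e x| ≤ 1)
    (be' : ∀ y, |e' y| ≤ 1) (ze : ∫ x, e x ∂μ = 0) (ze' : ∫ y, e' y ∂μ' = 0) (hc : 0 ≤ c)
    (hc' : c ≤ 1) [IsProbabilityMeasure (lam μ μ' e e' c)] (m : ℕ) (D D' : Finset (Idx ℕ))
    {f : (Idx ℕ → X) → ℝ} {g : (Idx ℕ → Y) → ℝ} (mf : Measurable f) (mg : Measurable g)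
    (bf : ∃ M, ∀ x, |f x| ≤ M) (bg : ∃ M, ∀ y, |g y| ≤ M) (df : DepOn D f) (dg : DepOn D' g) :
    ∫ ζ, f (fun A => if (lev A : ℕ) = m then (ζ A).1.1 else (ζ A).2.1) *
      g (fun A => if (lev A : ℕ) = m then (ζ A).1.2 else (ζ A).2.2)
      ∂(iid ((lam μ μ' e e' c).prod (μ.prod μ'))) =
    ∑ S ∈ ((D ∪ D').filter fun B => (lev B : ℕ) = m).powerset,
      c ^ S.card * ((∫ x, f x * ∏ B ∈ S, e (x B) ∂(iid μ)) *
        ∫ y, g y * ∏ B ∈ S, e' (y B) ∂(iid μ')) := by
  classical
  obtain ⟨M, hM⟩ := bf
  obtain ⟨M', hM'⟩ := bg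
  set R := (D ∪ D').filter fun B => (lev B : ℕ) = m with hR
  set H : (Idx ℕ → X × Y) → ℝ := fun z => f (fun A => (z A).1) * g (fun A => (z A).2) with hH
  have mH : Measurable H :=
    (mf.comp (measurable_pi_lambda _ fun A => measurable_fst.comp (measurable_pi_apply A))).mul
      (mg.comp (measurable_pi_lambda _ fun A => measurable_snd.comp (measurable_pi_apply A)))
  have dH : DepOn (D ∪ D') H := by
    intro x y hxy
    simp only [hH]
    rw [df _ _ fun B hB => congrArg Prod.fst (hxy B (Finset.mem_union_left _ hB)),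
      dg _ _ fun B hB => congrArg Prod.snd (hxy B (Finset.mem_union_right _ hB))]
  -- step 1
  have hpr : ∀ A : Idx ℕ, Measurable (fun w : (X × Y) × (X × Y) =>
      if (lev A : ℕ) = m then w.1 else w.2) := by
    intro A
    split_ifs
    · exact measurable_fst
    · exact measurable_snd
  have s1 : (iid ((lam μ μ' e e' c).prod (μ.prod μ'))).map
      (fun ζ A => if (lev A : ℕ) = m then (ζ A).1 else (ζ A).2) =
      Measure.infinitePi (fun A : Idx ℕ => ((lam μ μ' e e' c).prod (μ.prod μ')).map
        (fun w : (X × Y) × (X × Y) => if (lev A : ℕ) = m then w.1 else w.2)) :=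
    Measure.infinitePi_map_pi (μ := fun _ : Idx ℕ => (lam μ μ' e e' c).prod (μ.prod μ'))
      (f := fun A w => if (lev A : ℕ) = m then w.1 else w.2) hpr
  have s2 : ∀ A : Idx ℕ, ((lam μ μ' e e' c).prod (μ.prod μ')).map
        (fun w : (X × Y) × (X × Y) => if (lev A : ℕ) = m then w.1 else w.2) =
      if (lev A : ℕ) = m then lam μ μ' e e' c else μ.prod μ' := by
    intro A
    split_ifs with hA
    · rw [Measure.map_fst_prod]
      simp
    · rw [Measure.map_snd_prod]
      simp
  have mm : Measurable (fun (ζ : Idx ℕ → (X × Y) × (X × Y)) (A : Idx ℕ) =>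
      if (lev A : ℕ) = m then (ζ A).1 else (ζ A).2) :=
    measurable_pi_lambda _ fun A => (hpr A).comp (measurable_pi_apply A)
  set ν : Idx ℕ → Measure (X × Y) := fun A =>
    if (lev A : ℕ) = m then lam μ μ' e e' c else μ.prod μ' with hν
  have iν : ∀ A, IsProbabilityMeasure (ν A) := by
    intro A
    simp only [hν]
    split_ifs <;> infer_instance
  set ν' : Idx ℕ → Measure (X × Y) := fun A =>
    if A ∈ R then lam μ μ' e e' c else μ.prod μ' with hν'
  have iν' : ∀ A, IsProbabilityMeasure (ν' A) := by
    intro A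
    simp only [hν']
    split_ifs <;> infer_instance
  have s3 : ∫ ζ, f (fun A => if (lev A : ℕ) = m then (ζ A).1.1 else (ζ A).2.1) *
      g (fun A => if (lev A : ℕ) = m then (ζ A).1.2 else (ζ A).2.2)
      ∂(iid ((lam μ μ' e e' c).prod (μ.prod μ'))) = ∫ z, H z ∂(Measure.infinitePi ν) := by
    have q : Measure.infinitePi ν = (iid ((lam μ μ' e e' c).prod (μ.prod μ'))).map
      (fun ζ A => if (lev A : ℕ) = m then (ζ A).1 else (ζ A).2) := by
      rw [s1]
      congr 1
      funext A
      exact (s2 A).symm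
    rw [q, integral_map mm.aemeasurable mH.aestronglyMeasurable]
    congr 1
    funext ζ
    simp only [hH]
    congr 2
    · funext A
      split_ifs <;> rfl
    · funext A
      split_ifs <;> rfl
  have s4 : ∫ z, H z ∂(Measure.infinitePi ν) = ∫ z, H z ∂(Measure.infinitePi ν') := by
    refine integral_congr_depOn ν ν' (D ∪ D') (fun A hA => ?_) mH dH
    simp only [hν, hν', hR, Finset.mem_filter, hA, true_and]
  -- step 3
  set δ : Idx ℕ → X × Y → ℝ≥0∞ := fun A =>
    if A ∈ R then fun z => ENNReal.ofReal (1 + c * (e z.1 * e' z.2)) else fun _ => 1 with hδdef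
  have hδ : ∀ A, Measurable (δ A) := by
    intro A
    simp only [hδdef]
    split_ifs
    · exact measurable_dens me me'
    · exact measurable_const
  have s5 : Measure.infinitePi ν' =
      (iid (μ.prod μ')).withDensity (fun z => ∏ A ∈ R, δ A (z A)) := by
    refine infinitePi_dens (fun _ => μ.prod μ') ν' R δ hδ (fun A => ?_) (fun A hA => ?_)
    · simp only [hν', hδdef]
      split_ifs
      · rfl
      · exact withDensity_one.symm
    · simp only [hδdef, hA, if_false]
  have mδ : Measurable (fun z : Idx ℕ → X × Y => ∏ A ∈ R, δ A (z A)) :=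
    Finset.measurable_prod _ fun A _ => (hδ A).comp (measurable_pi_apply A)
  have s6 : ∀ z : Idx ℕ → X × Y, (∏ A ∈ R, δ A (z A)).toReal =
      ∑ S ∈ R.powerset, ∏ A ∈ S, (c * (e (z A).1 * e' (z A).2)) := by
    intro z
    rw [ENNReal.toReal_prod, ← Finset.prod_one_add]
    refine Finset.prod_congr rfl fun A hA => ?_
    simp only [hδdef, hA, if_true]
    exact ENNReal.toReal_ofReal (dens_nonneg be be' hc hc' _ _)
  have s7 : ∫ z, H z ∂(Measure.infinitePi ν') =
      ∫ z, (∑ S ∈ R.powerset, ∏ A ∈ S, (c * (e (z A).1 * e' (z A).2))) * H z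
        ∂(iid (μ.prod μ')) := by
    rw [s5, integral_withDensity_eq_integral_toReal_smul mδ]
    · congr 1
      funext z
      rw [s6 z, smul_eq_mul]
    · refine Filter.Eventually.of_forall fun z => ?_
      refine ENNReal.prod_lt_top fun A hA => ?_
      simp only [hδdef, hA, if_true]
      exact ENNReal.ofReal_lt_top
  rw [s3, s4, s7]
  simp only [Finset.sum_mul]
  have b1 : ∀ (S : Finset (Idx ℕ)) (x : Idx ℕ → X), |f x * ∏ B ∈ S, e (x B)| ≤ M := by
    intro S x
    rw [abs_mul, Finset.abs_prod]
    have : ∏ B ∈ S, |e (x B)| ≤ 1 :=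
      Finset.prod_le_one (fun _ _ => abs_nonneg _) fun B _ => be _
    calc |f x| * ∏ B ∈ S, |e (x B)| ≤ |f x| * 1 :=
          mul_le_mul_of_nonneg_left this (abs_nonneg _)
      _ ≤ M := by rw [mul_one]; exact hM x
  have b2 : ∀ (S : Finset (Idx ℕ)) (y : Idx ℕ → Y), |g y * ∏ B ∈ S, e' (y B)| ≤ M' := by
    intro S y
    rw [abs_mul, Finset.abs_prod]
    have : ∏ B ∈ S, |e' (y B)| ≤ 1 :=
      Finset.prod_le_one (fun _ _ => abs_nonneg _) fun B _ => be' _
    calc |g y| * ∏ B ∈ S, |e' (y B)| ≤ |g y| * 1 :=
          mul_le_mul_of_nonneg_left this (abs_nonneg _)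
      _ ≤ M' := by rw [mul_one]; exact hM' y
  have m1 : ∀ S : Finset (Idx ℕ), Measurable (fun x : Idx ℕ → X => f x * ∏ B ∈ S, e (x B)) :=
    fun S => mf.mul (Finset.measurable_prod _ fun B _ => me.comp (measurable_pi_apply B))
  have m2 : ∀ S : Finset (Idx ℕ), Measurable (fun y : Idx ℕ → Y => g y * ∏ B ∈ S, e' (y B)) :=
    fun S => mg.mul (Finset.measurable_prod _ fun B _ => me'.comp (measurable_pi_apply B))
  have e1 : ∀ (S : Finset (Idx ℕ)) (z : Idx ℕ → X × Y),
      (∏ A ∈ S, (c * (e (z A).1 * e' (z A).2))) * H z =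
      c ^ S.card * ((fun x : Idx ℕ → X => f x * ∏ B ∈ S, e (x B)) (fun A => (z A).1) *
        (fun y : Idx ℕ → Y => g y * ∏ B ∈ S, e' (y B)) (fun A => (z A).2)) := by
    intro S z
    simp only [hH]
    rw [Finset.prod_mul_distrib, Finset.prod_mul_distrib, Finset.prod_const]
    ring
  simp only [e1]
  have mfst : Measurable (fun (z : Idx ℕ → X × Y) (A : Idx ℕ) => (z A).1) :=
    measurable_pi_lambda _ fun A => measurable_fst.comp (measurable_pi_apply A)
  have msnd : Measurable (fun (z : Idx ℕ → X × Y) (A : Idx ℕ) => (z A).2) :=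
    measurable_pi_lambda _ fun A => measurable_snd.comp (measurable_pi_apply A)
  rw [integral_finset_sum]
  · refine Finset.sum_congr rfl fun S _ => ?_
    rw [integral_const_mul]
    congr 1
    rw [← integral_prod_mul, ← iid_map_unzip, integral_map measurable_unzip.aemeasurable]
    exact (((m1 S).comp measurable_fst).mul ((m2 S).comp measurable_snd)).aestronglyMeasurable
  · intro S _
    refine (integrable_of_bdd _ (((m1 S).comp mfst).mul ((m2 S).comp msnd)) (M := M * M')
      fun z => ?_).const_mul _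
    simp only [Function.comp_apply, Pi.mul_apply]
    rw [abs_mul]
    exact mul_le_mul (b1 S _) (b2 S _) (abs_nonneg _) ((abs_nonneg _).trans (b1 S
      (fun A => (z A).1)))

end Lam

/-- mean zero factors kill functions of the other coordinates -/
lemma integral_vanish (μ : Measure X) [IsProbabilityMeasure μ] {e : X → ℝ} (me : Measurable e)
    (ze : ∫ x, e x ∂μ = 0) (D : Finset (Idx ℕ)) {f : (Idx ℕ → X) → ℝ} (mf : Measurable f)
    (df : DepOn D f) (S : Finset (Idx ℕ)) {B : Idx ℕ} (hB : B ∈ S) (hBD : B ∉ D) :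
    ∫ x, f x * ∏ C ∈ S, e (x C) ∂(iid μ) = 0 := by
  classical
  obtain ⟨z0⟩ : Nonempty (Idx ℕ → X) := nonempty_of_isProbabilityMeasure (iid μ)
  set D1 : Finset (Idx ℕ) := D ∪ S.erase B with hD1
  have hBD1 : B ∉ D1 := by
    simp [hD1, hBD]
  set g : (D1 → X) → (Idx ℕ → X) := fun w i => if hi : i ∈ D1 then w ⟨i, hi⟩ else z0 i with hg
  have mg : Measurable g := by
    refine measurable_pi_lambda _ fun i => ?_
    by_cases hi : i ∈ D1
    · simp only [hg, hi, dif_pos]
      exact measurable_pi_apply _
    · simp only [hg, hi, dif_neg, not_false_eq_true]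
      exact measurable_const
  have hind : iIndepFun (fun (i : Idx ℕ) (x : Idx ℕ → X) => x i) (iid μ) :=
    iIndepFun_infinitePi (P := fun _ : Idx ℕ => μ) (X := fun _ x => x) fun _ => measurable_id
  have h2 := hind.indepFun_finset D1 {B} (by simpa using hBD1) fun i => measurable_pi_apply i
  set F : (D1 → X) → ℝ := fun w => f (g w) * ∏ C ∈ S.erase B, e (g w C) with hF
  have mF : Measurable F :=
    (mf.comp mg).mul (Finset.measurable_prod _ fun C _ =>
      me.comp ((measurable_pi_apply C).comp mg))
  set G : (({B} : Finset (Idx ℕ)) → X) → ℝ := fun w => e (w ⟨B, Finset.mem_singleton_self B⟩)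
    with hG
  have mG : Measurable G := me.comp (measurable_pi_apply _)
  have h3 := h2.comp mF mG
  have h4 := h3.integral_fun_mul_eq_mul_integral
    (by
      refine Measurable.aestronglyMeasurable (mF.comp ?_)
      exact measurable_pi_lambda _ fun i => measurable_pi_apply _)
    (by
      refine Measurable.aestronglyMeasurable (mG.comp ?_)
      exact measurable_pi_lambda _ fun i => measurable_pi_apply _)
  have e1 : ∀ x : Idx ℕ → X, f x * ∏ C ∈ S, e (x C) =
      F (fun i : D1 => x i) * G (fun i : ({B} : Finset (Idx ℕ)) => x i) := by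
    intro x
    have c1 : f (g fun i : D1 => x i) = f x := by
      refine df _ _ fun C hC => ?_
      have : C ∈ D1 := Finset.mem_union_left _ hC
      simp [hg, this]
    have c2 : ∏ C ∈ S.erase B, e (g (fun i : D1 => x i) C) = ∏ C ∈ S.erase B, e (x C) := by
      refine Finset.prod_congr rfl fun C hC => ?_
      have : C ∈ D1 := Finset.mem_union_right _ hC
      simp [hg, this]
    simp only [hF, hG]
    rw [c1, c2, ← Finset.mul_prod_erase S _ hB]
    ring
  simp only [e1]
  have h5 : ∫ x : Idx ℕ → X, G (fun i : ({B} : Finset (Idx ℕ)) => x i) ∂(iid μ) = 0 := by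
    have q : (iid μ).map (fun x => x B) = μ := Measure.infinitePi_map_eval (fun _ : Idx ℕ => μ) B
    have q2 : ∫ x, e x ∂((iid μ).map (fun x => x B)) = 0 := by
      rw [q]
      exact ze
    rw [integral_map (measurable_pi_apply _).aemeasurable me.aestronglyMeasurable] at q2
    exact q2
  have h6 : ∫ x : Idx ℕ → X, F (fun i : D1 => x i) *
      G (fun i : ({B} : Finset (Idx ℕ)) => x i) ∂(iid μ) =
      (∫ x : Idx ℕ → X, F (fun i : D1 => x i) ∂(iid μ)) *
      ∫ x : Idx ℕ → X, G (fun i : ({B} : Finset (Idx ℕ)) => x i) ∂(iid μ) := h4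
  rw [h6, h5, mul_zero]

end Pool.Agent.R130.Theon
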