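import Pool.Agent.R130.Theon.UCaux
import Pool.Agent.R130.Theon.Glue
import Pool.Agent.R130.Theon.Indep

/-!
# Lemma U: independence of the array from the levels `≤ ℓ` implies `UCouple[ℓ]`
-/

open MeasureTheory ProbabilityTheory

namespace Pool.Agent.R130.Theon

theorem uCouple_of_indep {L : FirstOrder.Language.{0, 0}} [L.IsRelational]
    [Finite (Σ n, L.Relations n)] (T : L.Theory) {X : Type} [MeasurableSpace X]
    [StandardBorelSpace X] (μ : Measure X) [IsProbabilityMeasure μ] (N : EucStr L X) (ℓ : ℕ)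
    (h : IndepFun N.arr (fun θ (A : {A : Idx ℕ // (lev A : ℕ) ≤ ℓ}) => θ A) (iid μ)) :
    UCouple T (N.law μ) ℓ :=
  uCouple_core
    (fun L₁ L₂ _ _ X₁ X₂ _ _ _ _ μ₁ μ₂ _ _ N₁ N₂ ρ _ h₁ h₂ hρ =>
      exists_gluing μ₁ μ₂ N₁ N₂ ρ h₁ h₂ hρ)
    (fun X Y _ _ μ _ γ _ h₁ hγ ℓ => indep_levels μ γ h₁ hγ ℓ) T μ N ℓ h

end Pool.Agent.R130.Theon
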