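import Pool.Agent.R130.Theon.GCS
import Pool.Agent.R130.Theon.UC

/-!
# The rank theorem (MP_ae8f8e_co)

A limit object that is uniquely coupleable with every member of `UCouple[ℓ]` has rank at most `ℓ`.
-/

open MeasureTheory ProbabilityTheory

namespace Pool.Agent.R130.Theon

namespace RankD

section PartA

/-! ### Octahedral products -/

lemma oct_mul {Z : Type} [MeasurableSpace Z] (E : Act Z) (l : List (ℕ × ℕ)) (f g : Z → ℝ) :
    oct E l (fun z => f z * g z) = fun z => oct E l f z * oct E l g z := by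
  induction l generalizing f g with
  | nil => rfl
  | cons p l ih =>
    simp only [oct]
    rw [← ih]
    congr 1
    funext z
    ring

lemma oct_comp {Z Z' : Type} [MeasurableSpace Z] [MeasurableSpace Z'] (E : Act Z) (E' : Act Z')
    (π : Z → Z') (hπ : ∀ σ z, π (E.T σ z) = E'.T σ (π z)) (l : List (ℕ × ℕ)) (g : Z' → ℝ) :
    oct E l (fun z => g (π z)) = fun z => oct E' l g (π z) := by
  induction l generalizing g with
  | nil => rfl
  | cons p l ih =>
    simp only [oct]
    rw [← ih]
    congr 1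
    funext z
    rw [hπ]

lemma measurable_oct {Z : Type} [MeasurableSpace Z] (E : Act Z) (l : List (ℕ × ℕ)) (f : Z → ℝ)
    (hf : Measurable f) : Measurable (oct E l f) := by
  induction l generalizing f with
  | nil => exact hf
  | cons p l ih => exact ih _ (hf.mul (hf.comp (E.meas _)))

lemma bdd_oct {Z : Type} [MeasurableSpace Z] (E : Act Z) (l : List (ℕ × ℕ)) (f : Z → ℝ)
    (hf : ∃ M, ∀ z, |f z| ≤ M) : ∃ M, ∀ z, |oct E l f z| ≤ M := by
  induction l generalizing f with
  | nil => exact hf
  | cons p l ih =>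
    obtain ⟨M, hM⟩ := hf
    refine ih _ ⟨M * M, fun z => ?_⟩
    rw [abs_mul]
    exact mul_le_mul (hM _) (hM _) (abs_nonneg _) ((abs_nonneg _).trans (hM z))

/-- the action on structures -/
def actS (L : FirstOrder.Language.{0, 0}) : Act (Str L) where
  T := permS
  meas := measurable_permS
  one := fun _ => rfl
  mul := fun _ _ _ => rfl

/-! ### Octahedral product of a single coordinate -/

/-- the coordinates in the octahedral product of a single coordinate -/
def octL : List (ℕ × ℕ) → Idx ℕ → List (Idx ℕ)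
  | [], A => [A]
  | p :: l, A => octL l A ++ octL l (Idx.map (Equiv.swap p.1 p.2).toEmbedding A)

variable {X : Type} [MeasurableSpace X]

lemma oct_coord (l : List (ℕ × ℕ)) (A : Idx ℕ) (e : X → ℝ) (θ : Idx ℕ → X) :
    oct (actC X) l (fun θ => e (θ A)) θ = ((octL l A).map fun B => e (θ B)).prod := by
  induction l generalizing A with
  | nil => simp [oct, octL]
  | cons p l ih =>
    simp only [oct, octL, List.map_append, List.prod_append]
    rw [oct_mul]
    simp only
    rw [← ih A, ← ih (Idx.map (Equiv.swap p.1 p.2).toEmbedding A)]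
    rfl

lemma mem_octL (l : List (ℕ × ℕ)) (A B : Idx ℕ) (hB : B ∈ octL l A) (v : ℕ)
    (hv1 : v ∉ l.map Prod.fst) (hv2 : v ∉ l.map Prod.snd) : v ∈ B.1 ↔ v ∈ A.1 := by
  induction l generalizing A with
  | nil =>
    simp only [octL, List.mem_singleton] at hB
    rw [hB]
  | cons p l ih =>
    simp only [List.map_cons, List.mem_cons, not_or] at hv1 hv2
    simp only [octL, List.mem_append] at hB
    rcases hB with hB | hB
    · exact ih A hB hv1.2 hv2.2
    · rw [ih _ hB hv1.2 hv2.2]
      simp only [Idx.map, Finset.mem_map_equiv, Equiv.symm_swap]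
      rw [Equiv.swap_apply_of_ne_of_ne hv1.1 hv2.1]

lemma nodup_octL (l : List (ℕ × ℕ)) (A : Idx ℕ) (hnd : (l.map Prod.fst).Nodup)
    (hnd' : (l.map Prod.snd).Nodup) (h1 : ∀ p ∈ l, p.1 ∈ A.1) (h2 : ∀ p ∈ l, p.2 ∉ A.1) :
    (octL l A).Nodup := by
  induction l generalizing A with
  | nil => simp [octL]
  | cons p l ih =>
    simp only [List.map_cons, List.nodup_cons] at hnd hnd'
    have hp1 : p.1 ∈ A.1 := h1 p (by simp)
    have hp2 : p.2 ∉ A.1 := h2 p (by simp)
    have hfs : p.2 ∉ l.map Prod.fst := by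
      intro h
      obtain ⟨q, hq, hq2⟩ := List.mem_map.1 h
      exact hp2 (hq2 ▸ h1 q (by simp [hq]))
    have hne : p.1 ≠ p.2 := fun h => hp2 (h ▸ hp1)
    have hm : p.2 ∈ (Idx.map (Equiv.swap p.1 p.2).toEmbedding A).1 := by
      simp only [Idx.map, Finset.mem_map_equiv, Equiv.symm_swap, Equiv.swap_apply_right]
      exact hp1
    simp only [octL]
    refine List.Nodup.append (ih A hnd.2 hnd'.2 (fun q hq => h1 q (by simp [hq]))
      (fun q hq => h2 q (by simp [hq]))) (ih _ hnd.2 hnd'.2 ?_ ?_) ?_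
    · intro q hq
      simp only [Idx.map, Finset.mem_map_equiv, Equiv.symm_swap]
      rw [Equiv.swap_apply_of_ne_of_ne]
      · exact h1 q (by simp [hq])
      · rintro h
        exact hnd.1 (List.mem_map.2 ⟨q, hq, h⟩)
      · rintro h
        exact hp2 (h ▸ h1 q (by simp [hq]))
    · intro q hq
      simp only [Idx.map, Finset.mem_map_equiv, Equiv.symm_swap]
      rw [Equiv.swap_apply_of_ne_of_ne]
      · exact h2 q (by simp [hq])
      · rintro h
        exact h2 q (by simp [hq]) (h ▸ hp1)
      · rintro h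
        exact hnd'.1 (List.mem_map.2 ⟨q, hq, h⟩)
    · intro B hB1 hB2
      have a1 := mem_octL l A B hB1 p.2 hfs hnd'.1
      have a2 := mem_octL l _ B hB2 p.2 hfs hnd'.1
      exact hp2 (a1.1 (a2.2 hm))

lemma integral_list_prod (μ : Measure X) [IsProbabilityMeasure μ] (s : List (Idx ℕ))
    (hs : s.Nodup) (e : X → ℝ) (me : Measurable e) :
    ∫ θ, (s.map fun B => e (θ B)).prod ∂(iid μ) = (∫ x, e x ∂μ) ^ s.length := by
  have hinj : Function.Injective s.get := List.nodup_iff_injective_get.1 hs
  have h1 := Measure.map_infinitePi_infinitePi_of_inj (P := fun _ : Idx ℕ => μ) hinj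
  have h2 : ∀ θ : Idx ℕ → X, (s.map fun B => e (θ B)).prod =
      (fun y : Fin s.length → X => ∏ i, e (y i)) (fun i => θ (s.get i)) := by
    intro θ
    simp only
    rw [← List.prod_ofFn]
    congr 1
    apply List.ext_get
    · simp
    · intro n h1 h2
      simp
  simp_rw [h2]
  rw [← integral_map (μ := iid μ) (φ := fun (ω : Idx ℕ → X) i => ω (s.get i))
    (f := fun y : Fin s.length → X => ∏ i, e (y i)), h1, Measure.infinitePi_eq_pi]
  · rw [integral_fintype_prod_eq_prod (fun _ => e)]
    simp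
  · exact (measurable_pi_lambda _ fun i => measurable_pi_apply _).aemeasurable
  · exact (Finset.measurable_prod _ fun i _ =>
      me.comp (measurable_pi_apply i)).aestronglyMeasurable

lemma integral_oct_coord (μ : Measure X) [IsProbabilityMeasure μ] (l : List (ℕ × ℕ)) (A : Idx ℕ)
    (hnd : (l.map Prod.fst).Nodup)
    (hnd' : (l.map Prod.snd).Nodup) (h1 : ∀ p ∈ l, p.1 ∈ A.1) (h2 : ∀ p ∈ l, p.2 ∉ A.1)
    (e : X → ℝ) (me : Measurable e) (he : ∫ x, e x ∂μ = 0) :
    ∫ θ, oct (actC X) l (fun θ => e (θ A)) θ ∂(iid μ) = 0 := by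
  simp_rw [oct_coord]
  rw [integral_list_prod μ _ (nodup_octL l A hnd hnd' h1 h2) e me, he, zero_pow]
  intro h
  have : octL l A = [] := List.length_eq_zero_iff.1 h
  clear h he me e h1 h2 hnd hnd'
  induction l generalizing A with
  | nil => simp [octL] at this
  | cons p l ih =>
    simp only [octL, List.append_eq_nil_iff] at this
    exact ih A this.1

end PartA

section PartB

/-! ### The language with one relation symbol of arity m -/

/-- the language with one relation symbol, of arity `m` -/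
def langOne (m : ℕ) : FirstOrder.Language.{0, 0} := ⟨fun _ => Empty, fun n => PLift (n = m)⟩

instance (m : ℕ) : (langOne m).IsRelational := fun _ => (inferInstance : IsEmpty Empty)

instance (m : ℕ) : Subsingleton (Σ n, (langOne m).Relations n) := by
  constructor
  rintro ⟨n, ⟨h⟩⟩ ⟨n', ⟨h'⟩⟩
  subst h
  subst h'
  rfl

instance (m : ℕ) : Finite (Σ n, (langOne m).Relations n) := inferInstance

variable {L : FirstOrder.Language.{0, 0}} {X : Type} [MeasurableSpace X]

/-- the Euclidean structure given by a measurable set at the top coordinate -/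
def NU (m : ℕ) (U : Set X) (hU : MeasurableSet U) : EucStr (langOne m) X where
  peon := fun p => {x | ∃ h : (Finset.univ : Finset (Fin p.1)).Nonempty, x ⟨Finset.univ, h⟩ ∈ U}
  meas := fun p => by
    by_cases h : (Finset.univ : Finset (Fin p.1)).Nonempty
    · have : {x : Idx (Fin p.1) → X | ∃ h : (Finset.univ : Finset (Fin p.1)).Nonempty,
          x ⟨Finset.univ, h⟩ ∈ U} = (fun x => x ⟨Finset.univ, h⟩) ⁻¹' U := by
        ext x
        simp [h]
      rw [this]
      exact measurable_pi_apply _ hU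
    · have : {x : Idx (Fin p.1) → X | ∃ h : (Finset.univ : Finset (Fin p.1)).Nonempty,
          x ⟨Finset.univ, h⟩ ∈ U} = ∅ := by
        ext x
        simp [h]
      rw [this]
      exact MeasurableSet.empty

/-- the truth value of the relation of `NU` at an enumeration of `A` -/
lemma NU_arr (m : ℕ) (U : Set X) (hU : MeasurableSet U) (A : Idx ℕ) (hA : A.1.card = m)
    (θ : Idx ℕ → X) :
    (NU m U hU).arr θ ⟨m, ⟨rfl⟩⟩ (A.1.orderEmbOfFin hA) ↔ θ A ∈ U := by
  have hm : (Finset.univ : Finset (Fin m)).Nonempty := by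
    rw [← Finset.card_pos, Finset.card_univ, Fintype.card_fin, ← hA]
    exact A.2.card_pos
  have hA' : Idx.map ⟨A.1.orderEmbOfFin hA, (A.1.orderEmbOfFin hA).injective⟩
      (⟨Finset.univ, hm⟩ : Idx (Fin m)) = A := by
    apply Subtype.ext
    exact Finset.map_orderEmbOfFin_univ A.1 hA
  constructor
  · rintro ⟨h, h', hx⟩
    simp only at hx
    rw [hA'] at hx
    exact hx
  · intro h
    refine ⟨(A.1.orderEmbOfFin hA).injective, hm, ?_⟩
    simp only
    rw [hA']
    exact h

/-- A family of coordinates of high level is independent of the low levels. -/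
lemma indep_NU (μ : Measure X) [IsProbabilityMeasure μ] (m : ℕ) (U : Set X)
    (hU : MeasurableSet U) (ℓ : ℕ) (hm : ℓ < m) :
    IndepFun (NU m U hU).arr (fun θ (A : {A : Idx ℕ // (lev A : ℕ) ≤ ℓ}) => θ A) (iid μ) := by
  have h1 : iIndepFun (fun (A : Idx ℕ) (θ : Idx ℕ → X) => θ A) (iid μ) :=
    iIndepFun_infinitePi (P := fun _ : Idx ℕ => μ) (X := fun _ x => x) (fun _ => measurable_id)
  have h2 := indep_iSup_of_disjoint (m := fun A : Idx ℕ =>
      MeasurableSpace.comap (fun θ : Idx ℕ → X => θ A) inferInstance)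
      (fun A => (measurable_pi_apply A).comap_le) h1.iIndep
      (S := {A : Idx ℕ | (lev A : ℕ) = m}) (T := {A : Idx ℕ | (lev A : ℕ) ≤ ℓ}) (by
        rw [Set.disjoint_left]
        intro A h3 h4
        simp only [Set.mem_ofPred_eq] at h3 h4
        omega)
  rw [IndepFun_iff_Indep]
  refine indep_of_indep_of_le_left (indep_of_indep_of_le_right h2 ?_) ?_
  · rw [← measurable_iff_comap_le]
    refine @measurable_pi_lambda _ _ _ (_) _ _ fun A => ?_
    rw [measurable_iff_comap_le]
    exact le_iSup₂_of_le A.1 A.2 le_rfl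
  · rw [← measurable_iff_comap_le]
    refine @measurable_pi_lambda _ _ _ (_) _ _ fun p => ?_
    refine @measurable_pi_lambda _ _ _ (_) _ _ fun a => ?_
    obtain ⟨n, ⟨hn⟩⟩ := p
    by_cases h : Function.Injective a ∧ (Finset.univ : Finset (Fin n)).Nonempty
    · have h5 : (fun θ : Idx ℕ → X => (NU m U hU).arr θ ⟨n, ⟨hn⟩⟩ a) =
          fun θ => θ (Idx.map ⟨a, h.1⟩ ⟨Finset.univ, h.2⟩) ∈ U := by
        funext θ
        simp only [EucStr.arr, NU, Set.mem_ofPred_eq]
        simp [h.1, h.2]
      rw [h5]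
      have h6 : Measurable[⨆ A ∈ {A : Idx ℕ | (lev A : ℕ) = m},
          MeasurableSpace.comap (fun θ : Idx ℕ → X => θ A) inferInstance]
          (fun θ : Idx ℕ → X => θ (Idx.map ⟨a, h.1⟩ ⟨Finset.univ, h.2⟩)) := by
        rw [measurable_iff_comap_le]
        refine le_iSup₂_of_le (Idx.map ⟨a, h.1⟩ ⟨Finset.univ, h.2⟩) ?_ le_rfl
        simp only [Set.mem_ofPred_eq, lev, Idx.map, Finset.card_map, Finset.card_univ,
          Fintype.card_fin, PNat.mk_coe]
        exact hn
      exact @measurableSet_setOfPred _ (_) _ |>.1 (h6 hU)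
    · have h5 : (fun θ : Idx ℕ → X => (NU m U hU).arr θ ⟨n, ⟨hn⟩⟩ a) = fun _ => False := by
        funext θ
        simp only [EucStr.arr, NU, Set.mem_ofPred_eq]
        apply propext
        constructor
        · rintro ⟨h7, h8, -⟩
          exact h ⟨h7, h8⟩
        · exact False.elim
      rw [h5]
      exact @measurable_const _ _ (_) (_) _

end PartB

section PartC

variable {L L' : FirstOrder.Language.{0, 0}} {X : Type} [MeasurableSpace X]

/-! ### The combined structure and the coupling -/

/-- the combined Euclidean structure over the same coordinate space -/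
def comb2 (N : EucStr L X) (N' : EucStr L' X) : EucStr (L.sum L') X where
  peon := fun p => match p with
    | ⟨n, Sum.inl r⟩ => N.peon ⟨n, r⟩
    | ⟨n, Sum.inr r⟩ => N'.peon ⟨n, r⟩
  meas := fun p => match p with
    | ⟨n, Sum.inl r⟩ => N.meas ⟨n, r⟩
    | ⟨n, Sum.inr r⟩ => N'.meas ⟨n, r⟩

lemma comb2_arr (N : EucStr L X) (N' : EucStr L' X) (θ : Idx ℕ → X) :
    (comb2 N N').arr θ = join (N.arr θ, N'.arr θ) := by
  funext p a
  rcases p with ⟨n, r | r⟩ <;> rfl

lemma models_union [L.IsRelational] [L'.IsRelational] (T : L.Theory) (T' : L'.Theory)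
    (K : Str (L.sum L')) (h1 : (redL K).Models T) (h2 : (redR K).Models T') :
    K.Models (unionTheory T T') := by
  unfold Str.Models unionTheory at *
  let s0 : (L.sum L').Structure ℕ := K.toStructure
  let s1 : L.Structure ℕ := (redL K).toStructure
  let s2 : L'.Structure ℕ := (redR K).toStructure
  have e1 : (FirstOrder.Language.LHom.sumInl : L →ᴸ L.sum L').IsExpansionOn ℕ :=
    ⟨fun f => isEmptyElim f, fun _ _ => rfl⟩
  have e2 : (FirstOrder.Language.LHom.sumInr : L' →ᴸ L.sum L').IsExpansionOn ℕ :=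
    ⟨fun f => isEmptyElim f, fun _ _ => rfl⟩
  rw [FirstOrder.Language.Theory.model_union_iff]
  exact ⟨(FirstOrder.Language.LHom.onTheory_model _ T).2 h1,
    (FirstOrder.Language.LHom.onTheory_model _ T').2 h2⟩

lemma indep_of_uc [L.IsRelational] [L'.IsRelational] [StandardBorelSpace X] (T : L.Theory)
    (T' : L'.Theory) (μ : Measure X) [IsProbabilityMeasure μ] (N : EucStr L X)
    (N' : EucStr L' X) (hN : N.IsTon μ T) (hN' : N'.IsTon μ T')
    (h : UniquelyCoupleable T T' (N.law μ) (N'.law μ)) : IndepFun N.arr N'.arr (iid μ) := by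
  have e1 : (redL ∘ (comb2 N N').arr : (Idx ℕ → X) → Str L) = N.arr := by
    funext θ
    simp only [Function.comp, comb2_arr, redL_join]
  have e2 : (redR ∘ (comb2 N N').arr : (Idx ℕ → X) → Str L') = N'.arr := by
    funext θ
    simp only [Function.comp, comb2_arr, redR_join]
  have h1 : IsCoupling T T' (N.law μ) (N'.law μ) ((comb2 N N').law μ) := by
    refine ⟨⟨X, inferInstance, inferInstance, μ, inferInstance, comb2 N N', ?_, rfl⟩, ?_, ?_⟩
    · filter_upwards [hN, hN'] with θ h1 h2
      rw [comb2_arr]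
      exact models_union T T' _ h1 h2
    · rw [EucStr.law, Measure.map_map measurable_redL (comb2 N N').measurable_arr, e1]
      rfl
    · rw [EucStr.law, Measure.map_map measurable_redR (comb2 N N').measurable_arr, e2]
      rfl
  have h2 := h _ h1
  rw [indepFun_iff_map_prod_eq_prod_map_map N.measurable_arr.aemeasurable
    N'.measurable_arr.aemeasurable]
  have h3 : ((comb2 N N').law μ).map (fun K => (redL K, redR K)) =
      (iid μ).map (fun θ => (N.arr θ, N'.arr θ)) := by
    rw [EucStr.law, Measure.map_map (measurable_redL.prodMk measurable_redR)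
      (comb2 N N').measurable_arr]
    have : ((fun K : Str (L.sum L') => (redL K, redR K)) ∘ (comb2 N N').arr) =
        fun θ => (N.arr θ, N'.arr θ) := by
      funext θ
      simp only [Function.comp, comb2_arr, redL_join, redR_join]
    rw [this]
  have h4 : (indepCoupling (N.law μ) (N'.law μ)).map (fun K => (redL K, redR K)) =
      (N.law μ).prod (N'.law μ) := by
    rw [indepCoupling, Measure.map_map (measurable_redL.prodMk measurable_redR) measurable_join]
    have : ((fun K : Str (L.sum L') => (redL K, redR K)) ∘ join) = id := by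
      funext K
      rfl
    rw [this, Measure.map_id]
  rw [← h3, h2, h4]
  rfl

/-! ### The key vanishing integral -/

/-- indicator -/
noncomputable def ind (U : Set X) (x : X) : ℝ := U.indicator (fun _ => (1 : ℝ)) x

lemma measurable_ind {U : Set X} (hU : MeasurableSet U) : Measurable (ind U : X → ℝ) :=
  measurable_const.indicator hU

omit [MeasurableSpace X] in
lemma ind_bdd (U : Set X) (x : X) : |ind U x| ≤ 1 := by
  unfold ind
  by_cases h : x ∈ U
  · simp [h]
  · simp [h]

lemma integral_ind (μ : Measure X) [IsProbabilityMeasure μ] {U : Set X} (hU : MeasurableSet U) :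
    ∫ x, ind U x ∂μ = μ.real U := by
  unfold ind
  rw [integral_indicator hU]
  simp

open Classical in
/-- the truth value of `p` at `(0, 1, …, k - 1)` -/
noncomputable def tv (p : Σ n, L.Relations n) (K : Str L) : ℝ :=
  if K p Fin.val then 1 else 0

lemma measurable_tv (p : Σ n, L.Relations n) : Measurable (tv p : Str L → ℝ) := by
  have h1 : MeasurableSet {K : Str L | K p Fin.val} := by
    have : Measurable fun K : Str L => K p Fin.val :=
      (measurable_pi_apply _).comp (measurable_pi_apply p)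
    exact measurableSet_setOfPred.2 this
  unfold tv
  exact Measurable.ite h1 measurable_const measurable_const

lemma tv_bdd (p : Σ n, L.Relations n) (K : Str L) : |tv p K| ≤ 1 := by
  unfold tv
  split_ifs <;> simp

/-- the embedding of the indices -/
def im (k : ℕ) (A : Idx (Fin k)) : Idx ℕ := Idx.map Fin.valEmbedding A

lemma mem_im {k : ℕ} (A : Idx (Fin k)) (v : ℕ) : v ∈ (im k A).1 ↔ ∃ i ∈ A.1, (i : ℕ) = v := by
  simp [im, Idx.map]

lemma im_lt {k : ℕ} (A : Idx (Fin k)) {v : ℕ} (hv : v ∈ (im k A).1) : v < k := by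
  obtain ⟨i, -, rfl⟩ := (mem_im A v).1 hv
  exact i.2

lemma im_fix {k : ℕ} (A : Idx (Fin k)) {σ : Equiv.Perm ℕ} (hσ : ∀ w ∈ (im k A).1, σ w = w) :
    Idx.map σ.toEmbedding (im k A) = im k A := by
  apply Subtype.ext
  ext x
  simp only [Idx.map, Finset.mem_map_equiv]
  constructor
  · intro h
    have := hσ _ h
    rw [Equiv.apply_symm_apply] at this
    rw [this]
    exact h
  · intro h
    have h1 := hσ _ h
    have : σ.symm x = x := by
      rw [Equiv.symm_apply_eq]
      exact h1.symm
    rw [this]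
    exact h

lemma key_gcs (μ : Measure X) [IsProbabilityMeasure μ] (N : EucStr L X) (ℓ : ℕ)
    (hind : ∀ (m : ℕ) (U : Set X) (hU : MeasurableSet U), ℓ < m →
      IndepFun N.arr (NU m U hU).arr (iid μ))
    (p : Σ n, L.Relations n) (A₀ : Idx (Fin p.1)) (hA₀ : ℓ < A₀.1.card) (U : Set X)
    (hU : MeasurableSet U) (D : Idx (Fin p.1) → Set X) (hD : ∀ B, MeasurableSet (D B))
    (G : Finset (Idx (Fin p.1))) (hG : ∀ B ∈ G, ¬ A₀.1 ⊆ B.1) :
    ∫ θ, (tv p (N.arr θ) * (ind U (θ (im p.1 A₀)) - μ.real U)) *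
      ∏ B ∈ G, ind (D B) (θ (im p.1 B)) ∂(iid μ) = 0 := by
  classical
  have hcard : (im p.1 A₀).1.card = A₀.1.card := by simp [im, Idx.map]
  set l : List (ℕ × ℕ) := (im p.1 A₀).1.toList.map (fun v => (v, v + p.1)) with hl
  have hl1 : l.map Prod.fst = (im p.1 A₀).1.toList := by
    rw [hl, List.map_map]
    have : (Prod.fst ∘ fun v : ℕ => (v, v + p.1)) = id := rfl
    rw [this, List.map_id]
  have hl2 : l.map Prod.snd = (im p.1 A₀).1.toList.map (fun v => v + p.1) := by
    rw [hl, List.map_map]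
    rfl
  have hmem : ∀ q ∈ l, q.1 ∈ (im p.1 A₀).1 ∧ q.2 = q.1 + p.1 := by
    intro q hq
    rw [hl, List.mem_map] at hq
    obtain ⟨v, hv, rfl⟩ := hq
    exact ⟨Finset.mem_toList.1 hv, rfl⟩
  have hnd : (l.map Prod.fst).Nodup := by
    rw [hl1]
    exact Finset.nodup_toList _
  have hnd' : (l.map Prod.snd).Nodup := by
    rw [hl2]
    exact (Finset.nodup_toList _).map (add_left_injective _)
  have hc : ∀ B : Idx (Fin p.1), ∃ v, B ∈ G → v ∈ (im p.1 A₀).1 ∧ v ∉ (im p.1 B).1 := by
    intro B
    by_cases hB : B ∈ G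
    · obtain ⟨i, hi, hi'⟩ := Finset.not_subset.1 (hG B hB)
      refine ⟨i, fun _ => ⟨(mem_im A₀ _).2 ⟨i, hi, rfl⟩, fun h => ?_⟩⟩
      obtain ⟨j, hj, hj'⟩ := (mem_im B _).1 h
      exact hi' (Fin.ext hj' ▸ hj)
    · exact ⟨0, fun h => absurd h hB⟩
  choose c hc using hc
  clear_value l
  obtain ⟨u, hu⟩ : ∃ u : ℕ → (Idx ℕ → X) → ℝ, u = fun v θ =>
      ∏ B ∈ G.filter (fun B => c B = v), ind (D B) (θ (im p.1 B)) := ⟨_, rfl⟩
  have hprod : ∀ θ : Idx ℕ → X, (l.map fun q => u q.1 θ).prod =
      ∏ B ∈ G, ind (D B) (θ (im p.1 B)) := by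
    intro θ
    have h1 : (l.map fun q => u q.1 θ) = (l.map Prod.fst).map (fun v => u v θ) := by
      rw [List.map_map]
      rfl
    rw [h1, hl1, Finset.prod_map_toList, hu]
    exact Finset.prod_fiberwise_of_maps_to (fun B hB => (hc B hB).1) _
  simp_rw [← hprod]
  refine gcs (actC X) (iid μ) (fun σ => iid_permC μ σ) (Finset.range p.1) l hnd hnd' ?_ ?_
    (fun θ => tv p (N.arr θ) * (ind U (θ (im p.1 A₀)) - μ.real U)) ?_ ?_ ?_ u ?_ ?_ ?_ ?_
  · intro q hq
    exact Finset.mem_range.2 (im_lt A₀ (hmem q hq).1)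
  · intro q hq
    rw [(hmem q hq).2, Finset.mem_range]
    omega
  · exact ((measurable_tv p).comp N.measurable_arr).mul
      (((measurable_ind hU).comp (measurable_pi_apply _)).sub measurable_const)
  · refine ⟨1 * (1 + 1), fun θ => ?_⟩
    rw [abs_mul]
    refine mul_le_mul (tv_bdd _ _) ?_ (abs_nonneg _) zero_le_one
    refine (abs_sub _ _).trans (add_le_add (ind_bdd _ _) ?_)
    rw [abs_of_nonneg measureReal_nonneg]
    exact measureReal_le_one
  · intro σ hσ θ
    have h1 : N.arr ((actC X).T σ θ) p Fin.val = N.arr θ p Fin.val := by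
      change N.arr (permC σ θ) p Fin.val = N.arr θ p Fin.val
      rw [N.arr_permC]
      simp only [permS]
      congr 1
      funext i
      exact hσ _ (Finset.mem_range.2 i.2)
    have h2 : (actC X).T σ θ (im p.1 A₀) = θ (im p.1 A₀) := by
      change permC σ θ (im p.1 A₀) = θ (im p.1 A₀)
      simp only [permC]
      rw [im_fix]
      intro w hw
      exact hσ w (Finset.mem_range.2 (im_lt A₀ hw))
    simp only [tv, h1, h2]
  · intro q hq
    rw [hu]
    exact Finset.measurable_prod _ fun B _ =>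
      (measurable_ind (hD B)).comp (measurable_pi_apply _)
  · intro q hq
    refine ⟨1, fun θ => ?_⟩
    rw [hu, Finset.abs_prod]
    exact Finset.prod_le_one (fun B _ => abs_nonneg _) (fun B _ => ind_bdd _ _)
  · intro q hq σ hσ θ
    rw [hu]
    refine Finset.prod_congr rfl fun B hB => ?_
    rw [Finset.mem_filter] at hB
    have h2 : (actC X).T σ θ (im p.1 B) = θ (im p.1 B) := by
      change permC σ θ (im p.1 B) = θ (im p.1 B)
      simp only [permC]
      rw [im_fix]
      intro w hw
      refine hσ w (Finset.mem_erase.2 ⟨?_, Finset.mem_range.2 (im_lt B hw)⟩)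
      rintro rfl
      exact (hc B hB.1).2 (hB.2 ▸ hw)
    rw [h2]
  · rw [oct_mul]
    have h1 : oct (actC X) l (fun θ => tv p (N.arr θ)) =
        fun θ => oct (actS L) l (tv p) (N.arr θ) :=
      oct_comp (actC X) (actS L) N.arr (fun σ z => N.arr_permC σ z) l (tv p)
    set M := NU (im p.1 A₀).1.card U hU with hM
    have h2 : (fun θ : Idx ℕ → X => ind U (θ (im p.1 A₀)) - μ.real U) =
        fun θ => (fun K : Str (langOne (im p.1 A₀).1.card) =>
          (if K ⟨(im p.1 A₀).1.card, ⟨rfl⟩⟩ ((im p.1 A₀).1.orderEmbOfFin rfl) then (1 : ℝ) else 0)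
            - μ.real U) (M.arr θ) := by
      funext θ
      simp only
      congr 1
      have := NU_arr (im p.1 A₀).1.card U hU (im p.1 A₀) rfl θ
      by_cases h : θ (im p.1 A₀) ∈ U
      · rw [if_pos (this.2 h)]
        simp [ind, h]
      · rw [if_neg (fun h' => h (this.1 h'))]
        simp [ind, h]
    have h3 := oct_comp (actC X) (actS _) M.arr (fun σ z => M.arr_permC σ z) l
      (fun K : Str (langOne (im p.1 A₀).1.card) =>
          (if K ⟨(im p.1 A₀).1.card, ⟨rfl⟩⟩ ((im p.1 A₀).1.orderEmbOfFin rfl) then (1 : ℝ) else 0)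
            - μ.real U)
    rw [← h2] at h3
    have h4 : Measurable (fun K : Str (langOne (im p.1 A₀).1.card) =>
          (if K ⟨(im p.1 A₀).1.card, ⟨rfl⟩⟩ ((im p.1 A₀).1.orderEmbOfFin rfl) then (1 : ℝ) else 0)
            - μ.real U) := by
      refine Measurable.sub (Measurable.ite ?_ measurable_const measurable_const) measurable_const
      refine measurableSet_setOfPred.2 ?_
      exact (measurable_pi_apply (((im p.1 A₀).1.orderEmbOfFin rfl) : Fin _ → ℕ)).comp
        (measurable_pi_apply (⟨(im p.1 A₀).1.card, ⟨rfl⟩⟩ :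
          Σ n, (langOne (im p.1 A₀).1.card).Relations n))
    have h5 := (hind (im p.1 A₀).1.card U hU (by rw [hcard]; exact hA₀)).comp
      (measurable_oct (actS L) l (tv p) (measurable_tv p)) (measurable_oct (actS _) l _ h4)
    have h6 := h5.integral_fun_mul_eq_mul_integral
      ((measurable_oct (actS L) l (tv p) (measurable_tv p)).comp
        N.measurable_arr).aestronglyMeasurable
      ((measurable_oct (actS _) l _ h4).comp M.measurable_arr).aestronglyMeasurable
    have h7 : ∫ θ, oct (actC X) l (fun θ => ind U (θ (im p.1 A₀)) - μ.real U) θ ∂(iid μ) = 0 := by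
      refine integral_oct_coord μ l (im p.1 A₀) hnd hnd' (fun q hq => (hmem q hq).1) ?_
        (fun x => ind U x - μ.real U) ((measurable_ind hU).sub measurable_const) ?_
      · intro q hq h
        have := im_lt A₀ h
        rw [(hmem q hq).2] at this
        omega
      · rw [integral_sub, integral_ind μ hU]
        · simp
        · exact gcs_integrable μ _ (measurable_ind hU) ⟨1, ind_bdd U⟩
        · exact integrable_const _
    rw [h1, h3]
    simp only [Function.comp] at h6
    rw [h6]
    rw [h3] at h7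
    rw [h7, mul_zero]

end PartC

section PartD

variable {L L' : FirstOrder.Language.{0, 0}} {X : Type} [MeasurableSpace X]

lemma measurable_boxI {k : ℕ} (D : Idx (Fin k) → Set X) (hD : ∀ B, MeasurableSet (D B))
    (G : Finset (Idx (Fin k))) :
    Measurable (fun θ : Idx ℕ → X => ∏ B ∈ G, ind (D B) (θ (im k B))) :=
  Finset.measurable_prod _ fun B _ => (measurable_ind (hD B)).comp (measurable_pi_apply _)

omit [MeasurableSpace X] in
lemma bdd_ind_prod {ι : Type} (D : ι → Set X) (G : Finset ι) (x : ι → X) :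
    |∏ B ∈ G, ind (D B) (x B)| ≤ 1 := by
  rw [Finset.abs_prod]
  exact Finset.prod_le_one (fun B _ => abs_nonneg _) (fun B _ => ind_bdd _ _)

lemma box_iid (μ : Measure X) [IsProbabilityMeasure μ] (N : EucStr L X) (ℓ : ℕ)
    (hind : ∀ (m : ℕ) (U : Set X) (hU : MeasurableSet U), ℓ < m →
      IndepFun N.arr (NU m U hU).arr (iid μ))
    (p : Σ n, L.Relations n) (D : Idx (Fin p.1) → Set X) (hD : ∀ B, MeasurableSet (D B))
    (G : Finset (Idx (Fin p.1))) (hG : ∀ B ∈ G, B.1.card ≤ ℓ)
    (H : Finset (Idx (Fin p.1))) (hH : ∀ B ∈ H, ℓ < B.1.card) :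
    ∫ θ, tv p (N.arr θ) * ∏ B ∈ H ∪ G, ind (D B) (θ (im p.1 B)) ∂(iid μ) =
      (∏ B ∈ H, μ.real (D B)) *
        ∫ θ, tv p (N.arr θ) * ∏ B ∈ G, ind (D B) (θ (im p.1 B)) ∂(iid μ) := by
  classical
  revert hH
  refine Finset.induction_on_max_value (fun B : Idx (Fin p.1) => B.1.card) H ?_ ?_
  · intro _
    simp
  · intro a s ha hmax ih hH
    have hal : ℓ < a.1.card := hH a (Finset.mem_insert_self _ _)
    have ha' : a ∉ s ∪ G := by
      rw [Finset.mem_union, not_or]
      exact ⟨ha, fun h => absurd (hG a h) (not_le.2 hal)⟩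
    have key := key_gcs μ N ℓ hind p a hal (D a) (hD a) D hD (s ∪ G) (by
      intro B hB hsub
      rcases Finset.mem_union.1 hB with h | h
      · have h1 := hmax B h
        have h2 : a.1 = B.1 := Finset.eq_of_subset_of_card_le hsub h1
        exact ha (by rw [show a = B from Subtype.ext h2]; exact h)
      · exact absurd ((Finset.card_le_card hsub).trans (hG B h)) (not_le.2 hal))
    have mt : Measurable fun θ : Idx ℕ → X => tv p (N.arr θ) :=
      (measurable_tv p).comp N.measurable_arr
    have i1 : Integrable (fun θ : Idx ℕ → X => tv p (N.arr θ) *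
        (ind (D a) (θ (im p.1 a)) * ∏ B ∈ s ∪ G, ind (D B) (θ (im p.1 B)))) (iid μ) := by
      refine gcs_integrable _ _ (mt.mul (((measurable_ind (hD a)).comp
        (measurable_pi_apply _)).mul (measurable_boxI D hD _))) ⟨1 * (1 * 1), fun θ => ?_⟩
      rw [abs_mul, abs_mul]
      exact mul_le_mul (tv_bdd _ _) (mul_le_mul (ind_bdd _ _) (bdd_ind_prod D _
        (fun B => θ (im p.1 B))) (abs_nonneg _) zero_le_one) (by positivity) zero_le_one
    have i2 : Integrable (fun θ : Idx ℕ → X => μ.real (D a) * (tv p (N.arr θ) *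
        ∏ B ∈ s ∪ G, ind (D B) (θ (im p.1 B)))) (iid μ) := by
      refine Integrable.const_mul (gcs_integrable _ _ (mt.mul (measurable_boxI D hD _))
        ⟨1 * 1, fun θ => ?_⟩) _
      rw [Pi.mul_apply, abs_mul]
      exact mul_le_mul (tv_bdd _ _) (bdd_ind_prod D _
        (fun B => θ (im p.1 B))) (abs_nonneg _) zero_le_one
    have e1 : ∀ θ : Idx ℕ → X, (tv p (N.arr θ) * (ind (D a) (θ (im p.1 a)) - μ.real (D a))) *
        ∏ B ∈ s ∪ G, ind (D B) (θ (im p.1 B)) =
        tv p (N.arr θ) * (ind (D a) (θ (im p.1 a)) * ∏ B ∈ s ∪ G, ind (D B) (θ (im p.1 B))) -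
        μ.real (D a) * (tv p (N.arr θ) * ∏ B ∈ s ∪ G, ind (D B) (θ (im p.1 B))) := by
      intro θ
      ring
    simp_rw [e1] at key
    rw [integral_sub i1 i2, integral_const_mul,
      ih (fun B hB => hH B (Finset.mem_insert_of_mem hB))] at key
    rw [Finset.insert_union, Finset.prod_insert ha]
    simp_rw [Finset.prod_insert ha']
    linarith

/-! ### Transfer to the finite product -/

lemma map_idx_inj {k : ℕ} (a : Fin k → ℕ) (h : Function.Injective a) :
    Function.Injective (Idx.map (⟨a, h⟩ : Fin k ↪ ℕ)) := by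
  intro A B hAB
  apply Subtype.ext
  have := congrArg Subtype.val hAB
  exact Finset.map_injective _ this

lemma map_iid (μ : Measure X) [IsProbabilityMeasure μ] {k : ℕ} (a : Fin k → ℕ)
    (h : Function.Injective a) :
    (iid μ).map (fun (θ : Idx ℕ → X) (A : Idx (Fin k)) => θ (Idx.map ⟨a, h⟩ A)) =
      Measure.pi (fun _ : Idx (Fin k) => μ) := by
  have h1 := Measure.map_infinitePi_infinitePi_of_inj (P := fun _ : Idx ℕ => μ)
    (map_idx_inj a h)
  rw [← Measure.infinitePi_eq_pi]
  exact h1

omit [MeasurableSpace X] in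
lemma ind_pi {ι : Type} (D : ι → Set X) (G : Finset ι) (x : ι → X) :
    ∏ B ∈ G, ind (D B) (x B) = ({y : ι → X | ∀ B ∈ G, y B ∈ D B}).indicator
      (fun _ => (1 : ℝ)) x := by
  classical
  by_cases h : ∀ B ∈ G, x B ∈ D B
  · rw [Set.indicator_of_mem (show x ∈ {y : ι → X | ∀ B ∈ G, y B ∈ D B} from h)]
    refine Finset.prod_eq_one fun B hB => ?_
    simp [ind, h B hB]
  · rw [Set.indicator_of_notMem (show x ∉ {y : ι → X | ∀ B ∈ G, y B ∈ D B} from h)]
    push Not at h
    obtain ⟨B, hB, hB'⟩ := h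
    exact Finset.prod_eq_zero hB (by simp [ind, hB'])

lemma box_pi (μ : Measure X) [IsProbabilityMeasure μ] (N : EucStr L X) (ℓ : ℕ)
    (hind : ∀ (m : ℕ) (U : Set X) (hU : MeasurableSet U), ℓ < m →
      IndepFun N.arr (NU m U hU).arr (iid μ))
    (p : Σ n, L.Relations n) (D : Idx (Fin p.1) → Set X) (hD : ∀ B, MeasurableSet (D B))
    (H G : Finset (Idx (Fin p.1))) (hH : ∀ B ∈ H, ℓ < B.1.card)
    (hG : ∀ B ∈ G, B.1.card ≤ ℓ) (hHG : H ∪ G = Finset.univ) :
    ∫ x, ind (N.peon p) x * ∏ B, ind (D B) (x B) ∂(Measure.pi fun _ => μ) =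
      (∏ B ∈ H, μ.real (D B)) *
        ∫ x, ind (N.peon p) x * ∏ B ∈ G, ind (D B) (x B) ∂(Measure.pi fun _ => μ) := by
  have h1 := box_iid μ N ℓ hind p D hD G hG H hH
  have hmeas : Measurable (fun (θ : Idx ℕ → X) (A : Idx (Fin p.1)) => θ (im p.1 A)) :=
    measurable_pi_lambda _ fun A => measurable_pi_apply _
  have h2 : (iid μ).map (fun (θ : Idx ℕ → X) (A : Idx (Fin p.1)) => θ (im p.1 A)) =
      Measure.pi (fun _ => μ) := map_iid μ Fin.val Fin.val_injective
  have h3 : ∀ θ : Idx ℕ → X, tv p (N.arr θ) =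
      ind (N.peon p) ((fun (θ : Idx ℕ → X) (A : Idx (Fin p.1)) => θ (im p.1 A)) θ) := by
    intro θ
    have h4 : N.arr θ p Fin.val ↔ (fun A : Idx (Fin p.1) => θ (im p.1 A)) ∈ N.peon p := by
      constructor
      · rintro ⟨h, hx⟩
        exact hx
      · intro h
        exact ⟨Fin.val_injective, h⟩
    by_cases h : N.arr θ p Fin.val
    · simp only [tv, ind]
      rw [if_pos h, Set.indicator_of_mem (h4.1 h)]
    · simp only [tv, ind]
      rw [if_neg h, Set.indicator_of_notMem (fun h' => h (h4.2 h'))]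
  rw [← h2, integral_map hmeas.aemeasurable, integral_map hmeas.aemeasurable]
  · simp_rw [h3] at h1
    rw [hHG] at h1
    exact h1
  · exact ((measurable_ind (N.meas p)).mul (Finset.measurable_prod _ fun B _ =>
      (measurable_ind (hD B)).comp (measurable_pi_apply _))).aestronglyMeasurable
  · exact ((measurable_ind (N.meas p)).mul (Finset.measurable_prod _ fun B _ =>
      (measurable_ind (hD B)).comp (measurable_pi_apply _))).aestronglyMeasurable

end PartD

section PartE

variable {L L' : FirstOrder.Language.{0, 0}} {X : Type} [MeasurableSpace X]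

/-- the low coordinates of a finite family -/
def lowF (k ℓ : ℕ) (x : Idx (Fin k) → X) (A : {A : Idx (Fin k) // A.1.card ≤ ℓ}) : X := x A.1

lemma measurable_lowF (k ℓ : ℕ) :
    Measurable (lowF k ℓ : (Idx (Fin k) → X) → {A : Idx (Fin k) // A.1.card ≤ ℓ} → X) :=
  measurable_pi_lambda _ fun _ => measurable_pi_apply _

/-- the σ-algebra of the low coordinates -/
@[reducible]
def mlow (k ℓ : ℕ) : MeasurableSpace (Idx (Fin k) → X) :=
  MeasurableSpace.comap (lowF k ℓ) MeasurableSpace.pi

lemma measurableSet_bx {k : ℕ} (D : Idx (Fin k) → Set X) (hD : ∀ B, MeasurableSet (D B))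
    (G : Finset (Idx (Fin k))) : MeasurableSet {y : Idx (Fin k) → X | ∀ B ∈ G, y B ∈ D B} :=
  MeasurableSet.pi G.countable_toSet fun B _ => hD B

lemma setInt {k : ℕ} (ν : Measure (Idx (Fin k) → X)) (f : (Idx (Fin k) → X) → ℝ)
    (D : Idx (Fin k) → Set X) (hD : ∀ B, MeasurableSet (D B)) (G : Finset (Idx (Fin k))) :
    ∫ x in {y | ∀ B ∈ G, y B ∈ D B}, f x ∂ν = ∫ x, f x * ∏ B ∈ G, ind (D B) (x B) ∂ν := by
  rw [← integral_indicator (measurableSet_bx D hD G)]
  congr 1
  funext x
  rw [ind_pi D G x]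
  by_cases h : x ∈ {y : Idx (Fin k) → X | ∀ B ∈ G, y B ∈ D B}
  · rw [Set.indicator_of_mem h, Set.indicator_of_mem h, mul_one]
  · rw [Set.indicator_of_notMem h, Set.indicator_of_notMem h, mul_zero]

lemma exists_low (μ : Measure X) [IsProbabilityMeasure μ] (k ℓ : ℕ) (S : Set (Idx (Fin k) → X))
    (hS : MeasurableSet S)
    (hbox : ∀ (D : Idx (Fin k) → Set X) (_ : ∀ B, MeasurableSet (D B))
      (H G : Finset (Idx (Fin k))) (_ : ∀ B ∈ H, ℓ < B.1.card) (_ : ∀ B ∈ G, B.1.card ≤ ℓ)
      (_ : H ∪ G = Finset.univ),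
      ∫ x, ind S x * ∏ B, ind (D B) (x B) ∂(Measure.pi fun _ => μ) =
        (∏ B ∈ H, μ.real (D B)) *
          ∫ x, ind S x * ∏ B ∈ G, ind (D B) (x B) ∂(Measure.pi fun _ => μ)) :
    ∃ S' : Set (Idx (Fin k) → X), MeasurableSet S' ∧ CompatPeon {l : ℕ+ | (l : ℕ) ≤ ℓ} S' ∧
      ∀ᵐ x ∂(Measure.pi fun _ : Idx (Fin k) => μ), (x ∈ S ↔ x ∈ S') := by
  classical
  set ν : Measure (Idx (Fin k) → X) := Measure.pi fun _ => μ with hν
  obtain ⟨H, hH⟩ : ∃ H : Finset (Idx (Fin k)), H = Finset.univ.filter (fun B => ℓ < B.1.card) :=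
    ⟨_, rfl⟩
  obtain ⟨G, hG⟩ : ∃ G : Finset (Idx (Fin k)), G = Finset.univ.filter (fun B => B.1.card ≤ ℓ) :=
    ⟨_, rfl⟩
  have hH' : ∀ B ∈ H, ℓ < B.1.card := fun B hB => by
    rw [hH, Finset.mem_filter] at hB
    exact hB.2
  have hG' : ∀ B ∈ G, B.1.card ≤ ℓ := fun B hB => by
    rw [hG, Finset.mem_filter] at hB
    exact hB.2
  have hHG : H ∪ G = Finset.univ := by
    ext B
    simp only [hH, hG, Finset.mem_union, Finset.mem_filter, Finset.mem_univ, true_and, iff_true]
    exact lt_or_ge _ _
  have hdisj : Disjoint H G := by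
    rw [Finset.disjoint_left]
    intro B h1 h2
    exact absurd (hG' B h2) (not_le.2 (hH' B h1))
  have hle : mlow k ℓ ≤ (MeasurableSpace.pi : MeasurableSpace (Idx (Fin k) → X)) :=
    (measurable_lowF k ℓ).comap_le
  obtain ⟨h, hh⟩ : ∃ h : (Idx (Fin k) → X) → ℝ, h = ν[ind S | mlow k ℓ] := ⟨_, rfl⟩
  have iS : Integrable (ind S : (Idx (Fin k) → X) → ℝ) ν :=
    gcs_integrable ν _ (measurable_ind hS) ⟨1, ind_bdd S⟩
  have ih : Integrable h ν := by
    rw [hh]
    exact integrable_condExp
  have mh : Measurable[mlow k ℓ] h := by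
    rw [hh]
    exact stronglyMeasurable_condExp.measurable
  have key : ∀ s, MeasurableSet s → ∫ x in s, ind S x ∂ν = ∫ x in s, h x ∂ν := by
    intro s hs
    refine MeasurableSpace.induction_on_inter
      (C := fun s _ => ∫ x in s, ind S x ∂ν = ∫ x in s, h x ∂ν) generateFrom_pi.symm
      isPiSystem_pi ?_ ?_ ?_ ?_ s hs
    · simp
    · intro t ht
      obtain ⟨D, hD, rfl⟩ := ht
      have hD' : ∀ B, MeasurableSet (D B) := fun B => hD B trivial
      have e0 : (Set.univ.pi D) = {y : Idx (Fin k) → X | ∀ B ∈ Finset.univ, y B ∈ D B} := by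
        ext y
        simp
      rw [e0, setInt ν _ D hD', setInt ν _ D hD', hbox D hD' H G hH' hG' hHG]
      have e1 : ∫ x, h x * ∏ B, ind (D B) (x B) ∂ν =
          (∫ x, ∏ B ∈ H, ind (D B) (x B) ∂ν) * ∫ x, h x * ∏ B ∈ G, ind (D B) (x B) ∂ν := by
        have h1 : iIndepFun (fun (A : Idx (Fin k)) (x : Idx (Fin k) → X) => x A) ν :=
          iIndepFun_pi (μ := fun _ : Idx (Fin k) => μ) (X := fun _ x => x)
            (fun _ => aemeasurable_id)
        have h2 := indep_iSup_of_disjoint (m := fun A : Idx (Fin k) =>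
          MeasurableSpace.comap (fun x : Idx (Fin k) → X => x A) inferInstance)
          (fun A => (measurable_pi_apply A).comap_le) h1.iIndep
          (S := {A : Idx (Fin k) | ℓ < A.1.card}) (T := {A : Idx (Fin k) | A.1.card ≤ ℓ}) (by
            rw [Set.disjoint_left]
            intro A h3 h4
            exact absurd (show A.1.card ≤ ℓ from h4) (not_le.2 h3))
        have h3 : IndepFun (fun x : Idx (Fin k) → X => ∏ B ∈ H, ind (D B) (x B))
            (fun x => h x * ∏ B ∈ G, ind (D B) (x B)) ν := by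
          rw [IndepFun_iff_Indep]
          refine indep_of_indep_of_le_left (indep_of_indep_of_le_right h2 ?_) ?_
          · rw [← measurable_iff_comap_le]
            have hml2 : mlow k ℓ ≤ ⨆ A ∈ {A : Idx (Fin k) | A.1.card ≤ ℓ},
                MeasurableSpace.comap (fun x : Idx (Fin k) → X => x A) inferInstance := by
              rw [mlow, ← measurable_iff_comap_le]
              refine @measurable_pi_lambda _ _ _ (_) _ _ fun A => ?_
              rw [measurable_iff_comap_le]
              exact le_iSup₂_of_le A.1 A.2 le_rfl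
            refine Measurable.mul (mh.mono hml2 le_rfl)
              (Finset.measurable_prod _ fun B hB => (measurable_ind (hD' B)).comp ?_)
            rw [measurable_iff_comap_le]
            exact le_iSup₂_of_le B (hG' B hB) le_rfl
          · rw [← measurable_iff_comap_le]
            refine Finset.measurable_prod _ fun B hB => (measurable_ind (hD' B)).comp ?_
            rw [measurable_iff_comap_le]
            exact le_iSup₂_of_le B (hH' B hB) le_rfl
        have h4 := h3.integral_fun_mul_eq_mul_integral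
          (Finset.measurable_prod _ fun B _ =>
            (measurable_ind (hD' B)).comp (measurable_pi_apply _)).aestronglyMeasurable
          ((mh.mono hle le_rfl).mul (Finset.measurable_prod _ fun B _ =>
            (measurable_ind (hD' B)).comp (measurable_pi_apply _))).aestronglyMeasurable
        rw [← h4]
        congr 1
        funext x
        rw [← hHG, Finset.prod_union hdisj]
        ring
      have e2 : ∫ x, ∏ B ∈ H, ind (D B) (x B) ∂ν = ∏ B ∈ H, μ.real (D B) := by
        have h1 : ∀ x : Idx (Fin k) → X, ∏ B ∈ H, ind (D B) (x B) =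
            ∏ B, (fun (B : Idx (Fin k)) (t : X) => if B ∈ H then ind (D B) t else 1) B (x B) := by
          intro x
          simp only
          rw [Finset.prod_ite_mem, Finset.univ_inter]
        have h1' := integral_fintype_prod_eq_prod (μ := fun _ : Idx (Fin k) => μ)
          (fun (B : Idx (Fin k)) (t : X) => if B ∈ H then ind (D B) t else 1)
        rw [integral_congr_ae (ae_of_all _ h1)]
        refine h1'.trans ?_
        have h2 : ∀ B : Idx (Fin k), ∫ t, (if B ∈ H then ind (D B) t else 1) ∂μ =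
            if B ∈ H then μ.real (D B) else 1 := by
          intro B
          split_ifs
          · exact integral_ind μ (hD' B)
          · simp
        simp_rw [h2]
        rw [Finset.prod_ite_mem, Finset.univ_inter]
      have e3 : ∫ x, h x * ∏ B ∈ G, ind (D B) (x B) ∂ν =
          ∫ x, ind S x * ∏ B ∈ G, ind (D B) (x B) ∂ν := by
        rw [← setInt ν _ D hD', ← setInt ν _ D hD', hh]
        refine setIntegral_condExp hle iS ?_
        refine ⟨{w | ∀ (B : Idx (Fin k)) (hB : B ∈ G), w ⟨B, hG' B hB⟩ ∈ D B}, ?_, ?_⟩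
        · have : {w : {A : Idx (Fin k) // A.1.card ≤ ℓ} → X |
              ∀ (B : Idx (Fin k)) (hB : B ∈ G), w ⟨B, hG' B hB⟩ ∈ D B} =
              ⋂ (B : Idx (Fin k)) (hB : B ∈ G), (fun w => w ⟨B, hG' B hB⟩) ⁻¹' (D B) := by
            ext w
            simp
          rw [this]
          exact MeasurableSet.iInter fun B => MeasurableSet.iInter fun hB =>
            measurable_pi_apply _ (hD' B)
        · rfl
      rw [e1, e2, e3]
    · intro t ht ih2
      have h1 := integral_add_compl ht iS
      have h2 := integral_add_compl ht ih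
      have h3 : ∫ x, h x ∂ν = ∫ x, ind S x ∂ν := by
        rw [hh]
        exact integral_condExp hle
      linarith
    · intro f hd hf ih2
      rw [integral_iUnion hf hd iS.integrableOn, integral_iUnion hf hd ih.integrableOn]
      exact tsum_congr ih2
  have hae : ind S =ᵐ[ν] h :=
    Integrable.ae_eq_of_forall_setIntegral_eq _ _ iS ih (fun s hs _ => key s hs)
  have hS' : MeasurableSet[mlow k ℓ] {x | 1 / 2 < h x} := mh measurableSet_Ioi
  obtain ⟨T, hT, hTS⟩ := hS'
  refine ⟨{x | 1 / 2 < h x}, ?_, ?_, ?_⟩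
  · rw [← hTS]
    exact measurable_lowF k ℓ hT
  · intro x y hxy
    rw [← hTS]
    have : lowF k ℓ x = lowF k ℓ y := by
      funext A
      exact hxy A.1 A.2
    simp only [Set.mem_preimage, this]
  · filter_upwards [hae] with x hx
    by_cases hxS : x ∈ S
    · have : ind S x = 1 := by simp [ind, hxS]
      rw [this] at hx
      simp only [hxS, ← hx, true_iff]
      norm_num
    · have : ind S x = 0 := by simp [ind, hxS]
      rw [this] at hx
      simp only [hxS, ← hx, false_iff]
      norm_num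

lemma rank_le [L.IsRelational] [Finite (Σ n, L.Relations n)] (T : L.Theory) (ℓ : ℕ)
    [StandardBorelSpace X] (μ : Measure X) [IsProbabilityMeasure μ] (N : EucStr L X)
    (hN : N.IsTon μ T)
    (hind : ∀ (m : ℕ) (U : Set X) (hU : MeasurableSet U), ℓ < m →
      IndepFun N.arr (NU m U hU).arr (iid μ)) : RankLE T (N.law μ) ℓ := by
  have h1 : ∀ p : Σ n, L.Relations n, ∃ S' : Set (Idx (Fin p.1) → X), MeasurableSet S' ∧
      CompatPeon {l : ℕ+ | (l : ℕ) ≤ ℓ} S' ∧
      ∀ᵐ x ∂(Measure.pi fun _ : Idx (Fin p.1) => μ), (x ∈ N.peon p ↔ x ∈ S') := fun p =>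
    exists_low μ p.1 ℓ (N.peon p) (N.meas p) fun D hD H G hH hG hHG =>
      box_pi μ N ℓ hind p D hD H G hH hG hHG
  choose S' hS' hC hae using h1
  set N' : EucStr L X := ⟨S', hS'⟩ with hN'
  have h2 : ∀ᵐ θ ∂(iid μ), N'.arr θ = N.arr θ := by
    have h3 : ∀ (p : Σ n, L.Relations n) (a : Fin p.1 → ℕ), ∀ᵐ θ ∂(iid μ),
        (N'.arr θ p a ↔ N.arr θ p a) := by
      intro p a
      by_cases ha : Function.Injective a
      · have h4 := hae p
        rw [← map_iid μ a ha] at h4
        have h5 := ae_of_ae_map (measurable_pi_lambda _ fun A =>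
          measurable_pi_apply _).aemeasurable h4
        filter_upwards [h5] with θ hθ
        constructor
        · rintro ⟨h, hx⟩
          exact ⟨h, hθ.2 hx⟩
        · rintro ⟨h, hx⟩
          exact ⟨h, hθ.1 hx⟩
      · refine ae_of_all _ fun θ => ?_
        constructor
        · rintro ⟨h, -⟩
          exact absurd h ha
        · rintro ⟨h, -⟩
          exact absurd h ha
    have h4 : ∀ᵐ θ ∂(iid μ), ∀ (p : Σ n, L.Relations n) (a : Fin p.1 → ℕ),
        (N'.arr θ p a ↔ N.arr θ p a) := by
      rw [ae_all_iff]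
      intro p
      rw [ae_all_iff]
      exact h3 p
    filter_upwards [h4] with θ hθ
    funext p a
    exact propext (hθ p a)
  refine ⟨X, inferInstance, inferInstance, μ, inferInstance, N', ?_, ?_, ?_⟩
  · filter_upwards [hN, h2] with θ h3 h4
    rw [h4]
    exact h3
  · exact Measure.map_congr h2
  · exact hC

end PartE

end RankD

/-- The rank theorem. -/
theorem MP_ae8f8e (ℓ : ℕ) (L : FirstOrder.Language.{0, 0}) [L.IsRelational]
    [Finite (Σ n, L.Relations n)] (T : L.Theory) [T.IsUniversal] (φ : Measure (Str L))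
    (hφ : IsLimit T φ)
    (h : ∀ (L' : FirstOrder.Language.{0, 0}) (_ : L'.IsRelational)
      (_ : Finite (Σ n, L'.Relations n)) (T' : L'.Theory) (_ : T'.IsUniversal)
      (ψ : Measure (Str L')), IsLimit T' ψ → UCouple T' ψ ℓ → UniquelyCoupleable T T' φ ψ) :
    RankLE T φ ℓ := by
  obtain ⟨X, mX, sX, μ, pμ, N, hN, rfl⟩ := hφ
  refine RankD.rank_le T ℓ μ N hN fun m U hU hm => ?_
  have hM : (RankD.NU m U hU).IsTon μ (∅ : (RankD.langOne m).Theory) := ae_of_all _ fun θ =>
    @FirstOrder.Language.model_empty (RankD.langOne m) ℕ ((RankD.NU m U hU).arr θ).toStructure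
  have hU0 : FirstOrder.Language.Theory.IsUniversal (∅ : (RankD.langOne m).Theory) :=
    ⟨fun φ hφ => absurd hφ (Set.notMem_empty φ)⟩
  exact RankD.indep_of_uc T ∅ μ N (RankD.NU m U hU) hN hM
    (h (RankD.langOne m) inferInstance inferInstance ∅ hU0 ((RankD.NU m U hU).law μ)
      ⟨X, mX, sX, μ, pμ, RankD.NU m U hU, hM, rfl⟩
      (uCouple_of_indep ∅ μ (RankD.NU m U hU) ℓ (RankD.indep_NU μ m U hU ℓ hm)))

end Pool.Agent.R130.Theon
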