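import Pool.Agent.R130.Theon.E1
import Pool.Agent.R130.Theon.Glue

/-!
# Unique coupleability with a product (helper80, for helper130)
-/

open MeasureTheory ProbabilityTheory
open scoped ENNReal

namespace Pool.Agent.R130.Theon

variable {L L₁ L₂ L' : FirstOrder.Language.{0, 0}} {X X₁ X₂ : Type} [MeasurableSpace X]
  [MeasurableSpace X₁] [MeasurableSpace X₂]

lemma measurable_mfst : Measurable (fun (z : Idx ℕ → X₁ × X₂) (A : Idx ℕ) => (z A).1) :=
  measurable_pi_lambda _ fun A => measurable_fst.comp (measurable_pi_apply A)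

lemma measurable_msnd : Measurable (fun (z : Idx ℕ → X₁ × X₂) (A : Idx ℕ) => (z A).2) :=
  measurable_pi_lambda _ fun A => measurable_snd.comp (measurable_pi_apply A)

lemma iid_map_mfst (μ₁ : Measure X₁) (μ₂ : Measure X₂) [IsProbabilityMeasure μ₁]
    [IsProbabilityMeasure μ₂] :
    (iid (μ₁.prod μ₂)).map (fun z A => (z A).1) = iid μ₁ := by
  have h : ((iid (μ₁.prod μ₂)).map (fun z => (fun A => (z A).1, fun A => (z A).2))).map Prod.fst =
      ((iid μ₁).prod (iid μ₂)).map Prod.fst := by rw [iid_map_unzip]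
  rw [Measure.map_map measurable_fst measurable_unzip, Measure.map_fst_prod, measure_univ,
    one_smul] at h
  exact h

lemma iid_map_msnd (μ₁ : Measure X₁) (μ₂ : Measure X₂) [IsProbabilityMeasure μ₁]
    [IsProbabilityMeasure μ₂] :
    (iid (μ₁.prod μ₂)).map (fun z A => (z A).2) = iid μ₂ := by
  have h : ((iid (μ₁.prod μ₂)).map (fun z => (fun A => (z A).1, fun A => (z A).2))).map Prod.snd =
      ((iid μ₁).prod (iid μ₂)).map Prod.snd := by rw [iid_map_unzip]
  rw [Measure.map_map measurable_snd measurable_unzip, Measure.map_snd_prod, measure_univ,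
    one_smul] at h
  exact h

/-- Averages of products over a product space. -/
lemma avg_prod (μ₁ : Measure X₁) (μ₂ : Measure X₂) [IsProbabilityMeasure μ₁]
    [IsProbabilityMeasure μ₂] (ℓ : ℕ) {f₁ : (Idx ℕ → X₁) → ℝ} {f₂ : (Idx ℕ → X₂) → ℝ}
    (m₁ : Measurable f₁) (m₂ : Measurable f₂) (z : Idx ℕ → X₁ × X₂) :
    avg (μ₁.prod μ₂) ℓ (fun z => f₁ (fun A => (z A).1) * f₂ (fun A => (z A).2)) z =
      avg μ₁ ℓ f₁ (fun A => (z A).1) * avg μ₂ ℓ f₂ (fun A => (z A).2) := by
  unfold avg
  rw [← integral_prod_mul, ← iid_map_unzip, integral_map measurable_unzip.aemeasurable]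
  · congr 1
    funext w
    have a1 : (fun A => (merge ℓ z w A).1) = merge ℓ (fun A => (z A).1) (fun A => (w A).1) := by
      funext A
      simp only [merge]
      split_ifs <;> rfl
    have a2 : (fun A => (merge ℓ z w A).2) = merge ℓ (fun A => (z A).2) (fun A => (w A).2) := by
      funext A
      simp only [merge]
      split_ifs <;> rfl
    change f₁ (fun A => (merge ℓ z w A).1) * f₂ (fun A => (merge ℓ z w A).2) = _
    rw [a1, a2]
  · refine Measurable.aestronglyMeasurable ?_
    have c1 : Measurable (fun w : (Idx ℕ → X₁) × (Idx ℕ → X₂) =>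
        merge ℓ (fun A => (z A).1) w.1) :=
      (measurable_merge ℓ).comp (measurable_const.prodMk measurable_fst)
    have c2 : Measurable (fun w : (Idx ℕ → X₁) × (Idx ℕ → X₂) =>
        merge ℓ (fun A => (z A).2) w.2) :=
      (measurable_merge ℓ).comp (measurable_const.prodMk measurable_snd)
    exact (m₁.comp c1).mul (m₂.comp c2)

/-- the sets that are determined by the relations between finitely many vertices -/
def FinSets (L : FirstOrder.Language.{0, 0}) : Set (Set (Str L)) :=
  {S | MeasurableSet S ∧ ∃ V : Finset ℕ, DetV V (ind S)}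

lemma ind_inter {Z : Type} (S T : Set Z) (z : Z) : ind (S ∩ T) z = ind S z * ind T z := by
  unfold ind
  by_cases h : z ∈ S
  · by_cases h' : z ∈ T <;> simp [h, h']
  · simp [h]

lemma isPiSystem_finSets (L : FirstOrder.Language.{0, 0}) : IsPiSystem (FinSets L) := by
  classical
  rintro S ⟨hS, V, hV⟩ T ⟨hT, W, hW⟩ _
  refine ⟨hS.inter hT, V ∪ W, fun K K' h => ?_⟩
  rw [ind_inter, ind_inter, hV K K' fun p a ha => h p a fun i => Finset.mem_union_left _ (ha i),
    hW K K' fun p a ha => h p a fun i => Finset.mem_union_right _ (ha i)]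

lemma generateFrom_finSets (L : FirstOrder.Language.{0, 0}) :
    (inferInstance : MeasurableSpace (Str L)) = MeasurableSpace.generateFrom (FinSets L) := by
  classical
  apply le_antisymm
  · have key : ∀ (p : Σ n, L.Relations n) (a : Fin p.1 → ℕ),
        @Measurable (Str L) Prop (MeasurableSpace.generateFrom (FinSets L)) _
          (fun K => K p a) := by
      intro p a
      refine @measurable_to_prop (Str L) (MeasurableSpace.generateFrom (FinSets L)) _ ?_
      refine MeasurableSpace.measurableSet_generateFrom ⟨?_, Finset.univ.image a, ?_⟩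
      · exact ((measurable_pi_apply a).comp (measurable_pi_apply p)) (MeasurableSet.singleton True)
      · intro K K' h
        have : K p a = K' p a := h p a fun i => Finset.mem_image_of_mem _ (Finset.mem_univ i)
        unfold ind
        have e : ∀ K : Str L, K ∈ (fun K : Str L => K p a) ⁻¹' {True} ↔ K p a = True := fun K => by
          simp
        by_cases hK : K p a = True
        · have hK' : K' p a = True := this ▸ hK
          rw [Set.indicator_of_mem ((e K).2 hK), Set.indicator_of_mem ((e K').2 hK')]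
        · have hK' : ¬ K' p a = True := this ▸ hK
          rw [Set.indicator_of_notMem (fun h => hK ((e K).1 h)),
            Set.indicator_of_notMem (fun h => hK' ((e K').1 h))]
    have h2 : @Measurable (Str L) (Str L) (MeasurableSpace.generateFrom (FinSets L)) _ id :=
      @measurable_pi_lambda _ _ _ (MeasurableSpace.generateFrom (FinSets L)) _ _ fun p =>
        @measurable_pi_lambda _ _ _ (MeasurableSpace.generateFrom (FinSets L)) _ _ fun a => key p a
    intro S hS
    exact h2 hS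
  · exact MeasurableSpace.generateFrom_le fun S hS => hS.1

instance countable_sum (L₁ L₂ : FirstOrder.Language.{0, 0}) [Countable (Σ n, L₁.Relations n)]
    [Countable (Σ n, L₂.Relations n)] : Countable (Σ n, (L₁.sum L₂).Relations n) :=
  (Equiv.sigmaSumDistrib (fun n => L₁.Relations n) (fun n => L₂.Relations n)).injective.countable

instance finite_sum (L₁ L₂ : FirstOrder.Language.{0, 0}) [Finite (Σ n, L₁.Relations n)]
    [Finite (Σ n, L₂.Relations n)] : Finite (Σ n, (L₁.sum L₂).Relations n) :=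
  Finite.of_equiv _
    (Equiv.sigmaSumDistrib (fun n => L₁.Relations n) (fun n => L₂.Relations n)).symm

lemma measureReal_eq_integral_ind {Z : Type} [MeasurableSpace Z] (γ : Measure Z)
    [IsFiniteMeasure γ] {S : Set Z} (hS : MeasurableSet S) : γ.real S = ∫ z, ind S z ∂γ := by
  rw [integral_ind γ hS]

/-- product formula for arrays when every level is irrelevant for one of the factors -/
theorem integral_triple [L₁.IsRelational] [L₂.IsRelational] [L'.IsRelational] {T₁ : L₁.Theory}
    {T₂ : L₂.Theory} {T' : L'.Theory} [StandardBorelSpace X] [StandardBorelSpace X₁]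
    [StandardBorelSpace X₂] (μ₁ : Measure X₁) [IsProbabilityMeasure μ₁] (μ₂ : Measure X₂)
    [IsProbabilityMeasure μ₂] (μ : Measure X) [IsProbabilityMeasure μ] (N₁ : EucStr L₁ X₁)
    (N₂ : EucStr L₂ X₂) (N : EucStr L' X) (t₁ : N₁.IsTon μ₁ T₁) (t₂ : N₂.IsTon μ₂ T₂)
    (t : N.IsTon μ T') (u₁ : UniquelyCoupleable T₁ T' (N₁.law μ₁) (N.law μ))
    (u₂ : UniquelyCoupleable T₂ T' (N₂.law μ₂) (N.law μ))
    (γ : Measure ((Idx ℕ → X₁ × X₂) × (Idx ℕ → X))) [IsProbabilityMeasure γ]
    (g₁ : γ.map Prod.fst = iid (μ₁.prod μ₂)) (g₂ : γ.map Prod.snd = iid μ)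
    (hγ : ∀ σ : Equiv.Perm ℕ, γ.map (Prod.map (permC σ) (permC σ)) = γ)
    {S₁ : Set (Str L₁)} {S₂ : Set (Str L₂)} {S : Set (Str L')} (hS₁ : S₁ ∈ FinSets L₁)
    (hS₂ : S₂ ∈ FinSets L₂) (hS : S ∈ FinSets L') :
    ∫ z, (ind S₁ (N₁.arr (fun A => (z.1 A).1)) * ind S₂ (N₂.arr (fun A => (z.1 A).2))) *
      ind S (N.arr z.2) ∂γ = ((N₁.law μ₁).real S₁ * (N₂.law μ₂).real S₂) * (N.law μ).real S := by
  classical
  obtain ⟨mS₁, V₁, hV₁⟩ := hS₁
  obtain ⟨mS₂, V₂, hV₂⟩ := hS₂
  obtain ⟨mS, V, hV⟩ := hS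
  set f₁ : (Idx ℕ → X₁) → ℝ := fun θ => ind S₁ (N₁.arr θ) with hf₁
  set f₂ : (Idx ℕ → X₂) → ℝ := fun θ => ind S₂ (N₂.arr θ) with hf₂
  set g : (Idx ℕ → X) → ℝ := fun θ => ind S (N.arr θ) with hg
  have m₁ : Measurable f₁ := (measurable_ind mS₁).comp N₁.measurable_arr
  have m₂ : Measurable f₂ := (measurable_ind mS₂).comp N₂.measurable_arr
  have mg : Measurable g := (measurable_ind mS).comp N.measurable_arr
  set f : (Idx ℕ → X₁ × X₂) → ℝ := fun z => f₁ (fun A => (z A).1) * f₂ (fun A => (z A).2) with hf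
  have mf : Measurable f := (m₁.comp measurable_mfst).mul (m₂.comp measurable_msnd)
  have bf : ∀ z, |f z| ≤ 1 := by
    intro z
    rw [hf]
    simp only [abs_mul]
    exact mul_le_one₀ (abs_ind_le _ _) (abs_nonneg _) (abs_ind_le _ _)
  have low : LowDep (V₁ ∪ V₂).card f := by
    intro x y hxy
    have d₁ := depOn_arr N₁ hV₁ (fun A => (x A).1) (fun A => (y A).1) fun B hB => by
      have : (lev B : ℕ) ≤ (V₁ ∪ V₂).card :=
        Finset.card_le_card ((mem_below.1 hB).trans Finset.subset_union_left)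
      rw [hxy B this]
    have d₂ := depOn_arr N₂ hV₂ (fun A => (x A).2) (fun A => (y A).2) fun B hB => by
      have : (lev B : ℕ) ≤ (V₁ ∪ V₂).card :=
        Finset.card_le_card ((mem_below.1 hB).trans Finset.subset_union_right)
      rw [hxy B this]
    exact congrArg₂ (· * ·) d₁ d₂
  have one : ∀ {Z : Type} (S : Set Z), ∃ M : ℝ, ∀ K, |ind S K| ≤ M :=
    fun S => ⟨1, abs_ind_le S⟩
  have key := integral_mul_of_levels (μ₁.prod μ₂) μ γ g₁ g₂ hγ mf bf mg
    (fun x => abs_ind_le S _) _ low (fun ℓ => by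
      rcases level_dichotomy μ₁ μ N₁ N t₁ t u₁ ℓ with h₁ | h₁
      · rcases level_dichotomy μ₂ μ N₂ N t₂ t u₂ ℓ with h₂ | h₂
        · left
          have a₁ := h₁ V₁ _ (measurable_ind mS₁) (one S₁) hV₁
          have a₂ := h₂ V₂ _ (measurable_ind mS₂) (one S₂) hV₂
          rw [← iid_map_mfst μ₁ μ₂] at a₁
          rw [← iid_map_msnd μ₁ μ₂] at a₂
          have b₁ := ae_of_ae_map measurable_mfst.aemeasurable a₁
          have b₂ := ae_of_ae_map measurable_msnd.aemeasurable a₂
          filter_upwards [b₁, b₂] with z z₁ z₂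
          rw [hf, avg_prod μ₁ μ₂ _ m₁ m₂, avg_prod μ₁ μ₂ _ m₁ m₂, z₁, z₂]
        · right
          exact h₂ V _ (measurable_ind mS) (one S) hV
      · right
        exact h₁ V _ (measurable_ind mS) (one S) hV)
  have e1 : ∫ x, f x ∂(iid (μ₁.prod μ₂)) = (∫ x, f₁ x ∂(iid μ₁)) * ∫ x, f₂ x ∂(iid μ₂) := by
    rw [← integral_prod_mul, ← iid_map_unzip, integral_map measurable_unzip.aemeasurable]
    exact ((m₁.comp measurable_fst).mul (m₂.comp measurable_snd)).aestronglyMeasurable
  have e2 : ∀ {L : FirstOrder.Language.{0, 0}} {X : Type} [MeasurableSpace X] (μ : Measure X)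
      [IsProbabilityMeasure μ] (N : EucStr L X) {S : Set (Str L)}, MeasurableSet S →
      ∫ θ, ind S (N.arr θ) ∂(iid μ) = (N.law μ).real S := by
    intro L X _ μ _ N S hS
    rw [measureReal_eq_integral_ind _ hS]
    unfold EucStr.law
    rw [integral_map N.measurable_arr.aemeasurable (measurable_ind hS).aestronglyMeasurable]
  rw [e1] at key
  rw [← e2 μ₁ N₁ mS₁, ← e2 μ₂ N₂ mS₂, ← e2 μ N mS]
  exact key

/-- The reduct of a Euclidean structure. -/
def EucStr.redl (N : EucStr (L₁.sum L₂) X) : EucStr L₁ X where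
  peon := fun q => N.peon ⟨q.1, Sum.inl q.2⟩
  meas := fun q => N.meas _

lemma EucStr.redl_arr (N : EucStr (L₁.sum L₂) X) (θ : Idx ℕ → X) :
    N.redl.arr θ = redL (N.arr θ) := rfl

/-- The reduct of a limit object. -/
lemma isLimit_redL [L₁.IsRelational] [L₂.IsRelational] {T₁ : L₁.Theory} {T₂ : L₂.Theory}
    {ξ : Measure (Str (L₁.sum L₂))} (h : IsLimit (unionTheory T₁ T₂) ξ) :
    IsLimit T₁ (ξ.map redL) := by
  obtain ⟨X, _, _, μ, _, N, t, rfl⟩ := h
  refine ⟨X, inferInstance, inferInstance, μ, inferInstance, N.redl, ?_, ?_⟩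
  · filter_upwards [t] with θ hθ
    rw [EucStr.redl_arr]
    have h2 : (join (redL (N.arr θ), redR (N.arr θ))).Models (unionTheory T₁ T₂) := by
      rw [join_red]
      exact hθ
    exact (models_of_join h2).1
  · unfold EucStr.law
    rw [Measure.map_map measurable_redL N.measurable_arr]
    rfl

/-- A measure on `(A × B) × C` that is a product on a generating family of boxes. -/
lemma prod_ext₃ {A B C : Type} [mA : MeasurableSpace A] [mB : MeasurableSpace B]
    [mC : MeasurableSpace C] (α : Measure A) (β : Measure B) (δ : Measure C)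
    [IsProbabilityMeasure α] [IsProbabilityMeasure β] [IsProbabilityMeasure δ]
    (CA : Set (Set A)) (CB : Set (Set B)) (CC : Set (Set C))
    (gA : mA = MeasurableSpace.generateFrom CA) (gB : mB = MeasurableSpace.generateFrom CB)
    (gC : mC = MeasurableSpace.generateFrom CC) (pA : IsPiSystem CA) (pB : IsPiSystem CB)
    (pC : IsPiSystem CC) (uA : Set.univ ∈ CA) (uB : Set.univ ∈ CB) (uC : Set.univ ∈ CC)
    (ρ : Measure ((A × B) × C)) (h : ∀ a ∈ CA, ∀ b ∈ CB, ∀ c ∈ CC,
      ρ ((a ×ˢ b) ×ˢ c) = (α a * β b) * δ c) : (α.prod β).prod δ = ρ := by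
  have sA : IsCountablySpanning CA := ⟨fun _ => Set.univ, fun _ => uA, by simp [Set.iUnion_const]⟩
  have sB : IsCountablySpanning CB := ⟨fun _ => Set.univ, fun _ => uB, by simp [Set.iUnion_const]⟩
  have gAB : MeasurableSpace.generateFrom (Set.image2 (· ×ˢ ·) CA CB) =
      (inferInstance : MeasurableSpace (A × B)) := generateFrom_eq_prod gA.symm gB.symm sA sB
  refine Measure.prod_eq_generateFrom gAB gC.symm (pA.prod pB) pC
    ⟨fun _ => Set.univ, fun _ => ⟨Set.univ, uA, Set.univ, uB, Set.univ_prod_univ⟩,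
      fun _ => measure_lt_top _ _, by simp [Set.iUnion_const]⟩
    ⟨fun _ => Set.univ, fun _ => uC, fun _ => measure_lt_top _ _, by simp [Set.iUnion_const]⟩ ?_
  rintro _ ⟨a, ha, b, hb, rfl⟩ c hc
  rw [h a ha b hb c hc, Measure.prod_prod]

lemma univ_mem_finSets (L : FirstOrder.Language.{0, 0}) : Set.univ ∈ FinSets L :=
  ⟨MeasurableSet.univ, ∅, fun K K' _ => by simp [ind]⟩

/-- **Q1 of MP_e8a478.** -/
theorem uniquelyCoupleable_indepCoupling [L₁.IsRelational] [L₂.IsRelational] [L'.IsRelational]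
    [Countable (Σ n, L₁.Relations n)] [Countable (Σ n, L₂.Relations n)]
    [Countable (Σ n, L'.Relations n)] (T₁ : L₁.Theory) (T₂ : L₂.Theory) (T' : L'.Theory)
    (φ₁ : Measure (Str L₁)) (φ₂ : Measure (Str L₂)) (ψ : Measure (Str L')) (h₁ : IsLimit T₁ φ₁)
    (h₂ : IsLimit T₂ φ₂) (hψ : IsLimit T' ψ) (u₁ : UniquelyCoupleable T₁ T' φ₁ ψ)
    (u₂ : UniquelyCoupleable T₂ T' φ₂ ψ) :
    IsLimit (unionTheory T₁ T₂) (indepCoupling φ₁ φ₂) ∧
      UniquelyCoupleable (unionTheory T₁ T₂) T' (indepCoupling φ₁ φ₂) ψ := by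
  obtain ⟨X₁, _, _, μ₁, _, N₁, t₁, rfl⟩ := h₁
  obtain ⟨X₂, _, _, μ₂, _, N₂, t₂, rfl⟩ := h₂
  obtain ⟨X, _, _, μ, _, N, t, rfl⟩ := hψ
  have hlaw := comb_law_prod μ₁ μ₂ N₁ N₂
  have hlim : IsLimit (unionTheory T₁ T₂) (indepCoupling (N₁.law μ₁) (N₂.law μ₂)) := by
    rw [← hlaw]
    exact (comb_isCoupling (μ₁.prod μ₂) μ₁ μ₂ N₁ N₂ (fun _ => Prod.fst) (fun _ => Prod.snd)
      (fun _ => measurable_fst) (fun _ => measurable_snd)
      (fun _ => by rw [Measure.map_fst_prod]; simp) (fun _ => by rw [Measure.map_snd_prod]; simp)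
      t₁ t₂).1
  refine ⟨hlim, ?_⟩
  rintro ξ ⟨hξ, hL, hR⟩
  obtain ⟨Y, _, _, ν, _, M, tM, rfl⟩ := hξ
  have mr : Measurable (fun K : Str ((L₁.sum L₂).sum L') => (redL K, redR K)) :=
    measurable_redL.prodMk measurable_redR
  set ρ : Measure (Str (L₁.sum L₂) × Str L') := (M.law ν).map (fun K => (redL K, redR K)) with hρ
  have iρ : IsProbabilityMeasure ρ := Measure.isProbabilityMeasure_map mr.aemeasurable
  have ρ1 : ρ.map Prod.fst = (EucStr.comb N₁ N₂ (fun _ => Prod.fst) (fun _ => Prod.snd)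
      (fun _ => measurable_fst) (fun _ => measurable_snd)).law (μ₁.prod μ₂) := by
    rw [hlaw, ← hL, hρ, Measure.map_map measurable_fst mr]
    rfl
  have ρ2 : ρ.map Prod.snd = N.law μ := by
    rw [← hR, hρ, Measure.map_map measurable_snd mr]
    rfl
  have ρ3 : ∀ σ : Equiv.Perm ℕ, ρ.map (Prod.map (permS σ) (permS σ)) = ρ := by
    intro σ
    rw [hρ, Measure.map_map ((measurable_permS σ).prodMap (measurable_permS σ)) mr]
    conv_rhs => rw [← EucStr.law_permS M ν σ]
    rw [Measure.map_map mr (measurable_permS σ)]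
    rfl
  obtain ⟨γ, iγ, g₁, g₂, g₃, g₄⟩ := exists_gluing (μ₁.prod μ₂) μ
    (EucStr.comb N₁ N₂ (fun _ => Prod.fst) (fun _ => Prod.snd) (fun _ => measurable_fst)
      (fun _ => measurable_snd)) N ρ ρ1 ρ2 ρ3
  -- the law of the three reducts
  have mrr : Measurable (fun K : Str ((L₁.sum L₂).sum L') =>
      (((redL (redL K), redR (redL K)), redR K) : (Str L₁ × Str L₂) × Str L')) :=
    ((measurable_redL.comp measurable_redL).prodMk (measurable_redR.comp measurable_redL)).prodMk
      measurable_redR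
  have mr2 : Measurable (fun p : Str (L₁.sum L₂) × Str L' =>
      (((redL p.1, redR p.1), p.2) : (Str L₁ × Str L₂) × Str L')) :=
    ((measurable_redL.comp measurable_fst).prodMk (measurable_redR.comp measurable_fst)).prodMk
      measurable_snd
  have marr : Measurable (fun z : (Idx ℕ → X₁ × X₂) × (Idx ℕ → X) =>
      (((N₁.arr (fun A => (z.1 A).1), N₂.arr (fun A => (z.1 A).2)), N.arr z.2) :
        (Str L₁ × Str L₂) × Str L')) :=
    ((N₁.measurable_arr.comp (measurable_mfst.comp measurable_fst)).prodMk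
      (N₂.measurable_arr.comp (measurable_msnd.comp measurable_fst))).prodMk
      (N.measurable_arr.comp measurable_snd)
  have hlaw3 : (M.law ν).map (fun K => (((redL (redL K), redR (redL K)), redR K) :
      (Str L₁ × Str L₂) × Str L')) = γ.map (fun z =>
      (((N₁.arr (fun A => (z.1 A).1), N₂.arr (fun A => (z.1 A).2)), N.arr z.2) :
        (Str L₁ × Str L₂) × Str L')) := by
    have q : (M.law ν).map (fun K => (((redL (redL K), redR (redL K)), redR K) :
      (Str L₁ × Str L₂) × Str L')) = ρ.map (fun p : Str (L₁.sum L₂) × Str L' =>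
      (((redL p.1, redR p.1), p.2) : (Str L₁ × Str L₂) × Str L')) := by
      rw [hρ, Measure.map_map mr2 mr]
      rfl
    rw [q, ← g₃, Measure.map_map mr2 ((EucStr.measurable_arr _).prodMap N.measurable_arr)]
    congr 1
  have hprod : ((N₁.law μ₁).prod (N₂.law μ₂)).prod (N.law μ) = (M.law ν).map (fun K =>
      (((redL (redL K), redR (redL K)), redR K) : (Str L₁ × Str L₂) × Str L')) := by
    refine prod_ext₃ _ _ _ (FinSets L₁) (FinSets L₂) (FinSets L') (generateFrom_finSets L₁)
      (generateFrom_finSets L₂) (generateFrom_finSets L') (isPiSystem_finSets L₁)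
      (isPiSystem_finSets L₂) (isPiSystem_finSets L') (univ_mem_finSets _) (univ_mem_finSets _)
      (univ_mem_finSets _) _ ?_
    intro S₁ hS₁ S₂ hS₂ S hS
    have key := integral_triple μ₁ μ₂ μ N₁ N₂ N t₁ t₂ t u₁ u₂ γ g₁ g₂ g₄ hS₁ hS₂ hS
    have mbox : MeasurableSet ((S₁ ×ˢ S₂) ×ˢ S) := (hS₁.1.prod hS₂.1).prod hS.1
    have iγ' : IsProbabilityMeasure (γ.map (fun z =>
      (((N₁.arr (fun A => (z.1 A).1), N₂.arr (fun A => (z.1 A).2)), N.arr z.2) :
        (Str L₁ × Str L₂) × Str L'))) := Measure.isProbabilityMeasure_map marr.aemeasurable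
    rw [hlaw3]
    rw [← ENNReal.toReal_eq_toReal_iff' (measure_ne_top _ _) (by
      exact ENNReal.mul_ne_top (ENNReal.mul_ne_top (measure_ne_top _ _) (measure_ne_top _ _))
        (measure_ne_top _ _)), ENNReal.toReal_mul, ENNReal.toReal_mul]
    change (γ.map _).real _ = (N₁.law μ₁).real S₁ * (N₂.law μ₂).real S₂ * (N.law μ).real S
    rw [← key, measureReal_eq_integral_ind _ mbox, integral_map marr.aemeasurable
      (measurable_ind mbox).aestronglyMeasurable]
    congr 1
    funext z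
    unfold ind
    by_cases c₁ : N₁.arr (fun A => (z.1 A).1) ∈ S₁ <;>
    by_cases c₂ : N₂.arr (fun A => (z.1 A).2) ∈ S₂ <;>
    by_cases c₃ : N.arr z.2 ∈ S <;>
    simp [Set.indicator, c₁, c₂, c₃]
  -- conclusion
  have mj : Measurable (fun w : (Str L₁ × Str L₂) × Str L' => join (join w.1, w.2)) :=
    measurable_join.comp ((measurable_join.comp measurable_fst).prodMk measurable_snd)
  have c1 : (M.law ν) = ((M.law ν).map (fun K => (((redL (redL K), redR (redL K)), redR K) :
      (Str L₁ × Str L₂) × Str L'))).map (fun w => join (join w.1, w.2)) := by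
    rw [Measure.map_map mj mrr]
    have : ((fun w : (Str L₁ × Str L₂) × Str L' => join (join w.1, w.2)) ∘
        fun K : Str ((L₁.sum L₂).sum L') => (((redL (redL K), redR (redL K)), redR K) :
      (Str L₁ × Str L₂) × Str L')) = id := by
      funext K
      simp
    rw [this, Measure.map_id]
  rw [c1, ← hprod]
  unfold indepCoupling
  have e3 : (((N₁.law μ₁).prod (N₂.law μ₂)).map join).prod (N.law μ) =
      (((N₁.law μ₁).prod (N₂.law μ₂)).prod (N.law μ)).map (Prod.map join id) := by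
    rw [← Measure.map_prod_map _ _ measurable_join measurable_id, Measure.map_id]
  rw [e3, Measure.map_map measurable_join (measurable_join.prodMap measurable_id)]
  rfl

/-- **Q2 of MP_e8a478.** -/
theorem uniquelyCoupleable_triple [L₁.IsRelational] [L₂.IsRelational] [L'.IsRelational]
    [Countable (Σ n, L₁.Relations n)] [Countable (Σ n, L₂.Relations n)]
    [Countable (Σ n, L'.Relations n)] (T₁ : L₁.Theory) (T₂ : L₂.Theory) (T' : L'.Theory)
    (φ₁ : Measure (Str L₁)) (φ₂ : Measure (Str L₂)) (ψ : Measure (Str L')) (h₁ : IsLimit T₁ φ₁)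
    (h₂ : IsLimit T₂ φ₂) (hψ : IsLimit T' ψ) (u₁₂ : UniquelyCoupleable T₁ T₂ φ₁ φ₂)
    (u₁ : UniquelyCoupleable T₁ T' φ₁ ψ) (u₂ : UniquelyCoupleable T₂ T' φ₂ ψ)
    (ξ : Measure (Str ((L₁.sum L₂).sum L')))
    (hξ : IsLimit (unionTheory (unionTheory T₁ T₂) T') ξ)
    (e₁ : ξ.map (fun K => redL (redL K)) = φ₁) (e₂ : ξ.map (fun K => redR (redL K)) = φ₂)
    (e₃ : ξ.map redR = ψ) : ξ = indepCoupling (indepCoupling φ₁ φ₂) ψ := by
  have h := uniquelyCoupleable_indepCoupling T₁ T₂ T' φ₁ φ₂ ψ h₁ h₂ hψ u₁ u₂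
  have hc : IsCoupling T₁ T₂ φ₁ φ₂ (ξ.map redL) := by
    refine ⟨isLimit_redL hξ, ?_, ?_⟩
    · rw [Measure.map_map measurable_redL measurable_redL]
      exact e₁
    · rw [Measure.map_map measurable_redR measurable_redL]
      exact e₂
  exact h.2 ξ ⟨hξ, u₁₂ _ hc, e₃⟩

end Pool.Agent.R130.Theon
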