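import Pool.Agent.R130.Theon.Defs

/-!
# Lemma U: independence of the low levels implies `UCouple`
-/

open MeasureTheory ProbabilityTheory
open scoped ENNReal

namespace Pool.Agent.R130.Theon

/-- If `U` is independent of `(W, W')` and `F (W, U)` is independent of `W`, then `F (W, U)` is
independent of `W'`. -/
theorem indep_key {Ω α β δ ε : Type*} [MeasurableSpace Ω] [MeasurableSpace α] [MeasurableSpace β]
    [MeasurableSpace δ] [MeasurableSpace ε] (γ : Measure Ω) [IsProbabilityMeasure γ]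
    (W : Ω → α) (U : Ω → β) (W' : Ω → δ) (F : α × β → ε) (mW : Measurable W) (mU : Measurable U)
    (mW' : Measurable W') (mF : Measurable F)
    (h1 : IndepFun U (fun z => (W z, W' z)) γ) (h2 : IndepFun (fun z => F (W z, U z)) W γ) :
    IndepFun (fun z => F (W z, U z)) W' γ := by
  have hprod : γ.map (fun z => (U z, (W z, W' z))) =
      (γ.map U).prod (γ.map fun z => (W z, W' z)) :=
    (indepFun_iff_map_prod_eq_prod_map_map mU.aemeasurable (mW.prodMk mW').aemeasurable).1 h1
  rw [indepFun_iff_measure_inter_preimage_eq_mul]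
  intro S B hS hB
  have : IsProbabilityMeasure (γ.map U) := Measure.isProbabilityMeasure_map mU.aemeasurable
  have : IsProbabilityMeasure (γ.map W) := Measure.isProbabilityMeasure_map mW.aemeasurable
  have : IsProbabilityMeasure (γ.map fun z => (W z, W' z)) :=
    Measure.isProbabilityMeasure_map (mW.prodMk mW').aemeasurable
  set k : α → ℝ≥0∞ := fun w => (γ.map U) {u | F (w, u) ∈ S} with hk
  have mk : Measurable k := measurable_measure_prodMk_left (mF hS)
  have formula : ∀ D : Set (α × δ), MeasurableSet D →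
      γ ((fun z => F (W z, U z)) ⁻¹' S ∩ (fun z => (W z, W' z)) ⁻¹' D) =
        ∫⁻ q in D, k q.1 ∂(γ.map fun z => (W z, W' z)) := by
    intro D hD
    have mE : MeasurableSet {q : β × (α × δ) | F (q.2.1, q.1) ∈ S ∧ q.2 ∈ D} := by
      refine MeasurableSet.inter ?_ ?_
      · exact (mF.comp ((measurable_fst.comp measurable_snd).prodMk measurable_fst)) hS
      · exact measurable_snd hD
    have e1 : (fun z => F (W z, U z)) ⁻¹' S ∩ (fun z => (W z, W' z)) ⁻¹' D =
        (fun z => (U z, (W z, W' z))) ⁻¹' {q : β × (α × δ) | F (q.2.1, q.1) ∈ S ∧ q.2 ∈ D} := rfl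
    rw [e1, ← Measure.map_apply (mU.prodMk (mW.prodMk mW')) mE, hprod,
      Measure.prod_apply_symm mE, ← lintegral_indicator hD]
    refine lintegral_congr fun q => ?_
    by_cases hq : q ∈ D
    · rw [Set.indicator_of_mem hq]
      simp [hk, hq, Set.preimage]
    · rw [Set.indicator_of_notMem hq]
      simp [hq, Set.preimage]
  have hc : k =ᵐ[γ.map W] fun _ => γ ((fun z => F (W z, U z)) ⁻¹' S) := by
    refine ae_eq_of_forall_setLIntegral_eq_of_sigmaFinite mk measurable_const fun C hC _ => ?_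
    have e2 := (indepFun_iff_measure_inter_preimage_eq_mul.1 h2) S C hS hC
    have e3 := formula (Prod.fst ⁻¹' C) (measurable_fst hC)
    have e4 : (fun z => (W z, W' z)) ⁻¹' (Prod.fst ⁻¹' C) = W ⁻¹' C := rfl
    rw [e4, e2] at e3
    have e5 : γ.map W = (γ.map fun z => (W z, W' z)).map Prod.fst := by
      rw [Measure.map_map measurable_fst (mW.prodMk mW')]
      rfl
    rw [lintegral_const, Measure.restrict_apply_univ, Measure.map_apply mW hC, e3]
    rw [e5, setLIntegral_map hC mk measurable_fst]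
  have hc' : ∀ᵐ q ∂(γ.map fun z => (W z, W' z)), k q.1 = γ ((fun z => F (W z, U z)) ⁻¹' S) := by
    have e5 : γ.map W = (γ.map fun z => (W z, W' z)).map Prod.fst := by
      rw [Measure.map_map measurable_fst (mW.prodMk mW')]
      rfl
    rw [e5] at hc
    exact ae_of_ae_map measurable_fst.aemeasurable hc
  have e6 := formula (Prod.snd ⁻¹' B) (measurable_snd hB)
  have e7 : (fun z => (W z, W' z)) ⁻¹' (Prod.snd ⁻¹' B) = W' ⁻¹' B := rfl
  rw [e7] at e6
  rw [e6, lintegral_congr_ae (ae_restrict_of_ae hc'), lintegral_const,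
    Measure.restrict_apply_univ, Measure.map_apply (mW.prodMk mW') (measurable_snd hB), e7]

/-- The coordinates with level at most `ℓ`. -/
def low {X : Type} (ℓ : ℕ) (θ : Idx ℕ → X) (A : {A : Idx ℕ // (lev A : ℕ) ≤ ℓ}) : X := θ A

/-- The coordinates with level above `ℓ`. -/
def high {X : Type} (ℓ : ℕ) (θ : Idx ℕ → X) (A : {A : Idx ℕ // ℓ < (lev A : ℕ)}) : X := θ A

/-- Put together the low and the high coordinates. -/
def mrg {X : Type} (ℓ : ℕ)
    (q : ({A : Idx ℕ // (lev A : ℕ) ≤ ℓ} → X) × ({A : Idx ℕ // ℓ < (lev A : ℕ)} → X)) :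
    Idx ℕ → X :=
  fun A => if h : (lev A : ℕ) ≤ ℓ then q.1 ⟨A, h⟩ else q.2 ⟨A, not_le.1 h⟩

theorem mrg_low_high {X : Type} (ℓ : ℕ) (θ : Idx ℕ → X) : mrg ℓ (low ℓ θ, high ℓ θ) = θ := by
  funext A
  unfold mrg low high
  split_ifs <;> rfl

theorem measurable_low {X : Type} [MeasurableSpace X] (ℓ : ℕ) :
    Measurable (low ℓ : (Idx ℕ → X) → _) :=
  measurable_pi_lambda _ fun _ => measurable_pi_apply _

theorem measurable_high {X : Type} [MeasurableSpace X] (ℓ : ℕ) :
    Measurable (high ℓ : (Idx ℕ → X) → _) :=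
  measurable_pi_lambda _ fun _ => measurable_pi_apply _

theorem measurable_mrg {X : Type} [MeasurableSpace X] (ℓ : ℕ) :
    Measurable (mrg ℓ : _ → (Idx ℕ → X)) := by
  refine measurable_pi_lambda _ fun A => ?_
  by_cases h : (lev A : ℕ) ≤ ℓ
  · have : (fun q : ({A : Idx ℕ // (lev A : ℕ) ≤ ℓ} → X) × ({A : Idx ℕ // ℓ < (lev A : ℕ)} → X) =>
        mrg ℓ q A) = fun q => q.1 ⟨A, h⟩ := by
      funext q
      simp [mrg, h]
    rw [this]
    exact (measurable_pi_apply _).comp measurable_fst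
  · have : (fun q : ({A : Idx ℕ // (lev A : ℕ) ≤ ℓ} → X) × ({A : Idx ℕ // ℓ < (lev A : ℕ)} → X) =>
        mrg ℓ q A) = fun q => q.2 ⟨A, not_le.1 h⟩ := by
      funext q
      simp [mrg, h]
    rw [this]
    exact (measurable_pi_apply _).comp measurable_snd

theorem lev_map {V W : Type} (α : V ↪ W) (A : Idx V) : lev (Idx.map α A) = lev A := by
  apply PNat.eq
  change (A.1.map α).card = A.1.card
  exact Finset.card_map α

/-- The array of a structure with compatible peons depends only on the low coordinates. -/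
theorem arr_congr_low {L : FirstOrder.Language.{0, 0}} {X : Type} [MeasurableSpace X]
    (N : EucStr L X) (ℓ : ℕ) (hN : ∀ p, CompatPeon {l : ℕ+ | (l : ℕ) ≤ ℓ} (N.peon p))
    (θ θ' : Idx ℕ → X) (h : low ℓ θ = low ℓ θ') : N.arr θ = N.arr θ' := by
  funext p a
  apply propext
  unfold EucStr.arr
  refine exists_congr fun ha => ?_
  refine hN p _ _ fun A hA => ?_
  have hA' : (lev (Idx.map ⟨a, ha⟩ A) : ℕ) ≤ ℓ := by
    rw [lev_map]
    exact hA
  exact congrFun h ⟨Idx.map ⟨a, ha⟩ A, hA'⟩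

/-- The core of Lemma U: with a gluing `γ` for which the high levels of the first family are
independent of the low levels of both families, the arrays are independent. -/
theorem indep_arr {L₁ L₂ : FirstOrder.Language.{0, 0}}
    {X₁ X₂ : Type} [MeasurableSpace X₁] [MeasurableSpace X₂] (μ₁ : Measure X₁)
    [IsProbabilityMeasure μ₁] (N₁ : EucStr L₁ X₁) (N₂ : EucStr L₂ X₂)
    (γ : Measure ((Idx ℕ → X₁) × (Idx ℕ → X₂))) [IsProbabilityMeasure γ]
    (h₁ : γ.map Prod.fst = iid μ₁) (ℓ : ℕ)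
    (hN : ∀ p, CompatPeon {l : ℕ+ | (l : ℕ) ≤ ℓ} (N₂.peon p))
    (hX : IndepFun (fun z (A : {A : Idx ℕ // ℓ < (lev A : ℕ)}) => z.1 A)
      (fun z (A : {A : Idx ℕ // (lev A : ℕ) ≤ ℓ}) => (z.1 A, z.2 A)) γ)
    (h : IndepFun N₁.arr (fun θ (A : {A : Idx ℕ // (lev A : ℕ) ≤ ℓ}) => θ A) (iid μ₁)) :
    IndepFun (fun z : (Idx ℕ → X₁) × (Idx ℕ → X₂) => N₁.arr z.1) (fun z => N₂.arr z.2) γ := by
  have hX' : IndepFun (fun z : (Idx ℕ → X₁) × (Idx ℕ → X₂) => high ℓ z.1)
      (fun z => (low ℓ z.1, low ℓ z.2)) γ := by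
    refine hX.comp (φ := id) (ψ := fun (w : {A : Idx ℕ // (lev A : ℕ) ≤ ℓ} → X₁ × X₂) =>
      (fun A => (w A).1, fun A => (w A).2)) measurable_id ?_
    exact (measurable_pi_lambda _ fun A => measurable_fst.comp (measurable_pi_apply A)).prodMk
      (measurable_pi_lambda _ fun A => measurable_snd.comp (measurable_pi_apply A))
  have hl : IndepFun (fun z : (Idx ℕ → X₁) × (Idx ℕ → X₂) => N₁.arr z.1)
      (fun z => low ℓ z.1) γ := by
    rw [indepFun_iff_measure_inter_preimage_eq_mul] at h ⊢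
    intro S C hS hC
    have : (iid μ₁) (N₁.arr ⁻¹' S ∩ low ℓ ⁻¹' C) =
        (iid μ₁) (N₁.arr ⁻¹' S) * (iid μ₁) (low ℓ ⁻¹' C) := h S C hS hC
    rw [← h₁, Measure.map_apply measurable_fst ((N₁.measurable_arr hS).inter
      ((measurable_low ℓ) hC)), Measure.map_apply measurable_fst (N₁.measurable_arr hS),
      Measure.map_apply measurable_fst ((measurable_low ℓ) hC)] at this
    exact this
  have key := indep_key γ (fun z : (Idx ℕ → X₁) × (Idx ℕ → X₂) => low ℓ z.1)
    (fun z => high ℓ z.1) (fun z => low ℓ z.2) (fun q => N₁.arr (mrg ℓ q))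
    ((measurable_low ℓ).comp measurable_fst) ((measurable_high ℓ).comp measurable_fst)
    ((measurable_low ℓ).comp measurable_snd) (N₁.measurable_arr.comp (measurable_mrg ℓ)) hX'
    (by
      have : (fun z : (Idx ℕ → X₁) × (Idx ℕ → X₂) => N₁.arr (mrg ℓ (low ℓ z.1, high ℓ z.1))) =
          fun z => N₁.arr z.1 := by
        funext z
        rw [mrg_low_high]
      rw [this]
      exact hl)
  have e : (fun z : (Idx ℕ → X₁) × (Idx ℕ → X₂) => N₁.arr (mrg ℓ (low ℓ z.1, high ℓ z.1))) =
      fun z => N₁.arr z.1 := by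
    funext z
    rw [mrg_low_high]
  rw [e] at key
  -- the second array is a function of the low coordinates
  obtain ⟨z1⟩ := nonempty_of_isProbabilityMeasure γ
  set z0 := z1.2 with hz0
  let G : ({A : Idx ℕ // (lev A : ℕ) ≤ ℓ} → X₂) → Str L₂ := fun w => N₂.arr (mrg ℓ (w, high ℓ z0))
  have mG : Measurable G :=
    N₂.measurable_arr.comp ((measurable_mrg ℓ).comp (measurable_id.prodMk measurable_const))
  have e2 : (fun z : (Idx ℕ → X₁) × (Idx ℕ → X₂) => N₂.arr z.2) = fun z => G (low ℓ z.2) := by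
    funext z
    refine arr_congr_low N₂ ℓ hN _ _ ?_
    funext A
    have : (lev A.1 : ℕ) ≤ ℓ := A.2
    simp only [low, mrg]
    rw [dif_pos this]
  rw [e2]
  exact key.comp measurable_id mG

theorem redL_permS {L₁ L₂ : FirstOrder.Language.{0, 0}} (σ : Equiv.Perm ℕ)
    (K : Str (L₁.sum L₂)) : redL (permS σ K) = permS σ (redL K) := rfl

theorem redR_permS {L₁ L₂ : FirstOrder.Language.{0, 0}} (σ : Equiv.Perm ℕ)
    (K : Str (L₁.sum L₂)) : redR (permS σ K) = permS σ (redR K) := rfl

/-- The law of the pair of reducts of a limit object of the union language is invariant. -/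
theorem pair_inv {L₁ L₂ : FirstOrder.Language.{0, 0}} {Y : Type} [MeasurableSpace Y]
    (ν : Measure Y) [IsProbabilityMeasure ν] (M : EucStr (L₁.sum L₂) Y) (σ : Equiv.Perm ℕ) :
    ((M.law ν).map (fun K => (redL K, redR K))).map (Prod.map (permS σ) (permS σ)) =
      (M.law ν).map (fun K => (redL K, redR K)) := by
  conv_rhs => rw [← M.law_permS ν σ]
  rw [Measure.map_map ((measurable_permS σ).prodMap (measurable_permS σ))
    (measurable_redL.prodMk measurable_redR),
    Measure.map_map (measurable_redL.prodMk measurable_redR) (measurable_permS σ)]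
  rfl

/-- A measure on the structures of the union language is determined by the law of the pair of
reducts. -/
theorem eq_map_join {L₁ L₂ : FirstOrder.Language.{0, 0}} (ξ : Measure (Str (L₁.sum L₂))) :
    ξ = (ξ.map (fun K => (redL K, redR K))).map join := by
  rw [Measure.map_map measurable_join (measurable_redL.prodMk measurable_redR)]
  have : (join ∘ fun K : Str (L₁.sum L₂) => (redL K, redR K)) = id := by
    funext K
    exact join_red K
  rw [this, Measure.map_id]

/-- Lemma U, with the statements of gluing (Module B) and of the independence of levels (Module X)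
as hypotheses. -/
theorem uCouple_core
    (HB : ∀ (L₁ L₂ : FirstOrder.Language.{0, 0}) (_ : Countable (Σ n, L₁.Relations n))
      (_ : Countable (Σ n, L₂.Relations n)) (X₁ X₂ : Type) (_ : MeasurableSpace X₁)
      (_ : MeasurableSpace X₂) (_ : StandardBorelSpace X₁) (_ : StandardBorelSpace X₂)
      (μ₁ : Measure X₁) (μ₂ : Measure X₂) (_ : IsProbabilityMeasure μ₁)
      (_ : IsProbabilityMeasure μ₂) (N₁ : EucStr L₁ X₁) (N₂ : EucStr L₂ X₂)
      (ρ : Measure (Str L₁ × Str L₂)) (_ : IsProbabilityMeasure ρ)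
      (_ : ρ.map Prod.fst = N₁.law μ₁) (_ : ρ.map Prod.snd = N₂.law μ₂)
      (_ : ∀ σ : Equiv.Perm ℕ, ρ.map (Prod.map (permS σ) (permS σ)) = ρ),
      ∃ γ : Measure ((Idx ℕ → X₁) × (Idx ℕ → X₂)), IsProbabilityMeasure γ ∧
        γ.map Prod.fst = iid μ₁ ∧ γ.map Prod.snd = iid μ₂ ∧
        γ.map (Prod.map N₁.arr N₂.arr) = ρ ∧
        ∀ σ : Equiv.Perm ℕ, γ.map (Prod.map (permC σ) (permC σ)) = γ)
    (HX : ∀ (X Y : Type) (_ : MeasurableSpace X) (_ : MeasurableSpace Y) (μ : Measure X)
      (_ : IsProbabilityMeasure μ) (γ : Measure ((Idx ℕ → X) × (Idx ℕ → Y)))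
      (_ : IsProbabilityMeasure γ) (_ : γ.map Prod.fst = iid μ)
      (_ : ∀ σ : Equiv.Perm ℕ, γ.map (Prod.map (permC σ) (permC σ)) = γ) (ℓ : ℕ),
      IndepFun (fun z (A : {A : Idx ℕ // ℓ < (lev A : ℕ)}) => z.1 A)
        (fun z (A : {A : Idx ℕ // (lev A : ℕ) ≤ ℓ}) => (z.1 A, z.2 A)) γ)
    {L : FirstOrder.Language.{0, 0}} [L.IsRelational]
    [Finite (Σ n, L.Relations n)] (T : L.Theory) {X : Type} [MeasurableSpace X]
    [StandardBorelSpace X] (μ : Measure X) [IsProbabilityMeasure μ] (N : EucStr L X) (ℓ : ℕ)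
    (h : IndepFun N.arr (fun θ (A : {A : Idx ℕ // (lev A : ℕ) ≤ ℓ}) => θ A) (iid μ)) :
    UCouple T (N.law μ) ℓ := by
  intro L' _ _ T' _ ψ hψ ξ hξ
  obtain ⟨X', mX', sX', μ', pμ', N', hT', hN', hC'⟩ := hψ
  obtain ⟨⟨Y, mY, sY, ν, pν, M, hM, hMξ⟩, hL, hR⟩ := hξ
  set ρ : Measure (Str L × Str L') := ξ.map (fun K => (redL K, redR K)) with hρ
  have pξ : IsProbabilityMeasure ξ := by rw [← hMξ]; infer_instance
  have mpair : Measurable (fun K : Str (L.sum L') => (redL K, redR K)) :=
    measurable_redL.prodMk measurable_redR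
  have pρ : IsProbabilityMeasure ρ := Measure.isProbabilityMeasure_map mpair.aemeasurable
  have h1 : ρ.map Prod.fst = N.law μ := by
    rw [hρ, Measure.map_map measurable_fst mpair]
    exact hL
  have h2 : ρ.map Prod.snd = N'.law μ' := by
    rw [hρ, Measure.map_map measurable_snd mpair, hN']
    exact hR
  have h3 : ∀ σ : Equiv.Perm ℕ, ρ.map (Prod.map (permS σ) (permS σ)) = ρ := by
    intro σ
    rw [hρ, ← hMξ]
    exact pair_inv ν M σ
  obtain ⟨γ, pγ, g1, g2, g3, g4⟩ := HB L L' inferInstance inferInstance X X' inferInstance mX'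
    inferInstance sX' μ μ' inferInstance pμ' N N' ρ pρ h1 h2 h3
  have hX := HX X X' inferInstance mX' μ inferInstance γ pγ g1 g4 ℓ
  have hind := indep_arr μ N N' γ g1 ℓ hC' hX h
  have hprod : ρ = (N.law μ).prod ψ := by
    have e := (indepFun_iff_map_prod_eq_prod_map_map
      (N.measurable_arr.comp measurable_fst).aemeasurable
      (N'.measurable_arr.comp measurable_snd).aemeasurable).1 hind
    have e1 : γ.map (N.arr ∘ Prod.fst) = N.law μ := by
      rw [EucStr.law, ← g1, Measure.map_map N.measurable_arr measurable_fst]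
    have e2 : γ.map (N'.arr ∘ Prod.snd) = ψ := by
      rw [← hN', EucStr.law, ← g2, Measure.map_map N'.measurable_arr measurable_snd]
    rw [e1, e2] at e
    rw [← g3, ← e]
    rfl
  rw [eq_map_join ξ, ← hρ, hprod]
  rfl

end Pool.Agent.R130.Theon
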