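import Pool.Agent.R130.Theon.Example3

/-! # The case in which the array is independent of all coordinates -/

open MeasureTheory ProbabilityTheory Filter Set

namespace Pool.Agent.R130.Theon

variable {X : Type} [MeasurableSpace X]

theorem compat_of_weak_univ {L : FirstOrder.Language.{0, 0}} [L.IsRelational]
    [Finite (Σ n, L.Relations n)] (μ : Measure X) [IsProbabilityMeasure μ] (T : L.Theory)
    (N : EucStr L X) (hN : N.IsTon μ T)
    (h : IndepFun N.arr (fun (θ : Idx ℕ → X) (A : {A : Idx ℕ // lev A ∈ (univ : Set ℕ+)}) => θ A)
      (iid μ)) :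
    ∃ N' : EucStr L X, N'.IsTon μ T ∧ N'.law μ = N.law μ ∧
      ∀ p, CompatPeon (univᶜ : Set ℕ+) (N'.peon p) := by
  classical
  -- the array is independent of itself
  have hself : IndepFun N.arr N.arr (iid μ) := by
    have h1 : Measurable (fun z : ({A : Idx ℕ // lev A ∈ (univ : Set ℕ+)} → X) =>
        N.arr (fun A => z ⟨A, mem_univ _⟩)) := by
      refine N.measurable_arr.comp (measurable_pi_lambda _ fun A => ?_)
      exact measurable_pi_apply (⟨A, mem_univ _⟩ : {A : Idx ℕ // lev A ∈ (univ : Set ℕ+)})
    exact h.comp measurable_id h1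
  have h01 : ∀ S : Set (Str L), MeasurableSet S →
      iid μ (N.arr ⁻¹' S) = 0 ∨ iid μ (N.arr ⁻¹' S) = 1 := by
    intro S hS
    have h2 := hself.measure_inter_preimage_eq_mul _ _ hS hS
    rw [inter_self] at h2
    have hfin : iid μ (N.arr ⁻¹' S) ≠ ⊤ := measure_ne_top _ _
    rcases eq_or_ne (iid μ (N.arr ⁻¹' S)) 0 with h0 | h0
    · exact Or.inl h0
    · right
      have : iid μ (N.arr ⁻¹' S) * 1 = iid μ (N.arr ⁻¹' S) * iid μ (N.arr ⁻¹' S) := by
        rw [mul_one]; exact h2
      exact ((ENNReal.mul_right_inj h0 hfin).1 this).symm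
  -- probability that the relation holds
  let m : (p : Σ n, L.Relations n) → ENNReal := fun p =>
    Measure.infinitePi (fun _ : Idx (Fin p.1) => μ) (N.peon p)
  let N' : EucStr L X :=
    { peon := fun p => if m p = 1 then univ else ∅
      meas := fun p => by
        split_ifs
        · exact MeasurableSet.univ
        · exact MeasurableSet.empty }
  have hae : ∀ᵐ θ ∂(iid μ), N.arr θ = N'.arr θ := by
    have h3 : ∀ᵐ θ ∂(iid μ), ∀ (p : Σ n, L.Relations n) (a : Fin p.1 → ℕ),
        (N.arr θ p a ↔ N'.arr θ p a) := by
      rw [ae_all_iff]; intro p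
      rw [ae_all_iff]; intro a
      by_cases ha : Function.Injective a
      · have hinj : Function.Injective (fun A : Idx (Fin p.1) => Idx.map ⟨a, ha⟩ A) := by
          intro A A' hAA
          have := congrArg Subtype.val hAA
          exact Subtype.ext (Finset.map_injective _ this)
        have h4 := infinitePi_map_injective μ _ hinj
        have hmm : Measurable (fun (θ : Idx ℕ → X) (A : Idx (Fin p.1)) =>
            θ (Idx.map ⟨a, ha⟩ A)) := measurable_pi_lambda _ fun _ => measurable_pi_apply _
        have hset : {θ : Idx ℕ → X | N.arr θ p a} =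
            (fun (θ : Idx ℕ → X) (A : Idx (Fin p.1)) => θ (Idx.map ⟨a, ha⟩ A)) ⁻¹' (N.peon p) := by
          ext θ
          constructor
          · rintro ⟨_, hx⟩; exact hx
          · intro hx; exact ⟨ha, hx⟩
        have h5 : iid μ {θ : Idx ℕ → X | N.arr θ p a} = m p := by
          rw [hset, ← Measure.map_apply hmm (N.meas p)]
          exact congrArg (fun ν => ν (N.peon p)) h4
        have hSm : MeasurableSet {K : Str L | K p a} :=
          measurableSet_setOfPred.2 ((measurable_pi_apply a).comp (measurable_pi_apply p))
        have h6 := h01 _ hSm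
        have h7 : N.arr ⁻¹' {K : Str L | K p a} = {θ : Idx ℕ → X | N.arr θ p a} := rfl
        rw [h7, h5] at h6
        rcases h6 with h6 | h6
        · have h8 : ∀ᵐ θ ∂(iid μ), ¬ N.arr θ p a := by
            rw [ae_iff]
            have : {θ : Idx ℕ → X | ¬ ¬ N.arr θ p a} = {θ : Idx ℕ → X | N.arr θ p a} := by
              ext θ; simp
            rw [this, h5, h6]
          filter_upwards [h8] with θ hθ
          constructor
          · intro hx; exact absurd hx hθ
          · rintro ⟨_, hx⟩
            have : N'.peon p = ∅ := by
              change (if m p = 1 then univ else ∅) = _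
              rw [if_neg (by rw [h6]; exact zero_ne_one)]
            rw [this] at hx
            exact absurd hx (by simp)
        · have h8 : ∀ᵐ θ ∂(iid μ), N.arr θ p a := by
            have hms : MeasurableSet {θ : Idx ℕ → X | N.arr θ p a} := N.measurable_arr hSm
            rw [ae_iff]
            have : {θ : Idx ℕ → X | ¬ N.arr θ p a} = {θ : Idx ℕ → X | N.arr θ p a}ᶜ := rfl
            rw [this, prob_compl_eq_zero_iff hms, h5, h6]
          filter_upwards [h8] with θ hθ
          constructor
          · intro _
            refine ⟨ha, ?_⟩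
            have : N'.peon p = univ := by
              change (if m p = 1 then univ else ∅) = _
              rw [if_pos h6]
            rw [this]; exact mem_univ _
          · intro _; exact hθ
      · refine Eventually.of_forall fun θ => ?_
        constructor
        · rintro ⟨hi, _⟩; exact absurd hi ha
        · rintro ⟨hi, _⟩; exact absurd hi ha
    filter_upwards [h3] with θ hθ
    funext p a
    exact propext (hθ p a)
  have hlaw : N'.law μ = N.law μ := by
    unfold EucStr.law
    exact (Measure.map_congr hae).symm
  refine ⟨N', ?_, hlaw, ?_⟩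
  · rw [isTon_iff, hlaw]
    exact (isTon_iff N μ T).1 hN
  · intro p x y _
    change x ∈ (if m p = 1 then (univ : Set (Idx (Fin p.1) → X)) else ∅) ↔
      y ∈ (if m p = 1 then (univ : Set (Idx (Fin p.1) → X)) else ∅)
    split_ifs <;> simp

end Pool.Agent.R130.Theon
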