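import Pool.Agent.R130.Theon.NotInd

/-!
# The explicit Euclidean structure (MP_e98621, part F2)
-/

open MeasureTheory ProbabilityTheory

namespace Pool.Agent.R130.Theon

namespace Sep

/-! ### ranks -/

section rank

variable {m : ℕ}

/-- the rank of the `i`-th entry of `u` -/
noncomputable def rk (u : Fin m → ℝ) (i : Fin m) : Fin m :=
  ⟨(Finset.univ.filter fun j => u j < u i).card, by
    have : (Finset.univ.filter fun j => u j < u i) ⊂ Finset.univ := by
      rw [Finset.ssubset_univ_iff]
      intro h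
      have := h ▸ Finset.mem_univ i
      simp at this
    simpa using Finset.card_lt_card this⟩

lemma rk_comp (u : Fin m → ℝ) (τ : Equiv.Perm (Fin m)) (i : Fin m) :
    rk (u ∘ τ) i = rk u (τ i) := by
  apply Fin.ext
  simp only [rk, Function.comp]
  apply Finset.card_bij (fun j _ => τ j)
  · intro j hj
    simpa using hj
  · intro j _ k _ h
    exact τ.injective h
  · intro j hj
    refine ⟨τ.symm j, ?_, by simp⟩
    simpa using hj

lemma rk_lt {u : Fin m → ℝ} {i j : Fin m} (h : u i < u j) : rk u i < rk u j := by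
  change (Finset.univ.filter fun k => u k < u i).card < (Finset.univ.filter fun k => u k < u j).card
  apply Finset.card_lt_card
  rw [Finset.ssubset_iff_of_subset]
  · exact ⟨i, by simpa using h, by simp⟩
  · intro k hk
    simp only [Finset.mem_filter, Finset.mem_univ, true_and] at hk ⊢
    exact hk.trans h

lemma rk_injective {u : Fin m → ℝ} (hu : Function.Injective u) : Function.Injective (rk u) := by
  intro i j hij
  by_contra hne
  rcases lt_or_gt_of_ne (fun h => hne (hu h)) with h | h
  · exact (rk_lt h).ne hij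
  · exact (rk_lt h).ne hij.symm

lemma rk_strictMono {u : Fin m → ℝ} (hu : StrictMono u) (i : Fin m) : rk u i = i := by
  apply Fin.ext
  simp only [rk, hu.lt_iff_lt]
  have : (Finset.univ.filter fun j => j < i) = Finset.Iio i := by
    ext j
    simp
  rw [this, Fin.card_Iio]

open Classical in
/-- the rank permutation -/
noncomputable def rkP (u : Fin m → ℝ) : Equiv.Perm (Fin m) :=
  if h : Function.Injective (rk u) then
    Equiv.ofBijective _ (Finite.injective_iff_bijective.1 h) else 1

lemma rkP_apply {u : Fin m → ℝ} (hu : Function.Injective u) (i : Fin m) :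
    rkP u i = rk u i := by
  unfold rkP
  rw [dif_pos (rk_injective hu)]
  rfl

lemma rkP_comp {u : Fin m → ℝ} (hu : Function.Injective u) (τ : Equiv.Perm (Fin m)) :
    rkP (u ∘ τ) = rkP u * τ := by
  ext i
  rw [rkP_apply (hu.comp τ.injective), rk_comp, Equiv.Perm.mul_apply, rkP_apply hu]

lemma rkP_strictMono {u : Fin m → ℝ} (hu : StrictMono u) : rkP u = 1 := by
  ext i
  rw [rkP_apply hu.injective, rk_strictMono hu]
  rfl

/-- a sign as an element of `ZMod 2` -/
def sg (s : ℤˣ) : ZMod 2 := if s = 1 then 0 else 1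

lemma sg_mul (s t : ℤˣ) : sg (s * t) = sg s + sg t := by
  revert s t
  decide

/-- the parity of the number of inversions -/
noncomputable def par (u : Fin m → ℝ) : ZMod 2 := sg (Equiv.Perm.sign (rkP u))

lemma par_comp {u : Fin m → ℝ} (hu : Function.Injective u) (τ : Equiv.Perm (Fin m)) :
    par (u ∘ τ) = par u + sg (Equiv.Perm.sign τ) := by
  unfold par
  rw [rkP_comp hu, map_mul, sg_mul]

lemma par_strictMono {u : Fin m → ℝ} (hu : StrictMono u) : par u = 0 := by
  unfold par
  rw [rkP_strictMono hu, map_one]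
  rfl

lemma par_swap {u : Fin m → ℝ} (hu : Function.Injective u) (i j : Fin m) (h : i ≠ j) :
    par (u ∘ Equiv.swap i j) = par u + 1 := by
  rw [par_comp hu, Equiv.Perm.sign_swap h]
  rfl

end rank

variable {n c : ℕ}

/-- the pattern of the first `n` entries -/
noncomputable def lab (u : Fin (n + c) → ℝ) : Finset (Fin (n + c)) :=
  Finset.univ.image fun i : Fin n => rk u (Fin.castAdd c i)

/-- the second part of the coordinates -/
abbrev GG (n c : ℕ) : Type := Finset (Fin (n + c)) → ZMod 4

/-- the label of a tuple -/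
noncomputable def et {V : Type} [DecidableEq V] (r : V → ℝ) (H : Finset V → GG n c)
    (a : Fin (n + c) → V) : ZMod 4 :=
  H (Finset.univ.image a) (lab (r ∘ a))

lemma et_nat {V W : Type} [DecidableEq V] [DecidableEq W] (r : W → ℝ) (H : Finset W → GG n c)
    (a : V → W) (e : Fin (n + c) → V) :
    et (r ∘ a) (fun E => H (E.image a)) e = et r H (a ∘ e) := by
  change H ((Finset.univ.image e).image a) _ = H _ _
  rw [Finset.image_image]
  rfl

/-- extension of a permutation of the first `n` entries -/
def extP (τ : Equiv.Perm (Fin n)) : Equiv.Perm (Fin (n + c)) :=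
  finSumFinEquiv.symm.trans ((Equiv.sumCongr τ (Equiv.refl _)).trans finSumFinEquiv)

lemma extP_castAdd (τ : Equiv.Perm (Fin n)) (i : Fin n) :
    extP τ (Fin.castAdd c i) = Fin.castAdd c (τ i) := by
  simp [extP]

lemma extP_natAdd (τ : Equiv.Perm (Fin n)) (i : Fin c) :
    extP τ (Fin.natAdd n i) = Fin.natAdd n i := by
  simp [extP]

lemma append_ext {V : Type} (τ : Equiv.Perm (Fin n)) (β : Fin n → V) (γ : Fin c → V) :
    Fin.append (β ∘ τ) γ = Fin.append β γ ∘ extP τ := by
  funext i
  refine Fin.addCases (fun j => ?_) (fun j => ?_) i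
  · simp [extP_castAdd]
  · simp [extP_natAdd]

lemma lab_ext (u : Fin (n + c) → ℝ) (τ : Equiv.Perm (Fin n)) :
    lab (u ∘ extP τ) = lab u := by
  unfold lab
  simp only [rk_comp, extP_castAdd]
  have : (fun i : Fin n => rk u (Fin.castAdd c (τ i))) =
      (fun i : Fin n => rk u (Fin.castAdd c i)) ∘ τ := rfl
  rw [this, ← Finset.image_image]
  congr 1
  exact Finset.image_univ_equiv τ

lemma et_ext {V : Type} [DecidableEq V] (r : V → ℝ) (H : Finset V → GG n c)
    (τ : Equiv.Perm (Fin n)) (β : Fin n → V) (γ : Fin c → V) :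
    et r H (Fin.append (β ∘ τ) γ) = et r H (Fin.append β γ) := by
  unfold et
  rw [append_ext]
  have h1 : r ∘ Fin.append β γ ∘ extP τ = (r ∘ Fin.append β γ) ∘ extP τ := rfl
  rw [h1, lab_ext, ← Finset.image_image]
  congr 1
  congr 1
  exact Finset.image_univ_equiv (extP τ)

/-- first embedding -/
def e1 (n c : ℕ) : Fin (n + c) → Fin (n + c + c) := Fin.castAdd c
/-- second embedding -/
def e2 (n c : ℕ) : Fin (n + c) → Fin (n + c + c) :=
  Fin.append (fun i => Fin.castAdd c (Fin.castAdd c i)) (Fin.natAdd (n + c))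

lemma append_e1 {V : Type} (β : Fin n → V) (γ γ' : Fin c → V) :
    Fin.append (Fin.append β γ) γ' ∘ e1 n c = Fin.append β γ := by
  funext i
  simp [e1]

lemma append_e2 {V : Type} (β : Fin n → V) (γ γ' : Fin c → V) :
    Fin.append (Fin.append β γ) γ' ∘ e2 n c = Fin.append β γ' := by
  funext i
  refine Fin.addCases (fun j => ?_) (fun j => ?_) i
  · simp [e2]
  · simp [e2]

/-- the differences for which `D` holds -/
def dd (d : ZMod 4) : Prop := d = 1 ∨ d = 2

/-- reduction mod 2 -/
def red2 : ZMod 4 →+* ZMod 2 := ZMod.castHom (by norm_num : 2 ∣ 4) (ZMod 2)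

/-- auxiliary -/
def KKaux (r : ℕ → ℝ) (H : Finset ℕ → GG n c) : (k : ℕ) → Rel n c k → (Fin k → ℕ) → Prop
  | _, .S, a => Function.Injective a ∧ red2 (et r H a) + par (r ∘ a ∘ Fin.castAdd c) = 1
  | _, .D, a => Function.Injective a ∧ dd (et r H (a ∘ e2 n c) - et r H (a ∘ e1 n c))

/-- the structure given by the order and the labels -/
def KK (r : ℕ → ℝ) (H : Finset ℕ → GG n c) : Str (lang n c) := fun p a => KKaux r H p.1 p.2 a

lemma decode_dd (d : ZMod 4) : decode (dd d) (dd (-d)) = d := by
  have h1 : ∀ d : ZMod 4, (if d = 1 ∨ d = 2 then (if -d = 1 ∨ -d = 2 then (2 : ZMod 4) else 1)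
    else (if -d = 1 ∨ -d = 2 then 3 else 0)) = d := by decide
  unfold decode dd
  have h2 := h1 d
  by_cases ha : d = 1 ∨ d = 2 <;> by_cases hb : -d = 1 ∨ -d = 2 <;> simp only [ha, hb] at h2 ⊢ <;>
    simpa using h2

lemma zmod2_ite (x : ZMod 2) (inst : Decidable (x = 1)) :
    @ite (ZMod 2) (x = 1) inst 1 0 = x := by
  have : ∀ x : ZMod 2, x = 1 ∨ x = 0 := by decide
  rcases this x with h | h
  · rw [if_pos h, h]
  · rw [if_neg (by rw [h]; decide), h]

lemma sv_KK (r : ℕ → ℝ) (H : Finset ℕ → GG n c) (β : Fin n → ℕ) (γ : Fin c → ℕ)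
    (h : Function.Injective (Fin.append β γ)) :
    sv (KK r H) β γ = red2 (et r H (Fin.append β γ)) + par (r ∘ β) := by
  classical
  have h1 : hS (KK r H) β γ ↔ red2 (et r H (Fin.append β γ)) + par (r ∘ β) = 1 := by
    change (Function.Injective (Fin.append β γ) ∧ _) ↔ _
    have : Fin.append β γ ∘ Fin.castAdd c = β := by
      funext i
      simp
    rw [and_iff_right h]
    have h2 : r ∘ Fin.append β γ ∘ Fin.castAdd c = r ∘ β := by rw [this]
    exact iff_of_eq (by rw [← h2])
  unfold sv
  rw [propext h1]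
  exact zmod2_ite _ _

lemma dv_KK (r : ℕ → ℝ) (H : Finset ℕ → GG n c) (β : Fin n → ℕ) (γ γ' : Fin c → ℕ)
    (h : Function.Injective (Fin.append (Fin.append β γ) γ')) :
    dv (KK r H) β γ γ' = et r H (Fin.append β γ') - et r H (Fin.append β γ) := by
  have key : ∀ γ γ' : Fin c → ℕ, Function.Injective (Fin.append (Fin.append β γ) γ') →
      (hD (KK r H) β γ γ' ↔ dd (et r H (Fin.append β γ') - et r H (Fin.append β γ))) := by
    intro γ γ' h
    change (Function.Injective (Fin.append (Fin.append β γ) γ') ∧ dd _) ↔ _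
    rw [and_iff_right h]
    have h1 := append_e1 β γ γ'
    have h2 := append_e2 β γ γ'
    change dd (et r H (Fin.append (Fin.append β γ) γ' ∘ e2 n c) -
      et r H (Fin.append (Fin.append β γ) γ' ∘ e1 n c)) ↔ _
    rw [h1, h2]
  have h' : Function.Injective (Fin.append (Fin.append β γ') γ) := by
    rw [Fin.append_injective_iff, Fin.append_injective_iff] at h ⊢
    obtain ⟨⟨a1, a2, a3⟩, a4, a5⟩ := h
    rw [forall_append (Q := fun x => ∀ j, x ≠ γ' j)] at a5
    rw [forall_append (Q := fun x => ∀ j, x ≠ γ j)]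
    exact ⟨⟨a1, a4, a5.1⟩, a2, a3, fun i j => (a5.2 j i).symm⟩
  unfold dv
  rw [propext (key γ γ' h), propext (key γ' γ h')]
  have : et r H (Fin.append β γ) - et r H (Fin.append β γ') =
      -(et r H (Fin.append β γ') - et r H (Fin.append β γ)) := by ring
  rw [this]
  exact decode_dd _

theorem good_KK (r : ℕ → ℝ) (hr : Function.Injective r) (H : Finset ℕ → GG n c) :
    Good (KK r H) := by
  refine ⟨?_, ?_, ?_, ?_⟩
  · intro β γ₁ γ₂ γ₃ h
    have h12 : Function.Injective (Fin.append (Fin.append β γ₁) γ₂) :=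
      (Fin.append_injective_iff.1 h).1
    simp only [Fin.append_injective_iff] at h
    obtain ⟨⟨⟨a1, a2, a3⟩, a4, a5⟩, a6, a7⟩ := h
    rw [forall_append (Q := fun x => ∀ j, x ≠ γ₂ j)] at a5
    rw [forall_append (Q := fun x => ∀ j, x ≠ γ₃ j),
      forall_append (Q := fun x => ∀ j, x ≠ γ₃ j)] at a7
    obtain ⟨⟨b1, b2⟩, b3⟩ := a7
    have h23 : Function.Injective (Fin.append (Fin.append β γ₂) γ₃) := by
      simp only [Fin.append_injective_iff]
      refine ⟨⟨a1, a4, a5.1⟩, a6, ?_⟩
      rw [forall_append (Q := fun x => ∀ j, x ≠ γ₃ j)]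
      exact ⟨b1, b3⟩
    have h31 : Function.Injective (Fin.append (Fin.append β γ₃) γ₁) := by
      simp only [Fin.append_injective_iff]
      refine ⟨⟨a1, a6, b1⟩, a2, ?_⟩
      rw [forall_append (Q := fun x => ∀ j, x ≠ γ₁ j)]
      exact ⟨a3, fun i j => (b2 j i).symm⟩
    rw [dv_KK r H _ _ _ h12, dv_KK r H _ _ _ h23, dv_KK r H _ _ _ h31]
    ring
  · intro β γ γ' i j hij h
    have h' : Function.Injective (Fin.append (Fin.append (β ∘ Equiv.swap i j) γ) γ') := by
      simp only [Fin.append_injective_iff] at h ⊢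
      obtain ⟨⟨a1, a2, a3⟩, a4, a5⟩ := h
      rw [forall_append (Q := fun x => ∀ j, x ≠ γ' j)] at a5 ⊢
      exact ⟨⟨a1.comp (Equiv.swap i j).injective, a2, fun k l => a3 _ l⟩, a4,
        fun k l => a5.1 _ l, a5.2⟩
    rw [dv_KK r H _ _ _ h, dv_KK r H _ _ _ h', et_ext, et_ext]
  · intro β γ γ' h
    have h1 : Function.Injective (Fin.append β γ) := (Fin.append_injective_iff.1 h).1
    have h2 : Function.Injective (Fin.append β γ') := by
      simp only [Fin.append_injective_iff] at h ⊢
      obtain ⟨⟨a1, a2, a3⟩, a4, a5⟩ := h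
      rw [forall_append (Q := fun x => ∀ j, x ≠ γ' j)] at a5
      exact ⟨a1, a4, a5.1⟩
    rw [sv_KK r H _ _ h1, sv_KK r H _ _ h2, dv_KK r H _ _ _ h]
    change red2 _ = _
    rw [map_sub]
    have : ∀ x y z : ZMod 2, x - y = y + z + (x + z) := by decide
    exact this _ _ _
  · intro β γ i j hij h
    have h' : Function.Injective (Fin.append (β ∘ Equiv.swap i j) γ) := by
      simp only [Fin.append_injective_iff] at h ⊢
      obtain ⟨a1, a2, a3⟩ := h
      exact ⟨a1.comp (Equiv.swap i j).injective, a2, fun k l => a3 _ l⟩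
    have hβ : Function.Injective (r ∘ β) := hr.comp (Fin.append_injective_iff.1 h).1
    rw [sv_KK r H _ _ h, sv_KK r H _ _ h', et_ext, ← Function.comp_assoc, par_swap hβ i j hij]
    ring

/-! ### change of the order -/

/-- lift from `ZMod 2` to `ZMod 4` -/
def lft (x : ZMod 2) : ZMod 4 := if x = 0 then 0 else 1

lemma red2_lft (x : ZMod 2) : red2 (lft x) = x := by
  unfold red2 lft
  revert x
  decide

/-- the increasing enumeration of a set -/
noncomputable def enum (m : ℕ) (E : Finset ℕ) : Fin m → ℕ :=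
  if h : E.card = m then E.orderEmbOfFin h else fun _ => 0

lemma enum_strictMono {m : ℕ} {E : Finset ℕ} (h : E.card = m) : StrictMono (enum m E) := by
  unfold enum
  rw [dif_pos h]
  exact (E.orderEmbOfFin h).strictMono

lemma enum_surj {m : ℕ} {E : Finset ℕ} (h : E.card = m) {x : ℕ} (hx : x ∈ E) :
    ∃ i, enum m E i = x := by
  unfold enum
  rw [dif_pos h]
  have : x ∈ Set.range (E.orderEmbOfFin h) := by
    rw [Finset.range_orderEmbOfFin]
    exact hx
  exact this

lemma exists_perm {m : ℕ} (a b : Fin m → ℕ) (ha : Function.Injective a)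
    (h : ∀ i, ∃ j, b j = a i) : ∃ τ : Equiv.Perm (Fin m), a = b ∘ τ := by
  choose f hf using h
  have hfi : Function.Injective f := by
    intro i j hij
    apply ha
    rw [← hf i, ← hf j, hij]
  refine ⟨Equiv.ofBijective f (Finite.injective_iff_bijective.1 hfi), ?_⟩
  funext i
  exact (hf i).symm

lemma exists_enum {m : ℕ} (a : Fin m → ℕ) (ha : Function.Injective a) :
    (Finset.univ.image a).card = m ∧
      ∃ τ : Equiv.Perm (Fin m), a = enum m (Finset.univ.image a) ∘ τ := by
  have hc : (Finset.univ.image a).card = m := by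
    rw [Finset.card_image_of_injective _ ha]
    simp
  exact ⟨hc, exists_perm _ _ ha fun i =>
    enum_surj hc (Finset.mem_image_of_mem _ (Finset.mem_univ i))⟩

/-- the correction depending on the set of the first `n` entries -/
noncomputable def dl (n : ℕ) (r : ℕ → ℝ) (B : Finset ℕ) : ZMod 2 := par (r ∘ enum n B)

/-- the transformation of the labels on the set `E` -/
noncomputable def tr (r : ℕ → ℝ) (E : Finset ℕ) (g : GG n c) : GG n c := fun P =>
  g (P.map (rkP (r ∘ enum (n + c) E)).toEmbedding) + lft (dl n r (P.image (enum (n + c) E)))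

/-- the reference order -/
def rn : ℕ → ℝ := fun v => v

lemma rn_strictMono : StrictMono rn := fun _ _ h => Nat.cast_lt.2 h

lemma par_change (r : ℕ → ℝ) (hr : Function.Injective r) (β : Fin n → ℕ)
    (hβ : Function.Injective β) :
    par (r ∘ β) = par (rn ∘ β) + dl n r (Finset.univ.image β) := by
  obtain ⟨hc, τ, hτ⟩ := exists_enum β hβ
  have hm := enum_strictMono hc
  unfold dl
  generalize enum n (Finset.univ.image β) = b at *
  subst hτ
  rw [← Function.comp_assoc, ← Function.comp_assoc, par_comp (hr.comp hm.injective),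
    par_comp (rn_strictMono.comp hm).injective, par_strictMono (rn_strictMono.comp hm)]
  ring

lemma et_change (r : ℕ → ℝ) (hr : Function.Injective r) (H H' : Finset ℕ → GG n c)
    (hH : ∀ E : Finset ℕ, E.card = n + c → H' E = tr r E (H E)) (a : Fin (n + c) → ℕ)
    (ha : Function.Injective a) :
    et rn H' a = et r H a + lft (dl n r (Finset.univ.image (a ∘ Fin.castAdd c))) := by
  obtain ⟨hc, τ, hτ⟩ := exists_enum a ha
  have hm := enum_strictMono hc
  unfold et
  rw [hH _ hc]
  unfold tr
  generalize hE : Finset.univ.image a = E at *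
  generalize enum (n + c) E = b at *
  have hrb : Function.Injective (r ∘ b) := hr.comp hm.injective
  have hlab : lab (rn ∘ a) = Finset.univ.image fun i : Fin n => τ (Fin.castAdd c i) := by
    unfold lab
    congr 1
    funext i
    rw [hτ, ← Function.comp_assoc, rk_comp, rk_strictMono (rn_strictMono.comp hm)]
  congr 1
  · congr 1
    rw [hlab, Finset.map_eq_image, Finset.image_image]
    unfold lab
    congr 1
    funext i
    simp only [Function.comp, Equiv.coe_toEmbedding]
    change rkP (r ∘ b) (τ (Fin.castAdd c i)) = _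
    rw [rkP_apply hrb]
    have h2 : r ∘ a = (r ∘ b) ∘ τ := by
      rw [hτ]
      rfl
    rw [h2, rk_comp]
  · congr 2
    rw [hlab, Finset.image_image]
    congr 1
    rw [hτ]
    rfl

theorem KK_change (r : ℕ → ℝ) (hr : Function.Injective r) (H H' : Finset ℕ → GG n c)
    (hH : ∀ E : Finset ℕ, E.card = n + c → H' E = tr r E (H E)) : KK r H = KK rn H' := by
  have key : ∀ (k : ℕ) (s : Rel n c k) (a : Fin k → ℕ), KKaux r H k s a = KKaux rn H' k s a := by
    intro k s a
    cases s with
    | S =>
      unfold KKaux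
      apply propext
      refine and_congr_right fun ha => ?_
      rw [et_change r hr H H' hH a ha, map_add, red2_lft]
      have hb : Function.Injective (a ∘ Fin.castAdd c) :=
        ha.comp (Fin.castAdd_injective n c)
      rw [par_change r hr _ hb]
      have : ∀ x y z : ZMod 2, x + (y + z) = x + z + y := by decide
      rw [this]
    | D =>
      unfold KKaux
      apply propext
      refine and_congr_right fun ha => ?_
      have h1 : Function.Injective (a ∘ e1 n c) := ha.comp (Fin.castAdd_injective _ _)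
      have h2 : Function.Injective (a ∘ e2 n c) := by
        apply ha.comp
        unfold e2
        rw [Fin.append_injective_iff]
        refine ⟨fun i j h => ?_, Fin.natAdd_injective _ _, fun i j h => ?_⟩
        · exact Fin.castAdd_injective _ _ (Fin.castAdd_injective _ _ h)
        · have := congrArg Fin.val h
          simp at this
          omega
      rw [et_change r hr H H' hH _ h1, et_change r hr H H' hH _ h2]
      have e : (a ∘ e2 n c) ∘ Fin.castAdd c = (a ∘ e1 n c) ∘ Fin.castAdd c := by
        funext i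
        simp [e1, e2]
      rw [e]
      have : ∀ x y z : ZMod 4, x - y = x + z - (y + z) := by decide
      rw [← this]
  funext p a
  exact key _ _ _

/-! ### the Euclidean structure -/

/-- the coordinate space -/
abbrev XX (n c : ℕ) : Type := ℝ × GG n c

/-- the real parts of the vertex coordinates -/
def rof {V : Type} (x : Idx V → XX n c) (v : V) : ℝ := (x ⟨{v}, Finset.singleton_nonempty v⟩).1

open Classical in
/-- the label parts -/
noncomputable def Hof {V : Type} (x : Idx V → XX n c) (E : Finset V) : GG n c :=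
  if h : E.Nonempty then (x ⟨E, h⟩).2 else 0

/-- the peons -/
def pn : (k : ℕ) → Rel n c k → Set (Idx (Fin k) → XX n c)
  | _, .S => {x | red2 (et (rof x) (Hof x) id) + par (rof x ∘ Fin.castAdd c) = 1}
  | _, .D => {x | dd (et (rof x) (Hof x) (e2 n c) - et (rof x) (Hof x) (e1 n c))}

lemma rof_nat {V W : Type} (α : V ↪ W) (θ : Idx W → XX n c) :
    rof (fun A => θ (Idx.map α A)) = rof θ ∘ α := by
  funext v
  unfold rof
  simp only [Function.comp, Idx.map, Finset.map_singleton]

lemma Hof_nat {V W : Type} [DecidableEq W] (α : V ↪ W) (θ : Idx W → XX n c) :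
    Hof (fun A => θ (Idx.map α A)) = fun E => Hof θ (E.image α) := by
  classical
  funext E
  unfold Hof
  by_cases h : E.Nonempty
  · rw [dif_pos h, dif_pos (h.image _)]
    simp only [Idx.map, Finset.map_eq_image]
  · rw [dif_neg h, dif_neg (by simpa using h)]

instance : MeasurableSpace (Finset (Fin (n + c))) := ⊤

/-- functions of the comparisons are measurable -/
lemma measurable_of_cmp {m : ℕ} {Z : Type} [MeasurableSpace Z] [Nonempty Z]
    (f : (Fin m → ℝ) → Z)
    (h : ∀ u v : Fin m → ℝ, (∀ i j, u i < u j ↔ v i < v j) → f u = f v) : Measurable f := by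
  classical
  let cmp : (Fin m → ℝ) → (Fin m → Fin m → Prop) := fun u i j => u i < u j
  have hc : Measurable cmp := by
    refine measurable_pi_lambda _ fun i => measurable_pi_lambda _ fun j => ?_
    exact measurableSet_setOfPred.1 (measurableSet_lt (measurable_pi_apply i) (measurable_pi_apply j))
  have hf : Function.FactorsThrough f cmp := by
    intro u v huv
    apply h
    intro i j
    exact iff_of_eq (congrFun (congrFun huv i) j)
  have e : f = Function.extend cmp f (fun _ => Classical.arbitrary Z) ∘ cmp := by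
    funext u
    exact (hf.extend_apply _ u).symm
  rw [e]
  exact (Measurable.of_discrete).comp hc

lemma rk_congr {m : ℕ} {u v : Fin m → ℝ} (h : ∀ i j, u i < u j ↔ v i < v j) : rk u = rk v := by
  funext i
  apply Fin.ext
  simp only [rk, h]

lemma measurable_lab : Measurable (lab : (Fin (n + c) → ℝ) → Finset (Fin (n + c))) :=
  measurable_of_cmp _ fun u v h => by
    unfold lab
    rw [rk_congr h]

lemma measurable_par {m : ℕ} : Measurable (par : (Fin m → ℝ) → ZMod 2) :=
  measurable_of_cmp _ fun u v h => by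
    unfold par rkP
    simp only [rk_congr h]

lemma measurable_rof {V : Type} : Measurable (rof : (Idx V → XX n c) → V → ℝ) :=
  measurable_pi_lambda _ fun _ => (measurable_pi_apply _).fst

lemma measurable_Hof {V : Type} (E : Finset V) :
    Measurable (fun x : Idx V → XX n c => Hof x E) := by
  classical
  unfold Hof
  by_cases h : E.Nonempty
  · simp only [h, dif_pos]
    exact (measurable_pi_apply _).snd
  · simp only [h, dif_neg, not_false_eq_true]
    exact measurable_const

lemma measurable_et {V : Type} [DecidableEq V] (e : Fin (n + c) → V) :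
    Measurable (fun x : Idx V → XX n c => et (rof x) (Hof x) e) := by
  have h1 : Measurable (fun x : Idx V → XX n c =>
      ((Hof x (Finset.univ.image e), lab (rof x ∘ e)) : GG n c × Finset (Fin (n + c)))) := by
    refine (measurable_Hof _).prodMk (measurable_lab.comp ?_)
    exact measurable_pi_lambda _ fun i => (measurable_pi_apply (e i)).comp measurable_rof
  have h2 : Measurable (fun p : GG n c × Finset (Fin (n + c)) => p.1 p.2) := Measurable.of_discrete
  exact h2.comp h1

/-- The Euclidean structure. -/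
noncomputable def NN (n c : ℕ) : EucStr (lang n c) (XX n c) where
  peon p := pn p.1 p.2
  meas := by
    rintro ⟨k, s⟩
    have key : ∀ (k : ℕ) (s : Rel n c k), MeasurableSet (pn k s) := by
      intro k s
      cases s with
      | S =>
        have h1 : Measurable (fun x : Idx (Fin (n + c)) → XX n c =>
            ((et (rof x) (Hof x) id, par (rof x ∘ Fin.castAdd c)) : ZMod 4 × ZMod 2)) := by
          refine (measurable_et _).prodMk (measurable_par.comp ?_)
          exact measurable_pi_lambda _ fun i => (measurable_pi_apply _).comp measurable_rof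
        exact h1 (MeasurableSet.of_discrete (s := {p : ZMod 4 × ZMod 2 | red2 p.1 + p.2 = 1}))
      | D =>
        have h1 : Measurable (fun x : Idx (Fin (n + c + c)) → XX n c =>
            ((et (rof x) (Hof x) (e2 n c), et (rof x) (Hof x) (e1 n c)) : ZMod 4 × ZMod 4)) :=
          (measurable_et _).prodMk (measurable_et _)
        exact h1 (MeasurableSet.of_discrete (s := {p : ZMod 4 × ZMod 4 | dd (p.1 - p.2)}))
    exact key k s

lemma arr_NN (θ : Idx ℕ → XX n c) : (NN n c).arr θ = KK (rof θ) (Hof θ) := by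
  have key : ∀ (k : ℕ) (s : Rel n c k) (a : Fin k → ℕ),
      (∃ h : Function.Injective a, (fun A : Idx (Fin k) => θ (Idx.map ⟨a, h⟩ A)) ∈ pn k s) ↔
        KKaux (rof θ) (Hof θ) k s a := by
    intro k s a
    cases s with
    | S =>
      have e : ∀ h : Function.Injective a, (fun A => θ (Idx.map ⟨a, h⟩ A)) ∈ pn (n + c) Rel.S ↔
          red2 (et (rof θ) (Hof θ) a) + par (rof θ ∘ a ∘ Fin.castAdd c) = 1 := by
        intro h
        change red2 (et (rof (fun A => θ (Idx.map ⟨a, h⟩ A)))
          (Hof (fun A => θ (Idx.map ⟨a, h⟩ A))) id) +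
            par (rof (fun A => θ (Idx.map ⟨a, h⟩ A)) ∘ Fin.castAdd c) = 1 ↔ _
        rw [rof_nat, Hof_nat]
        have := et_nat (rof θ) (Hof θ) a (id : Fin (n + c) → Fin (n + c))
        simp only [Function.Embedding.coeFn_mk]
        rw [this]
        rfl
      change _ ↔ (Function.Injective a ∧
        red2 (et (rof θ) (Hof θ) a) + par (rof θ ∘ a ∘ Fin.castAdd c) = 1)
      rw [← exists_prop]
      exact exists_congr e
    | D =>
      have e : ∀ h : Function.Injective a, (fun A => θ (Idx.map ⟨a, h⟩ A)) ∈ pn (n + c + c) Rel.D ↔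
          dd (et (rof θ) (Hof θ) (a ∘ e2 n c) - et (rof θ) (Hof θ) (a ∘ e1 n c)) := by
        intro h
        change dd (et (rof (fun A => θ (Idx.map ⟨a, h⟩ A)))
          (Hof (fun A => θ (Idx.map ⟨a, h⟩ A))) (e2 n c) -
            et (rof (fun A => θ (Idx.map ⟨a, h⟩ A)))
          (Hof (fun A => θ (Idx.map ⟨a, h⟩ A))) (e1 n c)) ↔ _
        rw [rof_nat, Hof_nat]
        have h1 := et_nat (rof θ) (Hof θ) a (e1 n c)
        have h2 := et_nat (rof θ) (Hof θ) a (e2 n c)
        simp only [Function.Embedding.coeFn_mk]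
        rw [h1, h2]
      change _ ↔ (Function.Injective a ∧
          dd (et (rof θ) (Hof θ) (a ∘ e2 n c) - et (rof θ) (Hof θ) (a ∘ e1 n c)))
      rw [← exists_prop]
      exact exists_congr e
  funext p a
  exact propext (key _ _ _)

/-! ### the measure -/

/-- uniform distribution on the labels -/
noncomputable def unif (n c : ℕ) : Measure (GG n c) :=
  (PMF.uniformOfFintype (GG n c)).toMeasure

instance : IsProbabilityMeasure (unif n c) := by
  unfold unif
  infer_instance

lemma unif_map (f : GG n c → GG n c) (hf : Function.Injective f) :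
    (unif n c).map f = unif n c := by
  have hb : Function.Bijective f := Finite.injective_iff_bijective.1 hf
  apply Measure.ext_iff_singleton.2
  intro a
  rw [Measure.map_apply Measurable.of_discrete (measurableSet_singleton a)]
  obtain ⟨b, rfl⟩ := hb.2 a
  have : f ⁻¹' {f b} = {b} := by
    ext x
    simp [hf.eq_iff]
  rw [this]
  unfold unif
  rw [PMF.toMeasure_apply_singleton _ _ (measurableSet_singleton _),
    PMF.toMeasure_apply_singleton _ _ (measurableSet_singleton _)]
  simp

lemma tr_injective (r : ℕ → ℝ) (E : Finset ℕ) :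
    Function.Injective (tr r E : GG n c → GG n c) := by
  intro g g' h
  funext P
  have := congrFun h (P.map (rkP (r ∘ enum (n + c) E)).symm.toEmbedding)
  unfold tr at this
  have e : (P.map (rkP (r ∘ enum (n + c) E)).symm.toEmbedding).map
      (rkP (r ∘ enum (n + c) E)).toEmbedding = P := by
    rw [Finset.map_map]
    ext x
    simp
  rw [e] at this
  exact add_right_cancel this

/-- an atomless law on the reals -/
noncomputable def nu : Measure ℝ := volume.restrict (Set.Icc 0 1)

instance : IsProbabilityMeasure nu := ⟨by simp [nu]⟩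

instance : NullSingletonClass nu := by
  unfold nu
  infer_instance

/-- the law of one coordinate -/
noncomputable def mu (n c : ℕ) : Measure (XX n c) := nu.prod (unif n c)

instance : IsProbabilityMeasure (mu n c) := by
  unfold mu
  infer_instance

lemma nu_diag : (nu.prod nu) {p : ℝ × ℝ | p.1 = p.2} = 0 := by
  rw [Measure.measure_prod_null (measurableSet_eq_fun measurable_fst measurable_snd)]
  refine Filter.Eventually.of_forall fun x => ?_
  have : Prod.mk x ⁻¹' {p : ℝ × ℝ | p.1 = p.2} = {x} := by
    ext y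
    simp [eq_comm]
  change nu (Prod.mk x ⁻¹' {p : ℝ × ℝ | p.1 = p.2}) = 0
  rw [this]
  simp

lemma ae_ne {ι : Type} (i j : ι) (hij : i ≠ j) :
    ∀ᵐ x ∂(Measure.infinitePi (fun _ : ι => mu n c)), (x i).1 ≠ (x j).1 := by
  have hm : ∀ i : ι, Measurable (fun x : ι → XX n c => (x i).1) := fun i =>
    (measurable_pi_apply i).fst
  have h1 : IndepFun (fun x : ι → XX n c => (x i).1) (fun x => (x j).1)
      (Measure.infinitePi (fun _ : ι => mu n c)) := by
    have := iIndepFun_infinitePi (P := fun _ : ι => mu n c) (X := fun (_ : ι) (y : XX n c) => y.1)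
      (fun _ => measurable_fst)
    exact this.indepFun hij
  have h2 := (indepFun_iff_map_prod_eq_prod_map_map (hm i).aemeasurable (hm j).aemeasurable).1 h1
  have h3 : ∀ i : ι, (Measure.infinitePi (fun _ : ι => mu n c)).map (fun x => (x i).1) = nu := by
    intro i
    have : (fun x : ι → XX n c => (x i).1) = Prod.fst ∘ fun x => x i := rfl
    rw [this, ← Measure.map_map measurable_fst (measurable_pi_apply i),
      Measure.infinitePi_map_eval]
    unfold mu
    rw [Measure.map_fst_prod]
    simp
  rw [h3, h3] at h2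
  have h4 : ∀ᵐ p ∂(nu.prod nu), p.1 ≠ p.2 := by
    rw [ae_iff]
    simpa using nu_diag
  rw [← h2] at h4
  exact ae_of_ae_map ((hm i).prodMk (hm j)).aemeasurable h4

/-! ### splitting the coordinates by level -/

section split

variable {X : Type} [MeasurableSpace X]

/-- the indices of level at most `ℓ` -/
abbrev Lo (ℓ : ℕ) : Type := {A : Idx ℕ // (lev A : ℕ) ≤ ℓ}
/-- the indices of level more than `ℓ` -/
abbrev Hi (ℓ : ℕ) : Type := {A : Idx ℕ // ¬ (lev A : ℕ) ≤ ℓ}

/-- glueing the coordinates -/
def glue (ℓ : ℕ) (x : Lo ℓ → X) (y : Hi ℓ → X) : Idx ℕ → X := fun A =>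
  if h : (lev A : ℕ) ≤ ℓ then x ⟨A, h⟩ else y ⟨A, h⟩

lemma measurable_glue (ℓ : ℕ) :
    Measurable (fun p : (Lo ℓ → X) × (Hi ℓ → X) => glue ℓ p.1 p.2) := by
  refine measurable_pi_lambda _ fun A => ?_
  unfold glue
  by_cases h : (lev A : ℕ) ≤ ℓ
  · simp only [h, dif_pos]
    exact (measurable_pi_apply _).comp measurable_fst
  · simp only [h, dif_neg, not_false_eq_true]
    exact (measurable_pi_apply _).comp measurable_snd

lemma iid_split (μ : Measure X) [IsProbabilityMeasure μ] (ℓ : ℕ) :
    ((Measure.infinitePi (fun _ : Lo ℓ => μ)).prod (Measure.infinitePi (fun _ : Hi ℓ => μ))).map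
      (fun p => glue ℓ p.1 p.2) = iid μ := by
  classical
  refine Measure.eq_infinitePi _ fun s t ht => ?_
  rw [Measure.map_apply (measurable_glue ℓ)
    (MeasurableSet.pi s.countable_toSet fun i _ => ht i)]
  have e : (fun p : (Lo ℓ → X) × (Hi ℓ → X) => glue ℓ p.1 p.2) ⁻¹' (Set.pi (s : Set (Idx ℕ)) t) =
      (Set.pi ((s.subtype fun A => (lev A : ℕ) ≤ ℓ : Finset (Lo ℓ)) : Set (Lo ℓ))
        (fun i => t i.1)) ×ˢ
      (Set.pi ((s.subtype fun A => ¬ (lev A : ℕ) ≤ ℓ : Finset (Hi ℓ)) : Set (Hi ℓ))
        (fun i => t i.1)) := by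
    ext ⟨x, y⟩
    simp only [Set.mem_preimage, Set.mem_pi, Set.mem_prod, Finset.mem_coe, Finset.mem_subtype]
    constructor
    · intro h
      refine ⟨fun i hi => ?_, fun i hi => ?_⟩
      · have := h i.1 hi
        unfold glue at this
        rwa [dif_pos i.2] at this
      · have := h i.1 hi
        unfold glue at this
        rwa [dif_neg i.2] at this
    · rintro ⟨h1, h2⟩ A hA
      unfold glue
      by_cases h : (lev A : ℕ) ≤ ℓ
      · rw [dif_pos h]
        exact h1 ⟨A, h⟩ hA
      · rw [dif_neg h]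
        exact h2 ⟨A, h⟩ hA
  rw [e, Measure.prod_prod, Measure.infinitePi_pi _ (fun i _ => ht _),
    Measure.infinitePi_pi _ (fun i _ => ht _)]
  rw [← Finset.prod_filter_mul_prod_filter_not s (fun A => (lev A : ℕ) ≤ ℓ)]
  congr 1
  · rw [← Finset.subtype_map (s := s) (p := fun A => (lev A : ℕ) ≤ ℓ), Finset.prod_map]
    rfl
  · rw [← Finset.subtype_map (s := s) (p := fun A => ¬ (lev A : ℕ) ≤ ℓ), Finset.prod_map]
    rfl

/-- Independence from a fixed conditional law. -/
lemma indep_of_fiber {Z : Type} [MeasurableSpace Z] (μ : Measure X) [IsProbabilityMeasure μ]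
    (ℓ : ℕ) (F : (Idx ℕ → X) → Z) (hF : Measurable F) (x₀ : Lo ℓ → X)
    (h : ∀ᵐ x ∂(Measure.infinitePi (fun _ : Lo ℓ => μ)), ∃ T : (Hi ℓ → X) → (Hi ℓ → X),
      MeasurePreserving T (Measure.infinitePi (fun _ : Hi ℓ => μ))
        (Measure.infinitePi (fun _ : Hi ℓ => μ)) ∧ ∀ y, F (glue ℓ x y) = F (glue ℓ x₀ (T y))) :
    IndepFun F (fun θ (A : {A : Idx ℕ // (lev A : ℕ) ≤ ℓ}) => θ A) (iid μ) := by
  rw [indepFun_iff_measure_inter_preimage_eq_mul]
  set P := Measure.infinitePi (fun _ : Lo ℓ => μ) with hP
  set Q := Measure.infinitePi (fun _ : Hi ℓ => μ) with hQ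
  have key : ∀ (s : Set Z) (t : Set (Lo ℓ → X)), MeasurableSet s → MeasurableSet t →
      iid μ (F ⁻¹' s ∩ (fun θ (A : {A : Idx ℕ // (lev A : ℕ) ≤ ℓ}) => θ A) ⁻¹' t) =
        Q {y | F (glue ℓ x₀ y) ∈ s} * P t := by
    intro s t hs ht
    have hres : Measurable (fun (θ : Idx ℕ → X) (A : {A : Idx ℕ // (lev A : ℕ) ≤ ℓ}) => θ A) :=
      measurable_pi_lambda _ fun _ => measurable_pi_apply _
    have hst : MeasurableSet
        (F ⁻¹' s ∩ (fun (θ : Idx ℕ → X) (A : {A : Idx ℕ // (lev A : ℕ) ≤ ℓ}) => θ A) ⁻¹' t) :=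
      (hF hs).inter (hres ht)
    rw [← iid_split μ ℓ, Measure.map_apply (measurable_glue ℓ) hst,
      Measure.prod_apply (measurable_glue ℓ hst)]
    have hx0 : Measurable (fun y : Hi ℓ → X => F (glue ℓ x₀ y)) :=
      hF.comp ((measurable_glue ℓ).comp (measurable_const.prodMk measurable_id))
    have e : ∀ᵐ x ∂P, Q (Prod.mk x ⁻¹' ((fun p : (Lo ℓ → X) × (Hi ℓ → X) => glue ℓ p.1 p.2) ⁻¹'
        (F ⁻¹' s ∩ (fun (θ : Idx ℕ → X) (A : {A : Idx ℕ // (lev A : ℕ) ≤ ℓ}) => θ A) ⁻¹' t))) =
        t.indicator (fun _ => Q {y | F (glue ℓ x₀ y) ∈ s}) x := by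
      filter_upwards [h] with x hx
      obtain ⟨T, hT, hFT⟩ := hx
      have hres' : ∀ y, (fun (A : {A : Idx ℕ // (lev A : ℕ) ≤ ℓ}) => glue ℓ x y A) = x := by
        intro y
        funext A
        unfold glue
        rw [dif_pos A.2]
      by_cases hxt : x ∈ t
      · rw [Set.indicator_of_mem hxt]
        have : Prod.mk x ⁻¹' ((fun p : (Lo ℓ → X) × (Hi ℓ → X) => glue ℓ p.1 p.2) ⁻¹'
          (F ⁻¹' s ∩ (fun (θ : Idx ℕ → X) (A : {A : Idx ℕ // (lev A : ℕ) ≤ ℓ}) => θ A) ⁻¹' t)) =
            T ⁻¹' {y | F (glue ℓ x₀ y) ∈ s} := by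
          ext y
          simp only [Set.mem_preimage, Set.mem_inter_iff, hres', hxt, and_true, hFT,
            Set.mem_ofPred_eq]
        rw [this]
        exact hT.measure_preimage (hx0 hs).nullMeasurableSet
      · rw [Set.indicator_of_notMem hxt]
        have : Prod.mk x ⁻¹' ((fun p : (Lo ℓ → X) × (Hi ℓ → X) => glue ℓ p.1 p.2) ⁻¹'
          (F ⁻¹' s ∩ (fun (θ : Idx ℕ → X) (A : {A : Idx ℕ // (lev A : ℕ) ≤ ℓ}) => θ A) ⁻¹' t)) =
            ∅ := by
          ext y
          simp only [Set.mem_preimage, Set.mem_inter_iff, hres', hxt, and_false,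
            Set.mem_empty_iff_false]
        rw [this]
        simp
    rw [lintegral_congr_ae e, lintegral_indicator_const ht]
  intro s t hs ht
  have h1 := key s t hs ht
  have h2 := key s Set.univ hs MeasurableSet.univ
  have h3 := key Set.univ t MeasurableSet.univ ht
  simp only [Set.preimage_univ, Set.inter_univ, Set.univ_inter, measure_univ, mul_one,
    Set.mem_univ, Set.ofPred_true, one_mul] at h2 h3
  rw [h1, h2]
  congr 1
  simpa using h3.symm

end split

/-! ### independence of the low levels -/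

/-- the reference low coordinates -/
noncomputable def x0 (n c ℓ : ℕ) : Lo ℓ → XX n c := fun A => (((A.1.1.sup id : ℕ) : ℝ), 0)

theorem indep_NN (n c ℓ : ℕ) (hℓ : 1 ≤ ℓ) (h : n + c = ℓ + 1) :
    IndepFun (NN n c).arr (fun θ (A : {A : Idx ℕ // (lev A : ℕ) ≤ ℓ}) => θ A)
      (iid (mu n c)) := by
  have hsing : ∀ v : ℕ, (lev (⟨{v}, Finset.singleton_nonempty v⟩ : Idx ℕ) : ℕ) ≤ ℓ := by
    intro v
    change ({v} : Finset ℕ).card ≤ ℓ
    simpa using hℓ
  let rx : (Lo ℓ → XX n c) → ℕ → ℝ := fun x v =>
    (x ⟨⟨{v}, Finset.singleton_nonempty v⟩, hsing v⟩).1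
  have hinj : ∀ᵐ x ∂(Measure.infinitePi (fun _ : Lo ℓ => mu n c)), Function.Injective (rx x) := by
    have : ∀ᵐ x ∂(Measure.infinitePi (fun _ : Lo ℓ => mu n c)), ∀ v w : ℕ, v ≠ w →
        rx x v ≠ rx x w := by
      rw [ae_all_iff]
      intro v
      rw [ae_all_iff]
      intro w
      by_cases hvw : v = w
      · exact Filter.Eventually.of_forall fun _ h => absurd hvw h
      · have := ae_ne (n := n) (c := c) (⟨⟨{v}, Finset.singleton_nonempty v⟩, hsing v⟩ : Lo ℓ)
          ⟨⟨{w}, Finset.singleton_nonempty w⟩, hsing w⟩ (by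
            intro h
            have := congrArg (fun A : Lo ℓ => A.1.1) h
            simp only [Finset.singleton_inj] at this
            exact hvw this)
        filter_upwards [this] with x hx _
        exact hx
    filter_upwards [this] with x hx
    intro v w hvw
    by_contra hne
    exact hx v w hne hvw
  have hrof : ∀ (x : Lo ℓ → XX n c) (y : Hi ℓ → XX n c), rof (glue ℓ x y) = rx x := by
    intro x y
    funext v
    unfold rof glue
    rw [dif_pos (hsing v)]
  refine indep_of_fiber (mu n c) ℓ _ (NN n c).measurable_arr (x0 n c ℓ) ?_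
  filter_upwards [hinj] with x hx
  refine ⟨fun y A => ((y A).1, tr (rx x) A.1.1 (y A).2), ⟨?_, ?_⟩, ?_⟩
  · refine measurable_pi_lambda _ fun A => ?_
    have h1 : Measurable (fun y : Hi ℓ → XX n c => y A) := measurable_pi_apply A
    have h2 : Measurable (tr (rx x) A.1.1 : GG n c → GG n c) := Measurable.of_discrete
    exact h1.fst.prodMk (h2.comp h1.snd)
  · have hmeas : ∀ A : Hi ℓ, Measurable
        (Prod.map id (tr (rx x) A.1.1) : XX n c → XX n c) := fun A =>
      measurable_id.prodMap Measurable.of_discrete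
    have := Measure.infinitePi_map_pi (μ := fun _ : Hi ℓ => mu n c)
      (f := fun A => (Prod.map id (tr (rx x) A.1.1) : XX n c → XX n c)) hmeas
    have e : ∀ A : Hi ℓ, (mu n c).map (Prod.map id (tr (rx x) A.1.1)) = mu n c := by
      intro A
      unfold mu
      rw [← Measure.map_prod_map _ _ measurable_id Measurable.of_discrete, Measure.map_id,
        unif_map _ (tr_injective _ _)]
    simp only [e] at this
    exact this
  · intro y
    rw [arr_NN, arr_NN, hrof, hrof]
    have hx0 : rx (x0 n c ℓ) = rn := by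
      funext v
      simp [rx, x0, rn]
    rw [hx0]
    apply KK_change (rx x) hx
    intro E hE
    have hne : E.Nonempty := by
      rw [← Finset.card_pos]
      omega
    have hlev : ¬ (lev (⟨E, hne⟩ : Idx ℕ) : ℕ) ≤ ℓ := by
      change ¬ E.card ≤ ℓ
      omega
    unfold Hof glue
    rw [dif_pos hne, dif_pos hne, dif_neg hlev, dif_neg hlev]

/-! ### the identities hold almost surely -/

lemma measurable_sv (β : Fin n → ℕ) (γ : Fin c → ℕ) :
    Measurable (fun K : Str (lang n c) => sv K β γ) := by
  classical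
  have h1 : Measurable (fun K : Str (lang n c) => K (symS n c) (Fin.append β γ)) :=
    (measurable_pi_apply (Fin.append β γ)).comp (measurable_pi_apply (symS n c))
  have h2 : Measurable (fun p : Prop => (if p then (1 : ZMod 2) else 0)) := Measurable.of_discrete
  have : (fun K : Str (lang n c) => sv K β γ) =
      (fun p : Prop => (if p then (1 : ZMod 2) else 0)) ∘
        fun K => K (symS n c) (Fin.append β γ) := by
    funext K
    unfold sv hS
    simp only [Function.comp]
  rw [this]
  exact h2.comp h1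

lemma measurable_dv (β : Fin n → ℕ) (γ γ' : Fin c → ℕ) :
    Measurable (fun K : Str (lang n c) => dv K β γ γ') := by
  have h1 : ∀ a : Fin (n + c + c) → ℕ, Measurable (fun K : Str (lang n c) => K (symD n c) a) :=
    fun a => (measurable_pi_apply a).comp (measurable_pi_apply (symD n c))
  have h2 : Measurable (fun p : Prop × Prop => decode p.1 p.2) := Measurable.of_discrete
  exact h2.comp ((h1 _).prodMk (h1 _))

lemma measurable_good : Measurable (fun K : Str (lang n c) => Good K) := by
  have e : (fun K : Str (lang n c) => Good K) = fun K =>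
      (∀ (β : Fin n → ℕ) (γ₁ γ₂ γ₃ : Fin c → ℕ),
        Function.Injective (Fin.append (Fin.append (Fin.append β γ₁) γ₂) γ₃) →
        dv K β γ₁ γ₂ + dv K β γ₂ γ₃ + dv K β γ₃ γ₁ = 0) ∧
      (∀ (β : Fin n → ℕ) (γ γ' : Fin c → ℕ) (i j : Fin n), i ≠ j →
        Function.Injective (Fin.append (Fin.append β γ) γ') →
        dv K (β ∘ Equiv.swap i j) γ γ' = dv K β γ γ') ∧
      (∀ (β : Fin n → ℕ) (γ γ' : Fin c → ℕ),
        Function.Injective (Fin.append (Fin.append β γ) γ') →
        ZMod.castHom (by norm_num : 2 ∣ 4) (ZMod 2) (dv K β γ γ') = sv K β γ + sv K β γ') ∧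
      (∀ (β : Fin n → ℕ) (γ : Fin c → ℕ) (i j : Fin n), i ≠ j →
        Function.Injective (Fin.append β γ) →
        sv K (β ∘ Equiv.swap i j) γ = sv K β γ + 1) := by
    funext K
    exact propext ⟨fun h => ⟨h.i1, h.i2, h.i3, h.i4⟩, fun h => ⟨h.1, h.2.1, h.2.2.1, h.2.2.2⟩⟩
  rw [e]
  have m4 : Measurable (fun p : ZMod 4 × ZMod 4 × ZMod 4 => p.1 + p.2.1 + p.2.2 = 0) :=
    Measurable.of_discrete
  have m2 : Measurable (fun p : ZMod 4 × ZMod 4 => p.1 = p.2) := Measurable.of_discrete
  have m3 : Measurable (fun p : ZMod 4 × ZMod 2 × ZMod 2 =>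
      ZMod.castHom (by norm_num : 2 ∣ 4) (ZMod 2) p.1 = p.2.1 + p.2.2) := Measurable.of_discrete
  have m1 : Measurable (fun p : ZMod 2 × ZMod 2 => p.1 = p.2 + 1) := Measurable.of_discrete
  refine Measurable.and ?_ (Measurable.and ?_ (Measurable.and ?_ ?_))
  · refine Measurable.forall fun β => Measurable.forall fun γ₁ => Measurable.forall fun γ₂ =>
      Measurable.forall fun γ₃ => Measurable.imp measurable_const ?_
    exact m4.comp ((measurable_dv _ _ _).prodMk ((measurable_dv _ _ _).prodMk
      (measurable_dv _ _ _)))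
  · refine Measurable.forall fun β => Measurable.forall fun γ₁ => Measurable.forall fun γ₂ =>
      Measurable.forall fun i => Measurable.forall fun j => Measurable.imp measurable_const
        (Measurable.imp measurable_const ?_)
    exact m2.comp ((measurable_dv _ _ _).prodMk (measurable_dv _ _ _))
  · refine Measurable.forall fun β => Measurable.forall fun γ₁ => Measurable.forall fun γ₂ =>
      Measurable.imp measurable_const ?_
    exact m3.comp ((measurable_dv _ _ _).prodMk ((measurable_sv _ _).prodMk (measurable_sv _ _)))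
  · refine Measurable.forall fun β => Measurable.forall fun γ₁ =>
      Measurable.forall fun i => Measurable.forall fun j => Measurable.imp measurable_const
        (Measurable.imp measurable_const ?_)
    exact m1.comp ((measurable_sv _ _).prodMk (measurable_sv _ _))

theorem good_law (n c : ℕ) : ∀ᵐ K ∂((NN n c).law (mu n c)), Good K := by
  unfold EucStr.law
  rw [ae_map_iff (NN n c).measurable_arr.aemeasurable
    (measurableSet_setOfPred.2 measurable_good)]
  have : ∀ᵐ θ ∂(iid (mu n c)), ∀ v w : ℕ, v ≠ w → rof θ v ≠ rof θ w := by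
    rw [ae_all_iff]
    intro v
    rw [ae_all_iff]
    intro w
    by_cases hvw : v = w
    · exact Filter.Eventually.of_forall fun _ h => absurd hvw h
    · have := ae_ne (n := n) (c := c) (⟨{v}, Finset.singleton_nonempty v⟩ : Idx ℕ)
        ⟨{w}, Finset.singleton_nonempty w⟩ (by
          intro h
          have := congrArg (fun A : Idx ℕ => A.1) h
          simp only [Finset.singleton_inj] at this
          exact hvw this)
      filter_upwards [this] with x hx _
      exact hx
  filter_upwards [this] with θ hθ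
  rw [arr_NN]
  apply good_KK
  intro v w hvw
  by_contra hne
  exact hθ v w hne hvw

/-- The separation, given Lemma U in the form `hU`. -/
theorem separation_aux (ℓ' ℓ : ℕ) (h1 : 1 ≤ ℓ') (h2 : ℓ' < ℓ)
    (hU : ∀ {L : FirstOrder.Language.{0, 0}} [L.IsRelational] [Finite (Σ n, L.Relations n)]
      (T : L.Theory) {X : Type} [MeasurableSpace X] [StandardBorelSpace X] (μ : Measure X)
      [IsProbabilityMeasure μ] (N : EucStr L X) (ℓ : ℕ),
      IndepFun N.arr (fun θ (A : {A : Idx ℕ // (lev A : ℕ) ≤ ℓ}) => θ A) (iid μ) →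
      UCouple T (N.law μ) ℓ) :
    ∃ (L : FirstOrder.Language.{0, 0}) (_ : L.IsRelational) (_ : Finite (Σ n, L.Relations n))
      (T : L.Theory) (_ : T.IsUniversal) (φ : Measure (Str L)),
      IsLimit T φ ∧ UCouple T φ ℓ ∧ ¬ Independence T φ ℓ' := by
  refine ⟨lang (ℓ' + 1) (ℓ - ℓ'), inferInstance, inferInstance, ∅, ⟨fun _ h => absurd h (Set.notMem_empty _)⟩,
    (NN (ℓ' + 1) (ℓ - ℓ')).law (mu (ℓ' + 1) (ℓ - ℓ')), ?_, ?_, ?_⟩
  · refine ⟨XX (ℓ' + 1) (ℓ - ℓ'), inferInstance, inferInstance, mu _ _, inferInstance,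
      NN _ _, ?_, rfl⟩
    refine Filter.Eventually.of_forall fun θ => ?_
    let _ := Str.toStructure ((NN (ℓ' + 1) (ℓ - ℓ')).arr θ)
    exact FirstOrder.Language.Theory.Model.mk fun φ h => absurd h (Set.notMem_empty _)
  · exact hU ∅ (mu _ _) (NN _ _) ℓ (indep_NN _ _ ℓ (by omega) (by omega))
  · have := not_independence (n := ℓ' + 1) (c := ℓ - ℓ') (by omega) ∅ _ (good_law _ _)
    simpa using this

end Sep

end Pool.Agent.R130.Theon
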